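import Mathlib

/-!
# LHad: local Hadwiger with a constant factor (MP_7b68b9_co) -- definitions

Paper proof: /team-store/LHad_paper.md (helper72).
-/

namespace Pool.Agent.LHad

open Finset

open scoped Classical

noncomputable section

variable {V : Type}

/-- `G` has a `K_t` minor: `t` pairwise disjoint, pairwise touching connected sets. -/
def KM (G : SimpleGraph V) (t : ℕ) : Prop :=
  ∃ f : Fin t → Set V,
    (∀ i, (G.induce (f i)).Connected) ∧
    (∀ i j, i ≠ j → Disjoint (f i) (f j)) ∧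
    (∀ i j, i ≠ j → ∃ x ∈ f i, ∃ y ∈ f j, G.Adj x y)

/-- the finite set `Z` induces a connected subgraph (in particular `Z` is nonempty) -/
def CC (G : SimpleGraph V) (Z : Finset V) : Prop := (G.induce (Z : Set V)).Connected

/-- some edge of `G` joins `Z` and `X` -/
def Touch (G : SimpleGraph V) (Z X : Finset V) : Prop := ∃ z ∈ Z, ∃ x ∈ X, G.Adj z x

/-- the vertices of `C` with a `G`-neighbour in `Z` -/
def nb (G : SimpleGraph V) (Z C : Finset V) : Finset V := C.filter (fun c => ∃ z ∈ Z, G.Adj z c)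

/-- no `G`-edge inside `S` -/
def GS (G : SimpleGraph V) (S : Finset V) : Prop := ∀ u ∈ S, ∀ v ∈ S, ¬ G.Adj u v

/-- no `G`-edge and no `F`-edge inside `S` -/
def HS (G F : SimpleGraph V) (S : Finset V) : Prop := ∀ u ∈ S, ∀ v ∈ S, ¬ G.Adj u v ∧ ¬ F.Adj u v

/-- weight of a finite set -/
def wt (w : V → ℝ) (S : Finset V) : ℝ := ∑ v ∈ S, w v

/-- a block: a set with a distinguished subset -/
structure Blk (V : Type) where
  Z : Finset V
  I : Finset V

/-- good block: connected, `I ⊆ Z` stable in `G` and `F`, of at least half the weight -/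
def Good (G F : SimpleGraph V) (w : V → ℝ) (b : Blk V) : Prop :=
  b.I ⊆ b.Z ∧ CC G b.Z ∧ HS G F b.I ∧ wt w b.Z ≤ 2 * wt w b.I

/-- the block cannot be enlarged inside `b.Z ∪ C` -/
def Maxi (G F : SimpleGraph V) (w : V → ℝ) (b : Blk V) (C : Finset V) : Prop :=
  ∀ Z' I' : Finset V, b.Z ⊂ Z' → Z' ⊆ b.Z ∪ C → CC G Z' → I' ⊆ Z' → HS G F I' →
    2 * wt w I' < wt w Z'

/-- `p 0, …, p M` is an induced path of `G` inside `Q` -/
def IndPath (G : SimpleGraph V) (Q : Finset V) (M : ℕ) (p : ℕ → V) : Prop :=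
  (∀ i ≤ M, p i ∈ Q) ∧ (∀ i ≤ M, ∀ j ≤ M, p i = p j → i = j) ∧
  (∀ i ≤ M, ∀ j ≤ M, (G.Adj (p i) (p j) ↔ (i + 1 = j ∨ j + 1 = i)))

/-- every vertex has at most `Δ` neighbours in `F` -/
def DegLe (F : SimpleGraph V) [Fintype V] (Δ : ℕ) : Prop :=
  ∀ v, (univ.filter (fun u => F.Adj v u)).card ≤ Δ

/-- size of the largest `G`-stable subset of `C` -/
def alph (G : SimpleGraph V) (C : Finset V) : ℕ :=
  (C.powerset.filter (fun S => GS G S)).sup Finset.card

/-- robustly connected: connected after the removal of any `k` vertices -/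
def Rob (G : SimpleGraph V) (k : ℕ) (C : Finset V) : Prop :=
  ∀ Y ⊆ C, Y.card ≤ k → CC G (C \ Y)

/-- the touching graph of a family of sets -/
def touchGraph (G : SimpleGraph V) {D : ℕ} (X : Fin D → Finset V) : SimpleGraph (Fin D) where
  Adj i j := i ≠ j ∧ Touch G (X i) (X j)
  symm := ⟨fun i j h => ⟨h.1.symm, by
    obtain ⟨z, hz, x, hx, hzx⟩ := h.2
    exact ⟨x, hx, z, hz, hzx.symm⟩⟩⟩
  loopless := ⟨fun i h => h.1 rfl⟩

/-- A run on `C` with history `h`: blocks `b j`, carved from the sets `D j`. -/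
structure Run (G F : SimpleGraph V) (w : V → ℝ) (θ μ κ : ℕ) {k : ℕ} (h : Fin k → Blk V)
    (C : Finset V) (m : ℕ) (b : Fin m → Blk V) (D : Fin m → Finset V) : Prop where
  sub : ∀ j, (b j).Z ⊆ D j ∧ D j ⊆ C
  good : ∀ j, Good G F w (b j)
  sep : ∀ i j, i < j → Disjoint (b i).Z (D j) ∧ (D j ⊆ D i ∨ ¬ Touch G (b i).Z (D j))
  near : ∀ j,
    (univ.filter (fun i : Fin k => θ < (nb G (h i).Z (D j)).card ∧
        ¬ Touch G (h i).Z (b j).Z)).card +
    (univ.filter (fun i : Fin m => i < j ∧ θ < (nb G (b i).Z (D j)).card ∧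
        ¬ Touch G (b i).Z (b j).Z)).card ≤ μ
  confH : ∀ i : Fin k,
    (univ.filter (fun j : Fin m => ¬ (θ < (nb G (h i).Z (D j)).card) ∧
        Touch G (h i).Z (b j).Z)).card ≤ (θ + 1) * alph G C
  confB : ∀ i : Fin m,
    (univ.filter (fun j : Fin m => i < j ∧ ¬ (θ < (nb G (b i).Z (D j)).card) ∧
        Touch G (b i).Z (b j).Z)).card ≤ (θ + 1) * alph G C
  del : (C \ univ.biUnion (fun j => (b j).Z)).card ≤ κ * (2 * alph G C - 1)

/-- `x(I) q^(|I|-1)` -/
def yw (x : Finset V → ℝ) (q : ℝ) (I : Finset V) : ℝ := x I * q ^ (I.card - 1)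

/-- `D_A(R)`: total `yw`-weight of the sets inside `R` that meet `A` -/
def DA [Fintype V] (x : Finset V → ℝ) (q : ℝ) (A R : Finset V) : ℝ :=
  ∑ I ∈ (univ : Finset (Finset V)).filter (fun I => I ⊆ R ∧ (I ∩ A).Nonempty), yw x q I

/-- `B_A`: the sum of `x(I) q^(|I ∩ A|-1)` over the sets meeting `A` -/
def BA [Fintype V] (x : Finset V → ℝ) (q : ℝ) (A : Finset V) : ℝ :=
  ∑ I ∈ (univ : Finset (Finset V)).filter (fun I => (I ∩ A).Nonempty),
    x I * q ^ ((I ∩ A).card - 1)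

/-- `P(A ⊆ R)` for the mass function `ν` on subsets -/
def PA [Fintype V] (ν : Finset V → ℝ) (A : Finset V) : ℝ :=
  ∑ R ∈ (univ : Finset (Finset V)).filter (fun R => A ⊆ R), ν R

/-- fractional colouring data: `x ≥ 0`, supported on nonempty sets of size `≤ s`,
coverage exactly `1`, pair-codegree at most `δ` -/
structure Frac [Fintype V] (x : Finset V → ℝ) (s : ℕ) (δ : ℝ) : Prop where
  nonneg : ∀ S, 0 ≤ x S
  supp : ∀ S, x S ≠ 0 → S.Nonempty ∧ S.card ≤ s
  cov : ∀ v, ∑ S ∈ (univ : Finset (Finset V)).filter (fun S => v ∈ S), x S = 1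
  cod : ∀ u v, u ≠ v →
    ∑ S ∈ (univ : Finset (Finset V)).filter (fun S => u ∈ S ∧ v ∈ S), x S ≤ δ

theorem mem_nb {G : SimpleGraph V} {Z C : Finset V} {c : V} :
    c ∈ nb G Z C ↔ c ∈ C ∧ ∃ z ∈ Z, G.Adj z c := by
  simp [nb]

theorem nb_mono {G : SimpleGraph V} {Z C C' : Finset V} (h : C' ⊆ C) : nb G Z C' ⊆ nb G Z C := by
  intro c hc
  rw [mem_nb] at hc ⊢
  exact ⟨h hc.1, hc.2⟩

theorem HS.gs {G F : SimpleGraph V} {S : Finset V} (h : HS G F S) : GS G S :=
  fun u hu v hv => (h u hu v hv).1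

theorem HS.mono {G F : SimpleGraph V} {S T : Finset V} (h : HS G F S) (hT : T ⊆ S) : HS G F T :=
  fun u hu v hv => h u (hT hu) v (hT hv)

theorem GS.mono {G : SimpleGraph V} {S T : Finset V} (h : GS G S) (hT : T ⊆ S) : GS G T :=
  fun u hu v hv => h u (hT hu) v (hT hv)

theorem Maxi.mono {G F : SimpleGraph V} {w : V → ℝ} {b : Blk V} {C C' : Finset V}
    (h : Maxi G F w b C) (hC : C' ⊆ C) : Maxi G F w b C' :=
  fun Z' I' h1 h2 h3 h4 h5 =>
    h Z' I' h1 (h2.trans (Finset.union_subset_union_right hC)) h3 h4 h5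

theorem cc_nonempty {G : SimpleGraph V} {Z : Finset V} (h : CC G Z) : Z.Nonempty := by
  have h' : (G.induce (Z : Set V)).Connected := h
  obtain ⟨x⟩ := h'.nonempty
  exact ⟨x.1, x.2⟩

theorem wt_nonneg {w : V → ℝ} (hw : ∀ v, 0 ≤ w v) (S : Finset V) : 0 ≤ wt w S :=
  Finset.sum_nonneg (fun v _ => hw v)

theorem wt_mono {w : V → ℝ} (hw : ∀ v, 0 ≤ w v) {S T : Finset V} (h : S ⊆ T) :
    wt w S ≤ wt w T :=
  Finset.sum_le_sum_of_subset_of_nonneg h (fun v _ _ => hw v)

theorem wt_union_disjoint {w : V → ℝ} {S T : Finset V} (h : Disjoint S T) :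
    wt w (S ∪ T) = wt w S + wt w T :=
  Finset.sum_union h

theorem gs_singleton {G : SimpleGraph V} (v : V) : GS G {v} := by
  intro a ha b hb
  rw [Finset.mem_singleton] at ha hb
  subst ha; subst hb
  exact G.loopless.irrefl _

theorem hs_singleton {G F : SimpleGraph V} (v : V) : HS G F {v} := by
  intro a ha b hb
  exact ⟨gs_singleton v a ha b hb, gs_singleton v a ha b hb⟩

theorem hs_empty {G F : SimpleGraph V} : HS G F (∅ : Finset V) := by
  intro a ha
  simp at ha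

theorem alph_mono {G : SimpleGraph V} {C C' : Finset V} (h : C' ⊆ C) : alph G C' ≤ alph G C := by
  unfold alph
  refine Finset.sup_mono ?_
  intro S hS
  rw [Finset.mem_filter, Finset.mem_powerset] at hS ⊢
  exact ⟨hS.1.trans h, hS.2⟩

theorem card_le_alph {G : SimpleGraph V} {C S : Finset V} (h : S ⊆ C) (hS : GS G S) :
    S.card ≤ alph G C := by
  unfold alph
  exact Finset.le_sup (f := Finset.card) (by rw [Finset.mem_filter, Finset.mem_powerset]; exact ⟨h, hS⟩)

theorem alph_le {G : SimpleGraph V} {C : Finset V} {n : ℕ}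
    (h : ∀ S ⊆ C, GS G S → S.card ≤ n) : alph G C ≤ n := by
  unfold alph
  refine Finset.sup_le ?_
  intro S hS
  rw [Finset.mem_filter, Finset.mem_powerset] at hS
  exact h S hS.1 hS.2

theorem exists_alph {G : SimpleGraph V} (C : Finset V) :
    ∃ S ⊆ C, GS G S ∧ S.card = alph G C := by
  have hne : (C.powerset.filter (fun S => GS G S)).Nonempty := by
    refine ⟨∅, ?_⟩
    rw [Finset.mem_filter, Finset.mem_powerset]
    refine ⟨Finset.empty_subset _, ?_⟩
    intro a ha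
    simp at ha
  obtain ⟨S, hS, hS2⟩ := Finset.exists_mem_eq_sup _ hne Finset.card
  rw [Finset.mem_filter, Finset.mem_powerset] at hS
  exact ⟨S, hS.1, hS.2, hS2.symm⟩

theorem one_le_alph {G : SimpleGraph V} {C : Finset V} (h : C.Nonempty) : 1 ≤ alph G C := by
  obtain ⟨v, hv⟩ := h
  have := card_le_alph (G := G) (C := C) (S := {v}) (by simpa using hv) (gs_singleton v)
  simpa using this

end

end Pool.Agent.LHad
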