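import Mathlib
import Pool.Agent.Lib.LHad.Defs

/-!
# LHad.AlphSub : facts about the stability number `alph`

1. `alph_add`: stable sets `S1 ⊆ C1`, `S2 ⊆ C2` of maximal size (`exists_alph`): `S1 ∪ S2 ⊆ C` is `GS` because no edge joins `C1` and `C2`
   (use symmetry of `G.Adj`), its size is the sum (disjoint); `card_le_alph`.
2. `alph_le_deg`: let `S ⊆ U` be `GS`.  Greedy: `S` contains an `F`-stable subset `T` with `S.card ≤ T.card * (Δ + 1)`
   (induct on `S.card`: pick `v ∈ S`, delete `v` and its at most `Δ` `F`-neighbours).  `T` is `HS`, so `T.card ≤ a`.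
3. `not_rob_split`: there is `Y ⊆ C`, `Y.card ≤ κ`, `¬ CC G (C \ Y)`.  If `C \ Y = ∅` then `C = Y` has at most `κ` elements.  Otherwise `G[C \ Y]` is
   not connected: take `x`, `C1 =` the vertices of `C \ Y` reachable from `x` inside `C \ Y`, `C2` the rest.
-/

namespace Pool.Agent.LHad

open Finset

open scoped Classical

noncomputable section

variable {V : Type}

theorem alph_add (G : SimpleGraph V) (C C1 C2 : Finset V) (h1 : C1 ⊆ C) (h2 : C2 ⊆ C)
    (hd : Disjoint C1 C2) (hn : ¬ Touch G C1 C2) : alph G C1 + alph G C2 ≤ alph G C := by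
  obtain ⟨S1, hS1, hg1, hc1⟩ := exists_alph (G := G) C1
  obtain ⟨S2, hS2, hg2, hc2⟩ := exists_alph (G := G) C2
  have hdS : Disjoint S1 S2 := Finset.disjoint_of_subset_left hS1 (Finset.disjoint_of_subset_right hS2 hd)
  rw [← hc1, ← hc2, ← Finset.card_union_of_disjoint hdS]
  refine card_le_alph (Finset.union_subset (hS1.trans h1) (hS2.trans h2)) ?_
  intro u hu v hv hadj
  rw [Finset.mem_union] at hu hv
  rcases hu with hu | hu <;> rcases hv with hv | hv
  · exact hg1 u hu v hv hadj
  · exact hn ⟨u, hS1 hu, v, hS2 hv, hadj⟩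
  · exact hn ⟨v, hS1 hv, u, hS2 hu, hadj.symm⟩
  · exact hg2 u hu v hv hadj

theorem alph_le_deg [Fintype V] (G F : SimpleGraph V) (a Δ : ℕ) (hF : DegLe F Δ) (U : Finset V)
    (hA : ∀ S ⊆ U, HS G F S → S.card ≤ a) : alph G U ≤ a * (Δ + 1) := by
  have key : ∀ n : ℕ, ∀ S : Finset V, S.card = n → ∃ T ⊆ S, (∀ u ∈ T, ∀ v ∈ T, ¬ F.Adj u v) ∧
      S.card ≤ T.card * (Δ + 1) := by
    intro n
    induction n using Nat.strong_induction_on with
    | _ n ih =>
      intro S hS
      rcases S.eq_empty_or_nonempty with h | ⟨v, hv⟩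
      · exact ⟨∅, Finset.empty_subset _, by simp, by simp [h]⟩
      · set N := insert v (univ.filter (fun u => F.Adj v u)) with hN
        have hNc : N.card ≤ Δ + 1 := (Finset.card_insert_le _ _).trans (Nat.succ_le_succ (hF v))
        have hvN : v ∈ N := Finset.mem_insert_self _ _
        have hlt : (S \ N).card < n := by
          rw [← hS]
          exact Finset.card_lt_card ⟨Finset.sdiff_subset, fun h => (Finset.mem_sdiff.1 (h hv)).2 hvN⟩
        obtain ⟨T, hT, hst, hc⟩ := ih _ hlt (S \ N) rfl
        have hvT : v ∉ T := fun h => (Finset.mem_sdiff.1 (hT h)).2 hvN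
        have hno : ∀ u ∈ T, ¬ F.Adj v u := by
          intro u hu hadj
          exact (Finset.mem_sdiff.1 (hT hu)).2 (Finset.mem_insert_of_mem (by simp [hadj]))
        refine ⟨insert v T, ?_, ?_, ?_⟩
        · intro u hu
          rcases Finset.mem_insert.1 hu with h | h
          · rw [h]; exact hv
          · exact (Finset.mem_sdiff.1 (hT h)).1
        · intro u hu w hw hadj
          rcases Finset.mem_insert.1 hu with h | h <;> rcases Finset.mem_insert.1 hw with h' | h'
          · rw [h, h'] at hadj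
            exact F.loopless.irrefl _ hadj
          · rw [h] at hadj
            exact hno w h' hadj
          · rw [h'] at hadj
            exact hno u h hadj.symm
          · exact hst u h w h' hadj
        · rw [Finset.card_insert_of_notMem hvT, add_mul, one_mul]
          have h1 : S.card ≤ (S \ N).card + N.card := by
            have := Finset.card_le_card_sdiff_add_card (s := S) (t := N)
            omega
          omega
  refine alph_le fun S hS hgs => ?_
  obtain ⟨T, hT, hst, hc⟩ := key S.card S rfl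
  refine hc.trans (Nat.mul_le_mul_right _ ?_)
  exact hA T (hT.trans hS) fun u hu v hv => ⟨hgs u (hT hu) v (hT hv), hst u hu v hv⟩

theorem not_rob_split (G : SimpleGraph V) (κ : ℕ) (C : Finset V) (h : ¬ Rob G κ C) :
    C.card ≤ κ ∨ ∃ Y C1 C2 : Finset V, Y ⊆ C ∧ Y.card ≤ κ ∧ C1 ∪ C2 = C \ Y ∧ Disjoint C1 C2 ∧
      C1.Nonempty ∧ C2.Nonempty ∧ ¬ Touch G C1 C2 := by
  unfold Rob at h
  push Not at h
  obtain ⟨Y, hY, hYc, hcc⟩ := h
  rcases (C \ Y).eq_empty_or_nonempty with he | ⟨x, hx⟩
  · left
    rw [Finset.sdiff_eq_empty_iff_subset] at he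
    exact (Finset.card_le_card he).trans hYc
  · right
    set D := C \ Y with hD
    set H := G.induce (D : Set V) with hH
    set C1 : Finset V := D.filter (fun v => ∃ hv : v ∈ (D : Set V), H.Reachable ⟨x, hx⟩ ⟨v, hv⟩) with hC1
    have hsub : C1 ⊆ D := Finset.filter_subset _ _
    have hno : ¬ Touch G C1 (D \ C1) := by
      rintro ⟨z, hz, y, hy, hadj⟩
      rw [hC1, Finset.mem_filter] at hz
      obtain ⟨hzD, hzD', hzr⟩ := hz
      rw [Finset.mem_sdiff] at hy
      apply hy.2
      rw [hC1, Finset.mem_filter]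
      refine ⟨hy.1, hy.1, hzr.trans ?_⟩
      have : H.Adj ⟨z, hzD'⟩ ⟨y, hy.1⟩ := hadj
      exact this.reachable
    refine ⟨Y, C1, D \ C1, hY, hYc, Finset.union_sdiff_of_subset hsub, Finset.disjoint_sdiff, ⟨x, ?_⟩, ?_, hno⟩
    · rw [hC1, Finset.mem_filter]
      exact ⟨hx, hx, SimpleGraph.Reachable.refl _⟩
    · by_contra hne
      rw [Finset.not_nonempty_iff_eq_empty, Finset.sdiff_eq_empty_iff_subset] at hne
      apply hcc
      have hreach : ∀ v : (D : Set V), H.Reachable ⟨x, hx⟩ v := by
        intro v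
        have := hne v.2
        rw [hC1, Finset.mem_filter] at this
        obtain ⟨_, h1, h2⟩ := this
        exact h2
      have : Nonempty (D : Set V) := ⟨⟨x, hx⟩⟩
      exact SimpleGraph.Connected.mk (fun u v => (hreach u).symm.trans (hreach v))

end

end Pool.Agent.LHad
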