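import Mathlib
import Pool.Agent.Lib.LHad.Defs

/-!
# LHad.ShortPath : a shortest path between two subsets of a connected set
-/

namespace Pool.Agent.LHad

open Finset

open scoped Classical

noncomputable section

variable {V : Type}

namespace ShortPathAux

/-- a walk of length `k` in `W` from `A` to `B` -/
def Adm (G : SimpleGraph V) (W A B : Finset V) (k : ℕ) (p : ℕ → V) : Prop :=
  p 0 ∈ A ∧ p k ∈ B ∧ (∀ i ≤ k, p i ∈ W) ∧ (∀ i < k, G.Adj (p i) (p (i + 1)))

theorem exists_adm (G : SimpleGraph V) (W A B : Finset V) (hW : CC G W) (hA : A ⊆ W)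
    (hB : B ⊆ W) (hA' : A.Nonempty) (hB' : B.Nonempty) : ∃ k p, Adm G W A B k p := by
  obtain ⟨a, ha⟩ := hA'
  obtain ⟨b, hb⟩ := hB'
  have hW' : (G.induce (W : Set V)).Connected := hW
  obtain ⟨w⟩ := hW'.preconnected ⟨a, hA ha⟩ ⟨b, hB hb⟩
  refine ⟨w.length, fun i => (w.getVert i).1, ?_, ?_, ?_, ?_⟩
  · show (w.getVert 0).1 ∈ A
    rw [w.getVert_zero]
    exact ha
  · show (w.getVert w.length).1 ∈ B
    rw [w.getVert_length]
    exact hb
  · intro i _
    exact (w.getVert i).2
  · intro i hi
    have := w.adj_getVert_succ hi
    rw [SimpleGraph.comap_adj] at this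
    exact this

end ShortPathAux

open ShortPathAux in
theorem shortPath (G : SimpleGraph V) (W A B : Finset V) (hW : CC G W) (hA : A ⊆ W) (hB : B ⊆ W)
    (hA' : A.Nonempty) (hB' : B.Nonempty) :
    ∃ (k : ℕ) (p : ℕ → V), p 0 ∈ A ∧ p k ∈ B ∧ (∀ i ≤ k, p i ∈ W) ∧
      (∀ i < k, G.Adj (p i) (p (i + 1))) ∧
      (∀ i, 1 ≤ i → i ≤ k → p i ∉ A) ∧ (∀ i < k, p i ∉ B) ∧
      (∀ i, 2 ≤ i → i ≤ k → ∀ x ∈ A, ¬ G.Adj x (p i)) ∧
      (∀ i, i + 2 ≤ k → ∀ x ∈ B, ¬ G.Adj (p i) x) ∧
      (∀ i ≤ k, ∀ j ≤ k, i + 2 ≤ j → ¬ G.Adj (p i) (p j)) ∧
      (∀ i ≤ k, ∀ j ≤ k, p i = p j → i = j) := by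
  have hex := exists_adm G W A B hW hA hB hA' hB'
  have hmin : ∀ k' < Nat.find hex, ¬ ∃ p, Adm G W A B k' p := fun k' hk' => Nat.find_min hex hk'
  obtain ⟨p, h0, hk, hin, hadj⟩ := Nat.find_spec hex
  set k := Nat.find hex with hkdef
  -- gluing the beginning up to `i` to the end from `j`
  have glue : ∀ i j, i < j → j ≤ k → ∀ k', k' = i + 1 + (k - j) → k' < k →
      G.Adj (p i) (p j) → False := by
    intro i j hij hjk k' hk' hlt hA2
    apply hmin k' hlt
    refine ⟨fun m => if m ≤ i then p m else p (m - (i + 1) + j), ?_, ?_, ?_, ?_⟩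
    · simp only [Nat.zero_le, if_true]
      exact h0
    · have : ¬ k' ≤ i := by omega
      simp only [this, if_false]
      have e : k' - (i + 1) + j = k := by omega
      rw [e]
      exact hk
    · intro m hm
      by_cases h : m ≤ i
      · simp only [h, if_true]
        exact hin m (by omega)
      · simp only [h, if_false]
        exact hin _ (by omega)
    · intro m hm
      by_cases h : m + 1 ≤ i
      · have h' : m ≤ i := by omega
        simp only [h, h', if_true]
        exact hadj m (by omega)
      · by_cases h' : m ≤ i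
        · have e : m = i := by omega
          subst e
          simp only [h, h', if_true, if_false]
          have e2 : m + 1 - (m + 1) + j = j := by omega
          rw [e2]
          exact hA2
        · simp only [h, h', if_false]
          have e2 : m + 1 - (i + 1) + j = (m - (i + 1) + j) + 1 := by omega
          rw [e2]
          exact hadj _ (by omega)
  refine ⟨k, p, h0, hk, hin, hadj, ?_, ?_, ?_, ?_, ?_, ?_⟩
  · intro i hi hik hiA
    apply hmin (k - i) (by omega)
    refine ⟨fun m => p (i + m), hiA, ?_, ?_, ?_⟩
    · show p (i + (k - i)) ∈ B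
      have e : i + (k - i) = k := by omega
      rw [e]
      exact hk
    · intro m hm
      exact hin _ (by omega)
    · intro m hm
      exact hadj (i + m) (by omega)
  · intro i hi hiB
    apply hmin i hi
    exact ⟨p, h0, hiB, fun m hm => hin m (by omega), fun m hm => hadj m (by omega)⟩
  · intro i hi hik x hx hxi
    apply hmin (k - i + 1) (by omega)
    refine ⟨fun m => if m = 0 then x else p (m - 1 + i), ?_, ?_, ?_, ?_⟩
    · simp only [if_true]
      exact hx
    · have : ¬ (k - i + 1 = 0) := by omega
      simp only [this, if_false]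
      have e : k - i + 1 - 1 + i = k := by omega
      rw [e]
      exact hk
    · intro m hm
      by_cases h : m = 0
      · simp only [h, if_true]
        exact hA hx
      · simp only [h, if_false]
        exact hin _ (by omega)
    · intro m hm
      have h1 : ¬ (m + 1 = 0) := by omega
      by_cases h : m = 0
      · subst h
        simp only [h1, if_true, if_false]
        have e : 0 + 1 - 1 + i = i := by omega
        rw [e]
        exact hxi
      · simp only [h, h1, if_false]
        have e : m + 1 - 1 + i = (m - 1 + i) + 1 := by omega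
        rw [e]
        exact hadj _ (by omega)
  · intro i hi x hx hix
    apply hmin (i + 1) (by omega)
    refine ⟨fun m => if m ≤ i then p m else x, ?_, ?_, ?_, ?_⟩
    · simp only [Nat.zero_le, if_true]
      exact h0
    · have : ¬ (i + 1 ≤ i) := by omega
      simp only [this, if_false]
      exact hx
    · intro m hm
      by_cases h : m ≤ i
      · simp only [h, if_true]
        exact hin m (by omega)
      · simp only [h, if_false]
        exact hB hx
    · intro m hm
      by_cases h : m + 1 ≤ i
      · have h' : m ≤ i := by omega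
        simp only [h, h', if_true]
        exact hadj m (by omega)
      · have e : m = i := by omega
        subst e
        have h' : ¬ (m + 1 ≤ m) := by omega
        simp only [le_refl, h', if_true, if_false]
        exact hix
  · intro i hi j hj hij hA2
    exact glue i j (by omega) hj _ rfl (by omega) hA2
  · have hlt : ∀ i ≤ k, ∀ j ≤ k, i < j → p i ≠ p j := by
      intro i hi j hj hij he
      rcases Nat.eq_or_lt_of_le hj with hjk | hjk
      · -- `j = k`: stop at `i`
        apply hmin i (by omega)
        refine ⟨p, h0, ?_, fun m hm => hin m (by omega), fun m hm => hadj m (by omega)⟩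
        rw [he, hjk]
        exact hk
      · refine glue i (j + 1) (by omega) (by omega) _ rfl (by omega) ?_
        rw [he]
        exact hadj j hjk
    intro i hi j hj he
    rcases lt_trichotomy i j with h | h | h
    · exact absurd he (hlt i hi j hj h)
    · exact h
    · exact absurd he.symm (hlt j hj i hi h)

end

end Pool.Agent.LHad
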