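import Mathlib
import Pool.Agent.Lib.LHad.Defs
import Pool.Agent.Lib.LHad.ShortPath

/-!
# LHad.Leg : from a vertex of a connected subset to a non-cut vertex
-/

namespace Pool.Agent.LHad

open Finset

open scoped Classical

noncomputable section

variable {V : Type}

namespace LegAux

/-- reachability inside `S` -/
def R (G : SimpleGraph V) (S : Finset V) : V → V → Prop :=
  Relation.ReflTransGen fun a b => a ∈ S ∧ b ∈ S ∧ G.Adj a b

theorem R.symm {G : SimpleGraph V} {S : Finset V} {x y : V} (h : R G S x y) : R G S y x := by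
  induction h with
  | refl => exact Relation.ReflTransGen.refl
  | tail _ h ih => exact Relation.ReflTransGen.head ⟨h.2.1, h.1, h.2.2.symm⟩ ih

theorem R.trans {G : SimpleGraph V} {S : Finset V} {x y z : V} (h : R G S x y) (h' : R G S y z) :
    R G S x z := Relation.ReflTransGen.trans h h'

theorem R.mono {G : SimpleGraph V} {S T : Finset V} (hST : S ⊆ T) {x y : V} (h : R G S x y) :
    R G T x y := by
  induction h with
  | refl => exact Relation.ReflTransGen.refl
  | tail _ h ih => exact ih.tail ⟨hST h.1, hST h.2.1, h.2.2⟩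

theorem cc_iff {G : SimpleGraph V} {S : Finset V} :
    CC G S ↔ S.Nonempty ∧ ∀ x ∈ S, ∀ y ∈ S, R G S x y := by
  constructor
  · intro h
    refine ⟨cc_nonempty h, fun x hx y hy => ?_⟩
    have h' : (G.induce (S : Set V)).Connected := h
    obtain ⟨w⟩ := h'.preconnected ⟨x, hx⟩ ⟨y, hy⟩
    have key : ∀ (u v : (S : Set V)), (G.induce (S : Set V)).Walk u v → R G S u.1 v.1 := by
      intro u v w
      induction w with
      | nil => exact Relation.ReflTransGen.refl
      | @cons a c d hadj _ ih =>
        rw [SimpleGraph.comap_adj] at hadj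
        exact Relation.ReflTransGen.head ⟨a.2, c.2, hadj⟩ ih
    exact key _ _ w
  · rintro ⟨⟨x₀, hx₀⟩, h⟩
    show (G.induce (S : Set V)).Connected
    have key : ∀ x y, R G S x y → ∀ (hx : x ∈ S) (hy : y ∈ S),
        (G.induce (S : Set V)).Reachable ⟨x, hx⟩ ⟨y, hy⟩ := by
      intro x y hxy
      induction hxy with
      | refl => intro hx hy; exact SimpleGraph.Reachable.refl _
      | @tail c d _ hcd ih =>
        intro hx hy
        refine (ih hx hcd.1).trans (SimpleGraph.Adj.reachable ?_)
        rw [SimpleGraph.comap_adj]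
        exact hcd.2.2
    haveI : Nonempty (S : Set V) := ⟨⟨x₀, hx₀⟩⟩
    exact SimpleGraph.Connected.mk fun u v => key _ _ (h u.1 u.2 v.1 v.2) u.2 v.2

/-- the distance from `b` inside `Q` -/
def D (G : SimpleGraph V) (Q : Finset V) (b : V) (hb : b ∈ Q) (y : V) : ℕ :=
  if h : y ∈ Q then (G.induce (Q : Set V)).dist ⟨b, hb⟩ ⟨y, h⟩ else 0

theorem D_self {G : SimpleGraph V} {Q : Finset V} {b : V} (hb : b ∈ Q) : D G Q b hb b = 0 := by
  rw [D, dif_pos hb, SimpleGraph.dist_self]

theorem D_adj {G : SimpleGraph V} {Q : Finset V} (hQ : CC G Q) {b : V} (hb : b ∈ Q) {y z : V}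
    (hy : y ∈ Q) (hz : z ∈ Q) (h : G.Adj y z) : D G Q b hb z ≤ D G Q b hb y + 1 := by
  have h' : (G.induce (Q : Set V)).Connected := hQ
  rw [D, D, dif_pos hy, dif_pos hz]
  have h1 : (G.induce (Q : Set V)).Adj ⟨y, hy⟩ ⟨z, hz⟩ := by
    rw [SimpleGraph.comap_adj]
    exact h
  have h2 := SimpleGraph.dist_eq_one_iff_adj.2 h1
  have h3 := h'.dist_triangle (u := ⟨b, hb⟩) (v := ⟨y, hy⟩) (w := ⟨z, hz⟩)
  omega

theorem exists_path {G : SimpleGraph V} {Q : Finset V} (hQ : CC G Q) {b : V} (hb : b ∈ Q) {x : V}
    (hx : x ∈ Q) : ∃ p : ℕ → V, p 0 = b ∧ p (D G Q b hb x) = x ∧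
      (∀ i ≤ D G Q b hb x, p i ∈ Q) ∧ (∀ i < D G Q b hb x, G.Adj (p i) (p (i + 1))) ∧
      (∀ i ≤ D G Q b hb x, D G Q b hb (p i) = i) := by
  have h' : (G.induce (Q : Set V)).Connected := hQ
  obtain ⟨w, hw⟩ := h'.exists_walk_length_eq_dist ⟨b, hb⟩ ⟨x, hx⟩
  have hD : D G Q b hb x = w.length := by rw [D, dif_pos hx, hw]
  rw [hD]
  refine ⟨fun i => (w.getVert i).1, ?_, ?_, ?_, ?_, ?_⟩
  · show (w.getVert 0).1 = b
    rw [w.getVert_zero]
  · show (w.getVert w.length).1 = x
    rw [w.getVert_length]
  · intro i _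
    exact (w.getVert i).2
  · intro i hi
    have := w.adj_getVert_succ hi
    rw [SimpleGraph.comap_adj] at this
    exact this
  · intro i hi
    have hmem : (w.getVert i).1 ∈ Q := (w.getVert i).2
    show D G Q b hb (w.getVert i).1 = i
    rw [D, dif_pos hmem]
    show (G.induce (Q : Set V)).dist ⟨b, hb⟩ (w.getVert i) = i
    have h1 := SimpleGraph.dist_le (w.take i)
    have h2 := SimpleGraph.dist_le (w.drop i)
    rw [w.take_length] at h1
    rw [w.drop_length] at h2
    have h3 := h'.dist_triangle (u := ⟨b, hb⟩) (v := w.getVert i) (w := ⟨x, hx⟩)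
    rw [← hw] at h3
    omega

theorem R_of_path {G : SimpleGraph V} {S : Finset V} {p : ℕ → V} {n : ℕ}
    (hin : ∀ i ≤ n, p i ∈ S) (hadj : ∀ i < n, G.Adj (p i) (p (i + 1))) : R G S (p 0) (p n) := by
  have : ∀ m ≤ n, R G S (p 0) (p m) := by
    intro m
    induction m with
    | zero => intro _; exact Relation.ReflTransGen.refl
    | succ m ih =>
      intro hm
      exact (ih (by omega)).tail ⟨hin m (by omega), hin _ hm, hadj m (by omega)⟩
  exact this n le_rfl

end LegAux

open LegAux in
theorem leg (G : SimpleGraph V) (Q O : Finset V) (hQ : CC G Q) (hO : O ⊆ Q) (b : V) (hb : b ∈ O)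
    (hOb : CC G (O.erase b)) :
    ∃ K ⊆ Q.erase b, Disjoint K O ∧
      (∀ x ∈ K, ∀ y ∈ Q, y ∉ K → y ≠ b → ¬ G.Adj x y) ∧
      ∃ (M : ℕ) (p : ℕ → V), IndPath G Q M p ∧ p 0 = b ∧ (∀ i, 1 ≤ i → i ≤ M → p i ∈ K) ∧
        CC G (Q.erase (p M)) := by
  by_cases hcc : CC G (Q.erase b)
  · refine ⟨∅, Finset.empty_subset _, Finset.disjoint_empty_left _, ?_, 0, fun _ => b, ?_, rfl, ?_,
      hcc⟩
    · intro x hx
      exact absurd hx (Finset.notMem_empty _)
    · refine ⟨fun i _ => hO hb, fun i hi j hj _ => by omega, fun i hi j hj => ?_⟩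
      have hi0 : i = 0 := by omega
      have hj0 : j = 0 := by omega
      subst hi0; subst hj0
      constructor
      · intro h
        exact absurd h (G.loopless.irrefl b)
      · intro h
        omega
    · intro i h1 h2
      omega
  · have hbQ : b ∈ Q := hO hb
    set K : Finset V := (Q.erase b).filter (fun x => ∀ o ∈ O.erase b, ¬ R G (Q.erase b) x o)
      with hK
    have hKsub : K ⊆ Q.erase b := Finset.filter_subset _ _
    have hKQ : ∀ x ∈ K, x ∈ Q := fun x hx => Finset.mem_of_mem_erase (hKsub hx)
    have hKb : ∀ x ∈ K, x ≠ b := fun x hx => Finset.ne_of_mem_erase (hKsub hx)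
    have hOsub : O.erase b ⊆ Q.erase b := Finset.erase_subset_erase _ hO
    obtain ⟨o₀, ho₀⟩ := cc_nonempty hOb
    have hnadj : ∀ x ∈ K, ∀ y ∈ Q, y ∉ K → y ≠ b → ¬ G.Adj x y := by
      intro x hx y hy hyK hyb hadj
      have hyQ : y ∈ Q.erase b := Finset.mem_erase.2 ⟨hyb, hy⟩
      rw [hK, Finset.mem_filter] at hyK
      push Not at hyK
      obtain ⟨o, ho, hyo⟩ := hyK hyQ
      rw [hK, Finset.mem_filter] at hx
      exact hx.2 o ho (Relation.ReflTransGen.head ⟨hx.1, hyQ, hadj⟩ hyo)
    have hKne : K.Nonempty := by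
      by_contra hne
      rw [Finset.not_nonempty_iff_eq_empty] at hne
      apply hcc
      rw [cc_iff]
      refine ⟨⟨o₀, hOsub ho₀⟩, ?_⟩
      have h1 : ∀ x ∈ Q.erase b, R G (Q.erase b) x o₀ := by
        intro x hx
        have hxK : x ∉ K := by rw [hne]; exact Finset.notMem_empty _
        rw [hK, Finset.mem_filter] at hxK
        push Not at hxK
        obtain ⟨o, ho, hxo⟩ := hxK hx
        exact hxo.trans ((((cc_iff.1 hOb).2 o ho o₀ ho₀)).mono hOsub)
      intro x hx y hy
      exact (h1 x hx).trans (h1 y hy).symm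
    obtain ⟨x, hxK, hmax⟩ := Finset.exists_max_image K (D G Q b hbQ) hKne
    obtain ⟨p, hp0, hpx, hpin, hpadj, hpD⟩ := exists_path hQ hbQ (hKQ x hxK)
    set M := D G Q b hbQ x with hM
    have hpK : ∀ i, 1 ≤ i → i ≤ M → p i ∈ K := by
      have : ∀ k, ∀ i, 1 ≤ i → i + k = M → p i ∈ K := by
        intro k
        induction k with
        | zero =>
          intro i _ hi
          rw [add_zero] at hi
          rw [hi, hpx]
          exact hxK
        | succ k ih =>
          intro i hi1 hi
          have h1 := ih (i + 1) (by omega) (by omega)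
          by_contra h2
          refine hnadj _ h1 (p i) (hpin i (by omega)) h2 ?_ (hpadj i (by omega)).symm
          intro h3
          have h4 := hpD i (by omega)
          rw [h3, D_self] at h4
          omega
      intro i h1 h2
      exact this (M - i) i h1 (by omega)
    refine ⟨K, hKsub, ?_, hnadj, M, p, ?_, hp0, hpK, ?_⟩
    · rw [Finset.disjoint_left]
      intro y hyK hyO
      have h1 := hKb y hyK
      rw [hK, Finset.mem_filter] at hyK
      exact hyK.2 y (Finset.mem_erase.2 ⟨h1, hyO⟩) Relation.ReflTransGen.refl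
    · refine ⟨hpin, ?_, ?_⟩
      · intro i hi j hj hij
        have h1 := hpD i hi
        have h2 := hpD j hj
        rw [hij] at h1
        omega
      · intro i hi j hj
        constructor
        · intro hadj
          have h1 := D_adj hQ hbQ (hpin i hi) (hpin j hj) hadj
          have h2 := D_adj hQ hbQ (hpin j hj) (hpin i hi) hadj.symm
          rw [hpD i hi, hpD j hj] at h1 h2
          have h3 : i ≠ j := by
            rintro rfl
            exact G.loopless.irrefl _ hadj
          omega
        · rintro (h | h)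
          · rw [← h]
            exact hpadj i (by omega)
          · rw [← h]
            exact (hpadj j (by omega)).symm
    · rw [hpx, cc_iff]
      have hxb : x ≠ b := hKb x hxK
      refine ⟨⟨b, Finset.mem_erase.2 ⟨hxb.symm, hbQ⟩⟩, ?_⟩
      have h1 : ∀ y ∈ Q.erase x, R G (Q.erase x) b y := by
        intro y hy
        have hyQ : y ∈ Q := Finset.mem_of_mem_erase hy
        have hyx : y ≠ x := Finset.ne_of_mem_erase hy
        obtain ⟨q, hq0, hqy, hqin, hqadj, hqD⟩ := exists_path hQ hbQ hyQ
        have hqx : ∀ i ≤ D G Q b hbQ y, q i ≠ x := by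
          intro i hi hix
          have hiM : M = i := by
            rw [hM, ← hix]
            exact hqD i hi
          have hlt : i < D G Q b hbQ y := by
            rcases Nat.lt_or_eq_of_le hi with h | h
            · exact h
            · exfalso
              apply hyx
              rw [← hqy, ← h, hix]
          have hyK : y ∉ K := by
            intro hyK
            have := hmax y hyK
            omega
          have hup : ∀ m, i ≤ m → m ≤ D G Q b hbQ y → q m ∈ K := by
            intro m hm
            induction m, hm using Nat.le_induction with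
            | base => intro _; rw [hix]; exact hxK
            | succ m hm ih =>
              intro hm2
              have h2 := ih (by omega)
              by_contra h3
              refine hnadj _ h2 (q (m + 1)) (hqin _ hm2) h3 ?_ (hqadj m (by omega))
              intro h4
              have h5 := hqD (m + 1) hm2
              rw [h4, D_self] at h5
              omega
          apply hyK
          rw [← hqy]
          exact hup _ hi le_rfl
        have h2 := R_of_path (G := G) (S := Q.erase x) (p := q) (n := D G Q b hbQ y)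
          (fun i hi => Finset.mem_erase.2 ⟨hqx i hi, hqin i hi⟩) hqadj
        rw [hq0, hqy] at h2
        exact h2
      intro y hy z hz
      exact (h1 y hy).symm.trans (h1 z hz)

end

end Pool.Agent.LHad
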