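import Mathlib
import Pool.Agent.Lib.LHad.Defs

/-!
# LHad.OddCyc : a non-bipartite set contains an induced odd cycle

Proof. Suppose `Q` is not the union of two `GS` sets.  Then `G.induce Q` is not 2-colourable, so it has an odd closed walk
(Mathlib: `SimpleGraph.two_colorable_iff_forall_loop_even` or `bipartite_iff_all_cycles_even`, whichever is there; otherwise the
direct argument: in each component colour by the parity of the distance to a root; if this fails there are adjacent `x, y`
at the same distance, which gives an odd closed walk).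
Represent odd closed walks as pairs `(n, c)`: `c : ℕ → V`, `n` odd, `c i ∈ Q`, `G.Adj (c i) (c ((i+1) % n))` for `i < n`.
Take `n` minimal; `n ≥ 3` since `n = 1` would be a loop.  If `c i = c j` for `i < j < n`, the closed walk splits into two
closed walks of lengths `j - i` and `n - (j - i)`, one of which is odd and shorter.  If `c i, c j` are adjacent with `i < j` and not consecutive
(`j ≠ i+1`, not `i = 0 ∧ j = n-1`), the chord splits the cycle into closed walks of lengths `j - i + 1` and `n - (j - i) + 1`,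
both smaller than `n`; their sum is `n + 2`, odd, so one of them is odd.  Contradiction to minimality.
-/

namespace Pool.Agent.LHad

open Finset

open scoped Classical

noncomputable section

variable {V : Type}

namespace OddCycAux

/-- closed walks of odd length -/
def CW (G : SimpleGraph V) (Q : Finset V) (n : ℕ) (c : ℕ → V) : Prop :=
  Odd n ∧ c n = c 0 ∧ (∀ i < n, G.Adj (c i) (c (i + 1))) ∧ ∀ i ≤ n, c i ∈ Q

theorem not_colorable (G : SimpleGraph V) (Q : Finset V)
    (hQ : ¬ ∃ S ⊆ Q, GS G S ∧ GS G (Q \ S)) :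
    ¬ (G.induce (Q : Set V)).Colorable 2 := by
  rintro ⟨C⟩
  apply hQ
  refine ⟨Q.filter (fun v => ∃ h : v ∈ (Q : Set V), C ⟨v, h⟩ = 0), Finset.filter_subset _ _, ?_, ?_⟩
  · intro u hu v hv huv
    obtain ⟨-, hu1, hu2⟩ := Finset.mem_filter.1 hu
    obtain ⟨-, hv1, hv2⟩ := Finset.mem_filter.1 hv
    have h : (G.induce (Q : Set V)).Adj ⟨u, hu1⟩ ⟨v, hv1⟩ := huv
    exact C.valid h (hu2.trans hv2.symm)
  · intro u hu v hv huv
    rw [Finset.mem_sdiff, Finset.mem_filter] at hu hv
    have hu2 : C ⟨u, Finset.mem_coe.2 hu.1⟩ ≠ 0 := fun h => hu.2 ⟨hu.1, hu.1, h⟩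
    have hv2 : C ⟨v, Finset.mem_coe.2 hv.1⟩ ≠ 0 := fun h => hv.2 ⟨hv.1, hv.1, h⟩
    have h : (G.induce (Q : Set V)).Adj ⟨u, Finset.mem_coe.2 hu.1⟩
      ⟨v, Finset.mem_coe.2 hv.1⟩ := huv
    refine C.valid h ?_
    have h1 : ∀ a b : Fin 2, a ≠ 0 → b ≠ 0 → a = b := by decide
    exact h1 _ _ hu2 hv2

theorem exists_cw (G : SimpleGraph V) (Q : Finset V)
    (hQ : ¬ ∃ S ⊆ Q, GS G S ∧ GS G (Q \ S)) : ∃ n c, CW G Q n c := by
  have h := not_colorable G Q hQ
  rw [SimpleGraph.two_colorable_iff_forall_loop_even] at h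
  push Not at h
  obtain ⟨u, w, hw⟩ := h
  rw [Nat.not_even_iff_odd] at hw
  refine ⟨w.length, fun k => (w.getVert k).1, hw, ?_, ?_, ?_⟩
  · simp
  · intro i hi
    exact w.adj_getVert_succ hi
  · intro i _
    exact (w.getVert i).2

variable {G : SimpleGraph V} {Q : Finset V}

theorem split_left {n : ℕ} {c : ℕ → V} (h : CW G Q n c) {i j : ℕ} (hij : i < j) (hj : j < n)
    (he : c i = c j) (ho : Odd (j - i)) : CW G Q (j - i) (fun k => c (i + k)) := by
  obtain ⟨-, -, h3, h4⟩ := h
  refine ⟨ho, ?_, ?_, ?_⟩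
  · show c (i + (j - i)) = c (i + 0)
    rw [Nat.add_sub_cancel' hij.le, add_zero, he]
  · intro k hk
    have := h3 (i + k) (by omega)
    rwa [add_assoc] at this
  · intro k hk
    exact h4 _ (by omega)

theorem split_right {n : ℕ} {c : ℕ → V} (h : CW G Q n c) {i j : ℕ} (hij : i < j) (hj : j < n)
    (he : c i = c j) (ho : Odd (n - (j - i))) :
    CW G Q (n - (j - i)) (fun k => if k ≤ i then c k else c (k + (j - i))) := by
  obtain ⟨-, h2, h3, h4⟩ := h
  refine ⟨ho, ?_, ?_, ?_⟩
  · have h5 : ¬ (n - (j - i) ≤ i) := by omega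
    simp only [if_neg h5, if_pos (Nat.zero_le i)]
    rw [← h2]
    congr 1
    omega
  · intro k hk
    dsimp only
    by_cases h5 : k + 1 ≤ i
    · rw [if_pos h5, if_pos (by omega)]
      exact h3 k (by omega)
    · rw [if_neg h5]
      by_cases h6 : k ≤ i
      · have h7 : k = i := by omega
        subst h7
        rw [if_pos le_rfl, he]
        have h8 := h3 j hj
        have h9 : k + 1 + (j - k) = j + 1 := by omega
        rwa [h9]
      · rw [if_neg h6]
        have h8 := h3 (k + (j - i)) (by omega)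
        have h9 : k + 1 + (j - i) = k + (j - i) + 1 := by omega
        rwa [h9]
  · intro k hk
    dsimp only
    split_ifs
    · exact h4 _ (by omega)
    · exact h4 _ (by omega)

theorem chord_left {n : ℕ} {c : ℕ → V} (h : CW G Q n c) {i j : ℕ} (hij : i < j) (hj : j < n)
    (he : G.Adj (c i) (c j)) (ho : Odd (j - i + 1)) :
    CW G Q (j - i + 1) (fun k => if k ≤ j - i then c (i + k) else c i) := by
  obtain ⟨-, -, h3, h4⟩ := h
  refine ⟨ho, ?_, ?_, ?_⟩
  · have h5 : ¬ (j - i + 1 ≤ j - i) := by omega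
    simp only [if_neg h5, if_pos (Nat.zero_le _), add_zero]
  · intro k hk
    dsimp only
    by_cases h5 : k + 1 ≤ j - i
    · rw [if_pos h5, if_pos (by omega)]
      have := h3 (i + k) (by omega)
      rwa [add_assoc] at this
    · rw [if_neg h5, if_pos (by omega)]
      have h6 : i + k = j := by omega
      rw [h6]
      exact he.symm
  · intro k hk
    dsimp only
    split_ifs
    · exact h4 _ (by omega)
    · exact h4 _ (by omega)

theorem chord_right {n : ℕ} {c : ℕ → V} (h : CW G Q n c) {i j : ℕ} (hij : i < j) (hj : j < n)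
    (he : G.Adj (c i) (c j)) (ho : Odd (n - (j - i) + 1)) :
    CW G Q (n - (j - i) + 1) (fun k => if k ≤ i then c k else c (k + (j - i) - 1)) := by
  obtain ⟨-, h2, h3, h4⟩ := h
  refine ⟨ho, ?_, ?_, ?_⟩
  · have h5 : ¬ (n - (j - i) + 1 ≤ i) := by omega
    simp only [if_neg h5, if_pos (Nat.zero_le i)]
    rw [← h2]
    congr 1
    omega
  · intro k hk
    dsimp only
    by_cases h5 : k + 1 ≤ i
    · rw [if_pos h5, if_pos (by omega)]
      exact h3 k (by omega)
    · rw [if_neg h5]
      by_cases h6 : k ≤ i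
      · have h7 : k = i := by omega
        subst h7
        rw [if_pos le_rfl]
        have h9 : k + 1 + (j - k) - 1 = j := by omega
        rwa [h9]
      · rw [if_neg h6]
        have h8 := h3 (k + (j - i) - 1) (by omega)
        have h9 : k + 1 + (j - i) - 1 = k + (j - i) - 1 + 1 := by omega
        rwa [h9]
  · intro k hk
    dsimp only
    split_ifs
    · exact h4 _ (by omega)
    · exact h4 _ (by omega)

end OddCycAux

open OddCycAux

theorem oddCyc (G : SimpleGraph V) (Q : Finset V)
    (hQ : ¬ ∃ S ⊆ Q, GS G S ∧ GS G (Q \ S)) :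
    ∃ (n : ℕ) (c : ℕ → V), Odd n ∧ 3 ≤ n ∧ (∀ i < n, c i ∈ Q) ∧
      (∀ i < n, ∀ j < n, c i = c j → i = j) ∧
      (∀ i < n, ∀ j < n, (G.Adj (c i) (c j) ↔ ((i + 1) % n = j ∨ (j + 1) % n = i))) := by
  have hex := exists_cw G Q hQ
  obtain ⟨c, hc⟩ := Nat.find_spec hex
  have hmin : ∀ m < Nat.find hex, ∀ d, ¬ CW G Q m d := by
    intro m hm d hd
    exact Nat.find_min hex hm ⟨d, hd⟩
  generalize Nat.find hex = n at hc hmin
  obtain ⟨h1, h2, h3, h4⟩ := hc
  have hn3 : 3 ≤ n := by
    by_contra hlt
    have h5 : n = 1 := by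
      obtain ⟨m, hm⟩ := h1
      omega
    subst h5
    have h6 := h3 0 one_pos
    rw [zero_add, h2] at h6
    exact G.loopless.irrefl _ h6
  have hinj : ∀ i j, i < j → j < n → c i ≠ c j := by
    intro i j hij hj he
    have hodd : Odd (j - i) ∨ Odd (n - (j - i)) := by
      rcases Nat.even_or_odd (j - i) with h | h
      · right
        rw [Nat.odd_sub (by omega)]
        exact ⟨fun _ => h, fun _ => h1⟩
      · exact Or.inl h
    rcases hodd with h | h
    · exact hmin _ (by omega) _ (split_left ⟨h1, h2, h3, h4⟩ hij hj he h)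
    · exact hmin _ (by omega) _ (split_right ⟨h1, h2, h3, h4⟩ hij hj he h)
  have hchord : ∀ i j, i < j → j < n → G.Adj (c i) (c j) → j = i + 1 ∨ (i = 0 ∧ j + 1 = n) := by
    intro i j hij hj he
    by_contra hcon
    push Not at hcon
    have hodd : Odd (j - i + 1) ∨ Odd (n - (j - i) + 1) := by
      rcases Nat.even_or_odd (j - i) with h | h
      · exact Or.inl h.add_one
      · right
        apply Even.add_one
        rw [Nat.even_sub' (by omega)]
        exact ⟨fun _ => h, fun _ => h1⟩
    rcases hodd with h | h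
    · refine hmin _ ?_ _ (chord_left ⟨h1, h2, h3, h4⟩ hij hj he h)
      by_cases hi0 : i = 0
      · have := hcon.2 hi0
        omega
      · omega
    · exact hmin _ (by omega) _ (chord_right ⟨h1, h2, h3, h4⟩ hij hj he h)
  have hfwd : ∀ i j, i < j → j < n → G.Adj (c i) (c j) → (i + 1) % n = j ∨ (j + 1) % n = i := by
    intro i j hij hj he
    rcases hchord i j hij hj he with h | ⟨h5, h6⟩
    · left
      rw [h, Nat.mod_eq_of_lt (by omega)]
    · right
      rw [h6, Nat.mod_self, h5]
  have hbwd : ∀ i j, i < n → (i + 1) % n = j → G.Adj (c i) (c j) := by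
    intro i j hi hj
    by_cases h5 : i + 1 = n
    · rw [h5, Nat.mod_self] at hj
      rw [← hj, ← h2, ← h5]
      exact h3 i hi
    · rw [Nat.mod_eq_of_lt (by omega)] at hj
      rw [← hj]
      exact h3 i hi
  refine ⟨n, c, h1, hn3, fun i hi => h4 i hi.le, ?_, ?_⟩
  · intro i hi j hj he
    rcases lt_trichotomy i j with h | h | h
    · exact absurd he (hinj i j h hj)
    · exact h
    · exact absurd he.symm (hinj j i h hi)
  · intro i hi j hj
    constructor
    · intro he
      rcases lt_trichotomy i j with h | h | h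
      · exact hfwd i j h hj he
      · subst h
        exact absurd he (G.loopless.irrefl _)
      · exact (hfwd j i h hi he.symm).symm
    · rintro (h | h)
      · exact hbwd i j hi h
      · exact (hbwd j i hj h).symm

end

end Pool.Agent.LHad
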