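import Mathlib
import Pool.Agent.Lib.LHad.Defs
import Pool.Agent.Lib.LHad.OddCyc
import Pool.Agent.Lib.LHad.Leg

/-!
# LHad.Bip : parity of induced paths between non-cut vertices forces bipartiteness

`oddCyc`, `leg` are black boxes.
Proof. Suppose the conclusion fails.  `oddCyc` gives an induced odd cycle `c 0, …, c (n-1)`; `O = image c (range n)`.
For `b = c i` the set `O.erase b` is connected (a path).  `leg` gives `K_i`, `M_i`, `p_i` (an induced path from `c i`).
Let `i ≠ j`, `b = c i`, `b' = c j`.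
(*) `K_i` and `K_j` are disjoint on the legs and there are no edges between a leg vertex `x = p_i s`, `1 ≤ s ≤ M_i`, and `y = p_j r`, `1 ≤ r ≤ M_j`, nor `x = y`:
if `x = y` then `x ∈ K_j`; if `x, y` are adjacent, then since `y ∈ K_j`, `x ∈ Q`, `x ≠ b'` (`x ∈ K_i` is disjoint from `O`), also `x ∈ K_j`.
Now go down the leg `p_i s, p_i (s-1), …, p_i 0 = b`: each vertex is in `Q`, is adjacent to the previous one which is in `K_j`, and is `≠ b'`
(elements of `K_i ∪ {b}`), so it is in `K_j`; at the end `b ∈ K_j`, but `K_j` is disjoint from `O`.  Contradiction.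
(**) `x = p_i s` (`s ≥ 1`) is not adjacent to (nor equal to) any `z ∈ O`, `z ≠ b` (`z ∉ K_i`, `z ≠ b`, closure property of `K_i`).
Let `P` be an induced path from `b` to `b'` inside `O` with `e` edges (for `n ≥ 5` and `i, j` not consecutive: each of the two arcs, with `j - i` and `n - (j - i)`
edges; for `n = 3` the edge, `e = 1`).  Then (reversed leg of `b`) + `P` + (leg of `b'`) is an induced path of `G[Q]` with `M_i + e + M_j` edges,
whose ends `p_i M_i`, `p_j M_j` are non-cut vertices; it has at least one edge.  So `M_i + e + M_j` is even by `hpar`.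
(Define it as `r t = p_i (M_i - t)` for `t ≤ M_i`, `= P (t - M_i)` for `M_i ≤ t ≤ M_i + e`, `= p_j (t - M_i - e)` after that.)
If `n ≥ 5`: take `i = 0, j = 2`: `e = 2` and `e = n - 2` (odd) are both possible: contradiction.
If `n = 3`: `M_0 + 1 + M_1`, `M_1 + 1 + M_2`, `M_0 + 1 + M_2` are all even, but their sum is odd.
-/

namespace Pool.Agent.LHad

open Finset

open scoped Classical

noncomputable section

variable {V : Type}

namespace BipAux

/-- a path is connected -/
theorem cc_path (G : SimpleGraph V) (m : ℕ) (q : ℕ → V) (h : ∀ s < m, G.Adj (q s) (q (s + 1))) :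
    CC G ((range (m + 1)).image q) := by
  have hmem : ∀ s ≤ m, q s ∈ (((range (m + 1)).image q : Finset V) : Set V) := by
    intro s hs
    rw [Finset.mem_coe, Finset.mem_image]
    exact ⟨s, Finset.mem_range.2 (by omega), rfl⟩
  unfold CC
  rw [SimpleGraph.connected_iff_exists_forall_reachable]
  refine ⟨⟨q 0, hmem 0 (by omega)⟩, ?_⟩
  have hr : ∀ s (hs : s ≤ m), (G.induce (((range (m + 1)).image q : Finset V) : Set V)).Reachable
      ⟨q 0, hmem 0 (by omega)⟩ ⟨q s, hmem s hs⟩ := by
    intro s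
    induction s with
    | zero => intro _; exact SimpleGraph.Reachable.refl _
    | succ s ih =>
      intro hs
      refine (ih (by omega)).trans (SimpleGraph.Adj.reachable ?_)
      exact h s (by omega)
  rintro ⟨x, hx⟩
  have hx' := hx
  rw [Finset.mem_coe, Finset.mem_image] at hx'
  obtain ⟨s, hs, rfl⟩ := hx'
  exact hr s (by have := Finset.mem_range.1 hs; omega)

/-- a cycle minus a vertex is connected -/
theorem cc_cycle (G : SimpleGraph V) {n : ℕ} (hn : 3 ≤ n) (c : ℕ → V)
    (hinj : ∀ i < n, ∀ j < n, c i = c j → i = j)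
    (hadj : ∀ i < n, ∀ j < n, (G.Adj (c i) (c j) ↔ ((i + 1) % n = j ∨ (j + 1) % n = i)))
    {i : ℕ} (hi : i < n) : CC G (((range n).image c).erase (c i)) := by
  have hn0 : 0 < n := by omega
  have h1 := cc_path G (n - 2) (fun s => c ((i + 1 + s) % n)) (fun s hs => by
    have h2 : ((i + 1 + s) % n + 1) % n = (i + 1 + (s + 1)) % n := by
      rw [Nat.mod_add_mod]
      rfl
    exact (hadj _ (Nat.mod_lt _ hn0) _ (Nat.mod_lt _ hn0)).2 (Or.inl h2))
  have h3 : ((range n).image c).erase (c i) =
      (range (n - 2 + 1)).image (fun s => c ((i + 1 + s) % n)) := by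
    ext x
    rw [Finset.mem_erase, Finset.mem_image, Finset.mem_image]
    constructor
    · rintro ⟨hx, j, hj, rfl⟩
      rw [Finset.mem_range] at hj
      have hij : j ≠ i := fun h => hx (by rw [h])
      rcases lt_or_gt_of_ne hij with h | h
      · refine ⟨j + n - i - 1, Finset.mem_range.2 (by omega), ?_⟩
        have e : i + 1 + (j + n - i - 1) = j + n := by omega
        simp only [e, Nat.add_mod_right, Nat.mod_eq_of_lt hj]
      · refine ⟨j - i - 1, Finset.mem_range.2 (by omega), ?_⟩
        have e : i + 1 + (j - i - 1) = j := by omega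
        simp only [e, Nat.mod_eq_of_lt hj]
    · rintro ⟨s, hs, rfl⟩
      rw [Finset.mem_range] at hs
      have hlt : (i + 1 + s) % n < n := Nat.mod_lt _ hn0
      refine ⟨fun h => ?_, (i + 1 + s) % n, Finset.mem_range.2 hlt, rfl⟩
      have h4 := hinj _ hlt _ hi h
      rcases lt_or_ge (i + 1 + s) n with h5 | h5
      · rw [Nat.mod_eq_of_lt h5] at h4
        omega
      · have e : i + 1 + s = (i + 1 + s - n) + n := by omega
        rw [e, Nat.add_mod_right, Nat.mod_eq_of_lt (by omega)] at h4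
        omega
  rw [h3]
  exact h1

/-- the path made of two legs and a path between them -/
theorem join (G : SimpleGraph V) (Q O : Finset V) (hO : O ⊆ Q)
    (hpar : ∀ (M : ℕ) (p : ℕ → V), IndPath G Q M p → 1 ≤ M → CC G (Q.erase (p 0)) →
      CC G (Q.erase (p M)) → Even M)
    {b b' : V} (hbb : b ≠ b') (hb : b ∈ O) (hb' : b' ∈ O)
    {K K' : Finset V} (hKO : Disjoint K O) (hKO' : Disjoint K' O)
    (hcl : ∀ x ∈ K, ∀ y ∈ Q, y ∉ K → y ≠ b → ¬ G.Adj x y)
    (hcl' : ∀ x ∈ K', ∀ y ∈ Q, y ∉ K' → y ≠ b' → ¬ G.Adj x y)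
    {M M' e : ℕ} {p p' P : ℕ → V} (hp : IndPath G Q M p) (hp' : IndPath G Q M' p')
    (hp0 : p 0 = b) (hp0' : p' 0 = b') (hpK : ∀ i, 1 ≤ i → i ≤ M → p i ∈ K)
    (hpK' : ∀ i, 1 ≤ i → i ≤ M' → p' i ∈ K') (hcc : CC G (Q.erase (p M)))
    (hcc' : CC G (Q.erase (p' M'))) (hP : IndPath G Q e P) (hPO : ∀ t ≤ e, P t ∈ O)
    (hP0 : P 0 = b) (hPe : P e = b') : Even (M + e + M') := by
  have he : 1 ≤ e := by
    by_contra h
    have h0 : e = 0 := by omega
    rw [h0] at hPe
    exact hbb (hP0.symm.trans hPe)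
  have hKnO : ∀ x ∈ K, x ∉ O := fun x hx => Finset.disjoint_left.1 hKO hx
  have hKnO' : ∀ x ∈ K', x ∉ O := fun x hx => Finset.disjoint_left.1 hKO' hx
  -- the first leg avoids `K'`
  have hav : ∀ s ≤ M, p s ∉ K' := by
    intro s
    induction s with
    | zero =>
      intro _ h
      rw [hp0] at h
      exact hKnO' _ h hb
    | succ s ih =>
      intro hs h
      have h1 : p s ∉ K' := ih (by omega)
      have h2 : p s ≠ b' := by
        intro h3
        rcases Nat.eq_zero_or_pos s with h0 | h0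
        · rw [h0, hp0] at h3
          exact hbb h3
        · exact hKnO _ (hpK s h0 (by omega)) (h3 ▸ hb')
      have h4 := hcl' _ h _ (hp.1 s (by omega)) h1 h2
      exact h4 ((hp.2.2 (s + 1) hs s (by omega)).2 (Or.inr rfl))
  -- facts on the legs
  have k1 : ∀ s, 1 ≤ s → s ≤ M → ∀ z ∈ O, z ≠ b → p s ≠ z ∧ ¬ G.Adj (p s) z := by
    intro s h1 h2 z hz hzb
    have h3 := hpK s h1 h2
    exact ⟨fun h => hKnO _ h3 (h ▸ hz), hcl _ h3 z (hO hz) (fun h => hKnO _ h hz) hzb⟩
  have k2 : ∀ s, 1 ≤ s → s ≤ M' → ∀ z ∈ O, z ≠ b' → z ≠ p' s ∧ ¬ G.Adj z (p' s) := by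
    intro s h1 h2 z hz hzb
    have h3 := hpK' s h1 h2
    exact ⟨fun h => hKnO' _ h3 (h ▸ hz),
      fun h => hcl' _ h3 z (hO hz) (fun h => hKnO' _ h hz) hzb h.symm⟩
  have k3 : ∀ s, 1 ≤ s → s ≤ M → ∀ r, 1 ≤ r → r ≤ M' → p s ≠ p' r ∧ ¬ G.Adj (p s) (p' r) := by
    intro s h1 h2 r h3 h4
    have h5 := hpK' r h3 h4
    have h6 := hav s h2
    refine ⟨fun h => h6 (h ▸ h5), fun h => ?_⟩
    exact hcl' _ h5 _ (hp.1 s h2) h6 (fun h7 => hKnO _ (hpK s h1 h2) (h7 ▸ hb')) h.symm
  set r : ℕ → V := fun t => if t ≤ M then p (M - t) else if t ≤ M + e then P (t - M) else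
    p' (t - M - e) with hr
  have rA : ∀ t, t ≤ M → r t = p (M - t) := by
    intro t ht
    simp only [hr, if_pos ht]
  have rB : ∀ t, M ≤ t → t ≤ M + e → r t = P (t - M) := by
    intro t ht ht2
    rcases eq_or_lt_of_le ht with h | h
    · rw [← h, rA M le_rfl, Nat.sub_self, hp0, hP0]
    · simp only [hr]
      rw [if_neg (by omega), if_pos ht2]
  have rC : ∀ t, M + e ≤ t → r t = p' (t - M - e) := by
    intro t ht
    rcases eq_or_lt_of_le ht with h | h
    · rw [rB t (by omega) (by omega)]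
      have e1 : t - M = e := by omega
      have e2 : t - M - e = 0 := by omega
      rw [e2, e1, hPe, hp0']
    · simp only [hr]
      rw [if_neg (by omega), if_neg (by omega)]
  have key : ∀ t₁ t₂, t₁ < t₂ → t₂ ≤ M + e + M' →
      r t₁ ≠ r t₂ ∧ (G.Adj (r t₁) (r t₂) ↔ t₁ + 1 = t₂) := by
    intro t₁ t₂ h12 h2
    by_cases ha : t₂ ≤ M
    · rw [rA t₁ (by omega), rA t₂ ha]
      refine ⟨fun h => ?_, ?_⟩
      · have := hp.2.1 _ (by omega) _ (by omega) h
        omega
      · rw [hp.2.2 _ (by omega) _ (by omega)]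
        omega
    by_cases hc : M + e ≤ t₁
    · rw [rC t₁ hc, rC t₂ (by omega)]
      refine ⟨fun h => ?_, ?_⟩
      · have := hp'.2.1 _ (by omega) _ (by omega) h
        omega
      · rw [hp'.2.2 _ (by omega) _ (by omega)]
        omega
    by_cases hd : t₂ ≤ M + e
    · rw [rB t₂ (by omega) hd]
      by_cases hm : M ≤ t₁
      · rw [rB t₁ hm (by omega)]
        refine ⟨fun h => ?_, ?_⟩
        · have := hP.2.1 _ (by omega) _ (by omega) h
          omega
        · rw [hP.2.2 _ (by omega) _ (by omega)]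
          omega
      · rw [rA t₁ (by omega)]
        have h3 : P (t₂ - M) ≠ b := by
          intro h
          rw [← hP0] at h
          have := hP.2.1 _ (by omega) _ (by omega) h
          omega
        have h4 := k1 (M - t₁) (by omega) (by omega) _ (hPO (t₂ - M) (by omega)) h3
        exact ⟨h4.1, fun h => absurd h h4.2, fun h => by omega⟩
    · rw [rC t₂ (by omega)]
      by_cases hm : M ≤ t₁
      · rw [rB t₁ hm (by omega)]
        have h3 : P (t₁ - M) ≠ b' := by
          intro h
          rw [← hPe] at h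
          have := hP.2.1 _ (by omega) _ (by omega) h
          omega
        have h4 := k2 (t₂ - M - e) (by omega) (by omega) _ (hPO (t₁ - M) (by omega)) h3
        exact ⟨h4.1, fun h => absurd h h4.2, fun h => by omega⟩
      · rw [rA t₁ (by omega)]
        have h4 := k3 (M - t₁) (by omega) (by omega) (t₂ - M - e) (by omega) (by omega)
        exact ⟨h4.1, fun h => absurd h h4.2, fun h => by omega⟩
  have hind : IndPath G Q (M + e + M') r := by
    refine ⟨fun t ht => ?_, fun t₁ h1 t₂ h2 h => ?_, fun t₁ h1 t₂ h2 => ?_⟩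
    · by_cases ha : t ≤ M
      · rw [rA t ha]
        exact hp.1 _ (by omega)
      by_cases hd : t ≤ M + e
      · rw [rB t (by omega) hd]
        exact hP.1 _ (by omega)
      · rw [rC t (by omega)]
        exact hp'.1 _ (by omega)
    · rcases lt_trichotomy t₁ t₂ with h3 | h3 | h3
      · exact absurd h (key t₁ t₂ h3 h2).1
      · exact h3
      · exact absurd h.symm (key t₂ t₁ h3 h1).1
    · rcases lt_trichotomy t₁ t₂ with h3 | h3 | h3
      · rw [(key t₁ t₂ h3 h2).2]
        omega
      · subst h3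
        constructor
        · intro h
          exact absurd h (G.loopless.irrefl _)
        · intro h
          omega
      · rw [SimpleGraph.adj_comm, (key t₂ t₁ h3 h1).2]
        omega
  refine hpar _ r hind (by omega) ?_ ?_
  · rw [rA 0 (by omega), Nat.sub_zero]
    exact hcc
  · rw [rC _ (by omega)]
    have e1 : M + e + M' - M - e = M' := by omega
    rw [e1]
    exact hcc'

end BipAux

open BipAux

theorem bip (G : SimpleGraph V) (Q : Finset V) (hQ : CC G Q)
    (hpar : ∀ (M : ℕ) (p : ℕ → V), IndPath G Q M p → 1 ≤ M → CC G (Q.erase (p 0)) →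
      CC G (Q.erase (p M)) → Even M) :
    ∃ S ⊆ Q, GS G S ∧ GS G (Q \ S) := by
  by_contra hno
  obtain ⟨n, c, hodd, hn, hcQ, hinj, hadj⟩ := oddCyc G Q hno
  set O : Finset V := (range n).image c with hOdef
  have hmO : ∀ i < n, c i ∈ O := fun i hi => Finset.mem_image.2 ⟨i, Finset.mem_range.2 hi, rfl⟩
  have hO : O ⊆ Q := by
    intro x hx
    obtain ⟨i, hi, rfl⟩ := Finset.mem_image.1 hx
    exact hcQ i (Finset.mem_range.1 hi)
  have hmod : ∀ i < n, (i + 1) % n = if i + 1 = n then 0 else i + 1 := by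
    intro i hi
    split_ifs with h
    · rw [h, Nat.mod_self]
    · exact Nat.mod_eq_of_lt (by omega)
  have hleg : ∀ i < n, ∃ K : Finset V, Disjoint K O ∧
      (∀ x ∈ K, ∀ y ∈ Q, y ∉ K → y ≠ c i → ¬ G.Adj x y) ∧
      ∃ (M : ℕ) (p : ℕ → V), IndPath G Q M p ∧ p 0 = c i ∧ (∀ i, 1 ≤ i → i ≤ M → p i ∈ K) ∧
        CC G (Q.erase (p M)) := by
    intro i hi
    obtain ⟨K, -, h1, h2, h3⟩ := leg G Q O hQ hO (c i) (hmO i hi) (cc_cycle G hn c hinj hadj hi)
    exact ⟨K, h1, h2, h3⟩
  rcases eq_or_lt_of_le hn with h3 | h3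
  · -- triangle
    subst h3
    obtain ⟨K₀, a₀, b₀, M₀, p₀, d₀, e₀, f₀, g₀⟩ := hleg 0 (by omega)
    obtain ⟨K₁, a₁, b₁, M₁, p₁, d₁, e₁, f₁, g₁⟩ := hleg 1 (by omega)
    obtain ⟨K₂, a₂, b₂, M₂, p₂, d₂, e₂, f₂, g₂⟩ := hleg 2 (by omega)
    have hedge : ∀ i < 3, ∀ j < 3, i ≠ j → IndPath G Q 1 (fun t => if t = 0 then c i else c j) ∧
        ∀ t ≤ 1, (fun t => if t = 0 then c i else c j) t ∈ O := by
      intro i hi j hj hij
      have hA : G.Adj (c i) (c j) := by
        rw [hadj i hi j hj, hmod i hi, hmod j hj]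
        split_ifs <;> omega
      refine ⟨⟨fun t ht => ?_, fun s hs t ht h => ?_, fun s hs t ht => ?_⟩, fun t ht => ?_⟩
      · simp only
        split_ifs
        · exact hcQ i hi
        · exact hcQ j hj
      · simp only at h
        split_ifs at h with h1 h2 h2
        · omega
        · exact absurd (hinj i hi j hj h) hij
        · exact absurd (hinj j hj i hi h).symm hij
        · omega
      · simp only
        split_ifs with h1 h2 h2
        · constructor
          · intro h
            exact absurd h (G.loopless.irrefl _)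
          · omega
        · exact ⟨fun _ => by omega, fun _ => hA⟩
        · exact ⟨fun _ => by omega, fun _ => hA.symm⟩
        · constructor
          · intro h
            exact absurd h (G.loopless.irrefl _)
          · omega
      · simp only
        split_ifs
        · exact hmO i hi
        · exact hmO j hj
    have hne : ∀ i < 3, ∀ j < 3, i ≠ j → c i ≠ c j := fun i hi j hj hij h => hij (hinj i hi j hj h)
    have t01 := join G Q O hO hpar (hne 0 (by omega) 1 (by omega) (by omega)) (hmO 0 (by omega))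
      (hmO 1 (by omega)) a₀ a₁ b₀ b₁ d₀ d₁ e₀ e₁ f₀ f₁ g₀ g₁
      (hedge 0 (by omega) 1 (by omega) (by omega)).1 (hedge 0 (by omega) 1 (by omega) (by omega)).2
      rfl rfl
    have t12 := join G Q O hO hpar (hne 1 (by omega) 2 (by omega) (by omega)) (hmO 1 (by omega))
      (hmO 2 (by omega)) a₁ a₂ b₁ b₂ d₁ d₂ e₁ e₂ f₁ f₂ g₁ g₂
      (hedge 1 (by omega) 2 (by omega) (by omega)).1 (hedge 1 (by omega) 2 (by omega) (by omega)).2
      rfl rfl
    have t02 := join G Q O hO hpar (hne 0 (by omega) 2 (by omega) (by omega)) (hmO 0 (by omega))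
      (hmO 2 (by omega)) a₀ a₂ b₀ b₂ d₀ d₂ e₀ e₂ f₀ f₂ g₀ g₂
      (hedge 0 (by omega) 2 (by omega) (by omega)).1 (hedge 0 (by omega) 2 (by omega) (by omega)).2
      rfl rfl
    rw [Nat.even_iff] at t01 t12 t02
    omega
  · have hn5 : 5 ≤ n := by
      rcases hodd with ⟨k, hk⟩
      omega
    obtain ⟨K₀, a₀, b₀, M₀, p₀, d₀, e₀, f₀, g₀⟩ := hleg 0 (by omega)
    obtain ⟨K₁, a₁, b₁, M₁, p₁, d₁, e₁, f₁, g₁⟩ := hleg (n - 2) (by omega)
    have hne : c 0 ≠ c (n - 2) := fun h => by
      have := hinj 0 (by omega) (n - 2) (by omega) h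
      omega
    -- the long arc
    have hA : IndPath G Q (n - 2) c := by
      refine ⟨fun t ht => hcQ t (by omega), fun s hs t ht h => hinj s (by omega) t (by omega) h,
        fun s hs t ht => ?_⟩
      rw [hadj s (by omega) t (by omega), hmod s (by omega), hmod t (by omega),
        if_neg (by omega), if_neg (by omega)]
    have tA := join G Q O hO hpar hne (hmO 0 (by omega)) (hmO (n - 2) (by omega)) a₀ a₁ b₀ b₁
      d₀ d₁ e₀ e₁ f₀ f₁ g₀ g₁ hA (fun t ht => hmO t (by omega)) rfl rfl
    -- the short arc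
    set S : ℕ → ℕ := fun t => if t = 0 then n - 2 else if t = 1 then n - 1 else 0 with hS
    have hSn : ∀ t, S t < n := by
      intro t
      simp only [hS]
      split_ifs <;> omega
    have hB : IndPath G Q 2 (fun t => c (S t)) := by
      refine ⟨fun t ht => hcQ _ (hSn t), fun s hs t ht h => ?_, fun s hs t ht => ?_⟩
      · have h1 := hinj _ (hSn s) _ (hSn t) h
        simp only [hS] at h1
        split_ifs at h1 <;> omega
      · simp only
        rw [hadj _ (hSn s) _ (hSn t), hmod _ (hSn s), hmod _ (hSn t)]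
        have hf : ∀ u ≤ 2, (u = 0 ∧ S u = n - 2 ∧ (if S u + 1 = n then 0 else S u + 1) = n - 1) ∨
            (u = 1 ∧ S u = n - 1 ∧ (if S u + 1 = n then 0 else S u + 1) = 0) ∨
            (u = 2 ∧ S u = 0 ∧ (if S u + 1 = n then 0 else S u + 1) = 1) := by
          intro u hu
          have s0 : S 0 = n - 2 := rfl
          have s1 : S 1 = n - 1 := rfl
          have s2 : S 2 = 0 := rfl
          have hu' : u = 0 ∨ u = 1 ∨ u = 2 := by omega
          rcases hu' with rfl | rfl | rfl
          · left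
            refine ⟨rfl, s0, ?_⟩
            rw [s0, if_neg (by omega)]
            omega
          · right
            left
            refine ⟨rfl, s1, ?_⟩
            rw [s1, if_pos (by omega)]
          · right
            right
            refine ⟨rfl, s2, ?_⟩
            rw [s2, if_neg (by omega)]
        have hs' := hf s hs
        have ht' := hf t ht
        generalize (if S s + 1 = n then 0 else S s + 1) = x at hs' ⊢
        generalize (if S t + 1 = n then 0 else S t + 1) = y at ht' ⊢
        omega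
    have tB := join G Q O hO hpar hne.symm (hmO (n - 2) (by omega)) (hmO 0 (by omega)) a₁ a₀ b₁ b₀
      d₁ d₀ e₁ e₀ f₁ f₀ g₁ g₀ hB (fun t ht => hmO _ (hSn t)) rfl rfl
    rw [Nat.even_iff] at tA tB
    rw [Nat.odd_iff] at hodd
    omega

end

end Pool.Agent.LHad
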