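import Mathlib
import Pool.Agent.Lib.LHad.Defs
import Pool.Agent.Lib.LHad.ShortPath

/-!
# LHad.ConnQ : connecting a dominating `F`-free set by few vertices, without creating `F`-edges

`shortPath` is a black box.
Proof. Grow `A`.  Invariant `Inv A i` (for `1 ≤ i ≤ D.card`):  `A ⊆ C`, `CC G A`, `i ≤ (A ∩ D).card`,
`A.card ≤ 3 * (A ∩ D).card - 2`, `(A \ D).card ≤ 2 * (A ∩ D).card - 2`, and `A ∪ D` has no `F`-edge inside.
Start: `A = {v}`, `v ∈ D`.
Step: suppose `¬ D ⊆ A`.  Put `B = D \ A` (nonempty), `Y =` the vertices of `C \ (A ∪ D)` that have an `F`-neighbour in `A ∪ D`.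
`(A ∪ D).card ≤ D.card + (A \ D).card ≤ 3a`, and each vertex has at most `Δ` `F`-neighbours, so `Y.card ≤ 3*a*Δ` and
`W := C \ Y` is connected (`hrob`).  `A, B ⊆ W`.  `shortPath` gives `p_0 ∈ A, …, p_k ∈ B`, `k ≥ 1` (A, B disjoint).
Every inner vertex `p_i` (`1 ≤ i < k`) is outside `A ∪ B ⊇ D`, in `C`, and not in `Y`; so by `hdom` it has a `G`-neighbour
in `D ⊆ A ∪ B` (an `F`-neighbour in `D` would put it into `Y`).  If `k ≥ 4`, then `p_2` has no neighbour in `A` (`2 ≤ i`)
and none in `B` (`2 + 2 ≤ k`): contradiction.  So `k ≤ 3`.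
New `A' = A ∪ {p_1, …, p_k}`: connected (add the vertices one by one, each adjacent to the previous one);
`p_k ∈ D \ A`, so `(A' ∩ D).card = (A ∩ D).card + 1` (the inner vertices are not in `D`), `A'.card ≤ A.card + 3`,
`(A' \ D).card ≤ (A \ D).card + 2`.
`A' ∪ D = A ∪ D ∪ {p_1, …, p_{k-1}}` has no `F`-edges: `p_i ∉ Y`; and `p_1 p_2` (if `k = 3`) is a `G`-edge, hence not an `F`-edge.
After finitely many steps `D ⊆ A`; then `Q = A` has `Q.card ≤ 3 * D.card - 2 ≤ 3a`, and `Q = A ∪ D` has no `F`-edges.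
(Termination: `(A ∩ D).card` grows and is at most `D.card`.)
-/

namespace Pool.Agent.LHad

open Finset

open scoped Classical

noncomputable section

variable {V : Type}

namespace ConnQAux

variable {V : Type}

theorem cc_insert {G : SimpleGraph V} {Z : Finset V} (hZ : CC G Z) {z x : V} (hz : z ∈ Z)
    (hzx : G.Adj z x) : CC G (insert x Z) := by
  have hZ' : (G.induce (Z : Set V)).Connected := hZ
  show (G.induce ((insert x Z : Finset V) : Set V)).Connected
  have hsub : (Z : Set V) ⊆ ((insert x Z : Finset V) : Set V) := by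
    intro y hy
    simp only [Finset.coe_insert, Set.mem_insert_iff]
    exact Or.inr hy
  have hzm : z ∈ ((insert x Z : Finset V) : Set V) := hsub hz
  have hxm : x ∈ ((insert x Z : Finset V) : Set V) := by simp
  have key : ∀ y : ((insert x Z : Finset V) : Set V),
      (G.induce ((insert x Z : Finset V) : Set V)).Reachable ⟨z, hzm⟩ y := by
    rintro ⟨y, hy⟩
    by_cases hyx : y = x
    · subst hyx
      have : (G.induce ((insert y Z : Finset V) : Set V)).Adj ⟨z, hzm⟩ ⟨y, hy⟩ := by
        simpa using hzx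
      exact this.reachable
    · have hyZ : y ∈ (Z : Set V) := by
        have h1 : y ∈ insert x Z := hy
        rcases Finset.mem_insert.mp h1 with h | h
        · exact absurd h hyx
        · exact h
      have h2 : (G.induce (Z : Set V)).Reachable ⟨z, hz⟩ ⟨y, hyZ⟩ := hZ'.preconnected _ _
      exact h2.map (SimpleGraph.induceHomOfLE G hsub).toHom
  haveI : Nonempty ((insert x Z : Finset V) : Set V) := ⟨⟨z, hzm⟩⟩
  refine SimpleGraph.Connected.mk ?_
  intro u v
  exact (key u).symm.trans (key v)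

structure Inv (G F : SimpleGraph V) (C D A : Finset V) : Prop where
  sub : A ⊆ C
  cc : CC G A
  one : 1 ≤ (A ∩ D).card
  out : (A \ D).card + 2 ≤ 2 * (A ∩ D).card
  noF : ∀ u ∈ A ∪ D, ∀ v ∈ A ∪ D, ¬ F.Adj u v

theorem step [Fintype V] (G F : SimpleGraph V) (a Δ : ℕ) (hGF : ∀ u v, F.Adj u v → ¬ G.Adj u v)
    (hF : DegLe F Δ) (C D : Finset V) (hrob : Rob G (3 * a * Δ) C) (hD : D ⊆ C)
    (hcard : D.card ≤ a)
    (hdom : ∀ u ∈ C, u ∉ D → ∃ v ∈ D, G.Adj u v ∨ F.Adj u v)
    (A : Finset V) (hA : Inv G F C D A) (hDA : ¬ D ⊆ A) :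
    ∃ A', Inv G F C D A' ∧ (A ∩ D).card + 1 ≤ (A' ∩ D).card := by
  have hcA : (A ∪ D).card ≤ 3 * a := by
    have h1 : (A ∪ D).card = D.card + (A \ D).card := by
      rw [Finset.union_comm, ← Finset.union_sdiff_self_eq_union,
        Finset.card_union_of_disjoint Finset.disjoint_sdiff]
    have h2 := hA.out
    have h3 : (A ∩ D).card ≤ D.card := Finset.card_le_card Finset.inter_subset_right
    omega
  set Y : Finset V := C.filter (fun u => u ∉ A ∪ D ∧ ∃ v ∈ A ∪ D, F.Adj v u) with hY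
  have hYC : Y ⊆ C := Finset.filter_subset _ _
  have hYcard : Y.card ≤ 3 * a * Δ := by
    have h1 : Y ⊆ (A ∪ D).biUnion (fun v => univ.filter (fun u => F.Adj v u)) := by
      intro u hu
      rw [hY, Finset.mem_filter] at hu
      obtain ⟨-, -, v, hv, hvu⟩ := hu
      rw [Finset.mem_biUnion]
      exact ⟨v, hv, by simp [hvu]⟩
    calc Y.card ≤ _ := Finset.card_le_card h1
      _ ≤ (A ∪ D).card * Δ := Finset.card_biUnion_le_card_mul _ _ _ (fun v _ => hF v)
      _ ≤ 3 * a * Δ := Nat.mul_le_mul_right _ hcA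
  have hW := hrob Y hYC hYcard
  have hAW : A ⊆ C \ Y := by
    intro u hu
    rw [Finset.mem_sdiff]
    refine ⟨hA.sub hu, ?_⟩
    intro h
    rw [hY, Finset.mem_filter] at h
    exact h.2.1 (Finset.mem_union_left _ hu)
  have hBW : D \ A ⊆ C \ Y := by
    intro u hu
    rw [Finset.mem_sdiff] at hu ⊢
    refine ⟨hD hu.1, ?_⟩
    intro h
    rw [hY, Finset.mem_filter] at h
    exact h.2.1 (Finset.mem_union_right _ hu.1)
  have hB : (D \ A).Nonempty := by
    rw [Finset.sdiff_nonempty]
    exact hDA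
  obtain ⟨k, p, hp0, hpk, hpW, hpadj, hpA, hpB, hpA2, hpB2, -, -⟩ :=
    shortPath G (C \ Y) A (D \ A) hW hAW hBW (cc_nonempty hA.cc) hB
  have hpk' := Finset.mem_sdiff.mp hpk
  have hk1 : 1 ≤ k := by
    by_contra h
    have : k = 0 := by omega
    subst this
    exact hpk'.2 hp0
  -- inner vertices
  have hin : ∀ i, 1 ≤ i → i < k → p i ∉ A ∪ D := by
    intro i h1 h2 h3
    rcases Finset.mem_union.mp h3 with h | h
    · exact hpA i h1 h2.le h
    · exact hpB i h2 (Finset.mem_sdiff.mpr ⟨h, hpA i h1 h2.le⟩)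
  have hinF : ∀ i, 1 ≤ i → i < k → ∀ v ∈ A ∪ D, ¬ F.Adj v (p i) := by
    intro i h1 h2 v hv hvi
    have h3 := hpW i h2.le
    rw [Finset.mem_sdiff] at h3
    apply h3.2
    rw [hY, Finset.mem_filter]
    exact ⟨h3.1, hin i h1 h2, v, hv, hvi⟩
  have hk3 : k ≤ 3 := by
    by_contra h
    have hk4 : 4 ≤ k := by omega
    have h2 : p 2 ∈ C := (Finset.mem_sdiff.mp (hpW 2 (by omega))).1
    have h3 : p 2 ∉ A ∪ D := hin 2 (by omega) (by omega)
    obtain ⟨v, hv, hvp⟩ := hdom (p 2) h2 (fun h => h3 (Finset.mem_union_right _ h))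
    rcases hvp with hvp | hvp
    · by_cases hvA : v ∈ A
      · exact hpA2 2 le_rfl (by omega) v hvA hvp.symm
      · exact hpB2 2 (by omega) v (Finset.mem_sdiff.mpr ⟨hv, hvA⟩) hvp
    · exact hinF 2 (by omega) (by omega) v (Finset.mem_union_right _ hv) hvp.symm
  -- connectedness
  have hcc : ∀ j, j ≤ k → CC G (A ∪ (Finset.Icc 1 j).image p) := by
    intro j
    induction j with
    | zero =>
      intro _
      simpa using hA.cc
    | succ j ih =>
      intro hj
      have h1 := ih (by omega)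
      have h2 : A ∪ (Finset.Icc 1 (j + 1)).image p =
          insert (p (j + 1)) (A ∪ (Finset.Icc 1 j).image p) := by
        ext x
        simp only [Finset.mem_union, Finset.mem_image, Finset.mem_Icc, Finset.mem_insert]
        constructor
        · rintro (h | ⟨i, ⟨hi1, hi2⟩, rfl⟩)
          · exact Or.inr (Or.inl h)
          · by_cases hij : i = j + 1
            · subst hij
              exact Or.inl rfl
            · exact Or.inr (Or.inr ⟨i, ⟨hi1, by omega⟩, rfl⟩)
        · rintro (h | h | ⟨i, ⟨hi1, hi2⟩, rfl⟩)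
          · exact Or.inr ⟨j + 1, ⟨by omega, le_rfl⟩, h.symm⟩
          · exact Or.inl h
          · exact Or.inr ⟨i, ⟨hi1, by omega⟩, rfl⟩
      rw [h2]
      refine cc_insert h1 (z := p j) ?_ (hpadj j (by omega))
      rcases Nat.eq_zero_or_pos j with h0 | h0
      · subst h0
        exact Finset.mem_union_left _ hp0
      · refine Finset.mem_union_right _ ?_
        rw [Finset.mem_image]
        exact ⟨j, Finset.mem_Icc.mpr ⟨h0, le_rfl⟩, rfl⟩
  have hU : (A ∪ (Finset.Icc 1 k).image p) ∪ D ⊆ (A ∪ D) ∪ (Finset.Ico 1 k).image p := by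
    intro x hx
    simp only [Finset.mem_union, Finset.mem_image, Finset.mem_Icc, Finset.mem_Ico] at hx ⊢
    rcases hx with (h | ⟨i, ⟨h1, h2⟩, rfl⟩) | h
    · exact Or.inl (Or.inl h)
    · by_cases hik : i = k
      · subst hik
        exact Or.inl (Or.inr hpk'.1)
      · exact Or.inr ⟨i, ⟨h1, by omega⟩, rfl⟩
    · exact Or.inl (Or.inr h)
  have hinc : (A ∩ D).card + 1 ≤ ((A ∪ (Finset.Icc 1 k).image p) ∩ D).card := by
    have h1 : insert (p k) (A ∩ D) ⊆ (A ∪ (Finset.Icc 1 k).image p) ∩ D := by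
      intro x hx
      rcases Finset.mem_insert.mp hx with h | h
      · subst h
        refine Finset.mem_inter.mpr ⟨Finset.mem_union_right _ ?_, hpk'.1⟩
        exact Finset.mem_image.mpr ⟨k, Finset.mem_Icc.mpr ⟨hk1, le_rfl⟩, rfl⟩
      · have h' := Finset.mem_inter.mp h
        exact Finset.mem_inter.mpr ⟨Finset.mem_union_left _ h'.1, h'.2⟩
    have h2 : p k ∉ A ∩ D := fun h => hpk'.2 (Finset.mem_inter.mp h).1
    calc (A ∩ D).card + 1 = (insert (p k) (A ∩ D)).card := (Finset.card_insert_of_notMem h2).symm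
      _ ≤ _ := Finset.card_le_card h1
  refine ⟨A ∪ (Finset.Icc 1 k).image p, ?_, hinc⟩
  refine ⟨?_, hcc k le_rfl, ?_, ?_, ?_⟩
  · refine Finset.union_subset hA.sub ?_
    intro x hx
    obtain ⟨i, hi, rfl⟩ := Finset.mem_image.mp hx
    exact (Finset.mem_sdiff.mp (hpW i (Finset.mem_Icc.mp hi).2)).1
  · have := hA.one
    omega
  · have h1 : (A ∪ (Finset.Icc 1 k).image p) \ D ⊆ (A \ D) ∪ (Finset.Ico 1 k).image p := by
      intro x hx
      simp only [Finset.mem_union, Finset.mem_image, Finset.mem_Icc, Finset.mem_Ico,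
        Finset.mem_sdiff] at hx ⊢
      obtain ⟨h | ⟨i, ⟨h1, h2⟩, rfl⟩, hxD⟩ := hx
      · exact Or.inl ⟨h, hxD⟩
      · by_cases hik : i = k
        · subst hik
          exact absurd hpk'.1 hxD
        · exact Or.inr ⟨i, ⟨h1, by omega⟩, rfl⟩
    have h2 : ((A ∪ (Finset.Icc 1 k).image p) \ D).card ≤ (A \ D).card + (k - 1) := by
      calc _ ≤ ((A \ D) ∪ (Finset.Ico 1 k).image p).card := Finset.card_le_card h1
        _ ≤ (A \ D).card + ((Finset.Ico 1 k).image p).card := Finset.card_union_le _ _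
        _ ≤ (A \ D).card + (k - 1) := by
          have := Finset.card_image_le (s := Finset.Ico 1 k) (f := p)
          rw [Nat.card_Ico] at this
          omega
    have h3 := hA.out
    omega
  · intro u hu v hv
    have hu' := hU hu
    have hv' := hU hv
    rcases Finset.mem_union.mp hu' with hu1 | hu1
    · rcases Finset.mem_union.mp hv' with hv1 | hv1
      · exact hA.noF u hu1 v hv1
      · obtain ⟨i, hi, rfl⟩ := Finset.mem_image.mp hv1
        rw [Finset.mem_Ico] at hi
        exact hinF i hi.1 hi.2 u hu1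
    · obtain ⟨i, hi, rfl⟩ := Finset.mem_image.mp hu1
      rw [Finset.mem_Ico] at hi
      rcases Finset.mem_union.mp hv' with hv1 | hv1
      · intro h
        exact hinF i hi.1 hi.2 v hv1 h.symm
      · obtain ⟨j, hj, rfl⟩ := Finset.mem_image.mp hv1
        rw [Finset.mem_Ico] at hj
        intro h
        have h3 : (i = j) ∨ (i + 1 = j) ∨ (j + 1 = i) := by omega
        rcases h3 with h3 | h3 | h3
        · subst h3
          exact F.loopless.irrefl _ h
        · subst h3
          exact hGF _ _ h (hpadj i (by omega))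
        · subst h3
          exact hGF _ _ h (hpadj j (by omega)).symm

theorem grow [Fintype V] (G F : SimpleGraph V) (a Δ : ℕ) (hGF : ∀ u v, F.Adj u v → ¬ G.Adj u v)
    (hF : DegLe F Δ) (C D : Finset V) (hrob : Rob G (3 * a * Δ) C) (hD : D ⊆ C)
    (hcard : D.card ≤ a)
    (hdom : ∀ u ∈ C, u ∉ D → ∃ v ∈ D, G.Adj u v ∨ F.Adj u v) :
    ∀ (n : ℕ) (A : Finset V), Inv G F C D A → D.card ≤ (A ∩ D).card + n →
    ∃ A', Inv G F C D A' ∧ D ⊆ A' := by
  intro n
  induction n with
  | zero =>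
    intro A hA hn
    refine ⟨A, hA, ?_⟩
    have h1 : A ∩ D = D := Finset.eq_of_subset_of_card_le Finset.inter_subset_right (by omega)
    intro x hx
    rw [← h1] at hx
    exact (Finset.mem_inter.mp hx).1
  | succ n ih =>
    intro A hA hn
    by_cases hDA : D ⊆ A
    · exact ⟨A, hA, hDA⟩
    · obtain ⟨A', hA', h1⟩ := step G F a Δ hGF hF C D hrob hD hcard hdom A hA hDA
      exact ih A' hA' (by omega)

end ConnQAux

open ConnQAux in
theorem connQ [Fintype V] (G F : SimpleGraph V) (a Δ : ℕ) (hGF : ∀ u v, F.Adj u v → ¬ G.Adj u v)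
    (hF : DegLe F Δ) (C D : Finset V) (hrob : Rob G (3 * a * Δ) C) (hD : D ⊆ C)
    (hne : D.Nonempty) (hcard : D.card ≤ a) (hDF : ∀ u ∈ D, ∀ v ∈ D, ¬ F.Adj u v)
    (hdom : ∀ u ∈ C, u ∉ D → ∃ v ∈ D, G.Adj u v ∨ F.Adj u v) :
    ∃ Q, D ⊆ Q ∧ Q ⊆ C ∧ CC G Q ∧ (∀ u ∈ Q, ∀ v ∈ Q, ¬ F.Adj u v) ∧ Q.card ≤ 3 * a := by
  obtain ⟨v, hv⟩ := hne
  have hA0 : Inv G F C D {v} := by
    refine ⟨by simpa using hD hv, ?_, ?_, ?_, ?_⟩
    · show (G.induce (({v} : Finset V) : Set V)).Connected
      haveI : Subsingleton (({v} : Finset V) : Set V) := by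
        constructor
        rintro ⟨x, hx⟩ ⟨y, hy⟩
        have hx' : x = v := by simpa using hx
        have hy' : y = v := by simpa using hy
        subst hx'; subst hy'; rfl
      haveI : Nonempty (({v} : Finset V) : Set V) := ⟨⟨v, by simp⟩⟩
      refine SimpleGraph.Connected.mk ?_
      intro x y
      rw [Subsingleton.elim x y]
    · have : ({v} : Finset V) ∩ D = {v} := by
        rw [Finset.inter_eq_left]
        simpa using hv
      rw [this]; simp
    · have h1 : ({v} : Finset V) ∩ D = {v} := by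
        rw [Finset.inter_eq_left]
        simpa using hv
      have h2 : ({v} : Finset V) \ D = ∅ := by
        rw [Finset.sdiff_eq_empty_iff_subset]
        simpa using hv
      rw [h1, h2]; simp
    · have h1 : ({v} : Finset V) ∪ D = D := by
        rw [Finset.union_eq_right]
        simpa using hv
      rw [h1]
      exact hDF
  obtain ⟨A, hA, hDA⟩ := grow G F a Δ hGF hF C D hrob hD hcard hdom D.card {v} hA0 (by omega)
  refine ⟨A, hDA, hA.sub, hA.cc, ?_, ?_⟩
  · intro u hu w hw
    exact hA.noF u (Finset.mem_union_left _ hu) w (Finset.mem_union_left _ hw)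
  · have h1 : A.card = (A ∩ D).card + (A \ D).card := (Finset.card_inter_add_card_sdiff A D).symm
    have h2 := hA.out
    have h3 : (A ∩ D).card ≤ D.card := Finset.card_le_card Finset.inter_subset_right
    omega

end

end Pool.Agent.LHad
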