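import Mathlib
import Pool.Agent.Lib.LHad.Defs

/-!
# LHad.Extend : extension of a half-stable connected set to a maximal block

Proof. Consider the finite set of pairs `(Z, I)` of subsets of `C` with `Q ⊆ Z ⊆ C`, `CC G Z`, `I ⊆ Z`, `HS G F I`, `wt w Z ≤ 2 * wt w I`
(a filter of `C.powerset ×ˢ C.powerset`).  It is nonempty (`(Q, I)`).  Take a member with `Z.card` maximal.
`Maxi`: let `Z ⊂ Z' ⊆ Z ∪ (C \ Z) = C`, `CC G Z'`, `I' ⊆ Z'`, `HS G F I'`.  If `wt w Z' ≤ 2 * wt w I'` then `(Z', I')` would be a member with larger `Z'.card`.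
-/

namespace Pool.Agent.LHad

open Finset

open scoped Classical

noncomputable section

variable {V : Type}

theorem extend (G F : SimpleGraph V) (w : V → ℝ) (C Q I : Finset V) (hQC : Q ⊆ C) (hQ : CC G Q)
    (hI : I ⊆ Q) (hI2 : HS G F I) (hw : wt w Q ≤ 2 * wt w I) :
    ∃ x : Blk V, Q ⊆ x.Z ∧ x.Z ⊆ C ∧ Good G F w x ∧ Maxi G F w x (C \ x.Z) := by
  set P : Finset (Finset V × Finset V) := (C.powerset ×ˢ C.powerset).filter
    (fun p => Q ⊆ p.1 ∧ CC G p.1 ∧ p.2 ⊆ p.1 ∧ HS G F p.2 ∧ wt w p.1 ≤ 2 * wt w p.2) with hP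
  have memP : ∀ p : Finset V × Finset V, p ∈ P ↔ (p.1 ⊆ C ∧ p.2 ⊆ C) ∧
      Q ⊆ p.1 ∧ CC G p.1 ∧ p.2 ⊆ p.1 ∧ HS G F p.2 ∧ wt w p.1 ≤ 2 * wt w p.2 := by
    intro p
    rw [hP, Finset.mem_filter, Finset.mem_product, Finset.mem_powerset, Finset.mem_powerset]
  have hne : P.Nonempty := ⟨(Q, I), by
    rw [memP]
    exact ⟨⟨hQC, hI.trans hQC⟩, Finset.Subset.refl _, hQ, hI, hI2, hw⟩⟩
  obtain ⟨p, hp, hmax⟩ := Finset.exists_max_image P (fun p => p.1.card) hne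
  rw [memP] at hp
  obtain ⟨⟨h1, h2⟩, h3, h4, h5, h6, h7⟩ := hp
  refine ⟨⟨p.1, p.2⟩, h3, h1, ⟨h5, h4, h6, h7⟩, ?_⟩
  intro Z' I' hZ hZC hcc hIZ hhs
  by_contra hlt
  rw [not_lt] at hlt
  have hZC' : Z' ⊆ C := by
    refine hZC.trans ?_
    show p.1 ∪ (C \ p.1) ⊆ C
    exact Finset.union_subset h1 Finset.sdiff_subset
  have hmem : (Z', I') ∈ P := by
    rw [memP]
    exact ⟨⟨hZC', hIZ.trans hZC'⟩, h3.trans hZ.subset, hcc, hIZ, hhs, hlt⟩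
  have h8 := hmax (Z', I') hmem
  have h9 := Finset.card_lt_card hZ
  exact absurd h9 (not_lt.mpr h8)

end

end Pool.Agent.LHad
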