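import Mathlib
import Pool.Agent.Lib.LHad.Defs

/-!
# LHad.Greedy : greedy stable set by weight

Proof. Strong induction on `C.card`.  If `C` is empty take `D = ∅`.  Otherwise let `v ∈ C` have maximal
weight, `C' = C.filter (fun u => u ≠ v ∧ ¬ G.Adj u v ∧ ¬ F.Adj u v)` (smaller, it misses `v`), `D'` the set for `C'`,
`D = insert v D'`.  `D` is `HS` (the elements of `D' ⊆ C'` are not adjacent to `v` in `G` or `F`; use symmetry).
If `u ∈ C \ D`: either `u ∈ C'`, then `u ∉ D'` and the induction hypothesis gives `v' ∈ D'`; or `u ∉ C'`, `u ≠ v`,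
so `u` is `G`- or `F`-adjacent to `v` and `w u ≤ w v`.
-/

namespace Pool.Agent.LHad

open Finset

open scoped Classical

noncomputable section

variable {V : Type}

theorem greedy (G F : SimpleGraph V) (w : V → ℝ) (C : Finset V) :
    ∃ D ⊆ C, HS G F D ∧
      ∀ u ∈ C, u ∉ D → ∃ v ∈ D, (G.Adj u v ∨ F.Adj u v) ∧ w u ≤ w v := by
  obtain ⟨n, hn⟩ : ∃ n, C.card = n := ⟨_, rfl⟩
  induction n using Nat.strong_induction_on generalizing C with
  | _ n ih =>
    rcases C.eq_empty_or_nonempty with rfl | hne
    · exact ⟨∅, Finset.Subset.refl _, by intro u hu; simp at hu, by intro u hu; simp at hu⟩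
    · obtain ⟨v, hv, hmax⟩ := Finset.exists_max_image C w hne
      set C' := C.filter (fun u => u ≠ v ∧ ¬ G.Adj u v ∧ ¬ F.Adj u v) with hC'
      have hlt : C'.card < n := by
        rw [← hn]
        refine Finset.card_lt_card ?_
        rw [Finset.ssubset_iff_of_subset (Finset.filter_subset _ _)]
        exact ⟨v, hv, fun h => (Finset.mem_filter.1 h).2.1 rfl⟩
      obtain ⟨D', hD', hHS, hdom⟩ := ih C'.card hlt C' rfl
      refine ⟨insert v D', ?_, ?_, ?_⟩
      · intro u hu
        rw [Finset.mem_insert] at hu
        rcases hu with rfl | hu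
        · exact hv
        · exact Finset.filter_subset _ _ (hD' hu)
      · intro a ha b hb
        rw [Finset.mem_insert] at ha hb
        rcases ha with rfl | ha <;> rcases hb with rfl | hb
        · exact ⟨G.irrefl, F.irrefl⟩
        · have := (Finset.mem_filter.1 (hD' hb)).2
          exact ⟨fun h => this.2.1 h.symm, fun h => this.2.2 h.symm⟩
        · have := (Finset.mem_filter.1 (hD' ha)).2
          exact ⟨this.2.1, this.2.2⟩
        · exact hHS a ha b hb
      · intro u hu hun
        rw [Finset.mem_insert, not_or] at hun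
        by_cases hu' : u ∈ C'
        · obtain ⟨v', hv', h⟩ := hdom u hu' hun.2
          exact ⟨v', Finset.mem_insert_of_mem hv', h⟩
        · refine ⟨v, Finset.mem_insert_self _ _, ?_, hmax u hu⟩
          rw [hC', Finset.mem_filter] at hu'
          by_contra hcon
          rw [not_or] at hcon
          exact hu' ⟨hu, hun.1, hcon.1, hcon.2⟩

end

end Pool.Agent.LHad
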