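import Mathlib
import Pool.Agent.Lib.LHad.Defs

/-!
# LHad.Parity : an induced path between private neighbours of two maximal blocks has even length

Proof. Suppose `M` is odd.  Let `P = image p (range (M+1))`, `I_odd = image p {i ≤ M odd}`.
`Z' = b1.Z ∪ P`, `I' = b1.I ∪ I_odd`.  `P ⊆ Q ⊆ C` is disjoint from `b1.Z`; `b1.Z ⊂ Z' ⊆ b1.Z ∪ C`; `CC G Z'` because `p 0 ∈ nb G b1.Z Q`
has a neighbour in `b1.Z` and `p` is a path.  `I'` is `HS`: `b1.I` is; two odd vertices `p i, p j` are not `G`-adjacent (indices differ by an even number, `IndPath`)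
and not `F`-adjacent (`hQF`); for `x ∈ b1.I`, `p i` with `i ≥ 1`: not `G`-adjacent since `p i ∈ Q`, `p i ≠ p 0`, so `p i ∉ nb G b1.Z Q`; not
`F`-adjacent by `hF1`.  `Maxi` gives `2 wt I' < wt Z'`, i.e. `2 wt b1.I + 2 ∑_{i odd} w (p i) < wt b1.Z + ∑_i w (p i)`; with `wt b1.Z ≤ 2 wt b1.I`:
`∑_{i odd} w (p i) < ∑_{i even} w (p i)` (sums over `i ≤ M`).
The same argument for `b2` and the reversed path `i ↦ p (M - i)` gives `∑_{i odd} w (p (M-i)) < ∑_{i even} w (p (M-i))`; as `M` is odd this says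
`∑_{i even} w (p i) < ∑_{i odd} w (p i)`.  Contradiction.
(Suggestion: prove a one-sided lemma first and apply it to `p` and to the reversed path.)
-/

namespace Pool.Agent.LHad

open Finset

open scoped Classical

noncomputable section

variable {V : Type}

namespace ParityAux

theorem cc_add (G : SimpleGraph V) {Z : Finset V} (hZ : CC G Z) {u v : V} (hu : u ∈ Z)
    (h : G.Adj u v) : CC G (Z ∪ {v}) := by
  unfold CC at hZ ⊢
  rw [Finset.coe_union, Finset.coe_singleton]
  have h1 : (G.induce ({v} : Set V)).Preconnected := by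
    intro a b
    have e : a = b := Subsingleton.elim _ _
    rw [e]
  exact SimpleGraph.connected_induce_union hZ.preconnected h1 (by exact_mod_cast hu)
    (Set.mem_singleton v) h

theorem cc_path (G : SimpleGraph V) {Q Z : Finset V} (hZ : CC G Z) (M : ℕ) (p : ℕ → V)
    (hp : IndPath G Q M p) (h0 : ∃ z ∈ Z, G.Adj z (p 0)) :
    ∀ j ≤ M, CC G (Z ∪ image p (range (j + 1))) := by
  intro j
  induction j with
  | zero =>
    intro _
    obtain ⟨z, hz, ha⟩ := h0
    have e : image p (range (0 + 1)) = {p 0} := by simp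
    rw [e]
    exact cc_add G hZ hz ha
  | succ j ih =>
    intro hj
    have e : Z ∪ image p (range (j + 1 + 1)) = (Z ∪ image p (range (j + 1))) ∪ {p (j + 1)} := by
      rw [Finset.range_add_one, Finset.image_insert, Finset.union_assoc]
      congr 1
      rw [Finset.union_comm, Finset.insert_eq]
    rw [e]
    have h1 : p j ∈ Z ∪ image p (range (j + 1)) := by
      rw [Finset.mem_union, Finset.mem_image]
      exact Or.inr ⟨j, by simp, rfl⟩
    exact cc_add G (ih (by omega)) h1 ((hp.2.2 j (by omega) (j + 1) hj).2 (Or.inl rfl))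

theorem one_side (G F : SimpleGraph V) (w : V → ℝ) (C Q : Finset V) (hQC : Q ⊆ C)
    (hQF : ∀ u ∈ Q, ∀ v ∈ Q, ¬ F.Adj u v) (b1 : Blk V)
    (hg1 : Good G F w b1) (hC1 : Disjoint b1.Z C) (hm1 : Maxi G F w b1 C)
    (M : ℕ) (p : ℕ → V) (hp : IndPath G Q M p) (h1 : nb G b1.Z Q = {p 0})
    (hF1 : ∀ x ∈ b1.I, ∀ y ∈ Q, ¬ F.Adj x y) :
    ∑ i ∈ (range (M + 1)).filter (fun i => Odd i), w (p i)
      < ∑ i ∈ (range (M + 1)).filter (fun i => ¬ Odd i), w (p i) := by
  obtain ⟨hIZ, hcc, hHS, hwt⟩ := hg1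
  have hmemP : ∀ x ∈ image p (range (M + 1)), x ∈ Q := by
    intro x hx
    obtain ⟨i, hi, rfl⟩ := Finset.mem_image.1 hx
    exact hp.1 i (by rw [Finset.mem_range] at hi; omega)
  have hinj : ∀ i ∈ range (M + 1), ∀ j ∈ range (M + 1), p i = p j → i = j := by
    intro i hi j hj hij
    rw [Finset.mem_range] at hi hj
    exact hp.2.1 i (by omega) j (by omega) hij
  have hdP : Disjoint b1.Z (image p (range (M + 1))) := by
    rw [Finset.disjoint_left]
    intro x hx hx2
    exact (Finset.disjoint_left.1 hC1 hx) (hQC (hmemP x hx2))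
  have hOP : image p ((range (M + 1)).filter (fun i => Odd i)) ⊆ image p (range (M + 1)) :=
    Finset.image_subset_image (Finset.filter_subset _ _)
  have hdO : Disjoint b1.I (image p ((range (M + 1)).filter (fun i => Odd i))) :=
    Finset.disjoint_of_subset_left hIZ (Finset.disjoint_of_subset_right hOP hdP)
  have hp0 : p 0 ∈ nb G b1.Z Q := by rw [h1]; exact Finset.mem_singleton_self _
  have hadj0 : ∃ z ∈ b1.Z, G.Adj z (p 0) := (mem_nb.1 hp0).2
  have hcc' : CC G (b1.Z ∪ image p (range (M + 1))) := cc_path G hcc M p hp hadj0 M le_rfl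
  have hss : b1.Z ⊂ b1.Z ∪ image p (range (M + 1)) := by
    rw [Finset.ssubset_iff_of_subset Finset.subset_union_left]
    refine ⟨p 0, ?_, ?_⟩
    · rw [Finset.mem_union, Finset.mem_image]
      exact Or.inr ⟨0, by simp, rfl⟩
    · intro h0
      exact (Finset.disjoint_left.1 hC1 h0) (hQC (mem_nb.1 hp0).1)
  have hsub : b1.Z ∪ image p (range (M + 1)) ⊆ b1.Z ∪ C :=
    Finset.union_subset_union_right fun x hx => hQC (hmemP x hx)
  have hI : b1.I ∪ image p ((range (M + 1)).filter (fun i => Odd i))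
      ⊆ b1.Z ∪ image p (range (M + 1)) := Finset.union_subset_union hIZ hOP
  have hmix : ∀ x ∈ b1.I, ∀ i ∈ (range (M + 1)).filter (fun i => Odd i),
      ¬ G.Adj x (p i) ∧ ¬ F.Adj x (p i) := by
    intro x hx i hi
    rw [Finset.mem_filter, Finset.mem_range] at hi
    refine ⟨fun ha => ?_, hF1 x hx _ (hp.1 i (by omega))⟩
    have h2 : p i ∈ nb G b1.Z Q := mem_nb.2 ⟨hp.1 i (by omega), x, hIZ hx, ha⟩
    rw [h1, Finset.mem_singleton] at h2
    have h3 := hp.2.1 i (by omega) 0 (by omega) h2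
    obtain ⟨k, hk⟩ := hi.2
    omega
  have hHS' : HS G F (b1.I ∪ image p ((range (M + 1)).filter (fun i => Odd i))) := by
    intro u hu v hv
    rw [Finset.mem_union] at hu hv
    rcases hu with hu | hu <;> rcases hv with hv | hv
    · exact hHS u hu v hv
    · obtain ⟨i, hi, rfl⟩ := Finset.mem_image.1 hv
      exact hmix u hu i hi
    · obtain ⟨i, hi, rfl⟩ := Finset.mem_image.1 hu
      exact ⟨fun ha => (hmix v hv i hi).1 ha.symm, fun ha => (hmix v hv i hi).2 ha.symm⟩
    · obtain ⟨i, hi, rfl⟩ := Finset.mem_image.1 hu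
      obtain ⟨j, hj, rfl⟩ := Finset.mem_image.1 hv
      rw [Finset.mem_filter, Finset.mem_range] at hi hj
      refine ⟨fun ha => ?_, hQF _ (hp.1 i (by omega)) _ (hp.1 j (by omega))⟩
      obtain ⟨a, ha'⟩ := hi.2
      obtain ⟨b, hb'⟩ := hj.2
      have h2 := (hp.2.2 i (by omega) j (by omega)).1 ha
      omega
  have key := hm1 _ _ hss hsub hcc' hI hHS'
  rw [wt_union_disjoint hdP, wt_union_disjoint hdO] at key
  have e1 : wt w (image p (range (M + 1))) = ∑ i ∈ range (M + 1), w (p i) := by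
    unfold wt
    exact Finset.sum_image hinj
  have e2 : wt w (image p ((range (M + 1)).filter (fun i => Odd i)))
      = ∑ i ∈ (range (M + 1)).filter (fun i => Odd i), w (p i) := by
    unfold wt
    exact Finset.sum_image fun i hi j hj hij =>
      hinj i (Finset.mem_filter.1 hi).1 j (Finset.mem_filter.1 hj).1 hij
  have e3 := Finset.sum_filter_add_sum_filter_not (range (M + 1)) (fun i => Odd i)
    (fun i => w (p i))
  rw [e1, e2] at key
  linarith

end ParityAux

theorem parity (G F : SimpleGraph V) (w : V → ℝ) (C Q : Finset V) (hQC : Q ⊆ C)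
    (hQF : ∀ u ∈ Q, ∀ v ∈ Q, ¬ F.Adj u v) (b1 b2 : Blk V)
    (hg1 : Good G F w b1) (hg2 : Good G F w b2)
    (hC1 : Disjoint b1.Z C) (hC2 : Disjoint b2.Z C)
    (hm1 : Maxi G F w b1 C) (hm2 : Maxi G F w b2 C)
    (M : ℕ) (p : ℕ → V) (hp : IndPath G Q M p)
    (h1 : nb G b1.Z Q = {p 0}) (h2 : nb G b2.Z Q = {p M})
    (hF1 : ∀ x ∈ b1.I, ∀ y ∈ Q, ¬ F.Adj x y) (hF2 : ∀ x ∈ b2.I, ∀ y ∈ Q, ¬ F.Adj x y) :
    Even M := by
  by_contra hM
  rw [Nat.not_even_iff_odd] at hM
  have k1 := ParityAux.one_side G F w C Q hQC hQF b1 hg1 hC1 hm1 M p hp h1 hF1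
  have hq : IndPath G Q M (fun i => p (M - i)) := by
    refine ⟨fun i _ => hp.1 _ (by omega), fun i hi j hj hij => ?_, fun i hi j hj => ?_⟩
    · have h3 := hp.2.1 (M - i) (by omega) (M - j) (by omega) hij
      omega
    · rw [hp.2.2 (M - i) (by omega) (M - j) (by omega)]
      omega
  have k2 := ParityAux.one_side G F w C Q hQC hQF b2 hg2 hC2 hm2 M (fun i => p (M - i)) hq
    (by rw [h2]; simp) hF2
  obtain ⟨a, ha⟩ := hM
  have e1 : ∑ i ∈ (range (M + 1)).filter (fun i => Odd i), w (p (M - i))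
      = ∑ i ∈ (range (M + 1)).filter (fun i => ¬ Odd i), w (p i) := by
    refine Finset.sum_bij' (fun i _ => M - i) (fun i _ => M - i) ?_ ?_ ?_ ?_ ?_
    · intro i hi
      rw [Finset.mem_filter, Finset.mem_range] at hi ⊢
      obtain ⟨b, hb⟩ := hi.2
      refine ⟨by omega, ?_⟩
      rintro ⟨c, hc⟩
      omega
    · intro i hi
      rw [Finset.mem_filter, Finset.mem_range] at hi ⊢
      refine ⟨by omega, ?_⟩
      rw [Nat.not_odd_iff_even] at hi
      obtain ⟨b, hb⟩ := hi.2
      exact ⟨a - b, by omega⟩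
    · intro i hi
      rw [Finset.mem_filter, Finset.mem_range] at hi
      omega
    · intro i hi
      rw [Finset.mem_filter, Finset.mem_range] at hi
      omega
    · intro i _
      rfl
  have e2 : ∑ i ∈ (range (M + 1)).filter (fun i => ¬ Odd i), w (p (M - i))
      = ∑ i ∈ (range (M + 1)).filter (fun i => Odd i), w (p i) := by
    refine Finset.sum_bij' (fun i _ => M - i) (fun i _ => M - i) ?_ ?_ ?_ ?_ ?_
    · intro i hi
      rw [Finset.mem_filter, Finset.mem_range] at hi ⊢
      refine ⟨by omega, ?_⟩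
      rw [Nat.not_odd_iff_even] at hi
      obtain ⟨b, hb⟩ := hi.2
      exact ⟨a - b, by omega⟩
    · intro i hi
      rw [Finset.mem_filter, Finset.mem_range] at hi ⊢
      obtain ⟨b, hb⟩ := hi.2
      refine ⟨by omega, ?_⟩
      rintro ⟨c, hc⟩
      omega
    · intro i hi
      rw [Finset.mem_filter, Finset.mem_range] at hi
      omega
    · intro i hi
      rw [Finset.mem_filter, Finset.mem_range] at hi
      omega
    · intro i _
      rfl
  rw [e1, e2] at k2
  exact lt_asymm k1 k2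

end

end Pool.Agent.LHad
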