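import Mathlib
import Pool.Agent.Lib.LHad.Defs

/-!
# LHad.Reduce : deleting non-cut vertices with few private indices
-/

namespace Pool.Agent.LHad

open Finset

open scoped Classical

noncomputable section

variable {V : Type}

namespace ReduceAux

theorem aux {ι : Type} (G : SimpleGraph V) (m : ℕ) (T : ι → Finset V) :
    ∀ (n : ℕ) (Q' : Finset V), Q'.card = n → CC G Q' →
    ∀ J1 : Finset ι, (∀ j ∈ J1, (T j ∩ Q').Nonempty) →
    ∃ Q ⊆ Q', CC G Q ∧ ∃ J ⊆ J1, (J1 \ J).card ≤ m * Q'.card ∧
      (∀ j ∈ J, (T j ∩ Q).Nonempty) ∧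
      ∀ v ∈ Q, CC G (Q.erase v) → m < (J.filter (fun j => T j ∩ Q = {v})).card := by
  intro n
  induction n with
  | zero =>
    intro Q' hn hQ
    have := cc_nonempty hQ
    rw [Finset.card_eq_zero.1 hn] at this
    exact absurd rfl this.ne_empty
  | succ n ih =>
    intro Q' hn hQ J1 hT
    by_cases h : ∀ v ∈ Q', CC G (Q'.erase v) →
        m < (J1.filter (fun j => T j ∩ Q' = {v})).card
    · refine ⟨Q', Finset.Subset.refl _, hQ, J1, Finset.Subset.refl _, ?_, hT, h⟩
      rw [Finset.sdiff_self, Finset.card_empty]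
      exact Nat.zero_le _
    · push Not at h
      obtain ⟨v, hv, hcc, hcard⟩ := h
      have hn' : (Q'.erase v).card = n := by
        rw [Finset.card_erase_of_mem hv, hn]
        rfl
      obtain ⟨Q, hQ1, hQ2, J, hJ1, hJ2, hJ3, hJ4⟩ := ih (Q'.erase v) hn' hcc
        (J1.filter (fun j => T j ∩ Q' ≠ {v})) (by
          intro j hj
          rw [Finset.mem_filter] at hj
          obtain ⟨hj1, hj2⟩ := hj
          by_contra hne
          rw [Finset.not_nonempty_iff_eq_empty] at hne
          apply hj2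
          rw [Finset.eq_singleton_iff_nonempty_unique_mem]
          refine ⟨hT j hj1, fun x hx => ?_⟩
          by_contra hxv
          have : x ∈ T j ∩ Q'.erase v := by
            rw [Finset.mem_inter] at hx ⊢
            exact ⟨hx.1, Finset.mem_erase.2 ⟨hxv, hx.2⟩⟩
          rw [hne] at this
          exact absurd this (Finset.notMem_empty _))
      refine ⟨Q, hQ1.trans (Finset.erase_subset _ _), hQ2, J, hJ1.trans (Finset.filter_subset _ _),
        ?_, hJ3, hJ4⟩
      have hsub : J1 \ J ⊆ (J1.filter (fun j => T j ∩ Q' = {v})) ∪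
          ((J1.filter (fun j => T j ∩ Q' ≠ {v})) \ J) := by
        intro j hj
        rw [Finset.mem_sdiff] at hj
        rw [Finset.mem_union, Finset.mem_sdiff, Finset.mem_filter, Finset.mem_filter]
        by_cases hjv : T j ∩ Q' = {v}
        · left
          exact ⟨hj.1, hjv⟩
        · right
          exact ⟨⟨hj.1, hjv⟩, hj.2⟩
      have h1 := (Finset.card_le_card hsub).trans (Finset.card_union_le _ _)
      have h2 : m * (Q'.erase v).card + m = m * Q'.card := by
        rw [hn', hn]
        ring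
      omega

end ReduceAux

theorem reduce {ι : Type} (G : SimpleGraph V) (m : ℕ) (Q' : Finset V) (hQ : CC G Q')
    (J1 : Finset ι) (T : ι → Finset V) (hT : ∀ j ∈ J1, (T j ∩ Q').Nonempty) :
    ∃ Q ⊆ Q', CC G Q ∧ ∃ J ⊆ J1, (J1 \ J).card ≤ m * Q'.card ∧
      (∀ j ∈ J, (T j ∩ Q).Nonempty) ∧
      ∀ v ∈ Q, CC G (Q.erase v) → m < (J.filter (fun j => T j ∩ Q = {v})).card :=
  ReduceAux.aux G m T _ Q' rfl hQ J1 hT

end

end Pool.Agent.LHad
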