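import Mathlib
import Pool.Agent.Lib.LHad.Defs

/-!
# LHad.TouchD : a greedy stable set touches almost all active maximal blocks

Proof. Let `i` be a block with `a*Δ < (nb G (h i).Z C).card` and `(h i).Z` not touching `D`.
The set `X` of the vertices that have an `F`-neighbour in `D` has at most `D.card * Δ ≤ a*Δ` elements; so some
`u ∈ nb G (h i).Z C` is not in `X`.  `u ∉ D` (the block does not touch `D`; `u ∈ nb` has a neighbour `z` in `(h i).Z`).
By `hdom` there is `v ∈ D` with (`G.Adj u v` or `F.Adj u v`) and `w u ≤ w v`; `F.Adj u v` is impossible (`u ∉ X`), so `G.Adj u v`.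
Claim: `v` has an `F`-neighbour in `(h i).I`.  Otherwise put `Z' = (h i).Z ∪ {u, v}`, `I' = (h i).I ∪ {v}`.
`Z' ⊆ (h i).Z ∪ C`, `(h i).Z ⊂ Z'` (`u ∈ C` and `(h i).Z` is disjoint from `C`), `CC G Z'` (`u` is adjacent to `z`, `v` to `u`),
`I'` is `HS` (`v ∈ D` has no `G`-neighbour in `(h i).Z ⊇ (h i).I` as the block does not touch `D`; no `F`-neighbour by assumption),
and `2 wt I' = 2 wt I + 2 w v ≥ wt Z + w u + w v = wt Z'` (`u ≠ v` both outside `Z`).  This contradicts `Maxi`.
Hence the set of such `i` is contained in `⋃_{v ∈ D} {i : (h i).I contains an F-neighbour of v}`.  For fixed `v` the latter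
set has at most `Δ` elements: map `i` to an `F`-neighbour of `v` in `(h i).I ⊆ (h i).Z`; the `Z`'s are disjoint, so this is injective.
Total `≤ D.card * Δ ≤ a * Δ`.
-/

namespace Pool.Agent.LHad

open Finset

open scoped Classical

noncomputable section

variable {V : Type}

namespace TouchDAux

theorem cc_add {G : SimpleGraph V} {Z : Finset V} (hZ : CC G Z) {z u v : V} (hz : z ∈ Z)
    (hzu : G.Adj z u) (huv : G.Adj u v) : CC G (Z ∪ {u, v}) := by
  have h1 : (G.induce ((Z : Set V) ∪ {u, v})).Connected :=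
    SimpleGraph.connected_induce_union (v := z) (w := u) (s := (Z : Set V)) (t := {u, v})
      (SimpleGraph.Connected.preconnected hZ)
      (SimpleGraph.induce_pair_connected_of_adj huv).preconnected (by exact_mod_cast hz)
      (by simp) hzu
  have h2 : ((Z ∪ {u, v} : Finset V) : Set V) = (Z : Set V) ∪ {u, v} := by
    push_cast
    rfl
  unfold CC
  rw [h2]
  exact h1

theorem key (G F : SimpleGraph V) (w : V → ℝ) (a Δ : ℕ) [Fintype V] (hF : DegLe F Δ)
    (C D : Finset V) (hD : D ⊆ C) (hDa : D.card ≤ a)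
    (hdom : ∀ u ∈ C, u ∉ D → ∃ v ∈ D, (G.Adj u v ∨ F.Adj u v) ∧ w u ≤ w v)
    (b : Blk V) (hgood : Good G F w b) (hC : Disjoint b.Z C) (hmax : Maxi G F w b C)
    (hbig : a * Δ < (nb G b.Z C).card) (hnt : ¬ Touch G b.Z D) :
    ∃ v ∈ D, ∃ f ∈ b.I, F.Adj v f := by
  obtain ⟨hIZ, hcc, hHS, hwt⟩ := hgood
  -- the vertex `u`
  obtain ⟨u, hu, huX⟩ : ∃ u ∈ nb G b.Z C, ∀ v ∈ D, ¬ F.Adj u v := by
    by_contra hc
    push Not at hc
    have hsub : nb G b.Z C ⊆ D.biUnion (fun v => univ.filter (fun u => F.Adj v u)) := by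
      intro u hu
      obtain ⟨v, hv, huv⟩ := hc u hu
      rw [mem_biUnion]
      exact ⟨v, hv, mem_filter.2 ⟨mem_univ _, huv.symm⟩⟩
    have h1 := (card_le_card hsub).trans (card_biUnion_le_card_mul D _ Δ fun v _ => hF v)
    have h2 : D.card * Δ ≤ a * Δ := Nat.mul_le_mul_right Δ hDa
    omega
  rw [mem_nb] at hu
  obtain ⟨huC, z, hz, hzu⟩ := hu
  have huD : u ∉ D := fun h => hnt ⟨z, hz, u, h, hzu⟩
  obtain ⟨v, hv, huv, hwuv⟩ := hdom u huC huD
  have huvG : G.Adj u v := by
    rcases huv with h | h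
    · exact h
    · exact absurd h (huX v hv)
  refine ⟨v, hv, ?_⟩
  by_contra hc
  push Not at hc
  have hvZ : v ∉ b.Z := fun h => (Finset.disjoint_left.1 hC h) (hD hv)
  have huZ : u ∉ b.Z := fun h => (Finset.disjoint_left.1 hC h) huC
  have hne : u ≠ v := huvG.ne
  have hvI : v ∉ b.I := fun h => hvZ (hIZ h)
  have h1 : b.Z ⊂ b.Z ∪ {u, v} := by
    rw [Finset.ssubset_iff_of_subset Finset.subset_union_left]
    exact ⟨u, by simp, huZ⟩
  have h2 : b.Z ∪ {u, v} ⊆ b.Z ∪ C := by
    apply Finset.union_subset_union_right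
    intro x hx
    rw [mem_insert, mem_singleton] at hx
    rcases hx with rfl | rfl
    · exact huC
    · exact hD hv
  have h3 : CC G (b.Z ∪ {u, v}) := cc_add hcc hz hzu huvG
  have h4 : b.I ∪ {v} ⊆ b.Z ∪ {u, v} := by
    apply Finset.union_subset_union hIZ
    simp
  have hGv : ∀ x ∈ b.I, ¬ G.Adj x v := fun x hx h => hnt ⟨x, hIZ hx, v, hv, h⟩
  have h5 : HS G F (b.I ∪ {v}) := by
    intro x hx y hy
    rw [mem_union, mem_singleton] at hx hy
    rcases hx with hx | rfl <;> rcases hy with hy | rfl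
    · exact hHS x hx y hy
    · exact ⟨hGv x hx, fun h => hc x hx h.symm⟩
    · exact ⟨fun h => hGv y hy h.symm, fun h => hc y hy h⟩
    · exact ⟨G.loopless.irrefl _, F.loopless.irrefl _⟩
  have h6 := hmax _ _ h1 h2 h3 h4 h5
  have h7 : wt w (b.I ∪ {v}) = wt w b.I + w v := by
    rw [wt_union_disjoint (by simpa using hvI)]
    simp [wt]
  have h8 : wt w (b.Z ∪ {u, v}) = wt w b.Z + (w u + w v) := by
    rw [wt_union_disjoint]
    · congr 1
      unfold wt
      rw [sum_insert (by simpa using hne), sum_singleton]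
    · rw [Finset.disjoint_right]
      intro x hx
      rw [mem_insert, mem_singleton] at hx
      rcases hx with rfl | rfl
      · exact huZ
      · exact hvZ
  rw [h7, h8] at h6
  linarith

theorem fibre {k Δ : ℕ} [Fintype V] (F : SimpleGraph V) (hF : DegLe F Δ) (h : Fin k → Blk V)
    (hIZ : ∀ i, (h i).I ⊆ (h i).Z) (hdis : ∀ i j, i ≠ j → Disjoint (h i).Z (h j).Z) (v : V) :
    (univ.filter (fun i : Fin k => ∃ f ∈ (h i).I, F.Adj v f)).card ≤ Δ := by
  refine le_trans ?_ (hF v)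
  apply Finset.card_le_card_of_injOn
    (fun i : Fin k => if hi : ∃ f ∈ (h i).I, F.Adj v f then hi.choose else v)
  · intro i hi
    have hi' := (mem_filter.1 hi).2
    show (if hi : ∃ f ∈ (h i).I, F.Adj v f then hi.choose else v) ∈ _
    rw [dif_pos hi']
    exact mem_filter.2 ⟨mem_univ _, hi'.choose_spec.2⟩
  · intro i hi j hj hij
    have hi' := (mem_filter.1 hi).2
    have hj' := (mem_filter.1 hj).2
    change (if hi : ∃ f ∈ (h i).I, F.Adj v f then hi.choose else v) =
      (if hi : ∃ f ∈ (h j).I, F.Adj v f then hi.choose else v) at hij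
    rw [dif_pos hi', dif_pos hj'] at hij
    by_contra hne
    have h1 : hi'.choose ∈ (h i).Z := hIZ i hi'.choose_spec.1
    have h2 : hj'.choose ∈ (h j).Z := hIZ j hj'.choose_spec.1
    rw [hij] at h1
    exact Finset.disjoint_left.1 (hdis i j hne) h1 h2

end TouchDAux

open TouchDAux in
theorem touchD [Fintype V] (G F : SimpleGraph V) (w : V → ℝ) (a Δ k : ℕ) (hF : DegLe F Δ)
    (C D : Finset V) (hD : D ⊆ C) (hDa : D.card ≤ a)
    (hdom : ∀ u ∈ C, u ∉ D → ∃ v ∈ D, (G.Adj u v ∨ F.Adj u v) ∧ w u ≤ w v)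
    (h : Fin k → Blk V) (hgood : ∀ i, Good G F w (h i))
    (hdis : ∀ i j, i ≠ j → Disjoint (h i).Z (h j).Z) (hC : ∀ i, Disjoint (h i).Z C)
    (hmax : ∀ i, Maxi G F w (h i) C) :
    (univ.filter (fun i : Fin k => a * Δ < (nb G (h i).Z C).card ∧
      ¬ Touch G (h i).Z D)).card ≤ a * Δ := by
  have hsub : (univ.filter (fun i : Fin k => a * Δ < (nb G (h i).Z C).card ∧
      ¬ Touch G (h i).Z D)) ⊆
      D.biUnion (fun v => univ.filter (fun i : Fin k => ∃ f ∈ (h i).I, F.Adj v f)) := by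
    intro i hi
    obtain ⟨h1, h2⟩ := (mem_filter.1 hi).2
    obtain ⟨v, hv, f, hf, hvf⟩ := key G F w a Δ hF C D hD hDa hdom (h i) (hgood i) (hC i)
      (hmax i) h1 h2
    rw [mem_biUnion]
    exact ⟨v, hv, mem_filter.2 ⟨mem_univ _, f, hf, hvf⟩⟩
  refine (card_le_card hsub).trans ?_
  refine (card_biUnion_le_card_mul D _ Δ fun v _ => fibre F hF h (fun i => (hgood i).1) hdis v).trans ?_
  exact Nat.mul_le_mul_right Δ hDa

end

end Pool.Agent.LHad
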