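import Mathlib
import Pool.Agent.Lib.LHad.Defs
import Pool.Agent.Lib.LHad.Greedy
import Pool.Agent.Lib.LHad.ConnQ
import Pool.Agent.Lib.LHad.TouchD
import Pool.Agent.Lib.LHad.Reduce
import Pool.Agent.Lib.LHad.Bip
import Pool.Agent.Lib.LHad.Parity
import Pool.Agent.Lib.LHad.Extend

/-!
# LHad.Carve : carving a block out of a robustly connected set

All imports are black boxes.
Proof. `C` is nonempty (`hrob` with `Y = ∅`).  `D0` from `greedy`; `D0.card ≤ a` by `hA`; `D0` is nonempty (otherwise a vertex of `C` would need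
a partner in `D0`).  `connQ` gives `Q' ⊇ D0`, connected, `F`-free, `Q'.card ≤ 3a`.
`J1 =` the indices `i` with `a*Δ < (nb G (h i).Z C).card` and `Touch G (h i).Z D0`.  By `touchD` at most `a*Δ` of the active indices are not in `J1`.
Apply `reduce` with `m = 3*a*Δ`, `T i = nb G (h i).Z C` (it meets `Q'` for `i ∈ J1` because `D0 ⊆ Q'`): `Q`, `J`, `(J1 \ J).card ≤ 9 a² Δ`.
`T i ∩ Q = nb G (h i).Z Q` since `Q ⊆ C`.
Private blocks: let `v ∈ Q` with `CC G (Q.erase v)`.  More than `3aΔ` indices `i ∈ J` have `nb G (h i).Z Q = {v}`.  The number of `i` such that some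
`x ∈ (h i).I` is `F`-adjacent to some `y ∈ Q` is at most `Q.card * Δ ≤ 3aΔ` (for each `y` at most `Δ` blocks, as the `Z`'s are disjoint).
So there is `i_v` with `nb G (h i_v).Z Q = {v}` and no `F`-edge between `(h i_v).I` and `Q`.
`bip` with `hpar` from `parity` (`b1 = h i_{p 0}`, `b2 = h i_{p M}`) gives `S ⊆ Q` with `S`, `Q \ S` both `GS`, hence `HS` (`Q` is `F`-free).
One of them has at least half of the weight of `Q`; `extend` gives the block `x`.
`x.Z ⊇ Q` touches every `(h i).Z`, `i ∈ J` (`T i ∩ Q` nonempty; mind the symmetry of `Touch`: a vertex `c ∈ Q` with a neighbour `z ∈ (h i).Z`).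
So the active indices not touching `x.Z` are among the at most `aΔ` ones outside `J1` and the at most `9a²Δ` ones in `J1 \ J`:
`aΔ + 9a²Δ ≤ 10 a² Δ` as `a ≥ 1` (`a ≥ 1` because a singleton of `C` is `HS`).
-/

namespace Pool.Agent.LHad

open Finset

open scoped Classical

noncomputable section

variable {V : Type}

namespace CarveAux

/-- the blocks with an `F`-edge from `I` to `Q`: at most `Q.card * Δ` -/
theorem badF [Fintype V] (F : SimpleGraph V) (Δ k : ℕ) (hF : DegLe F Δ) (Q : Finset V)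
    (h : Fin k → Blk V) (hI : ∀ i, (h i).I ⊆ (h i).Z)
    (hdis : ∀ i j, i ≠ j → Disjoint (h i).Z (h j).Z) :
    (univ.filter (fun i : Fin k => ∃ x ∈ (h i).I, ∃ y ∈ Q, F.Adj x y)).card ≤ Q.card * Δ := by
  have hsub : (univ.filter (fun i : Fin k => ∃ x ∈ (h i).I, ∃ y ∈ Q, F.Adj x y)) ⊆
      Q.biUnion (fun y => univ.filter (fun i : Fin k => ∃ x ∈ (h i).I, F.Adj y x)) := by
    intro i hi
    rw [Finset.mem_filter] at hi
    obtain ⟨_, x, hx, y, hy, hxy⟩ := hi
    rw [Finset.mem_biUnion]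
    exact ⟨y, hy, by rw [Finset.mem_filter]; exact ⟨Finset.mem_univ _, x, hx, hxy.symm⟩⟩
  refine (Finset.card_le_card hsub).trans ?_
  refine Finset.card_biUnion_le_card_mul _ _ _ ?_
  intro y _
  -- injection i ↦ a chosen neighbour
  have hch : ∀ i : Fin k, ∃ x : V, i ∈ (univ.filter (fun i : Fin k => ∃ x ∈ (h i).I, F.Adj y x)) →
      x ∈ (h i).I ∧ F.Adj y x := by
    intro i
    by_cases hi : i ∈ (univ.filter (fun i : Fin k => ∃ x ∈ (h i).I, F.Adj y x))
    · have hi' := hi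
      rw [Finset.mem_filter] at hi'
      obtain ⟨_, x, hx, hyx⟩ := hi'
      exact ⟨x, fun _ => ⟨hx, hyx⟩⟩
    · exact ⟨y, fun h' => absurd h' hi⟩
  choose f hf using hch
  refine (Finset.card_le_card_of_injOn f ?_ ?_).trans (hF y)
  · intro i hi
    have := (hf i hi).2
    simp only [Finset.coe_filter, Finset.mem_univ, true_and, Set.mem_ofPred_eq]
    exact this
  · intro i hi j hj hij
    by_contra hne
    have h1 := hI i (hf i hi).1
    have h2 := hI j (hf j hj).1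
    rw [hij] at h1
    exact (Finset.disjoint_left.1 (hdis i j hne)) h1 h2

end CarveAux

theorem carve [Fintype V] (G F : SimpleGraph V) (w : V → ℝ) (a Δ k : ℕ)
    (hGF : ∀ u v, F.Adj u v → ¬ G.Adj u v) (hF : DegLe F Δ) (C : Finset V)
    (hA : ∀ S ⊆ C, HS G F S → S.card ≤ a) (hrob : Rob G (3 * a * Δ) C)
    (h : Fin k → Blk V) (hgood : ∀ i, Good G F w (h i))
    (hdis : ∀ i j, i ≠ j → Disjoint (h i).Z (h j).Z) (hC : ∀ i, Disjoint (h i).Z C)
    (hmax : ∀ i, Maxi G F w (h i) C) :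
    ∃ x : Blk V, x.Z ⊆ C ∧ Good G F w x ∧ Maxi G F w x (C \ x.Z) ∧
      (univ.filter (fun i : Fin k => a * Δ < (nb G (h i).Z C).card ∧
        ¬ Touch G (h i).Z x.Z)).card ≤ 10 * a ^ 2 * Δ := by
  have hCne : C.Nonempty := by
    have := hrob ∅ (Finset.empty_subset _) (by simp)
    rw [Finset.sdiff_empty] at this
    exact cc_nonempty this
  obtain ⟨c0, hc0⟩ := hCne
  have ha : 1 ≤ a := by
    have := hA {c0} (by simpa using hc0) (hs_singleton c0)
    simpa using this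
  obtain ⟨D0, hD0C, hD0H, hD0dom⟩ := greedy G F w C
  have hD0a : D0.card ≤ a := hA D0 hD0C hD0H
  have hD0ne : D0.Nonempty := by
    by_cases h0 : c0 ∈ D0
    · exact ⟨c0, h0⟩
    · obtain ⟨v, hv, _⟩ := hD0dom c0 hc0 h0
      exact ⟨v, hv⟩
  obtain ⟨Q', hDQ, hQ'C, hQ'cc, hQ'F, hQ'card⟩ := connQ G F a Δ hGF hF C D0 hrob hD0C hD0ne hD0a
    (fun u hu v hv => (hD0H u hu v hv).2) (fun u hu hnu => by
      obtain ⟨v, hv, h1, _⟩ := hD0dom u hu hnu
      exact ⟨v, hv, h1⟩)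
  have htd := touchD G F w a Δ k hF C D0 hD0C hD0a hD0dom h hgood hdis hC hmax
  obtain ⟨Q, hQQ', hQcc, J, hJJ1, hJcard, hJne, hpriv⟩ := reduce G (3 * a * Δ) Q' hQ'cc
    (univ.filter (fun i : Fin k => a * Δ < (nb G (h i).Z C).card ∧ Touch G (h i).Z D0))
    (fun i => nb G (h i).Z C) (by
      intro j hj
      rw [Finset.mem_filter] at hj
      obtain ⟨_, _, z, hz, x, hx, hzx⟩ := hj
      refine ⟨x, ?_⟩
      rw [Finset.mem_inter, mem_nb]
      exact ⟨⟨hD0C hx, z, hz, hzx⟩, hDQ hx⟩)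
  have hQC : Q ⊆ C := hQQ'.trans hQ'C
  have hQF : ∀ u ∈ Q, ∀ v ∈ Q, ¬ F.Adj u v := fun u hu v hv => hQ'F u (hQQ' hu) v (hQQ' hv)
  have hQcard : Q.card ≤ 3 * a := (Finset.card_le_card hQQ').trans hQ'card
  have hTQ : ∀ i, nb G (h i).Z C ∩ Q = nb G (h i).Z Q := by
    intro i
    ext c
    rw [Finset.mem_inter, mem_nb, mem_nb]
    constructor
    · rintro ⟨⟨_, hz⟩, hcQ⟩
      exact ⟨hcQ, hz⟩
    · rintro ⟨hcQ, hz⟩
      exact ⟨⟨hQC hcQ, hz⟩, hcQ⟩
  -- private blocks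
  have hprivate : ∀ v ∈ Q, CC G (Q.erase v) → ∃ i : Fin k, nb G (h i).Z Q = {v} ∧
      ∀ x ∈ (h i).I, ∀ y ∈ Q, ¬ F.Adj x y := by
    intro v hv hcc
    have h1 := hpriv v hv hcc
    have h2 := CarveAux.badF F Δ k hF Q h (fun i => (hgood i).1) hdis
    have h3 : (univ.filter (fun i : Fin k => ∃ x ∈ (h i).I, ∃ y ∈ Q, F.Adj x y)).card <
        (J.filter (fun j => nb G (h j).Z C ∩ Q = {v})).card := by
      refine lt_of_le_of_lt (h2.trans ?_) h1
      exact Nat.mul_le_mul_right _ hQcard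
    obtain ⟨i, hi1, hi2⟩ := Finset.exists_mem_notMem_of_card_lt_card h3
    rw [Finset.mem_filter] at hi1
    refine ⟨i, ?_, ?_⟩
    · rw [← hTQ i]; exact hi1.2
    · intro x hx y hy hxy
      apply hi2
      rw [Finset.mem_filter]
      exact ⟨Finset.mem_univ _, x, hx, y, hy, hxy⟩
  -- bipartition
  obtain ⟨S, hSQ, hS1, hS2⟩ := bip G Q hQcc (by
    intro M p hp hM h0 hMM
    obtain ⟨i1, hi1, hi1'⟩ := hprivate (p 0) (hp.1 0 (Nat.zero_le _)) h0
    obtain ⟨i2, hi2, hi2'⟩ := hprivate (p M) (hp.1 M le_rfl) hMM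
    exact parity G F w C Q hQC hQF (h i1) (h i2) (hgood i1) (hgood i2) (hC i1) (hC i2)
      (hmax i1) (hmax i2) M p hp hi1 hi2 hi1' hi2')
  -- half of the weight
  have hhalf : ∃ I ⊆ Q, HS G F I ∧ wt w Q ≤ 2 * wt w I := by
    have hsum : wt w Q = wt w S + wt w (Q \ S) := by
      rw [← wt_union_disjoint (Finset.disjoint_sdiff), Finset.union_sdiff_of_subset hSQ]
    by_cases hle : wt w (Q \ S) ≤ wt w S
    · refine ⟨S, hSQ, ?_, by linarith⟩
      intro u hu v hv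
      exact ⟨hS1 u hu v hv, hQF u (hSQ hu) v (hSQ hv)⟩
    · push Not at hle
      refine ⟨Q \ S, Finset.sdiff_subset, ?_, by linarith⟩
      intro u hu v hv
      exact ⟨hS2 u hu v hv, hQF u (Finset.sdiff_subset hu) v (Finset.sdiff_subset hv)⟩
  obtain ⟨I, hIQ, hIH, hIw⟩ := hhalf
  obtain ⟨x, hQx, hxC, hxg, hxm⟩ := extend G F w C Q I hQC hQcc hIQ hIH hIw
  refine ⟨x, hxC, hxg, hxm, ?_⟩
  have hsub : (univ.filter (fun i : Fin k => a * Δ < (nb G (h i).Z C).card ∧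
        ¬ Touch G (h i).Z x.Z)) ⊆
      (univ.filter (fun i : Fin k => a * Δ < (nb G (h i).Z C).card ∧
        ¬ Touch G (h i).Z D0)) ∪
      ((univ.filter (fun i : Fin k => a * Δ < (nb G (h i).Z C).card ∧ Touch G (h i).Z D0)) \ J) := by
    intro i hi
    rw [Finset.mem_filter] at hi
    obtain ⟨_, hi1, hi2⟩ := hi
    rw [Finset.mem_union, Finset.mem_sdiff, Finset.mem_filter, Finset.mem_filter]
    by_cases hT : Touch G (h i).Z D0
    · right
      refine ⟨⟨Finset.mem_univ _, hi1, hT⟩, ?_⟩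
      intro hiJ
      obtain ⟨c, hc⟩ := hJne i hiJ
      rw [hTQ i, mem_nb] at hc
      obtain ⟨hcQ, z, hz, hzc⟩ := hc
      exact hi2 ⟨z, hz, c, hQx hcQ, hzc⟩
    · left
      exact ⟨Finset.mem_univ _, hi1, hT⟩
  refine (Finset.card_le_card hsub).trans ((Finset.card_union_le _ _).trans ?_)
  have e1 : 3 * a * Δ * Q'.card ≤ 9 * a ^ 2 * Δ := by
    have : 3 * a * Δ * Q'.card ≤ 3 * a * Δ * (3 * a) := Nat.mul_le_mul_left _ hQ'card
    nlinarith
  have e2 : a * Δ ≤ a ^ 2 * Δ := by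
    have : a ≤ a ^ 2 := by nlinarith
    exact Nat.mul_le_mul_right _ this
  have e3 : 10 * a ^ 2 * Δ = a ^ 2 * Δ + 9 * a ^ 2 * Δ := by ring
  rw [e3]
  refine Nat.add_le_add (htd.trans e2) ?_
  refine le_trans (le_of_eq ?_) (hJcard.trans e1)
  refine congrArg Finset.card ?_
  ext i
  simp only [Finset.mem_sdiff, Finset.mem_filter]

end

end Pool.Agent.LHad
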