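import Mathlib
import Pool.Agent.Lib.LHad.Defs

/-!
# LHad.RunCarve : prepending a carved block to a run

New functions `Fin.cons x b`, `Fin.cons C D` on `Fin (m+1)`; the history of the given run is
`Fin.snoc h x` on `Fin (k+1)`. Proof field by field.
-/

namespace Pool.Agent.LHad

open Finset

open scoped Classical

noncomputable section

variable {V : Type}

namespace RunCarveAux

theorem card_cons {m : ℕ} (p : Fin (m + 1) → Prop) [DecidablePred p] :
    (univ.filter p).card = (if p 0 then 1 else 0) + (univ.filter (fun i : Fin m => p i.succ)).card := by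
  rw [Finset.card_filter, Fin.sum_univ_succ, Finset.card_filter]

theorem card_snoc {m : ℕ} (p : Fin (m + 1) → Prop) [DecidablePred p] :
    (univ.filter p).card
      = (univ.filter (fun i : Fin m => p i.castSucc)).card + (if p (Fin.last m) then 1 else 0) := by
  rw [Finset.card_filter, Fin.sum_univ_castSucc, Finset.card_filter]

end RunCarveAux

open RunCarveAux

theorem runCarve (G F : SimpleGraph V) (w : V → ℝ) (θ μ κ k : ℕ) (h : Fin k → Blk V)
    (C : Finset V) (x : Blk V) (m : ℕ) (b : Fin m → Blk V) (D : Fin m → Finset V)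
    (hxC : x.Z ⊆ C) (hxg : Good G F w x)
    (hxn : (univ.filter (fun i : Fin k => θ < (nb G (h i).Z C).card ∧
        ¬ Touch G (h i).Z x.Z)).card ≤ μ)
    (hrun : Run G F w θ μ κ (Fin.snoc (α := fun _ => Blk V) h x) (C \ x.Z) m b D) :
    Run G F w θ μ κ h C (m + 1) (Fin.cons (α := fun _ => Blk V) x b)
      (Fin.cons (α := fun _ => Finset V) C D) := by
  have hsub : ∀ j : Fin (m + 1), ((Fin.cons (α := fun _ => Blk V) x b : Fin (m + 1) → Blk V) j).Z ⊆
      (Fin.cons (α := fun _ => Finset V) C D : Fin (m + 1) → Finset V) j ∧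
      (Fin.cons (α := fun _ => Finset V) C D : Fin (m + 1) → Finset V) j ⊆ C := by
    intro j
    refine Fin.cases ?_ (fun j => ?_) j
    · simp only [Fin.cons_zero]
      exact ⟨hxC, Finset.Subset.refl _⟩
    · simp only [Fin.cons_succ]
      exact ⟨(hrun.sub j).1, (hrun.sub j).2.trans Finset.sdiff_subset⟩
  have hsep : ∀ i j : Fin (m + 1), i < j →
      Disjoint ((Fin.cons (α := fun _ => Blk V) x b : Fin (m + 1) → Blk V) i).Z
        ((Fin.cons (α := fun _ => Finset V) C D : Fin (m + 1) → Finset V) j) ∧
      ((Fin.cons (α := fun _ => Finset V) C D : Fin (m + 1) → Finset V) j ⊆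
        (Fin.cons (α := fun _ => Finset V) C D : Fin (m + 1) → Finset V) i ∨
        ¬ Touch G ((Fin.cons (α := fun _ => Blk V) x b : Fin (m + 1) → Blk V) i).Z
          ((Fin.cons (α := fun _ => Finset V) C D : Fin (m + 1) → Finset V) j)) := by
    intro i j hij
    obtain ⟨j, rfl⟩ := Fin.exists_succ_eq_of_ne_zero (Fin.ne_zero_of_lt hij)
    revert hij
    refine Fin.cases ?_ (fun i => ?_) i
    · intro _
      simp only [Fin.cons_zero, Fin.cons_succ]
      have hD := (hrun.sub j).2
      refine ⟨?_, Or.inl (hD.trans Finset.sdiff_subset)⟩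
      exact Disjoint.mono_right hD Finset.disjoint_sdiff
    · intro hij
      simp only [Fin.cons_succ]
      exact hrun.sep i j (Fin.succ_lt_succ_iff.mp hij)
  have hC1 : 1 ≤ alph G C := by
    refine one_le_alph ?_
    obtain ⟨v, hv⟩ := cc_nonempty hxg.2.1
    exact ⟨v, hxC hv⟩
  have hmono : alph G (C \ x.Z) ≤ alph G C := alph_mono Finset.sdiff_subset
  refine ⟨hsub, ?_, hsep, ?_, ?_, ?_, ?_⟩
  · intro j
    refine Fin.cases ?_ (fun j => ?_) j
    · simpa only [Fin.cons_zero] using hxg
    · simpa only [Fin.cons_succ] using hrun.good j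
  · intro j
    refine Fin.cases ?_ (fun j => ?_) j
    · have h0 : (univ.filter (fun i : Fin (m + 1) => i < 0 ∧
          θ < (nb G ((Fin.cons (α := fun _ => Blk V) x b : Fin (m + 1) → Blk V) i).Z
            ((Fin.cons (α := fun _ => Finset V) C D : Fin (m + 1) → Finset V) 0)).card ∧
          ¬ Touch G ((Fin.cons (α := fun _ => Blk V) x b : Fin (m + 1) → Blk V) i).Z
            ((Fin.cons (α := fun _ => Blk V) x b : Fin (m + 1) → Blk V) 0).Z)) = ∅ := by
        rw [Finset.filter_eq_empty_iff]
        intro i _ hi
        exact absurd hi.1 (Fin.not_lt_zero i)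
      rw [h0, Finset.card_empty, add_zero]
      simpa only [Fin.cons_zero] using hxn
    · have hn := hrun.near j
      rw [card_snoc] at hn
      rw [card_cons (m := m)]
      simp only [Fin.snoc_castSucc, Fin.snoc_last] at hn
      simp only [Fin.cons_zero, Fin.cons_succ, Fin.succ_lt_succ_iff, Fin.succ_pos, true_and]
      omega
  · intro i
    by_cases hθ : θ < (nb G (h i).Z C).card
    · have hc := hrun.confH (Fin.castSucc i)
      simp only [Fin.snoc_castSucc] at hc
      rw [card_cons (m := m)]
      simp only [Fin.cons_zero, Fin.cons_succ, hθ, not_true_eq_false, false_and, if_false, zero_add]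
      exact hc.trans (Nat.mul_le_mul_left _ hmono)
    · have hcard : (nb G (h i).Z C).card ≤ θ := Nat.le_of_not_lt hθ
      have hbd : (univ.filter (fun j : Fin (m + 1) =>
          ¬ (θ < (nb G (h i).Z ((Fin.cons (α := fun _ => Finset V) C D :
              Fin (m + 1) → Finset V) j)).card) ∧
            Touch G (h i).Z ((Fin.cons (α := fun _ => Blk V) x b :
              Fin (m + 1) → Blk V) j).Z)).card ≤ (nb G (h i).Z C).card := by
        have hex : ∀ j : Fin (m + 1),
            Touch G (h i).Z ((Fin.cons (α := fun _ => Blk V) x b : Fin (m + 1) → Blk V) j).Z →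
            ∃ v, v ∈ ((Fin.cons (α := fun _ => Blk V) x b : Fin (m + 1) → Blk V) j).Z ∧
              v ∈ nb G (h i).Z C := by
          rintro j ⟨z, hz, v, hv, hadj⟩
          exact ⟨v, hv, mem_nb.mpr ⟨(hsub j).2 ((hsub j).1 hv), z, hz, hadj⟩⟩
        have hV : ∀ j : Fin (m + 1), ∃ v : V,
            Touch G (h i).Z ((Fin.cons (α := fun _ => Blk V) x b : Fin (m + 1) → Blk V) j).Z →
            v ∈ ((Fin.cons (α := fun _ => Blk V) x b : Fin (m + 1) → Blk V) j).Z ∧
              v ∈ nb G (h i).Z C := by
          intro j
          by_cases ht : Touch G (h i).Z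
              ((Fin.cons (α := fun _ => Blk V) x b : Fin (m + 1) → Blk V) j).Z
          · obtain ⟨v, hv⟩ := hex j ht
            exact ⟨v, fun _ => hv⟩
          · obtain ⟨v, hv⟩ := cc_nonempty hxg.2.1
            exact ⟨v, fun h => absurd h ht⟩
        choose f hf using hV
        refine Finset.card_le_card_of_injOn f ?_ ?_
        · intro j hj
          have hj' := (Finset.mem_filter.mp (Finset.mem_coe.mp hj)).2.2
          exact (hf j hj').2
        · intro j1 hj1 j2 hj2 heq
          have h1 := (hf j1 (Finset.mem_filter.mp (Finset.mem_coe.mp hj1)).2.2).1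
          have h2 := (hf j2 (Finset.mem_filter.mp (Finset.mem_coe.mp hj2)).2.2).1
          rcases lt_trichotomy j1 j2 with hlt | heq' | hlt
          · exfalso
            have hd := (hsep j1 j2 hlt).1
            rw [Finset.disjoint_left] at hd
            exact hd h1 ((hsub j2).1 (heq ▸ h2))
          · exact heq'
          · exfalso
            have hd := (hsep j2 j1 hlt).1
            rw [Finset.disjoint_left] at hd
            exact hd h2 ((hsub j1).1 (heq ▸ h1))
      calc _ ≤ (nb G (h i).Z C).card := hbd
        _ ≤ θ := hcard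
        _ ≤ (θ + 1) * alph G C := by
            calc θ ≤ θ + 1 := Nat.le_succ θ
              _ = (θ + 1) * 1 := (Nat.mul_one _).symm
              _ ≤ (θ + 1) * alph G C := Nat.mul_le_mul_left _ hC1
  · intro i
    refine Fin.cases ?_ (fun i => ?_) i
    · have hc := hrun.confH (Fin.last k)
      simp only [Fin.snoc_last] at hc
      rw [card_cons (m := m)]
      simp only [Fin.cons_zero, Fin.cons_succ, lt_self_iff_false, false_and, if_false, zero_add,
        Fin.succ_pos, true_and]
      exact hc.trans (Nat.mul_le_mul_left _ hmono)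
    · have hc := hrun.confB i
      rw [card_cons (m := m)]
      simp only [Fin.cons_succ, Fin.succ_lt_succ_iff, Fin.not_lt_zero, false_and, if_false,
        zero_add]
      exact hc.trans (Nat.mul_le_mul_left _ hmono)
  · have hE : C \ univ.biUnion (fun j : Fin (m + 1) =>
        ((Fin.cons (α := fun _ => Blk V) x b : Fin (m + 1) → Blk V) j).Z)
        = (C \ x.Z) \ univ.biUnion (fun j => (b j).Z) := by
      ext v
      simp only [Finset.mem_sdiff, Finset.mem_biUnion, Finset.mem_univ, true_and, Fin.exists_fin_succ,
        Fin.cons_zero, Fin.cons_succ]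
      tauto
    rw [hE]
    refine hrun.del.trans (Nat.mul_le_mul_left _ ?_)
    omega

end

end Pool.Agent.LHad
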