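import Mathlib
import Pool.Agent.Lib.LHad.Defs
import Pool.Agent.Lib.LHad.AlphSub

/-!
# LHad.RunSplit : concatenating the runs of two parts that do not touch

`AlphSub` is a black box.  Blocks `Fin.append b1 b2`, sets `Fin.append D1 D2` on `Fin (m1 + m2)`.
Proof, field by field (`Fin.addCases`): `sub`, `good` clear.
* `sep`, `i` in part 1, `j` in part 2: `(b1 i).Z ⊆ C1`, `D2 j ⊆ C2` are disjoint and do not touch.  `i` in part 2, `j` in part 1 contradicts `i < j`.
* `near`: `j` in part 1: only `i` in part 1 can be `< j`.  `j` in part 2: for `i` in part 1 `nb G (b1 i).Z (D2 j) = ∅` (no touching), so `θ < 0` is false.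
* `confH`: the count is the sum of the two counts `≤ (θ+1) * alph C1 + (θ+1) * alph C2 ≤ (θ+1) * alph C` (`alph_add`).
* `confB`: `i` in part 1: the `j`'s in part 2 do not touch it.  `i` in part 2: `j > i` is in part 2.
* `del`: the deleted set is contained in `(C \ (C1 ∪ C2)) ∪ (C1 \ ⋃) ∪ (C2 \ ⋃)`; `κ + κ(2α1 - 1) + κ(2α2 - 1) = κ(2(α1+α2) - 1) ≤ κ(2 alph C - 1)`,
  because `α1, α2 ≥ 1` (`one_le_alph`).
-/

namespace Pool.Agent.LHad

open Finset

open scoped Classical

noncomputable section

variable {V : Type}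

namespace RunSplitAux

theorem card_filter_add {m1 m2 : ℕ} (P : Fin (m1 + m2) → Prop) [DecidablePred P] :
    (univ.filter P).card = (univ.filter (fun i : Fin m1 => P (Fin.castAdd m2 i))).card +
      (univ.filter (fun j : Fin m2 => P (Fin.natAdd m1 j))).card := by
  rw [Finset.card_filter, Finset.card_filter, Finset.card_filter, Fin.sum_univ_add]

theorem card_zero {α : Type*} [Fintype α] (P : α → Prop) [DecidablePred P] (h : ∀ i, ¬ P i) :
    (univ.filter P).card = 0 := by
  rw [Finset.card_eq_zero, Finset.filter_eq_empty_iff]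
  intro i _
  exact h i

theorem card_mono {α : Type*} [Fintype α] (P Q : α → Prop) [DecidablePred P] [DecidablePred Q]
    (h : ∀ i, P i → Q i) : (univ.filter P).card ≤ (univ.filter Q).card := by
  refine Finset.card_le_card ?_
  intro i hi
  rw [Finset.mem_filter] at hi ⊢
  exact ⟨hi.1, h i hi.2⟩

theorem ca_lt {m1 m2 : ℕ} (i j : Fin m1) : Fin.castAdd m2 i < Fin.castAdd m2 j ↔ i < j := by
  rw [Fin.lt_def, Fin.lt_def, Fin.val_castAdd, Fin.val_castAdd]

theorem na_lt {m1 m2 : ℕ} (i j : Fin m2) : Fin.natAdd m1 i < Fin.natAdd m1 j ↔ i < j := by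
  rw [Fin.lt_def, Fin.lt_def, Fin.val_natAdd, Fin.val_natAdd]
  omega

theorem ca_na {m1 m2 : ℕ} (i : Fin m1) (j : Fin m2) : Fin.castAdd m2 i < Fin.natAdd m1 j := by
  simp only [Fin.lt_def, Fin.val_castAdd, Fin.val_natAdd]
  omega

theorem na_ca {m1 m2 : ℕ} (i : Fin m2) (j : Fin m1) :
    ¬ Fin.natAdd m1 i < Fin.castAdd m2 j := by
  simp only [Fin.lt_def, Fin.val_castAdd, Fin.val_natAdd]
  omega

end RunSplitAux

theorem runSplit (G F : SimpleGraph V) (w : V → ℝ) (θ μ κ k : ℕ) (h : Fin k → Blk V)
    (C C1 C2 : Finset V) (h1 : C1 ⊆ C) (h2 : C2 ⊆ C) (hd : Disjoint C1 C2)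
    (hn : ¬ Touch G C1 C2) (hne1 : C1.Nonempty) (hne2 : C2.Nonempty)
    (hκ : (C \ (C1 ∪ C2)).card ≤ κ)
    (m1 m2 : ℕ) (b1 : Fin m1 → Blk V) (D1 : Fin m1 → Finset V)
    (b2 : Fin m2 → Blk V) (D2 : Fin m2 → Finset V)
    (hr1 : Run G F w θ μ κ h C1 m1 b1 D1) (hr2 : Run G F w θ μ κ h C2 m2 b2 D2) :
    Run G F w θ μ κ h C (m1 + m2) (Fin.append b1 b2) (Fin.append D1 D2) := by
  have hT : ∀ (Z X : Finset V), Z ⊆ C1 → X ⊆ C2 → ¬ Touch G Z X := by
    rintro Z X hZ hX ⟨z, hz, x, hx, hzx⟩
    exact hn ⟨z, hZ hz, x, hX hx, hzx⟩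
  have hnb : ∀ (Z X : Finset V), Z ⊆ C1 → X ⊆ C2 → (nb G Z X).card = 0 := by
    intro Z X hZ hX
    rw [Finset.card_eq_zero, Finset.eq_empty_iff_forall_notMem]
    intro c hc
    rw [mem_nb] at hc
    obtain ⟨hc1, z, hz, hzc⟩ := hc
    exact hT Z X hZ hX ⟨z, hz, c, hc1, hzc⟩
  have hb1 : ∀ i, (b1 i).Z ⊆ C1 := fun i => (hr1.sub i).1.trans (hr1.sub i).2
  have hb2 : ∀ i, (b2 i).Z ⊆ C2 := fun i => (hr2.sub i).1.trans (hr2.sub i).2
  have hadd := alph_add G C C1 C2 h1 h2 hd hn
  refine ⟨?_, ?_, ?_, ?_, ?_, ?_, ?_⟩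
  · intro j
    refine Fin.addCases (fun j => ?_) (fun j => ?_) j
    · rw [Fin.append_left, Fin.append_left]
      exact ⟨(hr1.sub j).1, (hr1.sub j).2.trans h1⟩
    · rw [Fin.append_right, Fin.append_right]
      exact ⟨(hr2.sub j).1, (hr2.sub j).2.trans h2⟩
  · intro j
    refine Fin.addCases (fun j => ?_) (fun j => ?_) j
    · rw [Fin.append_left]
      exact hr1.good j
    · rw [Fin.append_right]
      exact hr2.good j
  · intro i j
    refine Fin.addCases (fun i => ?_) (fun i => ?_) i
    · refine Fin.addCases (fun j => ?_) (fun j => ?_) j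
      · intro hij
        rw [RunSplitAux.ca_lt] at hij
        rw [Fin.append_left, Fin.append_left, Fin.append_left]
        exact hr1.sep i j hij
      · intro _
        rw [Fin.append_left, Fin.append_left, Fin.append_right]
        refine ⟨?_, Or.inr (hT _ _ (hb1 i) (hr2.sub j).2)⟩
        exact Finset.disjoint_of_subset_left (hb1 i)
          (Finset.disjoint_of_subset_right (hr2.sub j).2 hd)
    · refine Fin.addCases (fun j => ?_) (fun j => ?_) j
      · intro hij
        exact absurd hij (RunSplitAux.na_ca i j)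
      · intro hij
        rw [RunSplitAux.na_lt] at hij
        rw [Fin.append_right, Fin.append_right, Fin.append_right]
        exact hr2.sep i j hij
  · intro j
    rw [RunSplitAux.card_filter_add]
    refine Fin.addCases (fun j => ?_) (fun j => ?_) j
    · have e0 : (univ.filter (fun i : Fin m2 => Fin.natAdd m1 i < Fin.castAdd m2 j ∧
          θ < (nb G (Fin.append b1 b2 (Fin.natAdd m1 i)).Z
            (Fin.append D1 D2 (Fin.castAdd m2 j))).card ∧
          ¬ Touch G (Fin.append b1 b2 (Fin.natAdd m1 i)).Z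
            (Fin.append b1 b2 (Fin.castAdd m2 j)).Z)).card = 0 :=
        RunSplitAux.card_zero _ (fun i hi => RunSplitAux.na_ca i j hi.1)
      rw [e0, Nat.add_zero]
      refine le_trans (add_le_add ?_ ?_) (hr1.near j)
      · refine RunSplitAux.card_mono _ _ ?_
        intro i hi
        rw [Fin.append_left, Fin.append_left] at hi
        exact hi
      · refine RunSplitAux.card_mono _ _ ?_
        intro i hi
        rw [Fin.append_left, Fin.append_left, Fin.append_left, RunSplitAux.ca_lt] at hi
        exact hi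
    · have e0 : (univ.filter (fun i : Fin m1 => Fin.castAdd m2 i < Fin.natAdd m1 j ∧
          θ < (nb G (Fin.append b1 b2 (Fin.castAdd m2 i)).Z
            (Fin.append D1 D2 (Fin.natAdd m1 j))).card ∧
          ¬ Touch G (Fin.append b1 b2 (Fin.castAdd m2 i)).Z
            (Fin.append b1 b2 (Fin.natAdd m1 j)).Z)).card = 0 := by
        refine RunSplitAux.card_zero _ (fun i hi => ?_)
        have := hi.2.1
        rw [Fin.append_left, Fin.append_right, hnb _ _ (hb1 i) (hr2.sub j).2] at this
        omega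
      rw [e0, Nat.zero_add]
      refine le_trans (add_le_add ?_ ?_) (hr2.near j)
      · refine RunSplitAux.card_mono _ _ ?_
        intro i hi
        rw [Fin.append_right, Fin.append_right] at hi
        exact hi
      · refine RunSplitAux.card_mono _ _ ?_
        intro i hi
        rw [Fin.append_right, Fin.append_right, Fin.append_right, RunSplitAux.na_lt] at hi
        exact hi
  · intro i
    rw [RunSplitAux.card_filter_add]
    have e1 : (θ + 1) * alph G C1 + (θ + 1) * alph G C2 ≤ (θ + 1) * alph G C := by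
      rw [← mul_add]
      exact Nat.mul_le_mul_left _ hadd
    refine le_trans (add_le_add ?_ ?_) e1
    · refine le_trans (RunSplitAux.card_mono _ _ ?_) (hr1.confH i)
      intro j hj
      rw [Fin.append_left, Fin.append_left] at hj
      exact hj
    · refine le_trans (RunSplitAux.card_mono _ _ ?_) (hr2.confH i)
      intro j hj
      rw [Fin.append_right, Fin.append_right] at hj
      exact hj
  · intro i
    rw [RunSplitAux.card_filter_add]
    refine Fin.addCases (fun i => ?_) (fun i => ?_) i
    · have e0 : (univ.filter (fun j : Fin m2 => Fin.castAdd m2 i < Fin.natAdd m1 j ∧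
          ¬ (θ < (nb G (Fin.append b1 b2 (Fin.castAdd m2 i)).Z
            (Fin.append D1 D2 (Fin.natAdd m1 j))).card) ∧
          Touch G (Fin.append b1 b2 (Fin.castAdd m2 i)).Z
            (Fin.append b1 b2 (Fin.natAdd m1 j)).Z)).card = 0 := by
        refine RunSplitAux.card_zero _ (fun j hj => ?_)
        have := hj.2.2
        rw [Fin.append_left, Fin.append_right] at this
        exact hT _ _ (hb1 i) (hb2 j) this
      rw [e0, Nat.add_zero]
      refine le_trans (le_trans (RunSplitAux.card_mono _ _ ?_) (hr1.confB i))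
        (Nat.mul_le_mul_left _ (alph_mono h1))
      intro j hj
      rw [Fin.append_left, Fin.append_left, Fin.append_left, RunSplitAux.ca_lt] at hj
      exact hj
    · have e0 : (univ.filter (fun j : Fin m1 => Fin.natAdd m1 i < Fin.castAdd m2 j ∧
          ¬ (θ < (nb G (Fin.append b1 b2 (Fin.natAdd m1 i)).Z
            (Fin.append D1 D2 (Fin.castAdd m2 j))).card) ∧
          Touch G (Fin.append b1 b2 (Fin.natAdd m1 i)).Z
            (Fin.append b1 b2 (Fin.castAdd m2 j)).Z)).card = 0 :=
        RunSplitAux.card_zero _ (fun j hj => RunSplitAux.na_ca i j hj.1)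
      rw [e0, Nat.zero_add]
      refine le_trans (le_trans (RunSplitAux.card_mono _ _ ?_) (hr2.confB i))
        (Nat.mul_le_mul_left _ (alph_mono h2))
      intro j hj
      rw [Fin.append_right, Fin.append_right, Fin.append_right, RunSplitAux.na_lt] at hj
      exact hj
  · have a1 : 1 ≤ alph G C1 := one_le_alph hne1
    have a2 : 1 ≤ alph G C2 := one_le_alph hne2
    have hsub : C \ univ.biUnion (fun j => (Fin.append b1 b2 j).Z) ⊆
        (C \ (C1 ∪ C2)) ∪ ((C1 \ univ.biUnion (fun j => (b1 j).Z)) ∪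
          (C2 \ univ.biUnion (fun j => (b2 j).Z))) := by
      intro c hc
      rw [Finset.mem_sdiff, Finset.mem_biUnion] at hc
      obtain ⟨hcC, hc2⟩ := hc
      rw [Finset.mem_union, Finset.mem_union, Finset.mem_sdiff, Finset.mem_sdiff,
        Finset.mem_sdiff, Finset.mem_union, Finset.mem_biUnion, Finset.mem_biUnion]
      by_cases hc1 : c ∈ C1
      · right; left
        refine ⟨hc1, ?_⟩
        rintro ⟨j, _, hj⟩
        refine hc2 ⟨Fin.castAdd m2 j, Finset.mem_univ _, ?_⟩
        rw [Fin.append_left]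
        exact hj
      · by_cases hc3 : c ∈ C2
        · right; right
          refine ⟨hc3, ?_⟩
          rintro ⟨j, _, hj⟩
          refine hc2 ⟨Fin.natAdd m1 j, Finset.mem_univ _, ?_⟩
          rw [Fin.append_right]
          exact hj
        · left
          exact ⟨hcC, fun h => h.elim hc1 hc3⟩
    have hc := (Finset.card_le_card hsub).trans (Finset.card_union_le _ _)
    have hc2 := Finset.card_union_le (C1 \ univ.biUnion (fun j => (b1 j).Z))
          (C2 \ univ.biUnion (fun j => (b2 j).Z))
    have d1 := hr1.del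
    have d2 := hr2.del
    have e2 : κ + (κ * (2 * alph G C1 - 1) + κ * (2 * alph G C2 - 1)) =
        κ * (2 * (alph G C1 + alph G C2) - 1) := by
      obtain ⟨u, hu⟩ := Nat.exists_eq_add_of_le a1
      obtain ⟨v, hv⟩ := Nat.exists_eq_add_of_le a2
      rw [hu, hv]
      have t1 : 2 * (1 + u) - 1 = 2 * u + 1 := by omega
      have t2 : 2 * (1 + v) - 1 = 2 * v + 1 := by omega
      have t3 : 2 * (1 + u + (1 + v)) - 1 = 2 * u + 2 * v + 3 := by omega
      rw [t1, t2, t3]
      ring
    have e3 : κ * (2 * (alph G C1 + alph G C2) - 1) ≤ κ * (2 * alph G C - 1) :=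
      Nat.mul_le_mul_left _ (by omega)
    omega

end

end Pool.Agent.LHad
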