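import Mathlib
import Pool.Agent.Lib.LHad.Defs
import Pool.Agent.Lib.LHad.Carve
import Pool.Agent.Lib.LHad.AlphSub
import Pool.Agent.Lib.LHad.RunCarve
import Pool.Agent.Lib.LHad.RunSplit

/-!
# LHad.Assemble : a complete run exists

All imports are black boxes.
Proof. Strong induction on `C.card`, for all `k`, `h`.
* `C = ∅`: `m = 0` (`Fin.elim0`), everything is empty.
* `Rob G (3aΔ) C`: `carve` gives `x`; `x.Z` is nonempty.  Apply the induction hypothesis to `C \ x.Z` with the history `Fin.snoc h x`: goodness, disjointness
  (`x.Z ⊆ C` is disjoint from the `(h i).Z`), disjointness from `C \ x.Z`, `Maxi.mono`.  Then `runCarve`.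
* not robust: `not_rob_split`.  Either `C.card ≤ 3aΔ`: `m = 0`; `del`: `C.card ≤ κ ≤ κ(2 alph C - 1)` since `alph C ≥ 1` for `C ≠ ∅`.
  Or `C \ Y = C1 ∪ C2`: both are smaller than `C`; induction hypothesis for both with the same history, then `runSplit`
  (`C \ (C1 ∪ C2) ⊆ Y`).
-/

namespace Pool.Agent.LHad

open Finset

open scoped Classical

noncomputable section

variable {V : Type}

private theorem run_empty [Fintype V] (G F : SimpleGraph V) (w : V → ℝ) (θ μ κ : ℕ) {k : ℕ}
    (h : Fin k → Blk V) (C : Finset V) (hC : C.card ≤ κ * (2 * alph G C - 1)) :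
    Run G F w θ μ κ h C 0 (fun i => i.elim0) (fun i => i.elim0) where
  sub j := j.elim0
  good j := j.elim0
  sep i := i.elim0
  near j := j.elim0
  confH i := by simp
  confB i := i.elim0
  del := by simpa using hC

theorem assemble [Fintype V] (G F : SimpleGraph V) (w : V → ℝ) (a Δ : ℕ)
    (hGF : ∀ u v, F.Adj u v → ¬ G.Adj u v) (hF : DegLe F Δ) (C : Finset V)
    (hA : ∀ S ⊆ C, HS G F S → S.card ≤ a) (k : ℕ)
    (h : Fin k → Blk V) (hgood : ∀ i, Good G F w (h i))
    (hdis : ∀ i j, i ≠ j → Disjoint (h i).Z (h j).Z) (hC : ∀ i, Disjoint (h i).Z C)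
    (hmax : ∀ i, Maxi G F w (h i) C) :
    ∃ (m : ℕ) (b : Fin m → Blk V) (D : Fin m → Finset V),
      Run G F w (a * Δ) (10 * a ^ 2 * Δ) (3 * a * Δ) h C m b D := by
  induction hn : C.card using Nat.strong_induction_on generalizing C k h with
  | _ n ih =>
    subst hn
    rcases Finset.eq_empty_or_nonempty C with rfl | hCne
    · exact ⟨0, fun i => i.elim0, fun i => i.elim0, run_empty G F w _ _ _ h ∅ (by simp)⟩
    have halph : 1 ≤ alph G C := one_le_alph hCne
    by_cases hrob : Rob G (3 * a * Δ) C
    · obtain ⟨x, hxC, hxg, hxm, hxn⟩ :=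
        carve G F w a Δ k hGF hF C hA hrob h hgood hdis hC hmax
      have hxne : x.Z.Nonempty := cc_nonempty hxg.2.1
      have hcard : (C \ x.Z).card < C.card := by
        apply Finset.card_lt_card
        refine ⟨Finset.sdiff_subset, fun hsub => ?_⟩
        obtain ⟨v, hv⟩ := hxne
        have := hsub (hxC hv)
        exact (Finset.mem_sdiff.1 this).2 hv
      obtain ⟨m, b, D, hrun⟩ := ih _ hcard (C \ x.Z)
        (fun S hS hHS => hA S (hS.trans Finset.sdiff_subset) hHS) (k + 1)
        (Fin.snoc (α := fun _ => Blk V) h x)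
        (fun i => by
          refine Fin.lastCases ?_ (fun i => ?_) i
          · rw [Fin.snoc_last]; exact hxg
          · rw [Fin.snoc_castSucc]; exact hgood i)
        (fun i j => by
          refine Fin.lastCases ?_ (fun i => ?_) i
          · refine Fin.lastCases ?_ (fun j => ?_) j
            · intro hne; exact absurd rfl hne
            · intro _
              rw [Fin.snoc_last, Fin.snoc_castSucc]
              exact ((hC j).mono_right hxC).symm
          · refine Fin.lastCases ?_ (fun j => ?_) j
            · intro _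
              rw [Fin.snoc_last, Fin.snoc_castSucc]
              exact (hC i).mono_right hxC
            · intro hne
              rw [Fin.snoc_castSucc, Fin.snoc_castSucc]
              exact hdis i j (fun hij => hne (by rw [hij])))
        (fun i => by
          refine Fin.lastCases ?_ (fun i => ?_) i
          · rw [Fin.snoc_last]; exact Finset.disjoint_sdiff
          · rw [Fin.snoc_castSucc]; exact (hC i).mono_right Finset.sdiff_subset)
        (fun i => by
          refine Fin.lastCases ?_ (fun i => ?_) i
          · rw [Fin.snoc_last]; exact hxm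
          · rw [Fin.snoc_castSucc]; exact (hmax i).mono Finset.sdiff_subset)
        rfl
      exact ⟨m + 1, _, _, runCarve G F w _ _ _ k h C x m b D hxC hxg hxn hrun⟩
    · rcases not_rob_split G (3 * a * Δ) C hrob with hsmall | ⟨Y, C1, C2, hYC, hYc, hU, hd, hne1,
        hne2, hnt⟩
      · refine ⟨0, fun i => i.elim0, fun i => i.elim0, run_empty G F w _ _ _ h C ?_⟩
        have : 1 ≤ 2 * alph G C - 1 := by omega
        exact hsmall.trans (Nat.le_mul_of_pos_right _ this)
      · have h1 : C1 ⊆ C := fun v hv => by
          have : v ∈ C \ Y := hU ▸ Finset.mem_union_left _ hv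
          exact (Finset.mem_sdiff.1 this).1
        have h2 : C2 ⊆ C := fun v hv => by
          have : v ∈ C \ Y := hU ▸ Finset.mem_union_right _ hv
          exact (Finset.mem_sdiff.1 this).1
        have hc1 : C1.card < C.card := by
          apply Finset.card_lt_card
          refine ⟨h1, fun hsub => ?_⟩
          obtain ⟨v, hv⟩ := hne2
          exact Finset.disjoint_left.1 hd (hsub (h2 hv)) hv
        have hc2 : C2.card < C.card := by
          apply Finset.card_lt_card
          refine ⟨h2, fun hsub => ?_⟩
          obtain ⟨v, hv⟩ := hne1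
          exact Finset.disjoint_left.1 hd hv (hsub (h1 hv))
        obtain ⟨m1, b1, D1, hr1⟩ := ih _ hc1 C1 (fun S hS hHS => hA S (hS.trans h1) hHS) k h hgood
          hdis (fun i => (hC i).mono_right h1) (fun i => (hmax i).mono h1) rfl
        obtain ⟨m2, b2, D2, hr2⟩ := ih _ hc2 C2 (fun S hS hHS => hA S (hS.trans h2) hHS) k h hgood
          hdis (fun i => (hC i).mono_right h2) (fun i => (hmax i).mono h2) rfl
        refine ⟨m1 + m2, _, _, runSplit G F w _ _ _ k h C C1 C2 h1 h2 hd hnt hne1 hne2 ?_ m1 m2
          b1 D1 b2 D2 hr1 hr2⟩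
        rw [hU]
        refine (Finset.card_le_card fun v hv => ?_).trans hYc
        simp only [Finset.mem_sdiff, not_and, not_not] at hv
        exact hv.2 hv.1

end

end Pool.Agent.LHad
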