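import Mathlib
import Pool.Agent.Lib.LHad.Defs

/-!
# LHad.BSum : the sum `B_A` is close to `|A|`

Notation `c = |I ∩ A|`, sums over all `I` with `c ≥ 1`.
`∑ c x(I) = ∑_{v ∈ A} ∑_{I ∋ v} x(I) = |A|` (`cov`).  `∑_{c ≥ 2} x(I) ≤ ∑_{u,v ∈ A, u ≠ v} ∑_{I ∋ u,v} x(I) ≤ |A|² δ` (`cod`; each such `I` contains an ordered pair).
Upper bound: `x(I) q^(c-1) ≤ c x(I) + [c ≥ 2] q^s x(I)` (`c ≤ s` if `x I ≠ 0`), so `B_A ≤ |A| + q^s |A|² δ`.
Lower bound: `q^(c-1) ≥ 1 ≥ c - [c ≥ 2] s`, so `B_A ≥ |A| - s |A|² δ`.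
Both errors are at most `q^s * s * |A|² * δ` (`s ≥ 1`, `q ≥ 1`, `δ ≥ 0`).
-/

namespace Pool.Agent.LHad

open Finset

open scoped Classical

noncomputable section

variable {V : Type}

namespace BSumAux

theorem sum_card [Fintype V] (x : Finset V → ℝ) (s : ℕ) (δ : ℝ)
    (hx : Frac x s δ) (A : Finset V) :
    ∑ I ∈ (univ : Finset (Finset V)).filter (fun I => (I ∩ A).Nonempty),
      ((I ∩ A).card : ℝ) * x I = A.card := by
  have h1 : ∑ I ∈ (univ : Finset (Finset V)).filter (fun I => (I ∩ A).Nonempty),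
      ((I ∩ A).card : ℝ) * x I = ∑ I : Finset V, ((I ∩ A).card : ℝ) * x I := by
    refine Finset.sum_subset (Finset.filter_subset _ _) ?_
    intro I _ hI
    rw [Finset.mem_filter] at hI
    have : ¬ (I ∩ A).Nonempty := fun h => hI ⟨Finset.mem_univ _, h⟩
    rw [Finset.not_nonempty_iff_eq_empty] at this
    rw [this]
    simp
  rw [h1]
  have h2 : ∀ I : Finset V, ((I ∩ A).card : ℝ) * x I = ∑ v ∈ A, if v ∈ I then x I else 0 := by
    intro I
    rw [← Finset.sum_filter, Finset.sum_const, nsmul_eq_mul]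
    congr 2
    congr 1
    ext v
    simp [Finset.mem_inter, and_comm]
  rw [Finset.sum_congr rfl (fun I _ => h2 I), Finset.sum_comm]
  have h3 : ∀ v ∈ A, ∑ I : Finset V, (if v ∈ I then x I else 0) = 1 := by
    intro v _
    rw [← Finset.sum_filter]
    exact hx.cov v
  rw [Finset.sum_congr rfl h3]
  simp

theorem sum_two [Fintype V] (x : Finset V → ℝ) (s : ℕ) (δ : ℝ) (hδ : 0 ≤ δ)
    (hx : Frac x s δ) (A : Finset V) :
    ∑ I : Finset V, (if 2 ≤ (I ∩ A).card then x I else 0) ≤ (A.card : ℝ) ^ 2 * δ := by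
  have h1 : ∀ I : Finset V, (if 2 ≤ (I ∩ A).card then x I else 0) ≤
      ∑ p ∈ A.offDiag, (if p.1 ∈ I ∧ p.2 ∈ I then x I else 0) := by
    intro I
    have hnn : ∀ p ∈ A.offDiag, (0 : ℝ) ≤ (if p.1 ∈ I ∧ p.2 ∈ I then x I else 0) := by
      intro p _
      split_ifs
      · exact hx.nonneg I
      · exact le_rfl
    by_cases h : 2 ≤ (I ∩ A).card
    · rw [if_pos h]
      obtain ⟨u, hu, v, hv, huv⟩ := Finset.one_lt_card.1 h
      rw [Finset.mem_inter] at hu hv
      have hm : (u, v) ∈ A.offDiag := by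
        rw [Finset.mem_offDiag]
        exact ⟨hu.2, hv.2, huv⟩
      have := Finset.single_le_sum hnn hm
      simp only [hu.1, hv.1, and_self, if_true] at this
      exact this
    · rw [if_neg h]
      exact Finset.sum_nonneg hnn
  refine (Finset.sum_le_sum (fun I _ => h1 I)).trans ?_
  rw [Finset.sum_comm]
  have h2 : ∀ p ∈ A.offDiag, ∑ I : Finset V, (if p.1 ∈ I ∧ p.2 ∈ I then x I else 0) ≤ δ := by
    intro p hp
    rw [Finset.mem_offDiag] at hp
    rw [← Finset.sum_filter]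
    exact hx.cod p.1 p.2 hp.2.2
  refine (Finset.sum_le_sum h2).trans ?_
  rw [Finset.sum_const, nsmul_eq_mul]
  refine mul_le_mul_of_nonneg_right ?_ hδ
  have h3 : A.offDiag.card ≤ A.card * A.card := by
    rw [Finset.offDiag_card]
    exact Nat.sub_le _ _
  calc (A.offDiag.card : ℝ) ≤ ((A.card * A.card : ℕ) : ℝ) := by exact_mod_cast h3
    _ = (A.card : ℝ) ^ 2 := by push_cast; ring

theorem term [Fintype V] (x : Finset V → ℝ) (s : ℕ) (hs : 1 ≤ s) (δ : ℝ)
    (hx : Frac x s δ) (q : ℝ) (hq : 1 ≤ q) (A I : Finset V) (hI : (I ∩ A).Nonempty) :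
    |x I * q ^ ((I ∩ A).card - 1) - ((I ∩ A).card : ℝ) * x I| ≤
      (q ^ s * s) * (if 2 ≤ (I ∩ A).card then x I else 0) := by
  have hc : 1 ≤ (I ∩ A).card := Finset.card_pos.2 hI
  by_cases h : 2 ≤ (I ∩ A).card
  · rw [if_pos h]
    by_cases h0 : x I = 0
    · rw [h0]
      simp
    · have hle : (I ∩ A).card ≤ s :=
        (Finset.card_le_card Finset.inter_subset_left).trans (hx.supp I h0).2
      have hxn := hx.nonneg I
      have hq1 : q ^ ((I ∩ A).card - 1) ≤ q ^ s := pow_le_pow_right₀ hq (by omega)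
      have hq0 : 1 ≤ q ^ ((I ∩ A).card - 1) := one_le_pow₀ hq
      have hqs : (1 : ℝ) ≤ q ^ s := one_le_pow₀ hq
      have hsr : (1 : ℝ) ≤ s := by exact_mod_cast hs
      have hcs : ((I ∩ A).card : ℝ) ≤ s := by exact_mod_cast hle
      have hc0 : (0 : ℝ) ≤ ((I ∩ A).card : ℝ) := Nat.cast_nonneg _
      have e : x I * q ^ ((I ∩ A).card - 1) - ((I ∩ A).card : ℝ) * x I =
          (q ^ ((I ∩ A).card - 1) - ((I ∩ A).card : ℝ)) * x I := by ring
      rw [e, abs_mul, abs_of_nonneg hxn]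
      refine mul_le_mul_of_nonneg_right ?_ hxn
      rw [abs_le]
      constructor
      · nlinarith
      · nlinarith
  · have h1 : (I ∩ A).card = 1 := by omega
    rw [if_neg h, h1]
    simp

end BSumAux

theorem bSum [Fintype V] (x : Finset V → ℝ) (s : ℕ) (hs : 1 ≤ s) (δ : ℝ) (hδ : 0 ≤ δ)
    (hx : Frac x s δ) (q : ℝ) (hq : 1 ≤ q) (A : Finset V) :
    |BA x q A - A.card| ≤ q ^ s * s * (A.card : ℝ) ^ 2 * δ := by
  have hqs : (0 : ℝ) ≤ q ^ s * s := by
    have : (0 : ℝ) ≤ q := by linarith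
    positivity
  rw [← BSumAux.sum_card x s δ hx A]
  unfold BA
  rw [← Finset.sum_sub_distrib]
  refine (Finset.abs_sum_le_sum_abs _ _).trans ?_
  refine (Finset.sum_le_sum (fun I hI =>
    BSumAux.term x s hs δ hx q hq A I (Finset.mem_filter.1 hI).2)).trans ?_
  rw [← Finset.mul_sum, mul_assoc (q ^ s * (s : ℝ))]
  refine mul_le_mul_of_nonneg_left ?_ hqs
  refine le_trans ?_ (BSumAux.sum_two x s δ hδ hx A) |>.trans ?_
  · refine Finset.sum_le_sum_of_subset_of_nonneg (Finset.filter_subset _ _) ?_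
    intro I _ _
    split_ifs
    · exact hx.nonneg I
    · exact le_rfl
  · rw [BSumAux.sum_card x s δ hx A]

end

end Pool.Agent.LHad
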