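import Mathlib
import Pool.Agent.Lib.LHad.Defs

/-!
# LHad.Colour : greedy colouring with few monochromatic conflicts (pure combinatorics)

Proof. Induction on `m`; colour `m` last.  `c` is defined on `range m`.  The set `P` of the colours `< N0 + τ` not used on `A m` has at least `τ` elements
(`(A m).card ≤ N0`).  `∑_{γ ∈ P} #{i ∈ K m : c i = γ} ≤ (K m).card`, so some `γ ∈ P` has `τ * #{i ∈ K m : c i = γ} ≤ (K m).card`.
Put `c m = γ` (`Function.update`); the values on `range m` do not change, and `A j, K j ⊆ range j`.
-/

namespace Pool.Agent.LHad

open Finset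

open scoped Classical

noncomputable section

variable {V : Type}

theorem colour (N0 τ m : ℕ) (hτ : 1 ≤ τ) (A K : ℕ → Finset ℕ)
    (hA : ∀ j < m, A j ⊆ range j ∧ (A j).card ≤ N0) (hK : ∀ j < m, K j ⊆ range j) :
    ∃ c : ℕ → ℕ, (∀ j < m, c j < N0 + τ) ∧ (∀ j < m, ∀ i ∈ A j, c i ≠ c j) ∧
      τ * ∑ j ∈ range m, ((K j).filter (fun i => c i = c j)).card ≤
        ∑ j ∈ range m, (K j).card := by
  induction m with
  | zero => exact ⟨fun _ => 0, by simp, by simp, by simp⟩
  | succ m ih =>
    obtain ⟨c, hc1, hc2, hc3⟩ := ih (fun j hj => hA j (by omega)) (fun j hj => hK j (by omega))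
    obtain ⟨hAm, hAc⟩ := hA m (by omega)
    have hKm := hK m (by omega)
    obtain ⟨g, hgP, hg⟩ : ∃ g ∈ range (N0 + τ) \ (A m).image c,
        τ * ((K m).filter (fun i => c i = g)).card ≤ (K m).card := by
      by_contra hcon
      push Not at hcon
      have hP : τ ≤ (range (N0 + τ) \ (A m).image c).card := by
        have h1 := Finset.le_card_sdiff ((A m).image c) (range (N0 + τ))
        rw [Finset.card_range] at h1
        have h2 : ((A m).image c).card ≤ N0 := Finset.card_image_le.trans hAc
        omega
      have h3 : ∑ g ∈ range (N0 + τ) \ (A m).image c, ((K m).filter (fun i => c i = g)).card ≤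
          (K m).card := by
        rw [← Finset.card_biUnion]
        · refine Finset.card_le_card ?_
          intro i hi
          rw [Finset.mem_biUnion] at hi
          obtain ⟨g, -, hg⟩ := hi
          exact (Finset.mem_filter.1 hg).1
        · intro g _ g' _ hne
          refine Finset.disjoint_left.2 ?_
          intro i hi hi'
          rw [Finset.mem_filter] at hi hi'
          exact hne (hi.2.symm.trans hi'.2)
      have h4 : ∑ g ∈ range (N0 + τ) \ (A m).image c, ((K m).card + 1) ≤
          ∑ g ∈ range (N0 + τ) \ (A m).image c,
            τ * ((K m).filter (fun i => c i = g)).card :=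
        Finset.sum_le_sum (fun g hg => hcon g hg)
      rw [Finset.sum_const, smul_eq_mul, ← Finset.mul_sum] at h4
      have h5 : τ * ((K m).card + 1) ≤
          (range (N0 + τ) \ (A m).image c).card * ((K m).card + 1) :=
        Nat.mul_le_mul_right _ hP
      have h6 : τ * ∑ g ∈ range (N0 + τ) \ (A m).image c,
          ((K m).filter (fun i => c i = g)).card ≤ τ * (K m).card :=
        Nat.mul_le_mul_left _ h3
      nlinarith
    rw [Finset.mem_sdiff, Finset.mem_range] at hgP
    have hne : ∀ j < m, Function.update c m g j = c j := fun j hj =>
      Function.update_of_ne (by omega) _ _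
    have hself : Function.update c m g m = g := Function.update_self _ _ _
    refine ⟨Function.update c m g, ?_, ?_, ?_⟩
    · intro j hj
      rcases Nat.lt_succ_iff_lt_or_eq.1 hj with h | h
      · rw [hne j h]
        exact hc1 j h
      · subst h
        rw [hself]
        exact hgP.1
    · intro j hj i hi
      rcases Nat.lt_succ_iff_lt_or_eq.1 hj with h | h
      · have hij : i < j := Finset.mem_range.1 ((hA j hj).1 hi)
        rw [hne j h, hne i (by omega)]
        exact hc2 j h i hi
      · subst h
        have hij : i < j := Finset.mem_range.1 (hAm hi)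
        rw [hself, hne i hij]
        intro he
        exact hgP.2 (Finset.mem_image.2 ⟨i, hi, he⟩)
    · rw [Finset.sum_range_succ, Finset.sum_range_succ, mul_add]
      refine Nat.add_le_add ?_ ?_
      · refine le_trans (le_of_eq ?_) hc3
        congr 1
        refine Finset.sum_congr rfl ?_
        intro j hj
        rw [Finset.mem_range] at hj
        congr 1
        refine Finset.filter_congr ?_
        intro i hi
        have hij : i < j := Finset.mem_range.1 (hK j (by omega) hi)
        rw [hne j hj, hne i (by omega)]
      · refine le_trans (le_of_eq ?_) hg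
        congr 2
        refine Finset.filter_congr ?_
        intro i hi
        have hij : i < m := Finset.mem_range.1 (hKm hi)
        rw [hself, hne i hij]

end

end Pool.Agent.LHad
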