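import Mathlib
import Pool.Agent.Lib.LHad.Defs
import Pool.Agent.Lib.LHad.ShortPath

/-!
# LHad.ConnSeq : connecting a small set in a dense connected set

`shortPath` is a black box.
(1) Diameter: for `u, v ∈ P` the shortest path `p_0 = u, …, p_k = v` of `shortPath` (`A = {u}`, `B = {v}`, `W = P`) has `k ≤ 5`: if `k ≥ 6` the closed neighbourhoods in `P` of `p_0, p_3, p_6` are pairwise disjoint:
a common element `z` of those of `p_i`, `p_j`, `j - i ≥ 3`, would give a shorter path; to use only the listed properties of `shortPath`, apply it with `B = {v}` and argue by minimality, or prove the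
length-minimality directly (induction on the distance).  Their sizes are `≥ 0.43 n1 + 1` each, sum `> n1 ≥ P.card`, contradiction.
    (If it is more convenient: prove by hand that any two vertices of `P` are joined by a walk with at most 5 edges, via the growth of the balls: the spheres `S_i` around `u` satisfy
    `|S_{i-1} ∪ S_i ∪ S_{i+1}| ≥ 0.43 n1 + 1` when `S_i ≠ ∅`; apply it to `i = 0, 3, 6`: `S_6 ≠ ∅` is impossible.)
(2) Induct over the elements of `A`: start with one element; for each further element `v` not yet in `B` add the at most 4 inner vertices of a path from an element of `B` to `v`, and `v` itself.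
`B.card ≤ 1 + 5 (A.card - 1) ≤ 5 l`.
-/

namespace Pool.Agent.LHad

open Finset

open scoped Classical

noncomputable section

variable {V : Type}

namespace ConnSeqAux

theorem diam5 (H : SimpleGraph V) (n1 : ℕ) (P : Finset V) (hP : CC H P)
    (hP1 : P.card ≤ n1)
    (hdeg : ∀ x ∈ P, 43 * n1 ≤ 100 * (P.filter (fun y => H.Adj x y)).card)
    (u v : (P : Set V)) : (H.induce (P : Set V)).dist u v ≤ 5 := by
  have hconn : (H.induce (P : Set V)).Connected := hP
  by_contra hd
  push Not at hd
  obtain ⟨p, hp⟩ := hconn.exists_walk_length_eq_dist u v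
  have hge : ∀ i ≤ 6, (H.induce (P : Set V)).dist u (p.getVert i) = i := by
    intro i hi
    have h1 : (H.induce (P : Set V)).dist u (p.getVert i) ≤ i := by
      refine (SimpleGraph.dist_le (p.take i)).trans ?_
      rw [SimpleGraph.Walk.take_length]
      omega
    have h2 : (H.induce (P : Set V)).dist (p.getVert i) v ≤ p.length - i := by
      refine (SimpleGraph.dist_le (p.drop i)).trans ?_
      rw [SimpleGraph.Walk.drop_length]
    have h3 := hconn.dist_triangle (u := u) (v := p.getVert i) (w := v)
    omega
  have hclose : ∀ (a : (P : Set V)) (z : V) (hz : z ∈ (P : Set V)),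
      z ∈ insert a.1 (P.filter (fun y => H.Adj a.1 y)) →
      (H.induce (P : Set V)).dist u ⟨z, hz⟩ ≤ (H.induce (P : Set V)).dist u a + 1 ∧
      (H.induce (P : Set V)).dist u a ≤ (H.induce (P : Set V)).dist u ⟨z, hz⟩ + 1 := by
    intro a z hz hza
    rw [Finset.mem_insert, Finset.mem_filter] at hza
    have h1 : (H.induce (P : Set V)).dist a ⟨z, hz⟩ ≤ 1 := by
      rcases hza with rfl | h
      · have : (⟨a.1, hz⟩ : (P : Set V)) = a := rfl
        rw [this, SimpleGraph.dist_self]
        omega
      · have : (H.induce (P : Set V)).Adj a ⟨z, hz⟩ := by simpa using h.2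
        rw [SimpleGraph.dist_eq_one_iff_adj.mpr this]
    have h2 := hconn.dist_triangle (u := u) (v := a) (w := (⟨z, hz⟩ : (P : Set V)))
    have h3 := hconn.dist_triangle (u := u) (v := (⟨z, hz⟩ : (P : Set V))) (w := a)
    rw [SimpleGraph.dist_comm (u := (⟨z, hz⟩ : (P : Set V))) (v := a)] at h3
    omega
  have hmemP : ∀ (a : (P : Set V)) (z : V), z ∈ insert a.1 (P.filter (fun y => H.Adj a.1 y)) →
      z ∈ (P : Set V) := by
    intro a z hz
    rw [Finset.mem_insert, Finset.mem_filter] at hz
    rcases hz with rfl | h
    · exact a.2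
    · exact h.1
  have hdisj : ∀ i ≤ 6, ∀ j ≤ 6, i + 3 ≤ j →
      Disjoint (insert (p.getVert i).1 (P.filter (fun y => H.Adj (p.getVert i).1 y)))
        (insert (p.getVert j).1 (P.filter (fun y => H.Adj (p.getVert j).1 y))) := by
    intro i hi j hj hij
    rw [Finset.disjoint_left]
    intro z hz1 hz2
    have hzP := hmemP _ z hz1
    have h1 := hclose _ z hzP hz1
    have h2 := hclose _ z hzP hz2
    have h3 := hge i hi
    have h4 := hge j hj
    omega
  have hcard : ∀ a : (P : Set V),
      43 * n1 + 100 ≤ 100 * (insert a.1 (P.filter (fun y => H.Adj a.1 y))).card := by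
    intro a
    rw [Finset.card_insert_of_notMem]
    · have := hdeg a.1 a.2
      omega
    · rw [Finset.mem_filter]
      rintro ⟨_, h⟩
      exact H.loopless.irrefl _ h
  have hsub : (insert (p.getVert 0).1 (P.filter (fun y => H.Adj (p.getVert 0).1 y))) ∪
      (insert (p.getVert 3).1 (P.filter (fun y => H.Adj (p.getVert 3).1 y))) ∪
      (insert (p.getVert 6).1 (P.filter (fun y => H.Adj (p.getVert 6).1 y))) ⊆ P := by
    intro z hz
    rw [Finset.mem_union, Finset.mem_union] at hz
    rcases hz with (hz | hz) | hz
    · exact hmemP _ z hz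
    · exact hmemP _ z hz
    · exact hmemP _ z hz
  have hle := Finset.card_le_card hsub
  rw [Finset.card_union_of_disjoint, Finset.card_union_of_disjoint] at hle
  · have h0 := hcard (p.getVert 0)
    have h3 := hcard (p.getVert 3)
    have h6 := hcard (p.getVert 6)
    omega
  · exact hdisj 0 (by omega) 3 (by omega) (by omega)
  · rw [Finset.disjoint_union_left]
    exact ⟨hdisj 0 (by omega) 6 (by omega) (by omega), hdisj 3 (by omega) 6 (by omega) (by omega)⟩

end ConnSeqAux

open ConnSeqAux in
theorem connSeq [Fintype V] (H : SimpleGraph V) (n1 l : ℕ) (P : Finset V) (hP : CC H P)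
    (hP1 : P.card ≤ n1)
    (hdeg : ∀ x ∈ P, 43 * n1 ≤ 100 * (P.filter (fun y => H.Adj x y)).card)
    (A : Finset V) (hA : A ⊆ P) (hne : A.Nonempty) (hc : A.card ≤ l) :
    ∃ B, A ⊆ B ∧ B ⊆ P ∧ CC H B ∧ B.card ≤ 5 * l := by
  have key : ∀ A : Finset V, A.Nonempty → A ⊆ P →
      ∃ B, A ⊆ B ∧ B ⊆ P ∧ CC H B ∧ B.card ≤ 5 * A.card := by
    intro A hne
    induction hne using Finset.Nonempty.cons_induction with
    | singleton a =>
      intro hA
      refine ⟨{a}, subset_rfl, hA, ?_, by simp⟩
      unfold CC
      rw [Finset.coe_singleton]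
      haveI : Nonempty ({a} : Set V) := ⟨⟨a, rfl⟩⟩
      refine SimpleGraph.Connected.mk ?_
      rintro ⟨x, hx⟩ ⟨y, hy⟩
      rw [Set.mem_singleton_iff] at hx hy
      subst hx
      subst hy
      exact SimpleGraph.Reachable.refl _
    | cons v A' hv hA'ne ih =>
      intro hA
      rw [Finset.cons_eq_insert] at hA ⊢
      obtain ⟨B, hAB, hBP, hB, hBc⟩ := ih ((Finset.subset_insert _ _).trans hA)
      have hvP : v ∈ P := hA (Finset.mem_insert_self _ _)
      obtain ⟨u, hu⟩ := hA'ne
      have huB : u ∈ B := hAB hu
      have huP : u ∈ P := hBP huB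
      have hconn : (H.induce (P : Set V)).Connected := hP
      obtain ⟨p, hp⟩ := hconn.exists_walk_length_eq_dist ⟨u, huP⟩ ⟨v, hvP⟩
      have hlen : p.length ≤ 5 := hp ▸ diam5 H n1 P hP hP1 hdeg _ _
      set q := p.map (SimpleGraph.Embedding.induce (P : Set V)).toHom with hq
      have hqs : q.support = p.support.map (fun x => x.1) := by
        rw [hq, SimpleGraph.Walk.support_map]
        rfl
      have hqc := q.connected_induce_support
      have huq : u ∈ q.support := by
        rw [hqs, List.mem_map]
        exact ⟨⟨u, huP⟩, p.start_mem_support, rfl⟩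
      have hvq : v ∈ q.support := by
        rw [hqs, List.mem_map]
        exact ⟨⟨v, hvP⟩, p.end_mem_support, rfl⟩
      have hqcard : q.support.toFinset.card ≤ 6 := by
        refine (List.toFinset_card_le _).trans ?_
        rw [hqs, List.length_map, SimpleGraph.Walk.length_support]
        omega
      refine ⟨B ∪ q.support.toFinset, ?_, ?_, ?_, ?_⟩
      · rw [Finset.insert_subset_iff]
        refine ⟨?_, hAB.trans Finset.subset_union_left⟩
        rw [Finset.mem_union, List.mem_toFinset]
        right; exact hvq
      · refine Finset.union_subset hBP ?_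
        intro z hz
        rw [List.mem_toFinset, hqs, List.mem_map] at hz
        obtain ⟨z', _, rfl⟩ := hz
        exact z'.2
      · unfold CC
        rw [Finset.coe_union, List.coe_toFinset]
        exact SimpleGraph.induce_union_connected hB.preconnected hqc.preconnected ⟨u, huB, huq⟩
      · have hsub : B ∪ q.support.toFinset ⊆ B ∪ (q.support.toFinset.erase u) := by
          intro z hz
          rw [Finset.mem_union] at hz
          rw [Finset.mem_union, Finset.mem_erase]
          rcases hz with hz | hz
          · left; exact hz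
          · by_cases hzu : z = u
            · left; rw [hzu]; exact huB
            · right; exact ⟨hzu, hz⟩
        have h1 := (Finset.card_le_card hsub).trans (Finset.card_union_le _ _)
        rw [Finset.card_erase_of_mem (List.mem_toFinset.mpr huq)] at h1
        rw [Finset.card_insert_of_notMem hv]
        omega
  obtain ⟨B, h1, h2, h3, h4⟩ := key A hne hA
  exact ⟨B, h1, h2, h3, by omega⟩

end

end Pool.Agent.LHad
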