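import Mathlib
import Pool.Agent.Lib.LHad.Defs

/-!
# LHad.DensFam : a dense neighbourhood in a minor of maximal density

Proof. Consider all nonempty finite families `𝓑` (Finsets of Finsets of `V`) of pairwise disjoint `CC` sets; finitely many.  Let `e 𝓑` be the number of unordered (or half the number of ordered) touching
pairs of distinct members.  Take `𝓑` maximizing the ratio `τ = e 𝓑 / |𝓑|` (a real or rational number).  The family of singletons shows `τ ≥ e(G)/|V| ≥ d` (`2 e(G) = ∑ deg ≥ 2 d |V|`).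
So `τ ≥ 1`, in particular `|𝓑| ≥ 2`.
* For `B ∈ 𝓑`: the family `𝓑 \ {B}` has ratio `(e - deg B)/(|𝓑| - 1) ≤ e/|𝓑|`, so `deg B ≥ τ` (`deg` = number of touching members).
* For touching `B ≠ B' ∈ 𝓑`: merging them (`B ∪ B'` is `CC`, disjoint from the others) gives `|𝓑| - 1` sets and `e - 1 - c` pairs, `c` = number of members touching both
  (a member touches `B ∪ B'` iff it touches `B` or `B'`: `deg(B ∪ B') = (deg B - 1) + (deg B' - 1) - c`).  So `(e - 1 - c)/(|𝓑| - 1) ≤ e/|𝓑|`, i.e. `c ≥ τ - 1`.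
* `∑ deg = 2e = 2τ|𝓑|`, so some `B₀` has `deg B₀ ≤ 2τ`.  Let `D = deg B₀`, `X` an enumeration of the members touching `B₀`.  `D ≥ τ ≥ d`.  Each `X i` touches at least `τ - 1` other members that touch `B₀`;
  so `2 (deg_X i + 1) ≥ 2τ ≥ D`.
-/

namespace Pool.Agent.LHad

open Finset

open scoped Classical

noncomputable section

variable {V : Type}


namespace DensFamAux

theorem touch_symm {G : SimpleGraph V} {A B : Finset V} (h : Touch G A B) : Touch G B A := by
  obtain ⟨z, hz, x, hx, hzx⟩ := h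
  exact ⟨x, hx, z, hz, hzx.symm⟩

theorem touch_union {G : SimpleGraph V} {A B C : Finset V} :
    Touch G (A ∪ B) C ↔ Touch G A C ∨ Touch G B C := by
  constructor
  · rintro ⟨z, hz, x, hx, h⟩
    rcases Finset.mem_union.1 hz with hz | hz
    · exact Or.inl ⟨z, hz, x, hx, h⟩
    · exact Or.inr ⟨z, hz, x, hx, h⟩
  · rintro (⟨z, hz, x, hx, h⟩ | ⟨z, hz, x, hx, h⟩)
    · exact ⟨z, Finset.mem_union_left _ hz, x, hx, h⟩
    · exact ⟨z, Finset.mem_union_right _ hz, x, hx, h⟩

theorem cc_union {G : SimpleGraph V} {A B : Finset V} (hA : CC G A) (hB : CC G B)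
    (h : Touch G A B) : CC G (A ∪ B) := by
  obtain ⟨z, hz, x, hx, hzx⟩ := h
  have hA' : (G.induce (A : Set V)).Connected := hA
  have hB' : (G.induce (B : Set V)).Connected := hB
  show (G.induce ((A ∪ B : Finset V) : Set V)).Connected
  rw [Finset.coe_union]
  exact SimpleGraph.connected_induce_union hA'.preconnected hB'.preconnected
    (Finset.mem_coe.2 hz) (Finset.mem_coe.2 hx) hzx

theorem cc_singleton (G : SimpleGraph V) (v : V) : CC G {v} := by
  show (G.induce (({v} : Finset V) : Set V)).Connected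
  rw [Finset.coe_singleton]
  haveI : Nonempty ({v} : Set V) := ⟨⟨v, rfl⟩⟩
  exact SimpleGraph.Connected.of_subsingleton

/-- indicator of touching -/
def tt (G : SimpleGraph V) (A B : Finset V) : ℕ := if A ≠ B ∧ Touch G A B then 1 else 0

theorem tt_symm (G : SimpleGraph V) (A B : Finset V) : tt G A B = tt G B A := by
  unfold tt
  have : (A ≠ B ∧ Touch G A B) ↔ (B ≠ A ∧ Touch G B A) :=
    ⟨fun h => ⟨h.1.symm, touch_symm h.2⟩, fun h => ⟨h.1.symm, touch_symm h.2⟩⟩
  simp only [this]

theorem tt_self (G : SimpleGraph V) (A : Finset V) : tt G A A = 0 := by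
  simp [tt]

/-- ordered number of touching pairs -/
def EE (G : SimpleGraph V) (S : Finset (Finset V)) : ℕ := ∑ A ∈ S, ∑ B ∈ S, tt G A B

theorem EE_insert (G : SimpleGraph V) {S : Finset (Finset V)} {B : Finset V} (h : B ∉ S) :
    EE G (insert B S) = EE G S + 2 * ∑ C ∈ S, tt G B C := by
  unfold EE
  rw [Finset.sum_insert h, Finset.sum_insert h, tt_self, zero_add]
  have h1 : ∑ A ∈ S, ∑ C ∈ insert B S, tt G A C =
      ∑ A ∈ S, tt G B A + ∑ A ∈ S, ∑ C ∈ S, tt G A C := by
    rw [← Finset.sum_add_distrib]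
    refine Finset.sum_congr rfl ?_
    intro A _
    rw [Finset.sum_insert h, tt_symm G A B]
  rw [h1]
  ring

/-- valid family -/
def Val (G : SimpleGraph V) (S : Finset (Finset V)) : Prop :=
  S.Nonempty ∧ (∀ B ∈ S, CC G B) ∧ ∀ B ∈ S, ∀ C ∈ S, B ≠ C → Disjoint B C

theorem merge {G : SimpleGraph V} {S : Finset (Finset V)} (hv : Val G S) {B B' : Finset V}
    (hB : B ∈ S) (hB' : B' ∈ S) (hne : B ≠ B') (ht : Touch G B B') :
    ∃ C : Finset (Finset V), Val G C ∧ C.card + 1 = S.card ∧
      EE G S = EE G C + 2 +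
        2 * (((S.erase B).erase B').filter (fun A => Touch G B A ∧ Touch G B' A)).card := by
  obtain ⟨_, hcc, hdis⟩ := hv
  set R := (S.erase B).erase B' with hR
  have hRm : ∀ A, A ∈ R ↔ A ≠ B' ∧ A ≠ B ∧ A ∈ S := by
    intro A
    rw [hR, Finset.mem_erase, Finset.mem_erase]
  have hB'e : B' ∈ S.erase B := Finset.mem_erase.2 ⟨hne.symm, hB'⟩
  have hins1 : insert B' R = S.erase B := by
    rw [hR]
    exact Finset.insert_erase hB'e
  have hins : insert B (insert B' R) = S := by
    rw [hins1]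
    exact Finset.insert_erase hB
  have hU : B ∪ B' ∉ R := by
    intro h
    rw [hRm] at h
    have h1 := hdis _ h.2.2 _ hB h.2.1
    obtain ⟨x, hx⟩ := cc_nonempty (hcc B hB)
    exact (Finset.disjoint_left.1 h1) (Finset.mem_union_left _ hx) hx
  have hBn : B ∉ insert B' R := by
    rw [hins1]
    exact Finset.notMem_erase B S
  have hB'n : B' ∉ R := by
    rw [hRm]
    rintro ⟨h, _⟩
    exact h rfl
  have hdisU : ∀ A ∈ R, Disjoint (B ∪ B') A := by
    intro A hA
    rw [hRm] at hA
    rw [Finset.disjoint_union_left]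
    exact ⟨hdis B hB A hA.2.2 hA.2.1.symm, hdis B' hB' A hA.2.2 hA.1.symm⟩
  refine ⟨insert (B ∪ B') R, ⟨Finset.insert_nonempty _ _, ?_, ?_⟩, ?_, ?_⟩
  · intro A hA
    rcases Finset.mem_insert.1 hA with rfl | hA
    · exact cc_union (hcc B hB) (hcc B' hB') ht
    · exact hcc A ((hRm A).1 hA).2.2
  · intro A hA A' hA' hAA
    rcases Finset.mem_insert.1 hA with rfl | hA
    · rcases Finset.mem_insert.1 hA' with rfl | hA'
      · exact absurd rfl hAA
      · exact hdisU A' hA'
    · rcases Finset.mem_insert.1 hA' with rfl | hA'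
      · exact (hdisU A hA).symm
      · exact hdis A ((hRm A).1 hA).2.2 A' ((hRm A').1 hA').2.2 hAA
  · rw [Finset.card_insert_of_notMem hU, ← hins, Finset.card_insert_of_notMem hBn,
      Finset.card_insert_of_notMem hB'n]
  · have h1 : EE G S = EE G R + 2 * ∑ C ∈ R, tt G B' C + 2 * (1 + ∑ C ∈ R, tt G B C) := by
      have h3 : tt G B B' = 1 := by
        unfold tt
        rw [if_pos ⟨hne, ht⟩]
      conv_lhs => rw [← hins]
      rw [EE_insert G hBn, EE_insert G hB'n, Finset.sum_insert hB'n, h3]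
    have h2 : EE G (insert (B ∪ B') R) = EE G R + 2 * ∑ C ∈ R, tt G (B ∪ B') C :=
      EE_insert G hU
    have h4 : ∑ C ∈ R, tt G B C + ∑ C ∈ R, tt G B' C =
        ∑ C ∈ R, tt G (B ∪ B') C +
          (R.filter (fun A => Touch G B A ∧ Touch G B' A)).card := by
      rw [Finset.card_filter, ← Finset.sum_add_distrib, ← Finset.sum_add_distrib]
      refine Finset.sum_congr rfl ?_
      intro A hA
      have hA' := (hRm A).1 hA
      have hUA : B ∪ B' ≠ A := by
        intro h
        rw [h] at hU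
        exact hU hA
      unfold tt
      simp only [touch_union, hUA, hA'.1.symm, hA'.2.1.symm, ne_eq, not_false_eq_true, true_and]
      by_cases ha : Touch G B A <;> by_cases hb : Touch G B' A <;> simp [ha, hb]
    rw [h1, h2]
    omega

theorem remove {G : SimpleGraph V} {S : Finset (Finset V)} (hv : Val G S) {B : Finset V}
    (hB : B ∈ S) (h2 : 2 ≤ S.card) :
    Val G (S.erase B) ∧ (S.erase B).card + 1 = S.card ∧
      EE G S = EE G (S.erase B) + 2 * ∑ C ∈ S, tt G B C := by
  obtain ⟨_, hcc, hdis⟩ := hv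
  have hc : (S.erase B).card + 1 = S.card := Finset.card_erase_add_one hB
  refine ⟨⟨?_, ?_, ?_⟩, hc, ?_⟩
  · rw [← Finset.card_pos]
    omega
  · intro A hA
    exact hcc A (Finset.mem_of_mem_erase hA)
  · intro A hA A' hA' hne
    exact hdis A (Finset.mem_of_mem_erase hA) A' (Finset.mem_of_mem_erase hA') hne
  · have hins : insert B (S.erase B) = S := Finset.insert_erase hB
    have h1 := EE_insert G (Finset.notMem_erase B S)
    rw [hins] at h1
    rw [h1]
    have h3 : ∑ C ∈ S, tt G B C = ∑ C ∈ S.erase B, tt G B C := by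
      conv_lhs => rw [← hins]
      rw [Finset.sum_insert (Finset.notMem_erase B S), tt_self, zero_add]
    rw [h3]

theorem exists_max [Fintype V] [Nonempty V] (G : SimpleGraph V) :
    ∃ S : Finset (Finset V), Val G S ∧
      ∀ T : Finset (Finset V), Val G T → EE G T * S.card ≤ EE G S * T.card := by
  have hne : ((univ : Finset (Finset (Finset V))).filter (fun S => Val G S)).Nonempty := by
    obtain ⟨v⟩ := (inferInstance : Nonempty V)
    refine ⟨{{v}}, ?_⟩
    rw [Finset.mem_filter]
    refine ⟨Finset.mem_univ _, Finset.singleton_nonempty _, ?_, ?_⟩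
    · intro B hB
      rw [Finset.mem_singleton] at hB
      rw [hB]
      exact cc_singleton G v
    · intro B hB C hC h
      rw [Finset.mem_singleton] at hB hC
      exact absurd (hB.trans hC.symm) h
  obtain ⟨S, hS, hmax⟩ := Finset.exists_max_image _ (fun S => (EE G S : ℚ) / (S.card : ℚ)) hne
  rw [Finset.mem_filter] at hS
  refine ⟨S, hS.2, ?_⟩
  intro T hT
  have h1 := hmax T (by rw [Finset.mem_filter]; exact ⟨Finset.mem_univ _, hT⟩)
  have hS0 : (0 : ℚ) < S.card := by exact_mod_cast Finset.card_pos.2 hS.2.1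
  have hT0 : (0 : ℚ) < T.card := by exact_mod_cast Finset.card_pos.2 hT.1
  rw [div_le_div_iff₀ hT0 hS0] at h1
  exact_mod_cast h1

theorem singles [Fintype V] [Nonempty V] (G : SimpleGraph V) (d : ℕ)
    (hd : ∀ v, 2 * d ≤ (univ.filter (fun u => G.Adj v u)).card) :
    ∃ S : Finset (Finset V), Val G S ∧ 2 * d * S.card ≤ EE G S := by
  have hinj : Function.Injective (fun v : V => ({v} : Finset V)) := Finset.singleton_injective
  refine ⟨univ.image (fun v : V => ({v} : Finset V)), ⟨?_, ?_, ?_⟩, ?_⟩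
  · rw [Finset.image_nonempty]
    exact Finset.univ_nonempty
  · intro B hB
    obtain ⟨v, -, rfl⟩ := Finset.mem_image.1 hB
    exact cc_singleton G v
  · intro B hB C hC h
    obtain ⟨v, -, rfl⟩ := Finset.mem_image.1 hB
    obtain ⟨w, -, rfl⟩ := Finset.mem_image.1 hC
    rw [Finset.disjoint_singleton]
    intro h1
    exact h (by rw [h1])
  · rw [Finset.card_image_of_injective _ hinj]
    unfold EE
    rw [Finset.sum_image (fun _ _ _ _ h => hinj h)]
    have h1 : ∀ v : V, ∑ B ∈ univ.image (fun v : V => ({v} : Finset V)), tt G {v} B =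
        (univ.filter (fun u => G.Adj v u)).card := by
      intro v
      rw [Finset.sum_image (fun _ _ _ _ h => hinj h), Finset.card_filter]
      refine Finset.sum_congr rfl ?_
      intro u _
      unfold tt
      have h2 : (({v} : Finset V) ≠ {u} ∧ Touch G {v} {u}) ↔ G.Adj v u := by
        constructor
        · rintro ⟨_, z, hz, x, hx, h⟩
          rw [Finset.mem_singleton] at hz hx
          rw [hz, hx] at h
          exact h
        · intro h
          refine ⟨?_, v, Finset.mem_singleton_self v, u, Finset.mem_singleton_self u, h⟩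
          intro h3
          have h4 := Finset.singleton_injective h3
          rw [h4] at h
          exact G.loopless.irrefl _ h
      simp only [h2]
    rw [Finset.sum_congr rfl (fun v _ => h1 v)]
    calc 2 * d * (univ : Finset V).card = ∑ _v : V, 2 * d := by
          rw [Finset.sum_const, smul_eq_mul, mul_comm]
      _ ≤ _ := Finset.sum_le_sum (fun v _ => hd v)

theorem card_nb {G : SimpleGraph V} (S : Finset (Finset V)) (B : Finset V) :
    ∑ C ∈ S, tt G B C = (S.filter (fun C => B ≠ C ∧ Touch G B C)).card := by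
  rw [Finset.card_filter]
  rfl

end DensFamAux

theorem densFam [Fintype V] [Nonempty V] (G : SimpleGraph V) (d : ℕ) (hd1 : 1 ≤ d)
    (hd : ∀ v, 2 * d ≤ (univ.filter (fun u => G.Adj v u)).card) :
    ∃ (D : ℕ) (X : Fin D → Finset V), d ≤ D ∧ (∀ i, CC G (X i)) ∧
      (∀ i j, i ≠ j → Disjoint (X i) (X j)) ∧
      (∀ i, D ≤ 2 * ((univ.filter (fun j => (touchGraph G X).Adj i j)).card + 1)) := by
  obtain ⟨S, hval, hmax⟩ := DensFamAux.exists_max G
  have hm : 0 < S.card := Finset.card_pos.2 hval.1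
  -- the lower bound for the ratio
  have hlow : 2 * d * S.card ≤ DensFamAux.EE G S := by
    obtain ⟨T, hT, hT2⟩ := DensFamAux.singles G d hd
    have h1 := hmax T hT
    have hT0 : 0 < T.card := Finset.card_pos.2 hT.1
    have h2 : (2 * d * S.card) * T.card ≤ DensFamAux.EE G S * T.card := by
      calc (2 * d * S.card) * T.card = (2 * d * T.card) * S.card := by ring
        _ ≤ DensFamAux.EE G T * S.card := Nat.mul_le_mul_right _ hT2
        _ ≤ _ := h1
    exact Nat.le_of_mul_le_mul_right h2 hT0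
  -- merging
  have hmerge : ∀ B ∈ S, ∀ B' ∈ S, B ≠ B' → Touch G B B' →
      DensFamAux.EE G S ≤ (2 + 2 * (((S.erase B).erase B').filter
        (fun A => Touch G B A ∧ Touch G B' A)).card) * S.card := by
    intro B hB B' hB' hne ht
    obtain ⟨C, hC1, hC2, hC3⟩ := DensFamAux.merge hval hB hB' hne ht
    have h1 := hmax C hC1
    set c := (((S.erase B).erase B').filter (fun A => Touch G B A ∧ Touch G B' A)).card
    rw [hC3] at h1 ⊢
    rw [← hC2] at h1 ⊢
    nlinarith
  -- a member of small degree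
  obtain ⟨B₀, hB₀, hdeg⟩ : ∃ B₀ ∈ S, (∑ C ∈ S, DensFamAux.tt G B₀ C) * S.card ≤
      DensFamAux.EE G S := by
    by_contra hcon
    push Not at hcon
    have h1 : ∑ _B ∈ S, DensFamAux.EE G S <
        ∑ B ∈ S, (∑ C ∈ S, DensFamAux.tt G B C) * S.card :=
      Finset.sum_lt_sum_of_nonempty hval.1 hcon
    rw [Finset.sum_const, smul_eq_mul, ← Finset.sum_mul] at h1
    have h2 : ∑ B ∈ S, ∑ C ∈ S, DensFamAux.tt G B C = DensFamAux.EE G S := rfl
    rw [h2, mul_comm] at h1
    exact lt_irrefl _ h1
  -- at least two members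
  have hm2 : 2 ≤ S.card := by
    by_contra hlt
    have h1 : S.card = 1 := by omega
    obtain ⟨A, hA⟩ := Finset.card_eq_one.1 h1
    have h2 : DensFamAux.EE G S = 0 := by
      rw [hA]
      simp [DensFamAux.EE, DensFamAux.tt_self]
    rw [h2, h1] at hlow
    omega
  have hge : DensFamAux.EE G S ≤ 2 * (∑ C ∈ S, DensFamAux.tt G B₀ C) * S.card := by
    obtain ⟨h1, h2, h3⟩ := DensFamAux.remove hval hB₀ hm2
    have h4 := hmax _ h1
    set D := ∑ C ∈ S, DensFamAux.tt G B₀ C
    rw [h3] at h4 ⊢
    rw [← h2] at h4 ⊢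
    nlinarith
  set N := S.filter (fun C => B₀ ≠ C ∧ Touch G B₀ C) with hN
  have hD : ∑ C ∈ S, DensFamAux.tt G B₀ C = N.card := DensFamAux.card_nb S B₀
  rw [hD] at hdeg hge
  have hNm : ∀ C, C ∈ N ↔ C ∈ S ∧ B₀ ≠ C ∧ Touch G B₀ C := by
    intro C
    rw [hN, Finset.mem_filter]
  let e : N ≃ Fin N.card := N.equivFin
  refine ⟨N.card, fun i => (e.symm i).1, ?_, ?_, ?_, ?_⟩
  · have h1 : 2 * d * S.card ≤ 2 * N.card * S.card := hlow.trans hge
    have h2 := Nat.le_of_mul_le_mul_right h1 hm
    omega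
  · intro i
    exact hval.2.1 _ ((hNm _).1 (e.symm i).2).1
  · intro i j hij
    refine hval.2.2 _ ((hNm _).1 (e.symm i).2).1 _ ((hNm _).1 (e.symm j).2).1 ?_
    intro h
    exact hij (e.symm.injective (Subtype.ext h))
  · intro i
    set B := (e.symm i).1 with hBdef
    have hBN := (hNm B).1 (e.symm i).2
    have h1 := hmerge B₀ hB₀ B hBN.1 hBN.2.1 hBN.2.2
    set c := (((S.erase B₀).erase B).filter (fun A => Touch G B₀ A ∧ Touch G B A)).card with hc
    have h2 : N.card ≤ 2 * (c + 1) := by
      have h3 : N.card * S.card ≤ (2 + 2 * c) * S.card := hdeg.trans h1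
      have h4 := Nat.le_of_mul_le_mul_right h3 hm
      omega
    have h5 : c ≤ (univ.filter (fun j =>
        (touchGraph G (fun i => (e.symm i).1)).Adj i j)).card := by
      rw [hc]
      refine Finset.card_le_card_of_surjOn (fun j => (e.symm j).1) ?_
      intro A hA
      rw [Finset.mem_coe, Finset.mem_filter, Finset.mem_erase, Finset.mem_erase] at hA
      obtain ⟨⟨hAB, hAB0, hAS⟩, hA1, hA2⟩ := hA
      have hAN : A ∈ N := (hNm A).2 ⟨hAS, hAB0.symm, hA1⟩
      refine ⟨e ⟨A, hAN⟩, ?_, ?_⟩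
      · rw [Finset.mem_coe, Finset.mem_filter]
        refine ⟨Finset.mem_univ _, ?_, ?_⟩
        · intro h
          apply hAB
          rw [hBdef, h, Equiv.symm_apply_apply]
        · show Touch G (e.symm i).1 (e.symm (e ⟨A, hAN⟩)).1
          rw [Equiv.symm_apply_apply]
          exact hA2
      · show (e.symm (e ⟨A, hAN⟩)).1 = A
        rw [Equiv.symm_apply_apply]
    omega

end

end Pool.Agent.LHad
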