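import Mathlib
import Pool.Agent.Lib.LHad.Defs

/-!
# LHad.SelSeq : choosing a small set with few non-neighbours that is not inside given small sets

Proof. Count functions `f : Fin ℓ → V` with values in `P` (`Fintype.piFinset` or functions `Fin ℓ → P`); there are `|P|^ℓ`, `19 n1 ≤ 20|P|`, `|P| ≤ n1`.
`A = image f`.  Let `N f = #{x ∈ P : x has no neighbour in the image of f}`.
`∑_f N f = ∑_{x ∈ P} (number of y ∈ P not adjacent to x)^ℓ ≤ |P| (|P| - 0.43 n1)^ℓ ≤ |P| (0.57 |P|)^ℓ` (`0.43 n1 ≥ 0.43|P|`).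
So at most half of the `f` have `N f ≥ 2 (57/100)^ℓ |P|`; all other `f` satisfy `N f < 2 (57/100)^ℓ |P| ≤ 2 (57/100)^ℓ n1` (strict).
For fixed `j` the number of `f` with image inside `U j` is at most `|U j|^ℓ < (2 (57/100)^ℓ n1)^ℓ ≤ (2·(20/19)·(57/100)^ℓ)^ℓ |P|^ℓ ≤ (2^(-ℓ/2))^ℓ |P|^ℓ`, because `2·(20/19)·(57/100)^ℓ ≤ 2^(-ℓ/2)` for `ℓ ≥ 4`
(`ℓ = 4`: `0.2222 ≤ 0.25`; induct, `(57/100)·√2 < 1`; or square everything: `(40/19)² (57/100)^(2ℓ) 2^ℓ ≤ 1`).  And `2^(-ℓ²/2) ≤ 1/(2t)` from `4t² ≤ 2^(ℓ²)`.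
So the number of `f` with image inside some `U j`, `j < k < t`, is less than `|P|^ℓ / 2` (it is `≤ k |P|^ℓ/(2t)`; `k < t`; `|P| > 0`).  Total bad `< |P|^ℓ`, so a good `f` exists.
`A` is nonempty as `ℓ ≥ 4`.
-/

namespace Pool.Agent.LHad

open Finset

open scoped Classical

noncomputable section

variable {V : Type}

namespace SelSeqAux

/-- the sequences with values in `P` -/
def Sq (l : ℕ) (P : Finset V) : Finset (Fin l → V) := Fintype.piFinset (fun _ => P)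

theorem mem_Sq {l : ℕ} {P : Finset V} {f : Fin l → V} : f ∈ Sq l P ↔ ∀ i, f i ∈ P := by
  simp [Sq]

theorem card_Sq (l : ℕ) (P : Finset V) : (Sq l P).card = P.card ^ l := by
  unfold Sq
  rw [Fintype.card_piFinset_const]

/-- number of vertices of `P` without neighbour among the values of `f` -/
def NN (H : SimpleGraph V) (P : Finset V) {l : ℕ} (f : Fin l → V) : ℕ :=
  (P.filter (fun x => ∀ i, ¬ H.Adj x (f i))).card

theorem sum_NN (H : SimpleGraph V) (P : Finset V) (l : ℕ) :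
    ∑ f ∈ Sq l P, NN H P f = ∑ x ∈ P, (P.filter (fun y => ¬ H.Adj x y)).card ^ l := by
  have h1 : ∀ x, (P.filter (fun y => ¬ H.Adj x y)).card ^ l =
      ((Sq l P).filter (fun f => ∀ i, ¬ H.Adj x (f i))).card := by
    intro x
    rw [← card_Sq]
    congr 1
    ext f
    rw [mem_Sq, Finset.mem_filter, mem_Sq]
    constructor
    · intro h
      exact ⟨fun i => (Finset.mem_filter.mp (h i)).1, fun i => (Finset.mem_filter.mp (h i)).2⟩
    · intro h i
      exact Finset.mem_filter.mpr ⟨h.1 i, h.2 i⟩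
  rw [Finset.sum_congr rfl (fun x _ => h1 x)]
  simp only [NN, Finset.card_filter]
  exact Finset.sum_comm

theorem num (l : ℕ) (hl : 4 ≤ l) (t : ℕ) (ht : 4 * t ^ 2 ≤ 2 ^ (l ^ 2)) :
    ((40 / 19 : ℝ) * (57 / 100) ^ l) ^ l * (2 * t) ≤ 1 := by
  have h1 : (40 / 19 : ℝ) ^ 2 * ((57 / 100) ^ 2 * 2) ^ l ≤ 1 := by
    obtain ⟨m, rfl⟩ := Nat.exists_eq_add_of_le hl
    have h2 : (((57 / 100 : ℝ)) ^ 2 * 2) ^ (4 + m) ≤ ((57 / 100) ^ 2 * 2) ^ 4 :=
      pow_le_pow_of_le_one (by norm_num) (by norm_num) (by omega)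
    have h3 : (40 / 19 : ℝ) ^ 2 * ((57 / 100) ^ 2 * 2) ^ 4 ≤ 1 := by norm_num
    have h4 : (40 / 19 : ℝ) ^ 2 * ((57 / 100) ^ 2 * 2) ^ (4 + m) ≤
        (40 / 19 : ℝ) ^ 2 * ((57 / 100) ^ 2 * 2) ^ 4 :=
      mul_le_mul_of_nonneg_left h2 (by positivity)
    linarith
  have h5 : (((40 / 19 : ℝ) * (57 / 100) ^ l) ^ 2 * 2 ^ l) ≤ 1 := by
    have : ((40 / 19 : ℝ) * (57 / 100) ^ l) ^ 2 * 2 ^ l =
        (40 / 19 : ℝ) ^ 2 * ((57 / 100) ^ 2 * 2) ^ l := by
      rw [mul_pow, mul_pow, ← pow_mul, ← pow_mul, mul_comm l 2]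
      ring
    rw [this]; exact h1
  have h6 : ((((40 / 19 : ℝ) * (57 / 100) ^ l) ^ 2 * 2 ^ l)) ^ l ≤ 1 :=
    pow_le_one₀ (by positivity) h5
  have h7 : (4 * (t : ℝ) ^ 2) ≤ 2 ^ (l ^ 2) := by exact_mod_cast ht
  have h8 : (((40 / 19 : ℝ) * (57 / 100) ^ l) ^ l * (2 * t)) ^ 2 ≤ 1 := by
    have e1 : (((40 / 19 : ℝ) * (57 / 100) ^ l) ^ l * (2 * t)) ^ 2 =
        (((40 / 19 : ℝ) * (57 / 100) ^ l) ^ 2) ^ l * (4 * t ^ 2) := by
      rw [mul_pow, ← pow_mul, ← pow_mul, mul_comm l 2]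
      ring
    have e2 : ((((40 / 19 : ℝ) * (57 / 100) ^ l) ^ 2 * 2 ^ l)) ^ l =
        (((40 / 19 : ℝ) * (57 / 100) ^ l) ^ 2) ^ l * 2 ^ (l ^ 2) := by
      rw [mul_pow, ← pow_mul 2 l l, sq l]
    rw [e1]
    rw [e2] at h6
    refine le_trans ?_ h6
    exact mul_le_mul_of_nonneg_left h7 (by positivity)
  have h9 : 0 ≤ ((40 / 19 : ℝ) * (57 / 100) ^ l) ^ l * (2 * t) := by positivity
  nlinarith

end SelSeqAux

open SelSeqAux

theorem selSeq [Fintype V] (H : SimpleGraph V) (t l n1 : ℕ) (hl : 4 ≤ l)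
    (ht : 4 * t ^ 2 ≤ 2 ^ (l ^ 2)) (hn1 : 1 ≤ n1) (P : Finset V) (hP1 : P.card ≤ n1)
    (hP2 : 19 * n1 ≤ 20 * P.card)
    (hdeg : ∀ x ∈ P, 43 * n1 ≤ 100 * (P.filter (fun y => H.Adj x y)).card)
    (k : ℕ) (hk : k < t) (U : Fin k → Finset V)
    (hU : ∀ j, ((U j).card : ℝ) < 2 * (57 / 100) ^ l * n1) :
    ∃ A : Finset V, A ⊆ P ∧ A.Nonempty ∧ A.card ≤ l ∧
      ((P.filter (fun x => ∀ y ∈ A, ¬ H.Adj x y)).card : ℝ) < 2 * (57 / 100) ^ l * n1 ∧
      ∀ j, ¬ (A ⊆ U j) := by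
  set θ : ℝ := (57 / 100) ^ l with hθ
  have hθ0 : 0 < θ := by positivity
  have hPc : 0 < P.card := by omega
  have hPr : (0 : ℝ) < P.card := by exact_mod_cast hPc
  have hn1r : (0 : ℝ) < n1 := by exact_mod_cast hn1
  have hP1r : (P.card : ℝ) ≤ n1 := by exact_mod_cast hP1
  have hP2r : (n1 : ℝ) ≤ 20 / 19 * P.card := by
    have : (19 : ℝ) * n1 ≤ 20 * P.card := by exact_mod_cast hP2
    linarith
  have htpos : (0 : ℝ) < t := by exact_mod_cast (show 0 < t by omega)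
  set T : ℝ := (P.card : ℝ) ^ l with hT
  have hT0 : 0 < T := by positivity
  have hSq : ((Sq l P).card : ℝ) = T := by
    rw [card_Sq, hT]; push_cast; rfl
  -- first moment
  have hsum : ∑ f ∈ Sq l P, (NN H P f : ℝ) ≤ n1 * θ * T := by
    have h1 : ∑ f ∈ Sq l P, (NN H P f : ℝ) =
        ∑ x ∈ P, ((P.filter (fun y => ¬ H.Adj x y)).card : ℝ) ^ l := by
      exact_mod_cast sum_NN H P l
    rw [h1]
    have h2 : ∀ x ∈ P, ((P.filter (fun y => ¬ H.Adj x y)).card : ℝ) ^ l ≤ θ * T := by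
      intro x hx
      have h3 := hdeg x hx
      have h4 := Finset.card_filter_add_card_filter_not (s := P) (fun y => H.Adj x y)
      have h5 : (43 : ℝ) * n1 ≤ 100 * ((P.filter (fun y => H.Adj x y)).card : ℝ) := by
        exact_mod_cast h3
      have h6 : ((P.filter (fun y => H.Adj x y)).card : ℝ) +
          ((P.filter (fun y => ¬ H.Adj x y)).card : ℝ) = P.card := by exact_mod_cast h4
      have h7 : ((P.filter (fun y => ¬ H.Adj x y)).card : ℝ) ≤ 57 / 100 * P.card := by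
        linarith
      calc ((P.filter (fun y => ¬ H.Adj x y)).card : ℝ) ^ l ≤ (57 / 100 * (P.card : ℝ)) ^ l :=
            pow_le_pow_left₀ (Nat.cast_nonneg _) h7 l
        _ = θ * T := by rw [mul_pow]
    calc ∑ x ∈ P, ((P.filter (fun y => ¬ H.Adj x y)).card : ℝ) ^ l
        ≤ ∑ _x ∈ P, θ * T := Finset.sum_le_sum h2
      _ = P.card * (θ * T) := by rw [Finset.sum_const, nsmul_eq_mul]
      _ ≤ n1 * θ * T := by
          have : (P.card : ℝ) * (θ * T) ≤ n1 * (θ * T) :=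
            mul_le_mul_of_nonneg_right hP1r (by positivity)
          linarith
  set B1 := (Sq l P).filter (fun f => 2 * θ * n1 ≤ (NN H P f : ℝ)) with hB1
  have hB1c : (B1.card : ℝ) ≤ T / 2 := by
    have h1 : (B1.card : ℝ) * (2 * θ * n1) ≤ n1 * θ * T := by
      calc (B1.card : ℝ) * (2 * θ * n1) = ∑ _f ∈ B1, (2 * θ * n1) := by
            rw [Finset.sum_const, nsmul_eq_mul]
        _ ≤ ∑ f ∈ B1, (NN H P f : ℝ) := Finset.sum_le_sum fun f hf => (Finset.mem_filter.mp hf).2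
        _ ≤ ∑ f ∈ Sq l P, (NN H P f : ℝ) :=
            Finset.sum_le_sum_of_subset_of_nonneg (Finset.filter_subset _ _)
              (fun _ _ _ => Nat.cast_nonneg _)
        _ ≤ _ := hsum
    have h2 : (0 : ℝ) < θ * n1 := by positivity
    have h3 : (B1.card : ℝ) * 2 * (θ * n1) ≤ T * (θ * n1) := by nlinarith
    have h4 := le_of_mul_le_mul_right h3 h2
    linarith
  have hB2c : ∀ j, ((Sq l (U j)).card : ℝ) ≤ T / (2 * t) := by
    intro j
    rw [card_Sq]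
    push_cast
    have h1 : ((U j).card : ℝ) ≤ (40 / 19 * θ) * P.card := by
      have := hU j
      nlinarith
    have h2 : ((U j).card : ℝ) ^ l ≤ ((40 / 19 * θ) * P.card) ^ l :=
      pow_le_pow_left₀ (Nat.cast_nonneg _) h1 l
    rw [mul_pow] at h2
    have h3 := num l hl t ht
    rw [← hθ] at h3
    rw [le_div_iff₀ (by positivity)]
    calc ((U j).card : ℝ) ^ l * (2 * t) ≤ ((40 / 19 * θ) ^ l * T) * (2 * t) :=
          mul_le_mul_of_nonneg_right h2 (by positivity)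
      _ = ((40 / 19 * θ) ^ l * (2 * t)) * T := by ring
      _ ≤ 1 * T := mul_le_mul_of_nonneg_right h3 hT0.le
      _ = T := one_mul T
  set B2 := (univ : Finset (Fin k)).biUnion (fun j => Sq l (U j)) with hB2
  have hB2t : (B2.card : ℝ) < T / 2 := by
    have h1 : (B2.card : ℝ) ≤ ∑ j : Fin k, ((Sq l (U j)).card : ℝ) := by
      exact_mod_cast Finset.card_biUnion_le
    have h2 : ∑ j : Fin k, ((Sq l (U j)).card : ℝ) ≤ ∑ _j : Fin k, T / (2 * t) :=
      Finset.sum_le_sum fun j _ => hB2c j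
    rw [Finset.sum_const, nsmul_eq_mul, Finset.card_univ, Fintype.card_fin] at h2
    have h3 : (k : ℝ) < t := by exact_mod_cast hk
    have h4 : (k : ℝ) * (T / (2 * t)) < T / 2 := by
      have e : T / 2 = t * (T / (2 * t)) := by field_simp
      rw [e]
      exact mul_lt_mul_of_pos_right h3 (by positivity)
    linarith
  have hlt : ((B1 ∪ B2).card : ℝ) < ((Sq l P).card : ℝ) := by
    have h1 : ((B1 ∪ B2).card : ℝ) ≤ B1.card + B2.card := by
      exact_mod_cast Finset.card_union_le B1 B2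
    rw [hSq]
    linarith
  have hlt' : (B1 ∪ B2).card < (Sq l P).card := by exact_mod_cast hlt
  obtain ⟨f, hf, hf'⟩ := Finset.exists_mem_notMem_of_card_lt_card hlt'
  rw [Finset.mem_union, not_or] at hf'
  have hfP := mem_Sq.mp hf
  refine ⟨univ.image f, ?_, ?_, ?_, ?_, ?_⟩
  · intro v hv
    rw [Finset.mem_image] at hv
    obtain ⟨i, _, rfl⟩ := hv
    exact hfP i
  · exact ⟨f ⟨0, by omega⟩, Finset.mem_image_of_mem _ (Finset.mem_univ _)⟩
  · have := Finset.card_image_le (s := (univ : Finset (Fin l))) (f := f)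
    simpa using this
  · by_contra hcon
    refine hf'.1 ?_
    rw [hB1, Finset.mem_filter]
    refine ⟨hf, ?_⟩
    have e : NN H P f = (P.filter (fun x => ∀ y ∈ univ.image f, ¬ H.Adj x y)).card := by
      unfold NN
      congr 1
      ext x
      simp
    rw [e]
    exact not_lt.mp hcon
  · intro j hj
    refine hf'.2 ?_
    rw [hB2, Finset.mem_biUnion]
    refine ⟨j, Finset.mem_univ _, ?_⟩
    rw [mem_Sq]
    intro i
    exact hj (Finset.mem_image_of_mem _ (Finset.mem_univ _))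

end

end Pool.Agent.LHad
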