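import Mathlib
import Pool.Agent.Lib.LHad.Defs
import Pool.Agent.Lib.LHad.SelSeq
import Pool.Agent.Lib.LHad.ConnSeq

/-!
# LHad.DenseMinor : `K_t` minor in a robustly connected dense set

`selSeq`, `connSeq` are black boxes.
Proof. `n1 = P.card ≥ 100 l t`.  Claim: for `k ≤ t` there are pairwise disjoint sets `B_0, …, B_{k-1} ⊆ P`, `CC H (B i)`, `(B i).card ≤ 5l`, pairwise touching, and sets
`U_0, …, U_{k-1}` with `(U i).card < 2 (57/100)^l n1` such that every `x ∈ P \ (B_0 ∪ … ∪ B_{k-1})`, `x ∉ U i`, has a neighbour in `B i`.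
Step `k → k+1`, `k < t`: `Y = B_0 ∪ … ∪ B_{k-1}`, `Y.card ≤ 5lk ≤ 5lt`, `20 Y.card ≤ P.card`.  `P' = P \ Y`: `P'.card ≥ (19/20) n1`, connected, degrees `≥ 0.43 n1`.
`selSeq` (with `P'`, `U`) gives `A ⊆ P'`, and `connSeq` gives `B_k ⊇ A`, `B_k ⊆ P'`, `CC`, `≤ 5l`.  `U_k = P'.filter (no neighbour in A)`.  `B_k` touches `B_i`: some `x ∈ A \ U_i`, `x ∈ P'`, has a neighbour in `B_i`.
The property of `U_i` persists, since the set `P \ Y` shrinks; for `i = k`: `x ∈ P \ (Y ∪ B_k) ⊆ P'`, `x ∉ U_k` has a neighbour in `A ⊆ B_k`.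
At `k = t` this is a `K_t` minor.
-/

namespace Pool.Agent.LHad

open Finset

open scoped Classical

noncomputable section

variable {V : Type}

theorem denseMinor [Fintype V] (H : SimpleGraph V) (t l : ℕ) (ht1 : 1 ≤ t) (hl : 4 ≤ l)
    (ht : 4 * t ^ 2 ≤ 2 ^ (l ^ 2)) (P : Finset V) (hP : 100 * l * t ≤ P.card)
    (hrob : ∀ Y ⊆ P, 20 * Y.card ≤ P.card → CC H (P \ Y) ∧
      ∀ x ∈ P \ Y, 43 * P.card ≤ 100 * ((P \ Y).filter (fun y => H.Adj x y)).card) :
    KM H t := by
  have hn1 : 1 ≤ P.card := by nlinarith
  have key : ∀ k : ℕ, k ≤ t → ∃ (B U : ℕ → Finset V),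
      (∀ i < k, B i ⊆ P) ∧ (∀ i < k, CC H (B i)) ∧ (∀ i < k, (B i).card ≤ 5 * l) ∧
      (∀ i < k, ∀ j < k, i ≠ j → Disjoint (B i) (B j)) ∧
      (∀ i < k, ∀ j < k, i ≠ j → ∃ x ∈ B i, ∃ y ∈ B j, H.Adj x y) ∧
      (∀ i < k, ((U i).card : ℝ) < 2 * (57 / 100) ^ l * P.card) ∧
      (∀ x ∈ P, (∀ j < k, x ∉ B j) → ∀ i < k, x ∉ U i → ∃ y ∈ B i, H.Adj x y) := by
    intro k
    induction k with
    | zero =>
      intro _
      exact ⟨fun _ => ∅, fun _ => ∅, by simp, by simp, by simp, by simp, by simp, by simp, by simp⟩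
    | succ k ih =>
      intro hk
      obtain ⟨B, U, hBP, hBC, hBc, hBd, hBt, hU, hx⟩ := ih (by omega)
      set Y := (Finset.range k).biUnion B with hY
      have hYP : Y ⊆ P := by
        intro z hz
        rw [hY, Finset.mem_biUnion] at hz
        obtain ⟨i, hi, hz⟩ := hz
        exact hBP i (Finset.mem_range.mp hi) hz
      have hYc : Y.card ≤ k * (5 * l) := by
        refine Finset.card_biUnion_le.trans ?_
        refine (Finset.sum_le_card_nsmul _ _ (5 * l) ?_).trans ?_
        · intro i hi
          exact hBc i (Finset.mem_range.mp hi)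
        · rw [Finset.card_range, smul_eq_mul]
      have hYc20 : 20 * Y.card ≤ P.card := by
        have h1 : k * (5 * l) ≤ t * (5 * l) := Nat.mul_le_mul_right _ (by omega)
        have h2 : 20 * (t * (5 * l)) = 100 * l * t := by ring
        omega
      obtain ⟨hcc, hdg⟩ := hrob Y hYP hYc20
      have hP'c : (P \ Y).card = P.card - Y.card := Finset.card_sdiff_of_subset hYP
      have hYle := Finset.card_le_card hYP
      obtain ⟨A, hAP, hAne, hAc, hAN, hAU⟩ := selSeq H t l P.card hl ht hn1 (P \ Y)
        (by omega) (by omega) hdg k (by omega) (fun j : Fin k => U j.1) (fun j => hU j.1 j.2)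
      obtain ⟨Bk, hABk, hBkP, hBkC, hBkc⟩ := connSeq H P.card l (P \ Y) hcc (by omega) hdg A hAP
        hAne hAc
      have hBkB : ∀ i < k, Disjoint (B i) Bk := by
        intro i hi
        rw [Finset.disjoint_left]
        intro z hz hzk
        have := hBkP hzk
        rw [Finset.mem_sdiff] at this
        apply this.2
        rw [hY, Finset.mem_biUnion]
        exact ⟨i, Finset.mem_range.mpr hi, hz⟩
      have hBkT : ∀ i < k, ∃ x ∈ B i, ∃ y ∈ Bk, H.Adj x y := by
        intro i hi
        have h1 := hAU ⟨i, hi⟩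
        rw [Finset.not_subset] at h1
        obtain ⟨x, hxA, hxU⟩ := h1
        have hxP := hAP hxA
        rw [Finset.mem_sdiff] at hxP
        obtain ⟨y, hyB, hxy⟩ := hx x hxP.1 (fun j hj hxj => hxP.2 (by
          rw [hY, Finset.mem_biUnion]
          exact ⟨j, Finset.mem_range.mpr hj, hxj⟩)) i hi hxU
        exact ⟨y, hyB, x, hABk hxA, hxy.symm⟩
      refine ⟨fun i => if i = k then Bk else B i,
        fun i => if i = k then (P \ Y).filter (fun x => ∀ y ∈ A, ¬ H.Adj x y) else U i,
        ?_, ?_, ?_, ?_, ?_, ?_, ?_⟩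
      · intro i hi
        dsimp only
        split_ifs with h
        · exact hBkP.trans Finset.sdiff_subset
        · exact hBP i (by omega)
      · intro i hi
        dsimp only
        split_ifs with h
        · exact hBkC
        · exact hBC i (by omega)
      · intro i hi
        dsimp only
        split_ifs with h
        · exact hBkc
        · exact hBc i (by omega)
      · intro i hi j hj hij
        dsimp only
        split_ifs with h h' h'
        · omega
        · exact (hBkB j (by omega)).symm
        · exact hBkB i (by omega)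
        · exact hBd i (by omega) j (by omega) hij
      · intro i hi j hj hij
        dsimp only
        split_ifs with h h' h'
        · omega
        · obtain ⟨x, hx1, y, hy1, hxy⟩ := hBkT j (by omega)
          exact ⟨y, hy1, x, hx1, hxy.symm⟩
        · exact hBkT i (by omega)
        · exact hBt i (by omega) j (by omega) hij
      · intro i hi
        dsimp only
        split_ifs with h
        · exact hAN
        · exact hU i (by omega)
      · intro x hxP hxB i hi hxU
        have hxY : x ∈ P \ Y := by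
          rw [Finset.mem_sdiff]
          refine ⟨hxP, ?_⟩
          rw [hY, Finset.mem_biUnion]
          rintro ⟨j, hj, hxj⟩
          have hjk := Finset.mem_range.mp hj
          have := hxB j (by omega)
          dsimp only at this
          rw [if_neg (by omega)] at this
          exact this hxj
        dsimp only at hxU ⊢
        split_ifs at hxU ⊢ with h
        · rw [Finset.mem_filter] at hxU
          push Not at hxU
          obtain ⟨y, hyA, hxy⟩ := hxU hxY
          exact ⟨y, hABk hyA, hxy⟩
        · refine hx x hxP (fun j hj => ?_) i (by omega) hxU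
          have := hxB j (by omega)
          dsimp only at this
          rw [if_neg (by omega)] at this
          exact this
  obtain ⟨B, U, hBP, hBC, hBc, hBd, hBt, hU, hx⟩ := key t le_rfl
  refine ⟨fun i => (B i.1 : Set V), ?_, ?_, ?_⟩
  · intro i
    exact hBC i.1 i.2
  · intro i j hij
    rw [Finset.disjoint_coe]
    exact hBd i.1 i.2 j.1 j.2 (fun h => hij (Fin.ext h))
  · intro i j hij
    obtain ⟨x, hx, y, hy, hxy⟩ := hBt i.1 i.2 j.1 j.2 (fun h => hij (Fin.ext h))
    exact ⟨x, hx, y, hy, hxy⟩

end

end Pool.Agent.LHad
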