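import Mathlib

/-!
# LHad.Dual : linear programming duality for a bounded system (finite-dimensional separation)

Proof. If `X = 0` then `x = 0` is the only candidate; to avoid a separate case work as follows.
`E = (α → ℝ) × (β → ℝ)` (finite-dimensional; or `α ⊕ β → ℝ`).  `L : (ι → ℝ) →ₗ E`, `L x = (fun v => ∑ i, A v i * x i, fun e => ∑ i, B e i * x i)`.
`Kx = L '' {x | (∀ i, 0 ≤ x i) ∧ ∑ i, x i ≤ X}` is compact (image of a closed bounded set) and convex.
`T = {(u, p) | u = 1 ∧ ∀ e, p e ≤ c e}` is closed and convex.  By `hno` they are disjoint.  `geometric_hahn_banach_compact_closed` gives a continuous linear `f`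
and reals `s < s'` with `f z < s` on `Kx` and `s' < f z` on `T`.  Write `f (u, p) = ∑ v, y v * u v - ∑ e, g e * p e` (coordinates; `g e = - f (0, single e 1)`).
`g e ≥ 0`: if `g e < 0`, then the points `(1, c - r • single e 1)`, `r → ∞`, of `T` have `f = const + g e * r → -∞`, contradiction to `s' <`.
On `T` at `p = c`: `∑ y - ∑ g e * c e > s' > s`.  On `Kx`: at `x = 0`: `0 < s`; at `x = X • single i 1`: `X * r_i < s` with
`r_i = ∑ v, y v * A v i - ∑ e, g e * B e i`.  Let `l = max 0 (sup_i r_i)` (`ι` may be empty: then `l = 0`).  Then `X * l < s` (`X ≥ 0`), hence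
`X * l + ∑ g e * c e < ∑ y`, and `r_i ≤ l`.
-/

namespace Pool.Agent.LHad

open Finset

open scoped Classical

noncomputable section

variable {V : Type}

theorem lpDual {ι α β : Type} [Fintype ι] [Fintype α] [Fintype β] (A : α → ι → ℝ)
    (B : β → ι → ℝ) (c : β → ℝ) (X : ℝ) (hX : 0 ≤ X)
    (hno : ¬ ∃ x : ι → ℝ, (∀ i, 0 ≤ x i) ∧ (∑ i, x i ≤ X) ∧ (∀ v, ∑ i, A v i * x i = 1) ∧
      (∀ e, ∑ i, B e i * x i ≤ c e)) :
    ∃ (y : α → ℝ) (g : β → ℝ) (l : ℝ), (∀ e, 0 ≤ g e) ∧ 0 ≤ l ∧
      (∀ i, ∑ v, y v * A v i ≤ ∑ e, g e * B e i + l) ∧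
      (∑ e, g e * c e + X * l < ∑ v, y v) := by
  classical
  let L : (ι → ℝ) →ₗ[ℝ] ((α → ℝ) × (β → ℝ)) :=
    { toFun := fun x => (fun v => ∑ i, A v i * x i, fun e => ∑ i, B e i * x i)
      map_add' := by
        intro x z
        ext v <;> simp [mul_add, Finset.sum_add_distrib]
      map_smul' := by
        intro r x
        ext v <;> simp [Finset.mul_sum, mul_left_comm] }
  have hLc : Continuous L := L.continuous_of_finiteDimensional
  let K : Set (ι → ℝ) := {x | (∀ i, 0 ≤ x i) ∧ ∑ i, x i ≤ X}
  have hKclosed : IsClosed K := by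
    have h1 : IsClosed {x : ι → ℝ | ∀ i, 0 ≤ x i} := by
      rw [Set.ofPred_forall]
      exact isClosed_iInter (fun i => isClosed_le continuous_const (continuous_apply i))
    have h2 : IsClosed {x : ι → ℝ | ∑ i, x i ≤ X} :=
      isClosed_le (continuous_finsetSum _ (fun i _ => continuous_apply i)) continuous_const
    exact h1.inter h2
  have hKcomp : IsCompact K := by
    refine IsCompact.of_isClosed_subset (isCompact_Icc (a := (0 : ι → ℝ)) (b := fun _ => X))
      hKclosed ?_
    intro x hx
    refine ⟨fun i => hx.1 i, fun i => ?_⟩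
    have := Finset.single_le_sum (f := x) (fun j _ => hx.1 j) (Finset.mem_univ i)
    exact this.trans hx.2
  have hKconv : Convex ℝ K := by
    intro x hx z hz a b ha hb hab
    refine ⟨fun i => ?_, ?_⟩
    · have h1 := mul_nonneg ha (hx.1 i)
      have h2 := mul_nonneg hb (hz.1 i)
      simp only [Pi.add_apply, Pi.smul_apply, smul_eq_mul]
      linarith
    · have e1 : ∑ i, (a • x + b • z) i = a * ∑ i, x i + b * ∑ i, z i := by
        simp [Finset.sum_add_distrib, Finset.mul_sum]
      rw [e1]
      have h1 := mul_le_mul_of_nonneg_left hx.2 ha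
      have h2 := mul_le_mul_of_nonneg_left hz.2 hb
      have h3 : a * X + b * X = X := by rw [← add_mul, hab, one_mul]
      linarith
  let T : Set ((α → ℝ) × (β → ℝ)) := {z | z.1 = (fun _ => (1 : ℝ)) ∧ ∀ e, z.2 e ≤ c e}
  have hTclosed : IsClosed T := by
    have h1 : IsClosed {z : (α → ℝ) × (β → ℝ) | z.1 = (fun _ => (1 : ℝ))} :=
      isClosed_eq continuous_fst continuous_const
    have h2 : IsClosed {z : (α → ℝ) × (β → ℝ) | ∀ e, z.2 e ≤ c e} := by
      rw [Set.ofPred_forall]
      exact isClosed_iInter (fun e =>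
        isClosed_le ((continuous_apply e).comp continuous_snd) continuous_const)
    exact h1.inter h2
  have hTconv : Convex ℝ T := by
    intro x hx z hz a b ha hb hab
    refine ⟨?_, fun e => ?_⟩
    · have hx1 : x.1 = (fun _ => (1 : ℝ)) := hx.1
      have hz1 : z.1 = (fun _ => (1 : ℝ)) := hz.1
      ext v
      simp only [Prod.fst_add, Prod.smul_fst, hx1, hz1, Pi.add_apply, Pi.smul_apply, smul_eq_mul,
        mul_one]
      exact hab
    · have h1 := mul_le_mul_of_nonneg_left (hx.2 e) ha
      have h2 := mul_le_mul_of_nonneg_left (hz.2 e) hb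
      simp only [Prod.snd_add, Prod.smul_snd, Pi.add_apply, Pi.smul_apply, smul_eq_mul]
      have h3 : a * c e + b * c e = c e := by rw [← add_mul, hab, one_mul]
      linarith
  have hdisj : Disjoint (L '' K) T := by
    rw [Set.disjoint_left]
    rintro z ⟨x, hx, rfl⟩ hz
    refine hno ⟨x, hx.1, hx.2, fun v => ?_, fun e => hz.2 e⟩
    exact congrFun hz.1 v
  obtain ⟨f, s, s', hs, hss, hs'⟩ := geometric_hahn_banach_compact_closed
    (hKconv.linear_image L) (hKcomp.image hLc) hTconv hTclosed hdisj
  set y : α → ℝ := fun v => f (Pi.single v 1, 0) with hy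
  set g : β → ℝ := fun e => - f (0, Pi.single e 1) with hg
  have hf : ∀ u p, f (u, p) = ∑ v, y v * u v - ∑ e, g e * p e := by
    intro u p
    have h0 : (u, p) = ∑ v, u v • ((Pi.single v 1, 0) : (α → ℝ) × (β → ℝ)) +
        ∑ e, p e • ((0, Pi.single e 1) : (α → ℝ) × (β → ℝ)) := by
      refine Prod.ext ?_ ?_
      · ext v
        simp [Prod.fst_sum, Finset.sum_apply, Pi.single_apply]
      · ext e
        simp [Prod.snd_sum, Finset.sum_apply, Pi.single_apply]
    rw [h0, map_add, map_sum, map_sum]
    simp only [map_smul, smul_eq_mul, hy, hg, neg_mul, Finset.sum_neg_distrib, sub_neg_eq_add]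
    congr 1
    · exact Finset.sum_congr rfl (fun v _ => mul_comm _ _)
    · exact Finset.sum_congr rfl (fun v _ => mul_comm _ _)
  have hg0 : ∀ e, 0 ≤ g e := by
    intro e
    by_contra hneg
    push Not at hneg
    -- the point `c - r • single e 1`
    have key : ∀ r : ℝ, 0 ≤ r → s' < (∑ v, y v - ∑ e, g e * c e) + g e * r := by
      intro r hr
      have hm : ((fun _ => (1 : ℝ)), (fun e' => c e' - r * (Pi.single e 1 : β → ℝ) e')) ∈ T := by
        refine ⟨rfl, fun e' => ?_⟩
        have : 0 ≤ (Pi.single e (1 : ℝ) : β → ℝ) e' := by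
          rw [Pi.single_apply]; split_ifs <;> norm_num
        have := mul_nonneg hr this
        simp only
        linarith
      have h1 := hs' _ hm
      rw [hf] at h1
      have e2 : ∑ e', g e' * (c e' - r * (Pi.single e 1 : β → ℝ) e') =
          ∑ e', g e' * c e' - g e * r := by
        have : ∀ e', g e' * (c e' - r * (Pi.single e 1 : β → ℝ) e') =
            g e' * c e' - (if e' = e then g e' * r else 0) := by
          intro e'
          rw [Pi.single_apply]
          split_ifs <;> ring
        rw [Finset.sum_congr rfl (fun e' _ => this e'), Finset.sum_sub_distrib]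
        simp
      rw [e2] at h1
      simp only [mul_one] at h1
      linarith
    set C0 := (∑ v, y v - ∑ e, g e * c e) with hC0
    have h2 := key ((|C0| + |s'|) / (- g e)) (div_nonneg (by positivity) (by linarith))
    have h3 : g e * ((|C0| + |s'|) / (- g e)) = - (|C0| + |s'|) := by
      field_simp [hneg.ne]
    rw [h3] at h2
    have h4 := le_abs_self C0
    have h5 := neg_abs_le s'
    linarith
  have hT1 : s' < ∑ v, y v - ∑ e, g e * c e := by
    have hm : ((fun _ => (1 : ℝ)), c) ∈ T := ⟨rfl, fun e => le_refl _⟩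
    have h1 := hs' _ hm
    rw [hf] at h1
    simpa only [mul_one] using h1
  have hK0 : 0 < s := by
    have hm : L 0 ∈ L '' K := ⟨0, ⟨fun i => le_refl _, by simpa using hX⟩, rfl⟩
    have h1 := hs _ hm
    simpa using h1
  set r : ι → ℝ := fun i => ∑ v, y v * A v i - ∑ e, g e * B e i with hr
  have hKi : ∀ i, X * r i < s := by
    intro i
    have hm : L (Pi.single i X) ∈ L '' K := by
      refine ⟨Pi.single i X, ⟨fun j => ?_, ?_⟩, rfl⟩
      · rw [Pi.single_apply]; split_ifs
        · exact hX
        · exact le_refl _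
      · simp
    have h1 := hs _ hm
    have e1 : L (Pi.single i X) = (fun v => A v i * X, fun e => B e i * X) := by
      refine Prod.ext ?_ ?_
      · ext v
        simp [L, Pi.single_apply]
      · ext e
        simp [L, Pi.single_apply]
    rw [e1, hf] at h1
    have e2 : X * r i = ∑ v, y v * (A v i * X) - ∑ e, g e * (B e i * X) := by
      rw [hr]
      simp only [mul_sub, Finset.mul_sum]
      congr 1
      · exact Finset.sum_congr rfl (fun v _ => by ring)
      · exact Finset.sum_congr rfl (fun v _ => by ring)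
    rw [e2]
    exact h1
  -- the maximum
  obtain ⟨l, hl0, hrl, hXl⟩ : ∃ l : ℝ, 0 ≤ l ∧ (∀ i, r i ≤ l) ∧ X * l < s := by
    rcases isEmpty_or_nonempty ι with hι | hι
    · exact ⟨0, le_refl _, fun i => (hι.false i).elim, by simpa using hK0⟩
    · obtain ⟨i0, hi0⟩ := Finite.exists_max r
      refine ⟨max 0 (r i0), le_max_left _ _, fun i => (hi0 i).trans (le_max_right _ _), ?_⟩
      rcases le_total 0 (r i0) with h | h
      · rw [max_eq_right h]; exact hKi i0
      · rw [max_eq_left h]; simpa using hK0
  refine ⟨y, g, l, hg0, hl0, fun i => ?_, ?_⟩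
  · have := hrl i
    simp only [hr] at this
    linarith
  · linarith

end

end Pool.Agent.LHad
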