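import Mathlib
import Pool.Agent.Lib.LHad.Defs

/-!
# LHad.PairAbs : pairing in a graph with few non-edges (pure combinatorics)

`R i j` = i and j do not touch.  Symmetric; every `j` has at most `μ` smaller `R`-neighbours.
Proof. The number of ordered pairs `(i, j)` with `R i j`, `i ≠ j`, is at most `2 N μ`.  `d := 400 μ`.  Let `L` be the set of the `i` with at most `d`
`R`-neighbours (`≠ i`): fewer than `N / 200` indices are outside `L` (strictly: `(N - |L|) * (d+1) ≤ 2Nμ`), so `200 |L| ≥ 199 N`.
Greedy: for `s ≤ t` there are `s` pairs inside `L` with the three properties.  Step `s → s+1` (`s < t`): the `2s` used indices are removed; at least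
`|L| - 2s ≥ (199/200)(21/10) t - 2(t-1) > 1 + d + d²` indices of `L` are left (`2.0895 t - 2t = 0.0895 t ≥ 89500 μ² `, while `1 + d + d²/2 ≤ 80401 μ²`: use the bound `d²/2`).
Take an unused `x ∈ L`.  Forbidden for `y`: `y = x`; the at most `d` `R`-neighbours of `x`; for every earlier pair `(p, q)` with `R x p` and `R x q` the at most `d`
`R`-neighbours of `p`.  There are at most `d/2` such pairs (they use two `R`-neighbours of `x` each, all distinct), so at most `1 + d + d²/2` indices are forbidden.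
Choose `y` unused and not forbidden.  Then `¬ R x y`, and for an earlier pair `(p, q)`: if `R x p` and `R x q` then `¬ R y p`; otherwise `¬ R x p` or `¬ R x q`.
-/

namespace Pool.Agent.LHad

open Finset

open scoped Classical

noncomputable section

variable {V : Type}

namespace PairAbsAux

/-- the `R`-neighbours of `i` other than `i` -/
def nr {N : ℕ} (R : Fin N → Fin N → Prop) (i : Fin N) : Finset (Fin N) :=
  univ.filter (fun j => j ≠ i ∧ R i j)

theorem sum_deg {N μ : ℕ} (R : Fin N → Fin N → Prop) (hsymm : ∀ i j, R i j → R j i)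
    (hn : ∀ j, (univ.filter (fun i => i < j ∧ R i j)).card ≤ μ) :
    ∑ i, (nr R i).card ≤ 2 * (N * μ) := by
  have h1 : ∀ i, (nr R i).card = (univ.filter (fun j => j < i ∧ R j i)).card +
      (univ.filter (fun j => i < j ∧ R i j)).card := by
    intro i
    rw [← Finset.card_union_of_disjoint]
    · congr 1
      ext j
      simp only [nr, Finset.mem_filter, Finset.mem_univ, true_and, Finset.mem_union]
      constructor
      · rintro ⟨h, h'⟩
        rcases lt_or_gt_of_ne h with h2 | h2
        · exact Or.inl ⟨h2, hsymm _ _ h'⟩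
        · exact Or.inr ⟨h2, h'⟩
      · rintro (⟨h, h'⟩ | ⟨h, h'⟩)
        · exact ⟨h.ne, hsymm _ _ h'⟩
        · exact ⟨h.ne', h'⟩
    · rw [Finset.disjoint_left]
      intro j hj hj'
      rw [Finset.mem_filter] at hj hj'
      exact absurd hj.2.1 (not_lt.mpr hj'.2.1.le)
  have h2 : ∑ i, (univ.filter (fun j => i < j ∧ R i j)).card =
      ∑ j, (univ.filter (fun i => i < j ∧ R i j)).card := by
    simp only [Finset.card_filter]
    exact Finset.sum_comm
  simp only [h1]
  rw [Finset.sum_add_distrib, h2]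
  have h3 : ∑ j, (univ.filter (fun i => i < j ∧ R i j)).card ≤ N * μ := by
    calc ∑ j, (univ.filter (fun i => i < j ∧ R i j)).card ≤ ∑ _j : Fin N, μ :=
          Finset.sum_le_sum fun j _ => hn j
      _ = N * μ := by simp
  omega

/-- the low-degree indices -/
def Lw {N : ℕ} (R : Fin N → Fin N → Prop) (μ : ℕ) : Finset (Fin N) :=
  univ.filter (fun i => (nr R i).card ≤ 400 * μ)

theorem card_Lw {N μ : ℕ} (hμ : 1 ≤ μ) (R : Fin N → Fin N → Prop)
    (hsymm : ∀ i j, R i j → R j i)
    (hn : ∀ j, (univ.filter (fun i => i < j ∧ R i j)).card ≤ μ) :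
    199 * N ≤ 200 * (Lw R μ).card := by
  have h1 := sum_deg R hsymm hn
  have h2 : (univ.filter (fun i : Fin N => ¬ (nr R i).card ≤ 400 * μ)).card * (400 * μ) ≤
      ∑ i, (nr R i).card := by
    calc _ = ∑ _i ∈ univ.filter (fun i : Fin N => ¬ (nr R i).card ≤ 400 * μ), 400 * μ := by
          rw [Finset.sum_const, smul_eq_mul]
      _ ≤ ∑ i ∈ univ.filter (fun i : Fin N => ¬ (nr R i).card ≤ 400 * μ), (nr R i).card := by
          refine Finset.sum_le_sum fun i hi => ?_
          rw [Finset.mem_filter] at hi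
          omega
      _ ≤ _ := Finset.sum_le_sum_of_subset (Finset.filter_subset _ _)
  have h3 : (Lw R μ).card + (univ.filter (fun i : Fin N => ¬ (nr R i).card ≤ 400 * μ)).card =
      N := by
    have := Finset.card_filter_add_card_filter_not (s := (univ : Finset (Fin N)))
      (fun i => (nr R i).card ≤ 400 * μ)
    simpa [Lw] using this
  set q := (univ.filter (fun i : Fin N => ¬ (nr R i).card ≤ 400 * μ)).card
  have h4 : q * (400 * μ) ≤ 2 * (N * μ) := h2.trans h1
  have h5 : (q * 200) * (2 * μ) ≤ N * (2 * μ) := by nlinarith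
  have h6 : q * 200 ≤ N := Nat.le_of_mul_le_mul_right h5 (by omega)
  omega

/-- the greedy invariant -/
def Inv {N : ℕ} (R : Fin N → Fin N → Prop) (L : Finset (Fin N)) (s : ℕ)
    (x y : ℕ → Fin N) : Prop :=
  (∀ i < s, x i ∈ L ∧ y i ∈ L ∧ x i ≠ y i ∧ ¬ R (x i) (y i)) ∧
  (∀ i < s, ∀ j < s, i ≠ j → x i ≠ x j ∧ x i ≠ y j ∧ y i ≠ x j ∧ y i ≠ y j) ∧
  (∀ i < s, ∀ j < s, i ≠ j →
    ¬ R (x i) (x j) ∨ ¬ R (x i) (y j) ∨ ¬ R (y i) (x j) ∨ ¬ R (y i) (y j))

theorem step {N μ t : ℕ} (hμ : 1 ≤ μ) (ht : 10 ^ 6 * μ ^ 2 ≤ t) (hN : 21 * t ≤ 10 * N)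
    (R : Fin N → Fin N → Prop) (hsymm : ∀ i j, R i j → R j i)
    (L : Finset (Fin N)) (hL : 199 * N ≤ 200 * L.card)
    (hd : ∀ i ∈ L, (nr R i).card ≤ 400 * μ) (s : ℕ) (hs : s < t) (x y : ℕ → Fin N)
    (h : Inv R L s x y) : ∃ x' y' : ℕ → Fin N, Inv R L (s + 1) x' y' := by
  obtain ⟨h1, h2, h3⟩ := h
  set W : Finset (Fin N) := (range s).image x ∪ (range s).image y with hW
  have hWc : W.card ≤ 2 * s := by
    rw [hW]
    refine (Finset.card_union_le _ _).trans ?_
    have a1 := Finset.card_image_le (s := range s) (f := x)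
    have a2 := Finset.card_image_le (s := range s) (f := y)
    rw [Finset.card_range] at a1 a2
    omega
  have hxW : ∀ i < s, x i ∈ W := fun i hi =>
    Finset.mem_union_left _ (Finset.mem_image_of_mem x (Finset.mem_range.mpr hi))
  have hyW : ∀ i < s, y i ∈ W := fun i hi =>
    Finset.mem_union_right _ (Finset.mem_image_of_mem y (Finset.mem_range.mpr hi))
  have hLW : 80401 * μ ^ 2 < (L \ W).card := by
    have a1 := Finset.le_card_sdiff W L
    have a2 : 2000 * L.card ≥ 1990 * N := by omega
    have a3 : 1990 * N * 10 ≥ 1990 * (21 * t) := by nlinarith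
    have a4 : 20000 * L.card ≥ 41790 * t := by nlinarith
    have a5 : 2 * s + 2 ≤ 2 * t := by omega
    have a6 : 1790 * (10 ^ 6 * μ ^ 2) ≤ 1790 * t := Nat.mul_le_mul_left _ ht
    have a7 : 20000 * (L.card - W.card) + 20000 * W.card ≥ 20000 * L.card := by omega
    have a8 : 1 ≤ μ ^ 2 := Nat.one_le_pow _ _ hμ
    nlinarith
  have hne : (L \ W).Nonempty := Finset.card_pos.mp (by omega)
  obtain ⟨x0, hx0⟩ := hne
  rw [Finset.mem_sdiff] at hx0
  set P : Finset ℕ := (range s).filter (fun i => R x0 (x i) ∧ R x0 (y i)) with hP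
  have hPc : 2 * P.card ≤ 400 * μ := by
    have a1 : P.image x ∪ P.image y ⊆ nr R x0 := by
      intro v hv
      rw [Finset.mem_union, Finset.mem_image, Finset.mem_image] at hv
      rcases hv with ⟨i, hi, rfl⟩ | ⟨i, hi, rfl⟩
      · rw [hP, Finset.mem_filter, Finset.mem_range] at hi
        simp only [nr, Finset.mem_filter, Finset.mem_univ, true_and]
        exact ⟨fun e => hx0.2 (e ▸ hxW i hi.1), hi.2.1⟩
      · rw [hP, Finset.mem_filter, Finset.mem_range] at hi
        simp only [nr, Finset.mem_filter, Finset.mem_univ, true_and]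
        exact ⟨fun e => hx0.2 (e ▸ hyW i hi.1), hi.2.2⟩
    have a2 : (P.image x).card = P.card := by
      refine Finset.card_image_of_injOn ?_
      intro i hi j hj hij
      by_contra hne
      have hi' := (Finset.mem_filter.mp hi).1
      have hj' := (Finset.mem_filter.mp hj).1
      exact (h2 i (Finset.mem_range.mp hi') j (Finset.mem_range.mp hj') hne).1 hij
    have a3 : (P.image y).card = P.card := by
      refine Finset.card_image_of_injOn ?_
      intro i hi j hj hij
      by_contra hne
      have hi' := (Finset.mem_filter.mp hi).1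
      have hj' := (Finset.mem_filter.mp hj).1
      exact (h2 i (Finset.mem_range.mp hi') j (Finset.mem_range.mp hj') hne).2.2.2 hij
    have a4 : Disjoint (P.image x) (P.image y) := by
      rw [Finset.disjoint_left]
      intro v hv hv'
      rw [Finset.mem_image] at hv hv'
      obtain ⟨i, hi, rfl⟩ := hv
      obtain ⟨j, hj, hij⟩ := hv'
      have hi' := Finset.mem_range.mp (Finset.mem_filter.mp hi).1
      have hj' := Finset.mem_range.mp (Finset.mem_filter.mp hj).1
      by_cases e : i = j
      · subst e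
        exact (h1 i hi').2.2.1 hij.symm
      · exact (h2 i hi' j hj' e).2.1 hij.symm
    have a5 := Finset.card_le_card a1
    rw [Finset.card_union_of_disjoint a4, a2, a3] at a5
    have := hd x0 hx0.1
    omega
  set B : Finset (Fin N) := ({x0} ∪ nr R x0) ∪ P.biUnion (fun i => nr R (x i)) with hB
  have hBc : B.card ≤ 1 + 400 * μ + 200 * μ * (400 * μ) := by
    have a1 : (P.biUnion (fun i => nr R (x i))).card ≤ P.card * (400 * μ) := by
      refine Finset.card_biUnion_le_card_mul _ _ _ ?_
      intro i hi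
      exact hd _ (h1 i (Finset.mem_range.mp (Finset.mem_filter.mp hi).1)).1
    have a2 : P.card * (400 * μ) ≤ 200 * μ * (400 * μ) := Nat.mul_le_mul_right _ (by omega)
    have a3 := Finset.card_union_le ({x0} ∪ nr R x0) (P.biUnion (fun i => nr R (x i)))
    have a4 := Finset.card_union_le {x0} (nr R x0)
    rw [Finset.card_singleton] at a4
    have a5 := hd x0 hx0.1
    have : B.card ≤ 1 + 400 * μ + 200 * μ * (400 * μ) := by
      rw [hB]
      omega
    exact this
  have hBlt : B.card < (L \ W).card := by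
    have : 1 + 400 * μ + 200 * μ * (400 * μ) ≤ 80401 * μ ^ 2 := by nlinarith
    omega
  obtain ⟨y0, hy0, hy0'⟩ := Finset.exists_mem_notMem_of_card_lt_card hBlt
  rw [Finset.mem_sdiff] at hy0
  have hy1 : y0 ≠ x0 := by
    rintro rfl
    exact hy0' (by rw [hB]; simp)
  have hy2 : ¬ R x0 y0 := by
    intro hR
    refine hy0' ?_
    rw [hB, Finset.mem_union, Finset.mem_union]
    left; right
    simp only [nr, Finset.mem_filter, Finset.mem_univ, true_and]
    exact ⟨hy1, hR⟩
  have hy3 : ∀ i < s, R x0 (x i) → R x0 (y i) → ¬ R (x i) y0 := by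
    intro i hi ha hb hR
    refine hy0' ?_
    rw [hB, Finset.mem_union, Finset.mem_biUnion]
    right
    refine ⟨i, ?_, ?_⟩
    · rw [hP, Finset.mem_filter, Finset.mem_range]
      exact ⟨hi, ha, hb⟩
    · simp only [nr, Finset.mem_filter, Finset.mem_univ, true_and]
      exact ⟨fun e => hy0.2 (e ▸ hxW i hi), hR⟩
  refine ⟨Function.update x s x0, Function.update y s y0, ?_, ?_, ?_⟩
  · intro i hi
    rcases Nat.lt_succ_iff_lt_or_eq.mp hi with hi | rfl
    · rw [Function.update_of_ne hi.ne, Function.update_of_ne hi.ne]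
      exact h1 i hi
    · rw [Function.update_self, Function.update_self]
      exact ⟨hx0.1, hy0.1, hy1.symm, hy2⟩
  · intro i hi j hj hij
    rcases Nat.lt_succ_iff_lt_or_eq.mp hi with hi | rfl
    · rcases Nat.lt_succ_iff_lt_or_eq.mp hj with hj | rfl
      · rw [Function.update_of_ne hi.ne, Function.update_of_ne hi.ne,
          Function.update_of_ne hj.ne, Function.update_of_ne hj.ne]
        exact h2 i hi j hj hij
      · rw [Function.update_of_ne hi.ne, Function.update_of_ne hi.ne,
          Function.update_self, Function.update_self]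
        exact ⟨fun e => hx0.2 (e ▸ hxW i hi), fun e => hy0.2 (e ▸ hxW i hi),
          fun e => hx0.2 (e ▸ hyW i hi), fun e => hy0.2 (e ▸ hyW i hi)⟩
    · rcases Nat.lt_succ_iff_lt_or_eq.mp hj with hj | hj
      · rw [Function.update_of_ne hj.ne, Function.update_of_ne hj.ne,
          Function.update_self, Function.update_self]
        exact ⟨fun e => hx0.2 (e.symm ▸ hxW j hj), fun e => hx0.2 (e.symm ▸ hyW j hj),
          fun e => hy0.2 (e.symm ▸ hxW j hj), fun e => hy0.2 (e.symm ▸ hyW j hj)⟩
      · exact absurd hj.symm hij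
  · intro i hi j hj hij
    rcases Nat.lt_succ_iff_lt_or_eq.mp hi with hi | rfl
    · rcases Nat.lt_succ_iff_lt_or_eq.mp hj with hj | rfl
      · rw [Function.update_of_ne hi.ne, Function.update_of_ne hi.ne,
          Function.update_of_ne hj.ne, Function.update_of_ne hj.ne]
        exact h3 i hi j hj hij
      · rw [Function.update_of_ne hi.ne, Function.update_of_ne hi.ne,
          Function.update_self, Function.update_self]
        by_cases ha : R x0 (x i)
        · by_cases hb : R x0 (y i)
          · exact Or.inr (Or.inl (hy3 i hi ha hb))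
          · exact Or.inr (Or.inr (Or.inl fun e => hb (hsymm _ _ e)))
        · exact Or.inl fun e => ha (hsymm _ _ e)
    · rcases Nat.lt_succ_iff_lt_or_eq.mp hj with hj | hj
      · rw [Function.update_of_ne hj.ne, Function.update_of_ne hj.ne,
          Function.update_self, Function.update_self]
        by_cases ha : R x0 (x j)
        · by_cases hb : R x0 (y j)
          · exact Or.inr (Or.inr (Or.inl fun e => hy3 j hj ha hb (hsymm _ _ e)))
          · exact Or.inr (Or.inl hb)
        · exact Or.inl ha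
      · exact absurd hj.symm hij

end PairAbsAux

open PairAbsAux

theorem pairAbs (N μ t : ℕ) (hμ : 1 ≤ μ) (ht : 10 ^ 6 * μ ^ 2 ≤ t) (hN : 21 * t ≤ 10 * N)
    (R : Fin N → Fin N → Prop) (hsymm : ∀ i j, R i j → R j i)
    (hn : ∀ j, (univ.filter (fun i => i < j ∧ R i j)).card ≤ μ) :
    ∃ x y : Fin t → Fin N, (∀ i, x i ≠ y i ∧ ¬ R (x i) (y i)) ∧
      (∀ i j, i ≠ j → x i ≠ x j ∧ x i ≠ y j ∧ y i ≠ x j ∧ y i ≠ y j) ∧
      (∀ i j, i ≠ j → ¬ R (x i) (x j) ∨ ¬ R (x i) (y j) ∨ ¬ R (y i) (x j) ∨ ¬ R (y i) (y j)) := by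
  have hμ2 : 1 ≤ μ ^ 2 := Nat.one_le_pow _ _ hμ
  have hN1 : 0 < N := by nlinarith
  have key : ∀ s ≤ t, ∃ x y : ℕ → Fin N, Inv R (Lw R μ) s x y := by
    intro s
    induction s with
    | zero =>
      intro _
      refine ⟨fun _ => ⟨0, hN1⟩, fun _ => ⟨0, hN1⟩, ?_, ?_, ?_⟩
      · intro i hi; omega
      · intro i hi; omega
      · intro i hi; omega
    | succ s ih =>
      intro hs
      obtain ⟨x, y, hxy⟩ := ih (by omega)
      exact step hμ ht hN R hsymm (Lw R μ) (card_Lw hμ R hsymm hn)
        (fun i hi => (Finset.mem_filter.mp hi).2) s (by omega) x y hxy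
  obtain ⟨x, y, h1, h2, h3⟩ := key t le_rfl
  refine ⟨fun i => x i, fun i => y i, fun i => ?_, fun i j hij => ?_, fun i j hij => ?_⟩
  · exact ⟨(h1 i i.2).2.2.1, (h1 i i.2).2.2.2⟩
  · exact h2 i i.2 j j.2 (fun e => hij (Fin.ext e))
  · exact h3 i i.2 j j.2 (fun e => hij (Fin.ext e))

end

end Pool.Agent.LHad
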