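import Mathlib
import Pool.Agent.Lib.LHad.Defs
import Pool.Agent.Lib.LHad.PairAbs

/-!
# LHad.PairKM : many disjoint connected sets that mostly touch give a `K_t` minor

`pairAbs` is a black box, used with `R i j := i ≠ j ∧ ¬ Touch G (X i) (X j)` (symmetric: `Touch` is symmetric).
Put `f i = X (x i) ∪ X (y i)` (as sets).  Connected: both are connected and they touch.  Disjoint: the four indices are different.
Touching: one of the four pairs of parts touches.
-/

namespace Pool.Agent.LHad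

open Finset

open scoped Classical

noncomputable section

variable {V : Type}

private theorem touch_symm {G : SimpleGraph V} {Z X : Finset V} (h : Touch G Z X) : Touch G X Z := by
  obtain ⟨z, hz, x, hx, hzx⟩ := h
  exact ⟨x, hx, z, hz, hzx.symm⟩

private def RR (G : SimpleGraph V) {N : ℕ} (X : Fin N → Finset V) (i j : Fin N) : Prop :=
  i ≠ j ∧ ¬ Touch G (X i) (X j)

theorem pairKM (G : SimpleGraph V) (N μ t : ℕ) (hμ : 1 ≤ μ) (ht : 10 ^ 6 * μ ^ 2 ≤ t)
    (hN : 21 * t ≤ 10 * N) (X : Fin N → Finset V) (hX : ∀ i, CC G (X i))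
    (hd : ∀ i j, i ≠ j → Disjoint (X i) (X j))
    (hn : ∀ j, (univ.filter (fun i => i < j ∧ ¬ Touch G (X i) (X j))).card ≤ μ) : KM G t := by
  obtain ⟨x, y, hxy, hdist, htouch⟩ := pairAbs N μ t hμ ht hN
    (RR G X)
    (fun i j h => ⟨h.1.symm, fun h2 => h.2 (touch_symm h2)⟩)
    (fun j => by
      refine le_trans (Finset.card_le_card ?_) (hn j)
      intro i hi
      have hi' := (Finset.mem_filter.mp hi).2
      exact Finset.mem_filter.mpr ⟨Finset.mem_univ _, hi'.1, hi'.2.2⟩)
  refine ⟨fun i => (X (x i) : Set V) ∪ (X (y i) : Set V), ?_, ?_, ?_⟩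
  · intro i
    have h1 : Touch G (X (x i)) (X (y i)) := by
      by_contra h
      exact (hxy i).2 ⟨(hxy i).1, h⟩
    obtain ⟨u, hu, v, hv, huv⟩ := h1
    exact SimpleGraph.connected_induce_union (hX (x i)).preconnected (hX (y i)).preconnected (Finset.mem_coe.mpr hu)
      (Finset.mem_coe.mpr hv) huv
  · intro i j hij
    obtain ⟨h1, h2, h3, h4⟩ := hdist i j hij
    have d1 := Finset.disjoint_coe.mpr (hd _ _ h1)
    have d2 := Finset.disjoint_coe.mpr (hd _ _ h2)
    have d3 := Finset.disjoint_coe.mpr (hd _ _ h3)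
    have d4 := Finset.disjoint_coe.mpr (hd _ _ h4)
    exact Set.disjoint_union_left.mpr
      ⟨Set.disjoint_union_right.mpr ⟨d1, d2⟩, Set.disjoint_union_right.mpr ⟨d3, d4⟩⟩
  · intro i j hij
    obtain ⟨h1, h2, h3, h4⟩ := hdist i j hij
    have key : Touch G (X (x i)) (X (x j)) ∨ Touch G (X (x i)) (X (y j)) ∨
        Touch G (X (y i)) (X (x j)) ∨ Touch G (X (y i)) (X (y j)) := by
      by_contra hc
      push Not at hc
      rcases htouch i j hij with h | h | h | h
      · exact h ⟨h1, hc.1⟩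
      · exact h ⟨h2, hc.2.1⟩
      · exact h ⟨h3, hc.2.2.1⟩
      · exact h ⟨h4, hc.2.2.2⟩
    rcases key with h | h | h | h
    · obtain ⟨u, hu, v, hv, huv⟩ := h
      exact ⟨u, Or.inl hu, v, Or.inl hv, huv⟩
    · obtain ⟨u, hu, v, hv, huv⟩ := h
      exact ⟨u, Or.inl hu, v, Or.inr hv, huv⟩
    · obtain ⟨u, hu, v, hv, huv⟩ := h
      exact ⟨u, Or.inr hu, v, Or.inl hv, huv⟩
    · obtain ⟨u, hu, v, hv, huv⟩ := h
      exact ⟨u, Or.inr hu, v, Or.inr hv, huv⟩

end

end Pool.Agent.LHad
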