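import Mathlib
import Pool.Agent.Lib.LHad.Defs
import Pool.Agent.Lib.LHad.Assemble
import Pool.Agent.Lib.LHad.AlphSub
import Pool.Agent.Lib.LHad.PairKM
import Pool.Agent.Lib.LHad.Colour

/-!
# LHad.ThmR : the robust Reed-Seymour theorem
-/

namespace Pool.Agent.LHad

open Finset

open scoped Classical

noncomputable section

variable {V : Type}

namespace ThmRAux

/-- indices `i < j` whose block has many neighbours in `D j` -/
def RA (G : SimpleGraph V) (θ : ℕ) {m : ℕ} (b : Fin m → Blk V) (D : Fin m → Finset V)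
    (j : Fin m) : Finset (Fin m) :=
  univ.filter (fun i => i < j ∧ θ < (nb G (b i).Z (D j)).card)

/-- conflicts of `j` -/
def RK (G F : SimpleGraph V) (θ : ℕ) {m : ℕ} (b : Fin m → Blk V) (D : Fin m → Finset V)
    (j : Fin m) : Finset (Fin m) :=
  univ.filter (fun i => i < j ∧ ¬ (θ < (nb G (b i).Z (D j)).card) ∧
    ∃ u ∈ (b i).I, ∃ v ∈ (b j).I, G.Adj u v ∨ F.Adj u v)

theorem mem_RA {G : SimpleGraph V} {θ m : ℕ} {b : Fin m → Blk V} {D : Fin m → Finset V}
    {i j : Fin m} : i ∈ RA G θ b D j ↔ i < j ∧ θ < (nb G (b i).Z (D j)).card := by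
  unfold RA
  rw [Finset.mem_filter]
  exact ⟨fun h => h.2, fun h => ⟨Finset.mem_univ _, h⟩⟩

theorem mem_RK {G F : SimpleGraph V} {θ m : ℕ} {b : Fin m → Blk V} {D : Fin m → Finset V}
    {i j : Fin m} : i ∈ RK G F θ b D j ↔ i < j ∧ ¬ (θ < (nb G (b i).Z (D j)).card) ∧
      ∃ u ∈ (b i).I, ∃ v ∈ (b j).I, G.Adj u v ∨ F.Adj u v := by
  unfold RK
  rw [Finset.mem_filter]
  exact ⟨fun h => h.2, fun h => ⟨Finset.mem_univ _, h⟩⟩

section run

variable {G F : SimpleGraph V} {w : V → ℝ} {θ μ κ : ℕ} {h : Fin 0 → Blk V} {U : Finset V}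
  {m : ℕ} {b : Fin m → Blk V} {D : Fin m → Finset V}

theorem disjZ (hR : Run G F w θ μ κ h U m b D) {i j : Fin m} (hij : i ≠ j) :
    Disjoint (b i).Z (b j).Z := by
  rcases lt_or_gt_of_ne hij with hlt | hlt
  · exact (hR.sep i j hlt).1.mono_right (hR.sub j).1
  · exact ((hR.sep j i hlt).1.mono_right (hR.sub i).1).symm

theorem subU (hR : Run G F w θ μ κ h U m b D) (j : Fin m) : (b j).Z ⊆ U :=
  (hR.sub j).1.trans (hR.sub j).2

theorem cardRA (hR : Run G F w θ μ κ h U m b D) (t : ℕ) (hμ : 1 ≤ μ)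
    (ht : 10 ^ 6 * μ ^ 2 ≤ t) (hKM : ¬ KM G t) (j : Fin m) :
    10 * (RA G θ b D j).card < 21 * t := by
  by_contra hc
  push Not at hc
  apply hKM
  let e := (RA G θ b D j).orderEmbOfFin rfl
  have heA : ∀ i, e i ∈ RA G θ b D j := fun i => Finset.orderEmbOfFin_mem _ rfl i
  refine pairKM G (RA G θ b D j).card μ t hμ ht hc (fun i => (b (e i)).Z)
    (fun i => (hR.good (e i)).2.1) ?_ ?_
  · intro i i' hii
    exact disjZ hR (fun he => hii (e.injective he))
  · intro j'
    have hnear := hR.near (e j')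
    have hle : (univ.filter (fun i : Fin m => i < e j' ∧
        θ < (nb G (b i).Z (D (e j'))).card ∧ ¬ Touch G (b i).Z (b (e j')).Z)).card ≤ μ :=
      (Nat.le_add_left _ _).trans hnear
    refine le_trans ?_ hle
    refine Finset.card_le_card_of_injOn (fun i => e i) ?_ (fun x _ y _ hxy => e.injective hxy)
    intro i hi
    simp only [Finset.coe_filter, Finset.mem_univ, true_and, Set.mem_setOf_eq] at hi ⊢
    refine ⟨e.strictMono hi.1, ?_, hi.2⟩
    have h1 := (mem_RA.1 (heA i)).2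
    have h2 := mem_RA.1 (heA j')
    have hT : Touch G (b (e j')).Z (D j) := by
      have hne : (nb G (b (e j')).Z (D j)).Nonempty := by
        rw [← Finset.card_pos]
        omega
      obtain ⟨c, hc⟩ := hne
      rw [mem_nb] at hc
      obtain ⟨hcD, z, hz, hzc⟩ := hc
      exact ⟨z, hz, c, hcD, hzc⟩
    have hsub : D j ⊆ D (e j') := by
      rcases (hR.sep (e j') j h2.1).2 with hs | hs
      · exact hs
      · exact absurd hT hs
    exact lt_of_lt_of_le h1 (Finset.card_le_card (nb_mono hsub))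

theorem m_le (hR : Run G F w θ μ κ h U m b D) : m ≤ U.card := by
  have hne : ∀ j : Fin m, ∃ v, v ∈ (b j).Z := fun j => cc_nonempty (hR.good j).2.1
  choose f hf using hne
  have : (univ : Finset (Fin m)).card ≤ U.card := by
    refine Finset.card_le_card_of_injOn f (fun j _ => subU hR j (hf j)) ?_
    intro i _ j _ hij
    by_contra hne
    have hd := disjZ hR hne
    exact (Finset.disjoint_left.1 hd (hf i)) (hij ▸ hf j)
  simpa using this

theorem sumRK [Fintype V] (hR : Run G F w θ μ κ h U m b D) (Δ : ℕ) (hF : DegLe F Δ) :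
    ∑ j, (RK G F θ b D j).card ≤ m * ((θ + 1) * alph G U) + U.card * Δ := by
  -- pairs with a `G`-edge
  have h1 : ∑ j, ((RK G F θ b D j).filter (fun i => Touch G (b i).Z (b j).Z)).card ≤
      m * ((θ + 1) * alph G U) := by
    have e1 : ∑ j, ((RK G F θ b D j).filter (fun i => Touch G (b i).Z (b j).Z)).card =
        ∑ j, ∑ i, (if i ∈ (RK G F θ b D j).filter (fun i => Touch G (b i).Z (b j).Z)
          then 1 else 0) := by
      refine Finset.sum_congr rfl (fun j _ => ?_)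
      rw [Finset.sum_ite_mem, Finset.univ_inter, Finset.card_eq_sum_ones]
    rw [e1, Finset.sum_comm]
    calc ∑ i, ∑ j, (if i ∈ (RK G F θ b D j).filter (fun i => Touch G (b i).Z (b j).Z)
          then 1 else 0) ≤ ∑ i : Fin m, (θ + 1) * alph G U := by
          refine Finset.sum_le_sum (fun i _ => ?_)
          refine le_trans ?_ (hR.confB i)
          rw [Finset.card_eq_sum_ones, Finset.sum_filter]
          refine Finset.sum_le_sum (fun j _ => ?_)
          by_cases hij : i ∈ (RK G F θ b D j).filter (fun i => Touch G (b i).Z (b j).Z)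
          · rw [if_pos hij]
            rw [Finset.mem_filter, mem_RK] at hij
            rw [if_pos ⟨hij.1.1, hij.1.2.1, hij.2⟩]
          · rw [if_neg hij]
            exact Nat.zero_le _
      _ = m * ((θ + 1) * alph G U) := by simp
  -- pairs without
  have h2 : ∑ j, ((RK G F θ b D j).filter (fun i => ¬ Touch G (b i).Z (b j).Z)).card ≤
      U.card * Δ := by
    have e1 : ∑ j, ((RK G F θ b D j).filter (fun i => ¬ Touch G (b i).Z (b j).Z)).card =
        (univ.sigma (fun j => (RK G F θ b D j).filter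
          (fun i => ¬ Touch G (b i).Z (b j).Z))).card := by
      rw [Finset.card_sigma]
    have e2 : ((U.sigma (fun u => univ.filter (fun v => F.Adj u v))).card) ≤ U.card * Δ := by
      rw [Finset.card_sigma]
      calc ∑ u ∈ U, (univ.filter (fun v => F.Adj u v)).card ≤ ∑ u ∈ U, Δ :=
            Finset.sum_le_sum (fun u _ => hF u)
        _ = U.card * Δ := by simp
    rw [e1]
    refine le_trans ?_ e2
    have key : ∀ p : (Σ _ : Fin m, Fin m), ∃ q : (Σ _ : V, V),
        p ∈ (univ.sigma (fun j => (RK G F θ b D j).filter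
          (fun i => ¬ Touch G (b i).Z (b j).Z))) →
          q.1 ∈ (b p.2).Z ∧ q.2 ∈ (b p.1).Z ∧ F.Adj q.1 q.2 := by
      rintro ⟨j, i⟩
      by_cases hp : (⟨j, i⟩ : (Σ _ : Fin m, Fin m)) ∈ (univ.sigma (fun j =>
          (RK G F θ b D j).filter (fun i => ¬ Touch G (b i).Z (b j).Z)))
      · rw [Finset.mem_sigma, Finset.mem_filter, mem_RK] at hp
        obtain ⟨-, ⟨_, _, u, hu, v, hv, huv⟩, hnt⟩ := hp
        have hu' := (hR.good i).1 hu
        have hv' := (hR.good j).1 hv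
        rcases huv with huv | huv
        · exact absurd ⟨u, hu', v, hv', huv⟩ hnt
        · exact ⟨⟨u, v⟩, fun _ => ⟨hu', hv', huv⟩⟩
      · obtain ⟨v, hv⟩ := cc_nonempty (hR.good i).2.1
        exact ⟨⟨v, v⟩, fun h => absurd h hp⟩
    choose f hf using key
    refine Finset.card_le_card_of_injOn f ?_ ?_
    · intro p hp
      have hq := hf p hp
      simp only [Finset.coe_sigma, Set.mem_sigma_iff, Finset.mem_coe, Finset.mem_filter,
        Finset.mem_univ, true_and]
      exact ⟨subU hR _ hq.1, hq.2.2⟩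
    · intro p hp q hq hpq
      have hp' := hf p hp
      have hq' := hf q hq
      rw [← hpq] at hq'
      have a1 : p.2 = q.2 := by
        by_contra hne
        exact Finset.disjoint_left.1 (disjZ hR hne) hp'.1 hq'.1
      have a2 : p.1 = q.1 := by
        by_contra hne
        exact Finset.disjoint_left.1 (disjZ hR hne) hp'.2.1 hq'.2.1
      obtain ⟨p1, p2⟩ := p
      obtain ⟨q1, q2⟩ := q
      simp only at a1 a2
      rw [a1, a2]
  calc ∑ j, (RK G F θ b D j).card
      = ∑ j, (((RK G F θ b D j).filter (fun i => Touch G (b i).Z (b j).Z)).card +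
          ((RK G F θ b D j).filter (fun i => ¬ Touch G (b i).Z (b j).Z)).card) := by
        refine Finset.sum_congr rfl (fun j _ => ?_)
        rw [Finset.card_filter_add_card_filter_not]
    _ = _ := Finset.sum_add_distrib
    _ ≤ _ := Nat.add_le_add h1 h2

end run

/-- the colouring lemma for sets of indices in `Fin m` -/
theorem colourFin (N0 τ m : ℕ) (hτ : 1 ≤ τ) (A K : Fin m → Finset (Fin m))
    (hA : ∀ j, (∀ i ∈ A j, i < j) ∧ (A j).card ≤ N0) (hK : ∀ j, ∀ i ∈ K j, i < j) :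
    ∃ c : Fin m → ℕ, (∀ j, c j < N0 + τ) ∧ (∀ j, ∀ i ∈ A j, c i ≠ c j) ∧
      τ * ∑ j, ((K j).filter (fun i => c i = c j)).card ≤ ∑ j, (K j).card := by
  let A' : ℕ → Finset ℕ := fun j => if hj : j < m then (A ⟨j, hj⟩).map Fin.valEmbedding else ∅
  let K' : ℕ → Finset ℕ := fun j => if hj : j < m then (K ⟨j, hj⟩).map Fin.valEmbedding else ∅
  have hA' : ∀ j (hj : j < m), A' j = (A ⟨j, hj⟩).map Fin.valEmbedding := fun j hj => dif_pos hj
  have hK' : ∀ j (hj : j < m), K' j = (K ⟨j, hj⟩).map Fin.valEmbedding := fun j hj => dif_pos hj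
  obtain ⟨c, hc1, hc2, hc3⟩ := colour N0 τ m hτ A' K' (by
    intro j hj
    rw [hA' j hj]
    refine ⟨?_, by rw [Finset.card_map]; exact (hA ⟨j, hj⟩).2⟩
    intro i hi
    rw [Finset.mem_map] at hi
    obtain ⟨i', hi', rfl⟩ := hi
    rw [Finset.mem_range]
    exact (hA ⟨j, hj⟩).1 i' hi') (by
    intro j hj
    rw [hK' j hj]
    intro i hi
    rw [Finset.mem_map] at hi
    obtain ⟨i', hi', rfl⟩ := hi
    rw [Finset.mem_range]
    exact hK ⟨j, hj⟩ i' hi')
  refine ⟨fun j => c j, fun j => hc1 j j.2, ?_, ?_⟩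
  · intro j i hi
    refine hc2 j j.2 i ?_
    rw [hA' j j.2, Finset.mem_map]
    exact ⟨i, hi, rfl⟩
  · have e1 : ∑ j ∈ range m, ((K' j).filter (fun i => c i = c j)).card =
        ∑ j : Fin m, ((K j).filter (fun i : Fin m => c i = c j)).card := by
      rw [Finset.sum_range]
      refine Finset.sum_congr rfl (fun j _ => ?_)
      rw [hK' j j.2]
      rw [Finset.filter_map, Finset.card_map]
      rfl
    have e2 : ∑ j ∈ range m, (K' j).card = ∑ j : Fin m, (K j).card := by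
      rw [Finset.sum_range]
      refine Finset.sum_congr rfl (fun j _ => ?_)
      rw [hK' j j.2, Finset.card_map]
    rw [e1, e2] at hc3
    exact hc3

end ThmRAux

open ThmRAux in
theorem thmR [Fintype V] (G F : SimpleGraph V) (w : V → ℝ) (hw : ∀ v, 0 ≤ w v)
    (a Δ K t : ℕ) (ha : 1 ≤ a) (hΔ : 1 ≤ Δ) (hK : 1 ≤ K)
    (hGF : ∀ u v, F.Adj u v → ¬ G.Adj u v) (hF : DegLe F Δ) (U : Finset V)
    (hA : ∀ S ⊆ U, HS G F S → S.card ≤ a) (β : ℝ) (hβ : ∀ S ⊆ U, HS G F S → wt w S ≤ β)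
    (hU : U.card ≤ K * t) (ht : 10 ^ 9 * K * a ^ 4 * Δ ^ 2 ≤ t) (hKM : ¬ KM G t) :
    wt w U ≤ (9 / 2) * t * β := by
  have hβ0 : 0 ≤ β := by
    have := hβ ∅ (Finset.empty_subset _) hs_empty
    simpa [wt] using this
  obtain ⟨m, b, D, hR⟩ := assemble G F w a Δ hGF hF U hA 0 (fun i => i.elim0)
    (fun i => i.elim0) (fun i => i.elim0) (fun i => i.elim0) (fun i => i.elim0)
  have haΔ : 1 ≤ a * Δ := Nat.mul_pos ha hΔ
  -- step 1
  have hμ : 1 ≤ 10 * a ^ 2 * Δ := by
    have : 0 < a ^ 2 * Δ := Nat.mul_pos (pow_pos ha 2) hΔ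
    nlinarith
  have hμt : 10 ^ 6 * (10 * a ^ 2 * Δ) ^ 2 ≤ t := by
    refine le_trans ?_ ht
    have : 10 ^ 6 * (10 * a ^ 2 * Δ) ^ 2 = 10 ^ 8 * 1 * a ^ 4 * Δ ^ 2 := by ring
    rw [this]
    refine Nat.mul_le_mul_right _ (Nat.mul_le_mul_right _ (Nat.mul_le_mul (by norm_num) hK))
  have hcA : ∀ j, (RA G (a * Δ) b D j).card ≤ 21 * t / 10 := by
    intro j
    have := cardRA hR t hμ hμt hKM j
    omega
  -- step 2
  have hsK := sumRK hR Δ hF
  have hmU : m ≤ U.card := m_le hR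
  have halph : alph G U ≤ 2 * (a * Δ) := by
    refine (alph_le_deg G F a Δ hF U hA).trans ?_
    nlinarith
  have hsK2 : ∑ j, (RK G F (a * Δ) b D j).card ≤ 5 * (a * Δ) ^ 2 * (K * t) := by
    refine hsK.trans ?_
    have h1 : m * ((a * Δ + 1) * alph G U) ≤ (K * t) * ((2 * (a * Δ)) * (2 * (a * Δ))) :=
      Nat.mul_le_mul (hmU.trans hU) (Nat.mul_le_mul (by omega) halph)
    have h2 : U.card * Δ ≤ (K * t) * (a * Δ) ^ 2 := by
      refine Nat.mul_le_mul hU ?_
      calc Δ ≤ a * Δ := Nat.le_mul_of_pos_left _ ha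
        _ ≤ (a * Δ) ^ 2 := by nlinarith
    calc _ ≤ (K * t) * ((2 * (a * Δ)) * (2 * (a * Δ))) + (K * t) * (a * Δ) ^ 2 :=
          Nat.add_le_add h1 h2
      _ = 5 * (a * Δ) ^ 2 * (K * t) := by ring
  -- step 3
  obtain ⟨c, hc1, hc2, hc3⟩ := colourFin (21 * t / 10) (t / 10 + 1) m (by omega)
    (RA G (a * Δ) b D) (RK G F (a * Δ) b D)
    (fun j => ⟨fun i hi => (mem_RA.1 hi).1, hcA j⟩) (fun j i hi => (mem_RK.1 hi).1)
  set M : ℕ := 21 * t / 10 + (t / 10 + 1) with hM
  let bad : Finset (Fin m) := univ.filter (fun j => ∃ i ∈ RK G F (a * Δ) b D j, c i = c j)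
  have hbadmem : ∀ j, j ∈ bad ↔ ∃ i ∈ RK G F (a * Δ) b D j, c i = c j := by
    intro j
    simp only [bad, Finset.mem_filter, Finset.mem_univ, true_and]
  have hbad1 : bad.card ≤ ∑ j, ((RK G F (a * Δ) b D j).filter (fun i => c i = c j)).card := by
    rw [Finset.card_eq_sum_ones]
    calc ∑ j ∈ bad, 1 ≤ ∑ j ∈ bad,
          ((RK G F (a * Δ) b D j).filter (fun i => c i = c j)).card := by
          refine Finset.sum_le_sum (fun j hj => ?_)
          rw [hbadmem] at hj
          obtain ⟨i, hi, hij⟩ := hj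
          exact Finset.card_pos.2 ⟨i, by rw [Finset.mem_filter]; exact ⟨hi, hij⟩⟩
      _ ≤ _ := Finset.sum_le_sum_of_subset (Finset.subset_univ _)
  have htpos : 0 < t := by
    refine lt_of_lt_of_le ?_ ht
    positivity
  have hbad : bad.card ≤ 50 * (a * Δ) ^ 2 * K := by
    have h1 : (t / 10 + 1) * bad.card ≤ 5 * (a * Δ) ^ 2 * (K * t) :=
      ((Nat.mul_le_mul_left _ hbad1).trans hc3).trans hsK2
    have h2 : t ≤ 10 * (t / 10 + 1) := by omega
    have h3 : t * bad.card ≤ t * (50 * (a * Δ) ^ 2 * K) := by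
      calc t * bad.card ≤ 10 * (t / 10 + 1) * bad.card := Nat.mul_le_mul_right _ h2
        _ = 10 * ((t / 10 + 1) * bad.card) := by ring
        _ ≤ 10 * (5 * (a * Δ) ^ 2 * (K * t)) := Nat.mul_le_mul_left _ h1
        _ = t * (50 * (a * Δ) ^ 2 * K) := by ring
    exact Nat.le_of_mul_le_mul_left h3 htpos
  -- the colour classes
  let J : ℕ → Finset (Fin m) := fun γ => univ.filter (fun j => c j = γ ∧ j ∉ bad)
  have hJmem : ∀ γ j, j ∈ J γ ↔ c j = γ ∧ j ∉ bad := by
    intro γ j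
    simp only [J, Finset.mem_filter, Finset.mem_univ, true_and]
  have hIdisj : ∀ i j : Fin m, i ≠ j → Disjoint (b i).I (b j).I := by
    intro i j hij
    exact (disjZ hR hij).mono (hR.good i).1 (hR.good j).1
  have hno : ∀ γ i j, i ∈ J γ → j ∈ J γ → i < j → ∀ u ∈ (b i).I, ∀ v ∈ (b j).I,
      ¬ (G.Adj u v ∨ F.Adj u v) := by
    intro γ i j hi hj hij u hu v hv huv
    rw [hJmem] at hi hj
    have hcc : c i = c j := by rw [hi.1, hj.1]
    by_cases hθ : a * Δ < (nb G (b i).Z (D j)).card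
    · exact hc2 j i (mem_RA.2 ⟨hij, hθ⟩) hcc
    · apply hj.2
      rw [hbadmem]
      exact ⟨i, mem_RK.2 ⟨hij, hθ, u, hu, v, hv, huv⟩, hcc⟩
  have hSγ : ∀ γ, ∑ j ∈ J γ, wt w (b j).I ≤ β := by
    intro γ
    have e1 : wt w ((J γ).biUnion (fun j => (b j).I)) = ∑ j ∈ J γ, wt w (b j).I := by
      unfold wt
      rw [Finset.sum_biUnion]
      intro i _ j _ hij
      exact hIdisj i j hij
    rw [← e1]
    apply hβ
    · intro v hv
      rw [Finset.mem_biUnion] at hv
      obtain ⟨j, _, hj⟩ := hv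
      exact subU hR j ((hR.good j).1 hj)
    · intro u hu v hv
      rw [Finset.mem_biUnion] at hu hv
      obtain ⟨i, hi, hui⟩ := hu
      obtain ⟨j, hj, hvj⟩ := hv
      rcases lt_trichotomy i j with hij | hij | hij
      · have := hno γ i j hi hj hij u hui v hvj
        push Not at this
        exact this
      · subst hij
        exact (hR.good i).2.2.1 u hui v hvj
      · have := hno γ j i hj hi hij v hvj u hui
        push Not at this
        exact ⟨fun h => this.1 h.symm, fun h => this.2 h.symm⟩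
  have hgoodsum : ∑ j ∈ univ.filter (fun j => j ∉ bad), wt w (b j).I ≤ M * β := by
    have e1 : ∑ j ∈ univ.filter (fun j => j ∉ bad), wt w (b j).I =
        ∑ γ ∈ range M, ∑ j ∈ J γ, wt w (b j).I := by
      rw [← Finset.sum_fiberwise_of_maps_to (s := univ.filter (fun j => j ∉ bad))
        (t := range M) (g := c) (fun j _ => Finset.mem_range.2 (hc1 j))]
      refine Finset.sum_congr rfl (fun γ _ => ?_)
      refine Finset.sum_congr ?_ (fun _ _ => rfl)
      ext j
      rw [hJmem, Finset.mem_filter, Finset.mem_filter]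
      exact ⟨fun h => ⟨h.2, h.1.2⟩, fun h => ⟨⟨Finset.mem_univ _, h.2⟩, h.1⟩⟩
    rw [e1]
    calc ∑ γ ∈ range M, ∑ j ∈ J γ, wt w (b j).I ≤ ∑ γ ∈ range M, β :=
          Finset.sum_le_sum (fun γ _ => hSγ γ)
      _ = M * β := by simp
  have hbadsum : ∑ j ∈ bad, wt w (b j).I ≤ bad.card * β := by
    calc ∑ j ∈ bad, wt w (b j).I ≤ ∑ j ∈ bad, β := by
          refine Finset.sum_le_sum (fun j _ => ?_)
          exact hβ _ ((hR.good j).1.trans (subU hR j)) (hR.good j).2.2.1
      _ = bad.card * β := by simp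
  have hallsum : ∑ j, wt w (b j).I ≤ (M + bad.card) * β := by
    have e1 : ∑ j, wt w (b j).I = ∑ j ∈ univ.filter (fun j => j ∈ bad), wt w (b j).I +
        ∑ j ∈ univ.filter (fun j => j ∉ bad), wt w (b j).I :=
      (Finset.sum_filter_add_sum_filter_not univ (fun j => j ∈ bad) _).symm
    have e2 : univ.filter (fun j => j ∈ bad) = bad := by
      ext j
      simp
    rw [e1, e2]
    linarith
  -- step 4
  have hdel : ((U \ univ.biUnion (fun j => (b j).Z)).card : ℝ) ≤ 12 * ((a * Δ : ℕ) : ℝ) ^ 2 := by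
    have h1 : (U \ univ.biUnion (fun j => (b j).Z)).card ≤ 12 * (a * Δ) ^ 2 := by
      refine hR.del.trans ?_
      calc 3 * a * Δ * (2 * alph G U - 1) ≤ 3 * a * Δ * (4 * (a * Δ)) :=
            Nat.mul_le_mul_left _ (by omega)
        _ = 12 * (a * Δ) ^ 2 := by ring
    exact_mod_cast h1
  have hw1 : ∀ v ∈ U, w v ≤ β := by
    intro v hv
    have := hβ {v} (by simpa using hv) (hs_singleton v)
    simpa [wt] using this
  have hUsplit : wt w U ≤ wt w (U \ univ.biUnion (fun j => (b j).Z)) +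
      ∑ j, wt w (b j).Z := by
    have e1 : ∑ j, wt w (b j).Z = wt w (univ.biUnion (fun j => (b j).Z)) := by
      unfold wt
      rw [Finset.sum_biUnion]
      intro i _ j _ hij
      exact disjZ hR hij
    rw [e1, ← wt_union_disjoint Finset.sdiff_disjoint]
    apply wt_mono hw
    rw [Finset.sdiff_union_self_eq_union]
    exact Finset.subset_union_left
  have hdelw : wt w (U \ univ.biUnion (fun j => (b j).Z)) ≤
      12 * ((a * Δ : ℕ) : ℝ) ^ 2 * β := by
    calc wt w (U \ univ.biUnion (fun j => (b j).Z))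
        ≤ ∑ v ∈ U \ univ.biUnion (fun j => (b j).Z), β :=
          Finset.sum_le_sum (fun v hv => hw1 v (Finset.mem_sdiff.1 hv).1)
      _ = ((U \ univ.biUnion (fun j => (b j).Z)).card : ℝ) * β := by simp
      _ ≤ _ := mul_le_mul_of_nonneg_right hdel hβ0
  have hZsum : ∑ j, wt w (b j).Z ≤ 2 * ((M + bad.card) * β) := by
    calc ∑ j, wt w (b j).Z ≤ ∑ j, 2 * wt w (b j).I :=
          Finset.sum_le_sum (fun j _ => (hR.good j).2.2.2)
      _ = 2 * ∑ j, wt w (b j).I := by rw [Finset.mul_sum]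
      _ ≤ _ := by linarith
  -- numerics
  have hn1 : (bad.card : ℝ) ≤ 50 * ((a * Δ : ℕ) : ℝ) ^ 2 * K := by exact_mod_cast hbad
  have hn2 : (M : ℝ) ≤ 22 / 10 * t + 1 := by
    have h1 : 10 * M ≤ 22 * t + 10 := by omega
    have h2 : (10 * M : ℝ) ≤ 22 * t + 10 := by exact_mod_cast h1
    linarith
  have hn3 : (1140 : ℝ) * (((a * Δ : ℕ) : ℝ) ^ 2 * K) ≤ t := by
    have h1 : 1140 * ((a * Δ) ^ 2 * K) ≤ t := by
      refine le_trans ?_ ht
      have h2 : (a * Δ) ^ 2 * K ≤ K * a ^ 4 * Δ ^ 2 := by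
        have : a ^ 2 ≤ a ^ 4 := Nat.pow_le_pow_right ha (by norm_num)
        calc (a * Δ) ^ 2 * K = K * a ^ 2 * Δ ^ 2 := by ring
          _ ≤ K * a ^ 4 * Δ ^ 2 := by gcongr
      calc 1140 * ((a * Δ) ^ 2 * K) ≤ 10 ^ 9 * (K * a ^ 4 * Δ ^ 2) :=
            Nat.mul_le_mul (by norm_num) h2
        _ = 10 ^ 9 * K * a ^ 4 * Δ ^ 2 := by ring
    exact_mod_cast h1
  have hn4 : (1 : ℝ) ≤ ((a * Δ : ℕ) : ℝ) ^ 2 * K := by
    have : 1 ≤ (a * Δ) ^ 2 * K := Nat.mul_pos (pow_pos haΔ 2) hK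
    exact_mod_cast this
  have hn5 : ((a * Δ : ℕ) : ℝ) ^ 2 ≤ ((a * Δ : ℕ) : ℝ) ^ 2 * K := by
    have hK1 : (1 : ℝ) ≤ K := by exact_mod_cast hK
    have : (0 : ℝ) ≤ ((a * Δ : ℕ) : ℝ) ^ 2 := by positivity
    nlinarith
  have hfin : 12 * ((a * Δ : ℕ) : ℝ) ^ 2 + 2 * (M + bad.card) ≤ 9 / 2 * t := by
    linarith
  calc wt w U ≤ 12 * ((a * Δ : ℕ) : ℝ) ^ 2 * β + 2 * ((M + bad.card) * β) := by linarith
    _ = (12 * ((a * Δ : ℕ) : ℝ) ^ 2 + 2 * (M + bad.card)) * β := by ring
    _ ≤ (9 / 2 * t) * β := mul_le_mul_of_nonneg_right hfin hβ0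

end

end Pool.Agent.LHad
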