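import Mathlib
import Pool.Agent.Lib.LHad.Defs
import Pool.Agent.Lib.LHad.Dual
import Pool.Agent.Lib.LHad.ThmR

/-!
# LHad.FracCol : fractional colouring with small pair-codegree

`lpDual`, `thmR` are black boxes.  If `V` is empty take `x = 0`.
Proof. `a = 22K`.  Apply `lpDual` with `ι = {S : Finset V // GS G S ∧ S.Nonempty ∧ S.card ≤ a}`, `α = V`, `A v S = [v ∈ S]`,
`β = {(u, v) : V × V // u ≠ v}` (ordered pairs), `B (u,v) S = [u ∈ S ∧ v ∈ S]`, `c = 1/M`, `X = 4.7 t`.  If the system is solvable extend `x` by `0`.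
Otherwise there are `y`, `g ≥ 0`, `l ≥ 0` with `y(S) ≤ g(S) + l` for all `S ∈ ι` and `(1/M) ∑ g + 4.7 t l < ∑ y`, where `g(S) = ∑_{u ≠ v ∈ S} g (u,v)` over ordered pairs.
`w v = max (y v) 0`, `W = ∑ w ≥ ∑ y > 0`.
(1) for `S ∈ ι`: `w(S) ≤ g(S) + l`: let `S⁺ = {v ∈ S : y v > 0}`; if empty then `w(S) = 0 ≤ g(S) + l`; otherwise `S⁺ ∈ ι` and `w(S) = y(S⁺) ≤ g(S⁺) + l ≤ g(S) + l`.
(2) `l < W / (4.7 t)`, `∑ g < M W`, `w v ≤ l` (singletons: `g({v}) = 0`).
(3) `c0 = W / (1000 t a²)`.  `F.Adj u v := u ≠ v ∧ ¬ G.Adj u v ∧ u ∈ U ∧ v ∈ U ∧ (c0 ≤ g (u,v) ∨ c0 ≤ g (v,u))` with `U` below; first without the restriction to `U` call it `F0`.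
    The number of ordered pairs `(u,v)` with `F0.Adj u v` is at most `2 (∑ g) / c0 ≤ 2000 t a² M`.  `Δ = 2·10^5 a² M`.  `Bad = {v : F0-degree > Δ}`, `|Bad| ≤ 2000 t a² M / Δ = t/100`,
    `w(Bad) ≤ l t / 100 ≤ W/470`.  `Low = {v : w v < W / (100 |V|)}`, `w(Low) ≤ W/100`.  `U = univ \ (Bad ∪ Low)`, `w(U) ≥ 0.98 W`, all `F`-degrees are `≤ Δ`.
(4) For `HS` sets `S ⊆ U` with `S.card ≤ a`: `g(S) ≤ a² c0 = W / (1000 t)` (every ordered pair of distinct elements has `g < c0`), so if `S ≠ ∅`: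
    `w(S) ≤ l + W/(1000 t) < W/t * (1/4.7 + 0.001) < 0.2138 W/t`.
(5) If some `HS` set `S ⊆ U` has more than `a` elements, take a subset with exactly `a`: `w(S) ≥ a W / (100 |V|) ≥ 22K W / (100 K t) = 0.22 W/t`, contradiction to (4).
(6) So all `HS` sets in `U` have `≤ a` elements; `thmR` with `β = 0.2138 W/t`, this `a`, `Δ`: `w(U) ≤ 4.5 t β = 0.9621 W < 0.98 W`, contradiction.
    Condition of `thmR`: `10^9 K a^4 Δ^2 = 10^9 K a^4 · 4·10^10 a^4 M² = 4·10^19 K a^8 M²`, and `22^8 < 5.5·10^10`: `≤ 2.2·10^30 K^9 M² ≤ 10^31 K^9 M² ≤ t`.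
-/

namespace Pool.Agent.LHad

open Finset

open scoped Classical

noncomputable section

variable {V : Type}

namespace FracColAux

theorem degLe_of [Fintype V] (F : SimpleGraph V) (Δ : ℕ)
    (h : ∀ v, ∃ T : Finset V, (∀ u, F.Adj v u → u ∈ T) ∧ T.card ≤ Δ) : DegLe F Δ := by
  intro v
  obtain ⟨T, hT, hc⟩ := h v
  refine le_trans (Finset.card_le_card ?_) hc
  intro u hu
  exact hT u (Finset.mem_filter.mp hu).2

theorem ext_sum {P : Finset V → Prop} [DecidablePred P] [Fintype V] [Fintype {S // P S}]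
    (x : {S // P S} → ℝ) (f : Finset V → ℝ) :
    ∑ S : Finset V, f S * (if h : P S then x ⟨S, h⟩ else 0) = ∑ i : {S // P S}, f i.1 * x i := by
  have h1 : ∑ i : {S // P S}, f i.1 * x i =
      ∑ i : {S // P S}, (fun S : Finset V => f S * (if h : P S then x ⟨S, h⟩ else 0)) i.1 := by
    apply Finset.sum_congr rfl
    intro i _
    simp [i.2]
  rw [h1, ← Finset.sum_subtype (univ.filter P) (by simp)
    (fun S : Finset V => f S * (if h : P S then x ⟨S, h⟩ else 0)), Finset.sum_filter_of_ne]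
  intro S _ hS
  by_contra hP
  apply hS
  simp [hP]

/-- the pair weight of a set -/
def gS [Fintype V] (g : {e : V × V // e.1 ≠ e.2} → ℝ) (S : Finset V) : ℝ :=
  ∑ e : {e : V × V // e.1 ≠ e.2}, g e * (if e.1.1 ∈ S ∧ e.1.2 ∈ S then 1 else 0)

theorem gS_mono [Fintype V] (g : {e : V × V // e.1 ≠ e.2} → ℝ) (hg : ∀ e, 0 ≤ g e)
    {S T : Finset V} (h : S ⊆ T) : gS g S ≤ gS g T := by
  unfold gS
  apply Finset.sum_le_sum
  intro e _
  apply mul_le_mul_of_nonneg_left _ (hg e)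
  by_cases h1 : e.1.1 ∈ S ∧ e.1.2 ∈ S
  · rw [if_pos h1, if_pos ⟨h h1.1, h h1.2⟩]
  · rw [if_neg h1]
    split_ifs <;> norm_num

theorem gS_nonneg [Fintype V] (g : {e : V × V // e.1 ≠ e.2} → ℝ) (hg : ∀ e, 0 ≤ g e)
    (S : Finset V) : 0 ≤ gS g S := by
  unfold gS
  apply Finset.sum_nonneg
  intro e _
  apply mul_nonneg (hg e)
  split_ifs <;> norm_num

theorem gS_single [Fintype V] (g : {e : V × V // e.1 ≠ e.2} → ℝ) (v : V) : gS g {v} = 0 := by
  unfold gS
  apply Finset.sum_eq_zero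
  intro e _
  rw [if_neg, mul_zero]
  rintro ⟨h1, h2⟩
  rw [Finset.mem_singleton] at h1 h2
  exact e.2 (h1.trans h2.symm)

theorem gS_le [Fintype V] (g : {e : V × V // e.1 ≠ e.2} → ℝ) (c : ℝ)
    (S : Finset V) (h : ∀ e : {e : V × V // e.1 ≠ e.2}, e.1.1 ∈ S → e.1.2 ∈ S → g e ≤ c)
    (hc : 0 ≤ c) : gS g S ≤ (S.card : ℝ) ^ 2 * c := by
  unfold gS
  have h1 : ∑ e : {e : V × V // e.1 ≠ e.2}, g e * (if e.1.1 ∈ S ∧ e.1.2 ∈ S then (1:ℝ) else 0) ≤
      ∑ e : {e : V × V // e.1 ≠ e.2}, (if e.1.1 ∈ S ∧ e.1.2 ∈ S then c else 0) := by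
    apply Finset.sum_le_sum
    intro e _
    by_cases h1 : e.1.1 ∈ S ∧ e.1.2 ∈ S
    · rw [if_pos h1, if_pos h1, mul_one]
      exact h e h1.1 h1.2
    · rw [if_neg h1, if_neg h1, mul_zero]
  refine h1.trans ?_
  rw [← Finset.sum_filter, Finset.sum_const, nsmul_eq_mul]
  apply mul_le_mul_of_nonneg_right _ hc
  have h2 : (univ.filter (fun e : {e : V × V // e.1 ≠ e.2} => e.1.1 ∈ S ∧ e.1.2 ∈ S)).card ≤
      (S ×ˢ S).card := by
    apply Finset.card_le_card_of_injOn (fun e => e.1)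
    · intro e he
      rw [Finset.mem_coe, Finset.mem_filter] at he
      rw [Finset.mem_coe, Finset.mem_product]
      exact he.2
    · intro e _ e' _ hee
      exact Subtype.ext hee
  rw [Finset.card_product] at h2
  calc ((univ.filter (fun e : {e : V × V // e.1 ≠ e.2} => e.1.1 ∈ S ∧ e.1.2 ∈ S)).card : ℝ)
      ≤ ((S.card * S.card : ℕ) : ℝ) := by exact_mod_cast h2
    _ = (S.card : ℝ) ^ 2 := by push_cast; ring

theorem arith (K t M : ℕ) (ht : 10 ^ 31 * K ^ 9 * M ^ 2 ≤ t) :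
    10 ^ 9 * K * (22 * K) ^ 4 * (2 * 10 ^ 5 * (22 * K) ^ 2 * M) ^ 2 ≤ t := by
  calc 10 ^ 9 * K * (22 * K) ^ 4 * (2 * 10 ^ 5 * (22 * K) ^ 2 * M) ^ 2
      = (10 ^ 9 * 22 ^ 4 * (2 * 10 ^ 5 * 22 ^ 2) ^ 2) * (K ^ 9 * M ^ 2) := by ring
    _ ≤ 10 ^ 31 * (K ^ 9 * M ^ 2) := Nat.mul_le_mul_right _ (by norm_num)
    _ = 10 ^ 31 * K ^ 9 * M ^ 2 := by ring
    _ ≤ t := ht

/-- the dual system is infeasible -/
theorem no_dual [Fintype V] (G : SimpleGraph V) (K t M : ℕ) (hK : 1 ≤ K) (hM : 1 ≤ M)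
    (ht : 10 ^ 31 * K ^ 9 * M ^ 2 ≤ t) (hn : Fintype.card V ≤ K * t) (hKM : ¬ KM G t)
    (y : V → ℝ) (g : {e : V × V // e.1 ≠ e.2} → ℝ) (l : ℝ) (hg : ∀ e, 0 ≤ g e) (hl : 0 ≤ l)
    (h1 : ∀ S : Finset V, GS G S → S.Nonempty → S.card ≤ 22 * K → wt y S ≤ gS g S + l)
    (h2 : ∑ e, g e * (1 / (M : ℝ)) + (47 / 10) * t * l < ∑ v, y v) : False := by
  have hM' : (0 : ℝ) < M := by exact_mod_cast hM
  have hK' : (0 : ℝ) < K := by exact_mod_cast hK
  have htN : 1 ≤ t := by
    have h0 : 1 ≤ 10 ^ 31 * K ^ 9 * M ^ 2 := by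
      have h3 : 0 < 10 ^ 31 * K ^ 9 * M ^ 2 := by positivity
      omega
    omega
  have ht' : (0 : ℝ) < t := by exact_mod_cast htN
  set w : V → ℝ := fun v => max (y v) 0 with hw
  have hw0 : ∀ v, 0 ≤ w v := fun v => le_max_right _ _
  set W : ℝ := ∑ v, w v with hW
  have hyW : ∑ v, y v ≤ W := Finset.sum_le_sum (fun v _ => le_max_left _ _)
  have hsum0 : 0 ≤ ∑ e, g e := Finset.sum_nonneg (fun e _ => hg e)
  have hsumM : ∑ e, g e * (1 / (M : ℝ)) = (∑ e, g e) / M := by
    rw [← Finset.sum_mul]; ring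
  rw [hsumM] at h2
  have hdiv : 0 ≤ (∑ e, g e) / M := div_nonneg hsum0 hM'.le
  have htl : 0 ≤ (47 / 10) * t * l := by positivity
  have hWpos : 0 < W := by linarith
  have hl1 : (47 / 10) * t * l < W := by linarith
  have hg1 : ∑ e, g e < M * W := by
    have h3 : (∑ e, g e) / M < W := by linarith
    rw [div_lt_iff₀ hM'] at h3
    linarith
  -- (1)
  have hwS : ∀ S : Finset V, GS G S → S.Nonempty → S.card ≤ 22 * K →
      wt w S ≤ gS g S + l := by
    intro S hS _ hSc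
    have h3 : wt w S = wt y (S.filter (fun v => 0 < y v)) := by
      unfold wt
      rw [Finset.sum_filter]
      apply Finset.sum_congr rfl
      intro v _
      show max (y v) 0 = _
      by_cases hv : 0 < y v
      · rw [if_pos hv, max_eq_left hv.le]
      · rw [if_neg hv, max_eq_right (not_lt.mp hv)]
    rcases (S.filter (fun v => 0 < y v)).eq_empty_or_nonempty with h4 | h4
    · rw [h3, h4]
      have h5 := gS_nonneg g hg S
      simp only [wt, Finset.sum_empty]
      linarith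
    · rw [h3]
      have h5 := h1 _ (hS.mono (Finset.filter_subset _ _)) h4
        ((Finset.card_le_card (Finset.filter_subset _ _)).trans hSc)
      have h6 := gS_mono g hg (Finset.filter_subset (fun v => 0 < y v) S)
      linarith
  have hwl : ∀ v, w v ≤ l := by
    intro v
    have h3 := hwS {v} (gs_singleton v) (Finset.singleton_nonempty v)
      (by rw [Finset.card_singleton]; omega)
    rw [gS_single] at h3
    simpa [wt] using h3
  set a : ℕ := 22 * K with ha
  have ha' : (a : ℝ) = 22 * K := by rw [ha]; push_cast; ring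
  have ha0 : (0 : ℝ) < a := by rw [ha']; positivity
  set c0 : ℝ := W / (1000 * t * (a : ℝ) ^ 2) with hc0
  have hc0pos : 0 < c0 := by positivity
  set F0 : V → V → Prop := fun u v => ∃ h : u ≠ v, ¬ G.Adj u v ∧
    (c0 ≤ g ⟨(u, v), h⟩ ∨ c0 ≤ g ⟨(v, u), h.symm⟩) with hF0
  have hF0symm : ∀ u v, F0 u v → F0 v u := by
    rintro u v ⟨h, h3, h4⟩
    exact ⟨h.symm, fun h5 => h3 h5.symm, h4.symm⟩
  set N1 := univ.filter (fun e : {e : V × V // e.1 ≠ e.2} => c0 ≤ g e) with hN1
  have hN1c : (N1.card : ℝ) * c0 ≤ M * W := by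
    have h3 : (N1.card : ℝ) * c0 ≤ ∑ e, g e := by
      calc (N1.card : ℝ) * c0 = ∑ e ∈ N1, c0 := by rw [Finset.sum_const, nsmul_eq_mul]
        _ ≤ ∑ e ∈ N1, g e := Finset.sum_le_sum (fun e he => (Finset.mem_filter.mp he).2)
        _ ≤ ∑ e, g e := Finset.sum_le_sum_of_subset_of_nonneg (Finset.subset_univ _)
            (fun e _ _ => hg e)
    linarith
  set dg : V → ℕ := fun v => (univ.filter (fun u => F0 v u)).card with hdg
  have hdgsum : ∑ v, dg v ≤ 2 * N1.card := by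
    have h3 : ∑ v, dg v = (univ.filter (fun p : V × V => F0 p.1 p.2)).card := by
      rw [hdg]
      simp only [Finset.card_filter]
      rw [Fintype.sum_prod_type]
    rw [h3]
    have h4 : (univ.filter (fun p : V × V => F0 p.1 p.2)) ⊆
        N1.image (fun e => e.1) ∪ N1.image (fun e => (e.1.2, e.1.1)) := by
      intro p hp
      rw [Finset.mem_filter] at hp
      obtain ⟨_, hne, _, h5 | h5⟩ := hp
      · rw [Finset.mem_union]
        left
        rw [Finset.mem_image]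
        exact ⟨⟨(p.1, p.2), hne⟩, by rw [hN1, Finset.mem_filter]; exact ⟨Finset.mem_univ _, h5⟩, rfl⟩
      · rw [Finset.mem_union]
        right
        rw [Finset.mem_image]
        exact ⟨⟨(p.2, p.1), hne.symm⟩,
          by rw [hN1, Finset.mem_filter]; exact ⟨Finset.mem_univ _, h5⟩, rfl⟩
    calc (univ.filter (fun p : V × V => F0 p.1 p.2)).card
        ≤ (N1.image (fun e => e.1) ∪ N1.image (fun e => (e.1.2, e.1.1))).card :=
          Finset.card_le_card h4
      _ ≤ (N1.image (fun e => e.1)).card + (N1.image (fun e => (e.1.2, e.1.1))).card :=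
          Finset.card_union_le _ _
      _ ≤ N1.card + N1.card := Nat.add_le_add Finset.card_image_le Finset.card_image_le
      _ = 2 * N1.card := by ring
  set Δ : ℕ := 2 * 10 ^ 5 * a ^ 2 * M with hΔ
  have hΔ' : (Δ : ℝ) = 2 * 10 ^ 5 * (a : ℝ) ^ 2 * M := by rw [hΔ]; push_cast; ring
  set Bad := univ.filter (fun v => Δ < dg v) with hBad
  have hBadc : (Bad.card : ℝ) ≤ t / 100 := by
    have h3 : Bad.card * Δ ≤ ∑ v, dg v := by
      calc Bad.card * Δ = ∑ v ∈ Bad, Δ := by rw [Finset.sum_const, smul_eq_mul]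
        _ ≤ ∑ v ∈ Bad, dg v := Finset.sum_le_sum (fun v hv => (Finset.mem_filter.mp hv).2.le)
        _ ≤ ∑ v, dg v := Finset.sum_le_sum_of_subset (Finset.subset_univ _)
    have h4 : (Bad.card : ℝ) * Δ ≤ 2 * N1.card := by exact_mod_cast h3.trans hdgsum
    have h5 : (Bad.card : ℝ) * Δ * c0 ≤ 2 * (M * W) := by
      calc (Bad.card : ℝ) * Δ * c0 ≤ 2 * N1.card * c0 := mul_le_mul_of_nonneg_right h4 hc0pos.le
        _ = 2 * (N1.card * c0) := by ring
        _ ≤ 2 * (M * W) := by linarith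
    have h6 : (Δ : ℝ) * c0 = 200 * M * W / t := by
      rw [hΔ', hc0]
      field_simp
      ring
    rw [mul_assoc, h6] at h5
    have h7 : (Bad.card : ℝ) * 200 * (M * W) ≤ 2 * t * (M * W) := by
      have h8 : (Bad.card : ℝ) * (200 * M * W / t) * t ≤ 2 * (M * W) * t :=
        mul_le_mul_of_nonneg_right h5 ht'.le
      have h9 : (Bad.card : ℝ) * (200 * M * W / t) * t = (Bad.card : ℝ) * 200 * (M * W) := by
        field_simp
      rw [h9] at h8
      linarith
    have h10 := le_of_mul_le_mul_right h7 (by positivity)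
    linarith
  set n : ℕ := Fintype.card V with hnn
  have hn0 : 0 < n := by
    rw [hnn, Fintype.card_pos_iff]
    by_contra hne
    rw [not_nonempty_iff] at hne
    have h3 : W = 0 := by rw [hW]; simp
    linarith
  have hn' : (0 : ℝ) < n := by exact_mod_cast hn0
  have hnKt : (n : ℝ) ≤ K * t := by exact_mod_cast hn
  set U := univ.filter (fun v => ¬ (Δ < dg v) ∧ W / (100 * n) ≤ w v) with hU
  let F : SimpleGraph V :=
    { Adj := fun u v => F0 u v ∧ u ∈ U ∧ v ∈ U
      symm := ⟨fun u v h => ⟨hF0symm u v h.1, h.2.2, h.2.1⟩⟩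
      loopless := ⟨fun u h => h.1.1 rfl⟩ }
  have hFadj : ∀ u v, F.Adj u v ↔ (F0 u v ∧ u ∈ U ∧ v ∈ U) := fun u v => Iff.rfl
  have hGF : ∀ u v, F.Adj u v → ¬ G.Adj u v := by
    intro u v h
    rw [hFadj] at h
    obtain ⟨⟨_, h3, _⟩, _⟩ := h
    exact h3
  have hFdeg : DegLe F Δ := by
    apply degLe_of
    intro v
    by_cases hv : v ∈ U
    · have h5 : ¬ (Δ < dg v) := (Finset.mem_filter.mp hv).2.1
      refine ⟨univ.filter (fun u => F0 v u), ?_, not_lt.mp h5⟩
      intro u hu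
      rw [Finset.mem_filter]
      exact ⟨Finset.mem_univ _, ((hFadj v u).mp hu).1⟩
    · refine ⟨∅, ?_, by simp⟩
      intro u hu
      exact absurd ((hFadj v u).mp hu).2.1 hv
  set β0 : ℝ := W / t * (10 / 47 + 1 / 1000) with hβ0
  have hβ0pos : 0 < β0 := by positivity
  have hWl : l ≤ W / t * (10 / 47) := by
    have h3 : l * t ≤ W * (10 / 47) := by linarith
    have h4 : l ≤ W * (10 / 47) / t := by rw [le_div_iff₀ ht']; exact h3
    calc l ≤ W * (10 / 47) / t := h4
      _ = W / t * (10 / 47) := by ring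
  have hstep4 : ∀ S ⊆ U, HS G F S → S.card ≤ a → wt w S ≤ β0 := by
    intro S hSU hS hSa
    rcases S.eq_empty_or_nonempty with h3 | h3
    · rw [h3]
      simp only [wt, Finset.sum_empty]
      exact hβ0pos.le
    · have h4 := hwS S hS.gs h3 hSa
      have h5 : gS g S ≤ (S.card : ℝ) ^ 2 * c0 := by
        apply gS_le g c0 S _ hc0pos.le
        intro e he1 he2
        by_contra hlt
        rw [not_le] at hlt
        have h6 := (hS e.1.1 he1 e.1.2 he2).2
        apply h6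
        rw [hFadj]
        exact ⟨⟨e.2, (hS e.1.1 he1 e.1.2 he2).1, Or.inl hlt.le⟩, hSU he1, hSU he2⟩
      have h7 : (S.card : ℝ) ^ 2 * c0 ≤ W / t * (1 / 1000) := by
        have h8 : (S.card : ℝ) ≤ a := by exact_mod_cast hSa
        calc (S.card : ℝ) ^ 2 * c0 ≤ (a : ℝ) ^ 2 * c0 := by
              apply mul_le_mul_of_nonneg_right _ hc0pos.le
              exact pow_le_pow_left₀ (by positivity) h8 2
          _ = W / t * (1 / 1000) := by
              rw [hc0]
              field_simp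
      rw [hβ0]
      linarith
  have hstep5 : ∀ S ⊆ U, HS G F S → S.card ≤ a := by
    intro S hSU hS
    by_contra hlt
    rw [not_le] at hlt
    obtain ⟨T, hTS, hTc⟩ := Finset.exists_subset_card_eq hlt.le
    have h3 := hstep4 T (hTS.trans hSU) (hS.mono hTS) hTc.le
    have h4 : (a : ℝ) * (W / (100 * n)) ≤ wt w T := by
      calc (a : ℝ) * (W / (100 * n)) = ∑ v ∈ T, W / (100 * n) := by
            rw [Finset.sum_const, nsmul_eq_mul, hTc]
        _ ≤ ∑ v ∈ T, w v := Finset.sum_le_sum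
            (fun v hv => (Finset.mem_filter.mp (hSU (hTS hv))).2.2)
    have h5 : W / t * (22 / 100) ≤ (a : ℝ) * (W / (100 * n)) := by
      rw [ha']
      have h6 : 22 * (K : ℝ) * (W / (100 * n)) = (W * (22 / 100)) * (K / n) := by
        field_simp
        
      have h7 : W / t * (22 / 100) = (W * (22 / 100)) * (1 / t) := by ring
      rw [h6, h7]
      apply mul_le_mul_of_nonneg_left _ (by positivity)
      rw [div_le_div_iff₀ ht' hn']
      linarith
    have h8 : β0 < W / t * (22 / 100) := by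
      rw [hβ0]
      apply mul_lt_mul_of_pos_left _ (by positivity)
      norm_num
    linarith
  have hUc : U.card ≤ K * t := (Finset.card_le_univ _).trans hn
  have hR := thmR G F w hw0 a Δ K t (by omega) (by
      rw [hΔ]
      have h3 : 0 < 2 * 10 ^ 5 * a ^ 2 * M := by
        have : 0 < a := by omega
        positivity
      omega) hK hGF hFdeg U hstep5 β0
    (fun S hSU hS => hstep4 S hSU hS (hstep5 S hSU hS)) hUc (arith K t M ht) hKM
  have hR' : (9 / 2 : ℝ) * t * β0 = W * (9 / 2 * (10 / 47 + 1 / 1000)) := by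
    rw [hβ0]
    field_simp
  rw [hR'] at hR
  -- lower bound for the weight of `U`
  have hlow : W ≤ wt w U + W / 470 + W / 100 := by
    have h3 : (univ : Finset V) = U ∪ (univ \ U) := by
      rw [Finset.union_sdiff_of_subset (Finset.subset_univ _)]
    have h4 : W = wt w U + wt w (univ \ U) := by
      rw [← wt_union_disjoint Finset.disjoint_sdiff, ← h3]
      rfl
    have h5 : univ \ U ⊆ Bad ∪ univ.filter (fun v => w v < W / (100 * n)) := by
      intro v hv
      rw [Finset.mem_sdiff] at hv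
      rw [Finset.mem_union, hBad, Finset.mem_filter, Finset.mem_filter]
      by_cases h6 : Δ < dg v
      · left; exact ⟨Finset.mem_univ _, h6⟩
      · right
        refine ⟨Finset.mem_univ _, ?_⟩
        by_contra h7
        rw [not_lt] at h7
        exact hv.2 (by rw [hU, Finset.mem_filter]; exact ⟨Finset.mem_univ _, h6, h7⟩)
    have h6 : wt w (univ \ U) ≤ wt w Bad + wt w (univ.filter (fun v => w v < W / (100 * n))) := by
      refine (wt_mono hw0 h5).trans ?_
      have h7 := Finset.sum_union_inter (s₁ := Bad)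
        (s₂ := univ.filter (fun v => w v < W / (100 * n))) (f := w)
      have h8 : 0 ≤ ∑ v ∈ Bad ∩ univ.filter (fun v => w v < W / (100 * n)), w v :=
        Finset.sum_nonneg (fun v _ => hw0 v)
      unfold wt
      linarith
    have h7 : wt w Bad ≤ W / 470 := by
      calc wt w Bad ≤ ∑ v ∈ Bad, l := Finset.sum_le_sum (fun v _ => hwl v)
        _ = Bad.card * l := by rw [Finset.sum_const, nsmul_eq_mul]
        _ ≤ t / 100 * l := mul_le_mul_of_nonneg_right hBadc hl
        _ ≤ W / 470 := by linarith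
    have h8 : wt w (univ.filter (fun v => w v < W / (100 * n))) ≤ W / 100 := by
      calc wt w (univ.filter (fun v => w v < W / (100 * n)))
          ≤ ∑ v ∈ univ.filter (fun v => w v < W / (100 * n)), W / (100 * n) :=
            Finset.sum_le_sum (fun v hv => (Finset.mem_filter.mp hv).2.le)
        _ = (univ.filter (fun v => w v < W / (100 * n))).card * (W / (100 * n)) := by
            rw [Finset.sum_const, nsmul_eq_mul]
        _ ≤ n * (W / (100 * n)) := by
            apply mul_le_mul_of_nonneg_right _ (by positivity)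
            exact_mod_cast Finset.card_le_univ _
        _ = W / 100 := by field_simp
    linarith
  nlinarith

end FracColAux

theorem fracCol [Fintype V] (G : SimpleGraph V) (K t M : ℕ) (hK : 1 ≤ K) (hM : 1 ≤ M)
    (ht : 10 ^ 31 * K ^ 9 * M ^ 2 ≤ t) (hn : Fintype.card V ≤ K * t) (hKM : ¬ KM G t) :
    ∃ x : Finset V → ℝ, Frac x (22 * K) (1 / M) ∧ (∀ S, x S ≠ 0 → GS G S) ∧
      ∑ S : Finset V, x S ≤ (47 / 10) * t := by
  by_cases hyes : ∃ x : {S : Finset V // GS G S ∧ S.Nonempty ∧ S.card ≤ 22 * K} → ℝ,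
      (∀ i, 0 ≤ x i) ∧ (∑ i, x i ≤ (47 / 10) * t) ∧
      (∀ v : V, ∑ i, (if v ∈ i.1 then (1 : ℝ) else 0) * x i = 1) ∧
      (∀ e : {e : V × V // e.1 ≠ e.2}, ∑ i, (if e.1.1 ∈ i.1 ∧ e.1.2 ∈ i.1 then (1 : ℝ) else 0) *
        x i ≤ 1 / (M : ℝ))
  · obtain ⟨x, hx0, hxX, hxc, hxd⟩ := hyes
    refine ⟨fun S => if h : GS G S ∧ S.Nonempty ∧ S.card ≤ 22 * K then x ⟨S, h⟩ else 0,
      ⟨?_, ?_, ?_, ?_⟩, ?_, ?_⟩
    · intro S
      show 0 ≤ (if h : GS G S ∧ S.Nonempty ∧ S.card ≤ 22 * K then x ⟨S, h⟩ else 0)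
      split_ifs with h
      · exact hx0 _
      · exact le_refl _
    · intro S hS
      by_contra hc
      apply hS
      show (if h : GS G S ∧ S.Nonempty ∧ S.card ≤ 22 * K then x ⟨S, h⟩ else 0) = 0
      rw [dif_neg (fun h => hc h.2)]
    · intro v
      have h1 := FracColAux.ext_sum (P := fun S => GS G S ∧ S.Nonempty ∧ S.card ≤ 22 * K) x
        (fun S => if v ∈ S then (1 : ℝ) else 0)
      rw [← hxc v, ← h1, Finset.sum_filter]
      apply Finset.sum_congr rfl
      intro S _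
      by_cases hv : v ∈ S
      · simp [hv]
      · simp [hv]
    · intro u v huv
      have h1 := FracColAux.ext_sum (P := fun S => GS G S ∧ S.Nonempty ∧ S.card ≤ 22 * K) x
        (fun S => if u ∈ S ∧ v ∈ S then (1 : ℝ) else 0)
      have h2 := hxd ⟨(u, v), huv⟩
      refine le_trans (le_of_eq ?_) h2
      show _ = ∑ i : {S : Finset V // GS G S ∧ S.Nonempty ∧ S.card ≤ 22 * K},
        (if u ∈ i.1 ∧ v ∈ i.1 then (1 : ℝ) else 0) * x i
      rw [← h1, Finset.sum_filter]
      apply Finset.sum_congr rfl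
      intro S _
      by_cases hv : u ∈ S ∧ v ∈ S
      · simp [hv]
      · simp [hv]
    · intro S hS
      by_contra hc
      apply hS
      show (if h : GS G S ∧ S.Nonempty ∧ S.card ≤ 22 * K then x ⟨S, h⟩ else 0) = 0
      rw [dif_neg (fun h => hc h.1)]
    · have h1 := FracColAux.ext_sum (P := fun S => GS G S ∧ S.Nonempty ∧ S.card ≤ 22 * K) x
        (fun _ => (1 : ℝ))
      simp only [one_mul] at h1
      rw [h1]
      exact hxX
  · exfalso
    obtain ⟨y, g, l, hg, hl, h1, h2⟩ := lpDual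
      (fun (v : V) (i : {S : Finset V // GS G S ∧ S.Nonempty ∧ S.card ≤ 22 * K}) =>
        if v ∈ i.1 then (1 : ℝ) else 0)
      (fun (e : {e : V × V // e.1 ≠ e.2})
          (i : {S : Finset V // GS G S ∧ S.Nonempty ∧ S.card ≤ 22 * K}) =>
        if e.1.1 ∈ i.1 ∧ e.1.2 ∈ i.1 then (1 : ℝ) else 0)
      (fun _ => 1 / (M : ℝ)) ((47 / 10) * t) (by positivity) hyes
    refine FracColAux.no_dual G K t M hK hM ht hn hKM y g l hg hl ?_ h2
    intro S hS hne hc
    have h3 := h1 ⟨S, hS, hne, hc⟩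
    refine le_trans (le_of_eq ?_) h3
    unfold wt
    show ∑ v ∈ S, y v = ∑ v, y v * (if v ∈ S then (1 : ℝ) else 0)
    simp only [mul_ite, mul_one, mul_zero]
    rw [← Finset.sum_filter]
    simp

end

end Pool.Agent.LHad
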