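import Mathlib
import Pool.Agent.Lib.LHad.Defs

/-!
# LHad.QuotKM : minors of the touching graph are minors of the graph; minors of induced subgraphs

1. `quotKM`: given `f : Fin t → Set (Fin D)` for the touching graph put `g i = ⋃_{a ∈ f i} X a`.  Connected: `f i` is connected in the touching graph, each `X a` is connected, and adjacent `a, a'` give touching `X a, X a'`
   (induct along a walk in `(touchGraph G X).induce (f i)`).  Disjoint: the `X a` are disjoint.  Touching: from `(touchGraph G X).Adj a b`, `a ∈ f i`, `b ∈ f j`.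
2. `indKM`: images under `Subtype.val`.  (`G.induce s` restricted to `f i : Set s` is isomorphic to `G` induced on the image.)
-/

namespace Pool.Agent.LHad

open Finset

open scoped Classical

noncomputable section

variable {V : Type}

theorem quotKM (G : SimpleGraph V) (D t : ℕ) (X : Fin D → Finset V) (hX : ∀ i, CC G (X i))
    (hd : ∀ i j, i ≠ j → Disjoint (X i) (X j)) (h : KM (touchGraph G X) t) : KM G t := by
  obtain ⟨f, hf1, hf2, hf3⟩ := h
  refine ⟨fun i => ⋃ a ∈ f i, (X a : Set V), ?_, ?_, ?_⟩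
  · intro i
    have hmem : ∀ a ∈ f i, (X a : Set V) ⊆ ⋃ a ∈ f i, (X a : Set V) :=
      fun a ha => Set.subset_biUnion_of_mem (u := fun a => (X a : Set V)) ha
    -- inside one part
    have hA : ∀ (a : Fin D) (ha : a ∈ f i) (u v : V) (hu : u ∈ X a) (hv : v ∈ X a),
        (G.induce (⋃ a ∈ f i, (X a : Set V))).Reachable ⟨u, hmem a ha hu⟩ ⟨v, hmem a ha hv⟩ := by
      intro a ha u v hu hv
      have h1 : (G.induce (X a : Set V)).Reachable ⟨u, hu⟩ ⟨v, hv⟩ :=
        (hX a).preconnected ⟨u, hu⟩ ⟨v, hv⟩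
      exact h1.map (SimpleGraph.induceHomOfLE G (hmem a ha)).toHom
    have hB : ∀ (a b : f i), ((touchGraph G X).induce (f i)).Adj a b →
        ∀ (u v : V) (hu : u ∈ X a.1) (hv : v ∈ X b.1),
        (G.induce (⋃ a ∈ f i, (X a : Set V))).Reachable ⟨u, hmem a.1 a.2 hu⟩
          ⟨v, hmem b.1 b.2 hv⟩ := by
      intro a b hab u v hu hv
      have hab' : (touchGraph G X).Adj a.1 b.1 := hab
      obtain ⟨z, hz, x, hx, hzx⟩ := hab'.2
      have h1 := hA a.1 a.2 u z hu hz
      have h2 := hA b.1 b.2 x v hx hv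
      have h3 : (G.induce (⋃ a ∈ f i, (X a : Set V))).Adj ⟨z, hmem a.1 a.2 hz⟩
          ⟨x, hmem b.1 b.2 hx⟩ := hzx
      exact h1.trans (h3.reachable.trans h2)
    have hC : ∀ (a b : f i), ((touchGraph G X).induce (f i)).Reachable a b →
        ∀ (u v : V) (hu : u ∈ X a.1) (hv : v ∈ X b.1),
        (G.induce (⋃ a ∈ f i, (X a : Set V))).Reachable ⟨u, hmem a.1 a.2 hu⟩
          ⟨v, hmem b.1 b.2 hv⟩ := by
      rintro a b ⟨p⟩
      induction p with
      | @nil a => intro u v hu hv; exact hA a.1 a.2 u v hu hv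
      | @cons a c b hac p ih =>
        intro u v hu hv
        obtain ⟨z, hz⟩ := cc_nonempty (hX c.1)
        exact (hB a c hac u z hu hz).trans (ih z v hz hv)
    have hpre : (G.induce (⋃ a ∈ f i, (X a : Set V))).Preconnected := by
      rintro ⟨u, hu⟩ ⟨v, hv⟩
      have hu' := hu
      have hv' := hv
      rw [Set.mem_iUnion₂] at hu' hv'
      obtain ⟨a, ha, hua⟩ := hu'
      obtain ⟨b, hb, hvb⟩ := hv'
      exact hC ⟨a, ha⟩ ⟨b, hb⟩ ((hf1 i).preconnected _ _) u v hua hvb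
    have hne : Nonempty (⋃ a ∈ f i, (X a : Set V) : Set V) := by
      obtain ⟨a⟩ := (hf1 i).nonempty
      obtain ⟨z, hz⟩ := cc_nonempty (hX a.1)
      exact ⟨⟨z, hmem a.1 a.2 hz⟩⟩
    exact { preconnected := hpre, nonempty := hne }
  · intro i j hij
    rw [Set.disjoint_left]
    intro v hu hv
    rw [Set.mem_iUnion₂] at hu hv
    obtain ⟨a, ha, hua⟩ := hu
    obtain ⟨b, hb, hvb⟩ := hv
    have hab : a ≠ b := by
      rintro rfl
      exact Set.disjoint_left.1 (hf2 i j hij) ha hb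
    exact Finset.disjoint_left.1 (hd a b hab) hua hvb
  · intro i j hij
    obtain ⟨a, ha, b, hb, hab⟩ := hf3 i j hij
    obtain ⟨z, hz, x, hx, hzx⟩ := hab.2
    refine ⟨z, ?_, x, ?_, hzx⟩
    · rw [Set.mem_iUnion₂]; exact ⟨a, ha, hz⟩
    · rw [Set.mem_iUnion₂]; exact ⟨b, hb, hx⟩

theorem indKM (G : SimpleGraph V) (s : Set V) (t : ℕ) (h : KM (G.induce s) t) : KM G t := by
  obtain ⟨f, hf1, hf2, hf3⟩ := h
  refine ⟨fun i => Subtype.val '' (f i), ?_, ?_, ?_⟩
  · intro i
    let φ : ((G.induce s).induce (f i)) →g G.induce (Subtype.val '' (f i) : Set V) :=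
      { toFun := fun x => ⟨x.1.1, ⟨x.1, x.2, rfl⟩⟩
        map_rel' := fun {a b} h => h }
    refine SimpleGraph.Connected.map φ ?_ (hf1 i)
    rintro ⟨_, ⟨y, hy, rfl⟩⟩
    exact ⟨⟨y, hy⟩, rfl⟩
  · intro i j hij
    exact (Set.disjoint_image_iff Subtype.val_injective).2 (hf2 i j hij)
  · intro i j hij
    obtain ⟨x, hx, y, hy, hxy⟩ := hf3 i j hij
    exact ⟨x.1, ⟨x, hx, rfl⟩, y.1, ⟨y, hy, rfl⟩, hxy⟩

end

end Pool.Agent.LHad
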