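import Mathlib
import Pool.Agent.Lib.LHad.Defs

/-!
# LHad.RobPiece : a robustly connected dense piece

`D = Fintype.card V ≥ 100`, all degrees `≥ D/2 - 1`.
Case 1: `CC H (univ \ Y)` for all `Y` with `20 |Y| ≤ D`.  `P = univ`: for `x ∉ Y` the degree in `univ \ Y` is `≥ D/2 - 1 - D/20 = 0.45 D - 1 ≥ 0.43 D` (`D ≥ 50`).
Case 2: otherwise there is `Y`, `20|Y| ≤ D`, with `univ \ Y` (nonempty) not connected: `univ \ Y = P1 ⊔ P2`, nonempty, no edges between (component of a vertex and the rest).
Each `x ∈ P_i` has at least `D/2 - 1 - |Y|` neighbours in `P_i`, so `|P_i| ≥ D/2 - |Y| ≥ 0.45 D`; hence `|P1| ≤ D - |P2| ≤ 0.55 D`.  `P = P1`.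
For `Y' ⊆ P1`, `20|Y'| ≤ |P1|`, `x ∈ P1 \ Y'`: degree in `P1 \ Y'` at least `0.45 D - 1 - |P1|/20 ≥ 0.4225 D - 1`, and `0.43 |P1| ≤ 0.2365 D ≤ 0.4225 D - 1`.
Connected: `P1 \ Y'` is nonempty; two vertices `x, y` of it that are not adjacent have a common neighbour there, because `2 (0.4225 D - 1) > 0.55 D - 2 ≥ |P1 \ Y'| - 2`.
(All inequalities can be done in `ℕ` after multiplying by 20 or 400.)
-/

namespace Pool.Agent.LHad

open Finset

open scoped Classical

noncomputable section

variable {V : Type}

namespace RobPieceAux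

theorem cc_of_deg (H : SimpleGraph V) (S : Finset V) (hne : S.Nonempty)
    (h : ∀ x ∈ S, S.card ≤ 2 * (S.filter (fun y => H.Adj x y)).card + 1) : CC H S := by
  unfold CC
  haveI : Nonempty (S : Set V) := ⟨⟨hne.choose, hne.choose_spec⟩⟩
  refine SimpleGraph.Connected.mk ?_
  rintro ⟨x, hx⟩ ⟨y, hy⟩
  have hx' : x ∈ S := hx
  have hy' : y ∈ S := hy
  by_cases hxy : x = y
  · subst hxy; exact SimpleGraph.Reachable.refl _
  by_cases ha : H.Adj x y
  · exact SimpleGraph.Adj.reachable (by simpa using ha)
  obtain ⟨z, hz⟩ : ((S.filter (fun z => H.Adj x z)) ∩ (S.filter (fun z => H.Adj y z))).Nonempty := by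
    by_contra hcon
    rw [Finset.not_nonempty_iff_eq_empty, ← Finset.disjoint_iff_inter_eq_empty] at hcon
    have hsub : (S.filter (fun z => H.Adj x z)) ∪ (S.filter (fun z => H.Adj y z))
        ⊆ (S.erase x).erase y := by
      intro z hz
      rw [Finset.mem_union, Finset.mem_filter, Finset.mem_filter] at hz
      rw [Finset.mem_erase, Finset.mem_erase]
      rcases hz with hz | hz
      · refine ⟨?_, ?_, hz.1⟩
        · rintro rfl
          exact ha hz.2
        · rintro rfl
          exact H.loopless.irrefl _ hz.2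
      · refine ⟨?_, ?_, hz.1⟩
        · rintro rfl
          exact H.loopless.irrefl _ hz.2
        · rintro rfl
          exact ha hz.2.symm
    have hcard := Finset.card_le_card hsub
    rw [Finset.card_union_of_disjoint hcon,
      Finset.card_erase_of_mem (by rw [Finset.mem_erase]; exact ⟨Ne.symm hxy, hy'⟩),
      Finset.card_erase_of_mem hx'] at hcard
    have h1 := h x hx'
    have h2 := h y hy'
    have h3 : 2 ≤ S.card := by
      have : ({x, y} : Finset V) ⊆ S := by
        intro z hz
        rw [Finset.mem_insert, Finset.mem_singleton] at hz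
        rcases hz with rfl | rfl
        · exact hx'
        · exact hy'
      have := Finset.card_le_card this
      rwa [Finset.card_pair hxy] at this
    omega
  rw [Finset.mem_inter, Finset.mem_filter, Finset.mem_filter] at hz
  have hzS : z ∈ (S : Set V) := hz.1.1
  have r1 : (H.induce (S : Set V)).Reachable ⟨x, hx⟩ ⟨z, hzS⟩ :=
    SimpleGraph.Adj.reachable (by simpa using hz.1.2)
  have r2 : (H.induce (S : Set V)).Reachable ⟨y, hy⟩ ⟨z, hzS⟩ :=
    SimpleGraph.Adj.reachable (by simpa using hz.2.2)
  exact r1.trans r2.symm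

theorem exists_split (H : SimpleGraph V) (S : Finset V) (hne : S.Nonempty) (h : ¬ CC H S) :
    ∃ P1 P2 : Finset V, P1 ∪ P2 = S ∧ Disjoint P1 P2 ∧ P1.Nonempty ∧ P2.Nonempty ∧
      ∀ x ∈ P1, ∀ y ∈ P2, ¬ H.Adj x y := by
  unfold CC at h
  haveI : Nonempty (S : Set V) := ⟨⟨hne.choose, hne.choose_spec⟩⟩
  have h' : ¬ (H.induce (S : Set V)).Preconnected := fun hp => h (SimpleGraph.Connected.mk hp)
  unfold SimpleGraph.Preconnected at h'
  push Not at h'
  obtain ⟨a, b, hab⟩ := h'
  set Q : V → Prop := fun z => ∃ hz : z ∈ (S : Set V), (H.induce (S : Set V)).Reachable a ⟨z, hz⟩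
    with hQ
  refine ⟨S.filter Q, S.filter (fun z => ¬ Q z), Finset.filter_union_filter_not_eq _ _,
    Finset.disjoint_filter_filter_not _ _ _, ⟨a.1, ?_⟩, ⟨b.1, ?_⟩, ?_⟩
  · rw [Finset.mem_filter]
    exact ⟨a.2, a.2, SimpleGraph.Reachable.refl _⟩
  · rw [Finset.mem_filter]
    refine ⟨b.2, ?_⟩
    rintro ⟨hz, hr⟩
    exact hab hr
  · intro x hx y hy hadj
    rw [Finset.mem_filter] at hx hy
    obtain ⟨hxS, hxr⟩ := hx.2
    apply hy.2
    refine ⟨hy.1, hxr.trans (SimpleGraph.Adj.reachable ?_)⟩
    simpa using hadj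

end RobPieceAux

open RobPieceAux in
theorem robPiece [Fintype V] (H : SimpleGraph V) (hD : 100 ≤ Fintype.card V)
    (hdeg : ∀ x, Fintype.card V ≤ 2 * ((univ.filter (fun y => H.Adj x y)).card + 1)) :
    ∃ P : Finset V, 9 * Fintype.card V ≤ 20 * P.card ∧
      ∀ Y ⊆ P, 20 * Y.card ≤ P.card → CC H (P \ Y) ∧
        ∀ x ∈ P \ Y, 43 * P.card ≤ 100 * ((P \ Y).filter (fun y => H.Adj x y)).card := by
  by_cases hc : ∀ Y : Finset V, 20 * Y.card ≤ Fintype.card V → CC H (univ \ Y)
  · refine ⟨univ, ?_, ?_⟩
    · rw [Finset.card_univ]; omega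
    · intro Y _ hY
      rw [Finset.card_univ] at hY ⊢
      refine ⟨hc Y hY, ?_⟩
      intro x _
      have h1 := hdeg x
      have h2 : (univ.filter (fun y => H.Adj x y)).card ≤
          ((univ \ Y).filter (fun y => H.Adj x y)).card + Y.card := by
        rw [← Finset.card_union_of_disjoint]
        · apply Finset.card_le_card
          intro y hy
          rw [Finset.mem_filter] at hy
          rw [Finset.mem_union, Finset.mem_filter, Finset.mem_sdiff]
          by_cases hyY : y ∈ Y
          · right; exact hyY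
          · left; exact ⟨⟨Finset.mem_univ _, hyY⟩, hy.2⟩
        · rw [Finset.disjoint_left]
          intro y hy hyY
          rw [Finset.mem_filter, Finset.mem_sdiff] at hy
          exact hy.1.2 hyY
      omega
  · push Not at hc
    obtain ⟨Y0, hY0, hnc⟩ := hc
    have hne : (univ \ Y0 : Finset V).Nonempty := by
      rw [← Finset.card_pos, Finset.card_sdiff_of_subset (Finset.subset_univ _), Finset.card_univ]
      omega
    obtain ⟨P1, P2, hun, hdis, hP1, hP2, hno⟩ := exists_split H _ hne hnc
    have hcardS : P1.card + P2.card + Y0.card = Fintype.card V := by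
      rw [← Finset.card_union_of_disjoint hdis, hun,
        Finset.card_sdiff_of_subset (Finset.subset_univ _), Finset.card_univ]
      have := Finset.card_le_univ Y0
      omega
    have hcov : ∀ z : V, z ∈ P1 ∨ z ∈ P2 ∨ z ∈ Y0 := by
      intro z
      by_cases hz : z ∈ Y0
      · right; right; exact hz
      · have : z ∈ P1 ∪ P2 := by
          rw [hun, Finset.mem_sdiff]; exact ⟨Finset.mem_univ _, hz⟩
        rw [Finset.mem_union] at this
        rcases this with h | h
        · left; exact h
        · right; left; exact h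
    -- degree bounds
    have hd2 : Fintype.card V ≤ 2 * (P2.card + Y0.card) := by
      obtain ⟨y, hy⟩ := hP2
      have h1 := hdeg y
      have h2 : (univ.filter (fun z => H.Adj y z)) ⊆ (P2.erase y) ∪ Y0 := by
        intro z hz
        rw [Finset.mem_filter] at hz
        rw [Finset.mem_union, Finset.mem_erase]
        rcases hcov z with h | h | h
        · exact absurd hz.2.symm (hno z h y hy)
        · left
          refine ⟨?_, h⟩
          rintro rfl
          exact H.loopless.irrefl _ hz.2
        · right; exact h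
      have h3 := (Finset.card_le_card h2).trans (Finset.card_union_le _ _)
      rw [Finset.card_erase_of_mem hy] at h3
      have : 0 < P2.card := Finset.card_pos.mpr ⟨y, hy⟩
      omega
    have hd1 : Fintype.card V ≤ 2 * (P1.card + Y0.card) := by
      obtain ⟨y, hy⟩ := hP1
      have h1 := hdeg y
      have h2 : (univ.filter (fun z => H.Adj y z)) ⊆ (P1.erase y) ∪ Y0 := by
        intro z hz
        rw [Finset.mem_filter] at hz
        rw [Finset.mem_union, Finset.mem_erase]
        rcases hcov z with h | h | h
        · left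
          refine ⟨?_, h⟩
          rintro rfl
          exact H.loopless.irrefl _ hz.2
        · exact absurd hz.2 (hno y hy z h)
        · right; exact h
      have h3 := (Finset.card_le_card h2).trans (Finset.card_union_le _ _)
      rw [Finset.card_erase_of_mem hy] at h3
      have : 0 < P1.card := Finset.card_pos.mpr ⟨y, hy⟩
      omega
    refine ⟨P1, by omega, ?_⟩
    intro Y hYP hY
    have hdegx : ∀ x ∈ P1 \ Y, Fintype.card V ≤
        2 * (((P1 \ Y).filter (fun y => H.Adj x y)).card + Y0.card + Y.card + 1) := by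
      intro x hx
      rw [Finset.mem_sdiff] at hx
      have h1 := hdeg x
      have h2 : (univ.filter (fun z => H.Adj x z)) ⊆
          ((P1 \ Y).filter (fun y => H.Adj x y)) ∪ Y0 ∪ Y := by
        intro z hz
        rw [Finset.mem_filter] at hz
        rw [Finset.mem_union, Finset.mem_union, Finset.mem_filter, Finset.mem_sdiff]
        rcases hcov z with h | h | h
        · by_cases hzY : z ∈ Y
          · right; exact hzY
          · left; left; exact ⟨⟨h, hzY⟩, hz.2⟩
        · exact absurd hz.2 (hno x hx.1 z h)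
        · left; right; exact h
      have h3 := (Finset.card_le_card h2).trans (Finset.card_union_le _ _)
      have h4 := Finset.card_union_le ((P1 \ Y).filter (fun y => H.Adj x y)) Y0
      omega
    have hcs : (P1 \ Y).card = P1.card - Y.card := Finset.card_sdiff_of_subset hYP
    refine ⟨cc_of_deg H _ ?_ ?_, ?_⟩
    · rw [← Finset.card_pos, hcs]; omega
    · intro x hx
      have := hdegx x hx
      rw [hcs]; omega
    · intro x hx
      have := hdegx x hx
      omega

end

end Pool.Agent.LHad
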