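import Mathlib
import Pool.Agent.Lib.LHad.Defs
import Pool.Agent.Lib.LHad.DensFam
import Pool.Agent.Lib.LHad.RobPiece
import Pool.Agent.Lib.LHad.DenseMinor
import Pool.Agent.Lib.LHad.QuotKM

/-!
# LHad.KT : Kostochka-Thomason bound (weak constants): a vertex of small degree

All imports are black boxes.  Suppose all degrees are `≥ 450 l t = 2 d`, `d = 225 l t`.  `densFam`: `D ≥ d ≥ 900`, `X`, the touching graph `H` on `Fin D` has all degrees `≥ D/2 - 1`.
`robPiece` (`Fintype.card (Fin D) = D ≥ 100`): `P` with `20 P.card ≥ 9 D ≥ 2025 l t`, so `P.card ≥ 100 l t`.  `denseMinor` gives `KM H t`, `quotKM` gives `KM G t`: contradiction.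
-/

namespace Pool.Agent.LHad

open Finset

open scoped Classical

noncomputable section

variable {V : Type}

theorem kt [Fintype V] [Nonempty V] (G : SimpleGraph V) (t l : ℕ) (ht1 : 1 ≤ t) (hl : 4 ≤ l)
    (ht : 4 * t ^ 2 ≤ 2 ^ (l ^ 2)) (hKM : ¬ KM G t) :
    ∃ v, (univ.filter (fun u => G.Adj v u)).card < 450 * l * t := by
  by_contra hcon
  push Not at hcon
  have hlt : 4 ≤ l * t := by
    calc 4 = 4 * 1 := rfl
      _ ≤ l * t := Nat.mul_le_mul hl ht1
  obtain ⟨D, X, hD, hX1, hX2, hX3⟩ := densFam G (225 * (l * t)) (by omega) (fun v => by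
    have h := hcon v
    have h1 : 450 * l * t = 2 * (225 * (l * t)) := by ring
    rwa [← h1])
  obtain ⟨P, hP1, hP2⟩ := robPiece (touchGraph G X) (by rw [Fintype.card_fin]; omega)
    (fun x => by rw [Fintype.card_fin]; exact hX3 x)
  rw [Fintype.card_fin] at hP1
  apply hKM
  refine quotKM G D t X hX1 hX2 ?_
  refine denseMinor (touchGraph G X) t l ht1 hl ht P ?_ hP2
  have h1 : 100 * l * t = 100 * (l * t) := by ring
  rw [h1]
  omega

end

end Pool.Agent.LHad
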