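import Mathlib
import Pool.Agent.Lib.LHad.Defs

/-!
# LHad.Kernel : the one-step random removal

Proof. `𝒰 = {I ⊆ R}` (a Finset of Finsets, `R.powerset`).  For `ℱ ⊆ 𝒰` put `μ ℱ = ∏_{I ∈ ℱ} (1 - exp(-z I)) * ∏_{I ∈ 𝒰 \ ℱ} exp(-z I) ≥ 0`, `∑_ℱ μ ℱ = 1`
(`Finset.prod_add` / `Finset.prod_one_sub…`: `∏_{I ∈ 𝒰} (p I + q I) = ∑_ℱ …`).  `κ R' = ∑_{ℱ ⊆ 𝒰, R \ (ℱ.sup id) = R'} μ ℱ`.
* support: `R \ … ⊆ R`.  * total mass `1`.
* `A ⊆ R`: `A ⊆ R \ ⋃ℱ` iff no member of `ℱ` meets `A`, i.e. `ℱ ⊆ {I ∈ 𝒰 : I ∩ A = ∅} =: 𝒰₀`.  `∑_{ℱ ⊆ 𝒰₀} μ ℱ = ∏_{I ∈ 𝒰 \ 𝒰₀} exp(-z I) * ∏_{I ∈ 𝒰₀} 1`, which is the claimed exponential.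
* cost: for `c` with `c S ≤ c (S \ I) + 1` whenever `z I ≠ 0`: by induction on `ℱ`, `c R ≤ c (R \ ⋃ℱ) + |ℱ|` if all members of `ℱ` have `z ≠ 0`; sets with `z I = 0` have probability `0`
  (`1 - exp 0 = 0`), so `μ ℱ = 0` if `ℱ` contains one.  Take expectations: `c R ≤ ∑ κ R' c R' + ∑_{I ∈ 𝒰} (1 - exp(-z I))` and `1 - exp(-z) ≤ z`.
-/

namespace Pool.Agent.LHad

open Finset

open scoped Classical

noncomputable section

variable {V : Type}

namespace KernelAux

def pI (z : Finset V → ℝ) (I : Finset V) : ℝ := 1 - Real.exp (-(z I))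

def qI (z : Finset V → ℝ) (I : Finset V) : ℝ := Real.exp (-(z I))

def mu (z : Finset V → ℝ) (U F : Finset (Finset V)) : ℝ :=
  (∏ I ∈ F, pI z I) * ∏ I ∈ U \ F, qI z I

def kap (R : Finset V) (z : Finset V → ℝ) (R' : Finset V) : ℝ :=
  ∑ F ∈ R.powerset.powerset.filter (fun F => R \ F.biUnion id = R'), mu z R.powerset F

theorem pI_nonneg {z : Finset V → ℝ} (hz : ∀ I, 0 ≤ z I) (I : Finset V) : 0 ≤ pI z I := by
  unfold pI
  have : Real.exp (-(z I)) ≤ 1 := Real.exp_le_one_iff.mpr (by linarith [hz I])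
  linarith

theorem qI_nonneg (z : Finset V → ℝ) (I : Finset V) : 0 ≤ qI z I := (Real.exp_pos _).le

theorem mu_nonneg {z : Finset V → ℝ} (hz : ∀ I, 0 ≤ z I) (U F : Finset (Finset V)) :
    0 ≤ mu z U F :=
  mul_nonneg (Finset.prod_nonneg fun I _ => pI_nonneg hz I)
    (Finset.prod_nonneg fun I _ => qI_nonneg z I)

theorem pq (z : Finset V → ℝ) (I : Finset V) : pI z I + qI z I = 1 := by
  unfold pI qI; ring

theorem sum_mu (z : Finset V → ℝ) (U : Finset (Finset V)) :
    ∑ F ∈ U.powerset, mu z U F = 1 := by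
  unfold mu
  rw [← Finset.prod_add]
  exact Finset.prod_eq_one fun I _ => pq z I

/-- integration against the kernel -/
theorem sum_kap [Fintype V] (R : Finset V) (z : Finset V → ℝ) (h : Finset V → ℝ) :
    ∑ R', kap R z R' * h R' =
      ∑ F ∈ R.powerset.powerset, mu z R.powerset F * h (R \ F.biUnion id) := by
  rw [← Finset.sum_fiberwise (s := R.powerset.powerset) (g := fun F => R \ F.biUnion id)]
  refine Finset.sum_congr rfl fun R' _ => ?_
  unfold kap
  rw [Finset.sum_mul]
  refine Finset.sum_congr rfl fun F hF => ?_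
  rw [Finset.mem_filter] at hF
  rw [hF.2]

theorem sum_mem (z : Finset V → ℝ) (U : Finset (Finset V)) (I : Finset V) (hI : I ∈ U) :
    ∑ F ∈ U.powerset, (if I ∈ F then mu z U F else 0) = pI z I := by
  have h1 : ∏ J ∈ U, (pI z J + (if J = I then 0 else qI z J)) = pI z I := by
    rw [Finset.prod_eq_single_of_mem I hI]
    · simp
    · intro J _ hJ
      rw [if_neg hJ]
      exact pq z J
  rw [Finset.prod_add] at h1
  rw [← h1]
  refine Finset.sum_congr rfl fun F hF => ?_
  rw [Finset.mem_powerset] at hF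
  by_cases hIF : I ∈ F
  · rw [if_pos hIF]
    unfold mu
    congr 1
    refine Finset.prod_congr rfl fun J hJ => ?_
    rw [Finset.mem_sdiff] at hJ
    rw [if_neg]
    rintro rfl
    exact hJ.2 hIF
  · rw [if_neg hIF]
    have : ∏ J ∈ U \ F, (if J = I then (0 : ℝ) else qI z J) = 0 :=
      Finset.prod_eq_zero (i := I) (Finset.mem_sdiff.mpr ⟨hI, hIF⟩) (by simp)
    rw [this, mul_zero]

theorem sum_card (z : Finset V → ℝ) (U : Finset (Finset V)) :
    ∑ F ∈ U.powerset, mu z U F * (F.card : ℝ) = ∑ I ∈ U, pI z I := by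
  have h1 : ∀ F ∈ U.powerset, mu z U F * (F.card : ℝ) =
      ∑ I ∈ U, (if I ∈ F then mu z U F else 0) := by
    intro F hF
    rw [Finset.mem_powerset] at hF
    rw [← Finset.sum_filter]
    have h2 : U.filter (fun I => I ∈ F) = F := by
      ext J
      rw [Finset.mem_filter]
      exact ⟨fun h => h.2, fun h => ⟨hF h, h⟩⟩
    rw [h2, Finset.sum_const, nsmul_eq_mul, mul_comm]
  rw [Finset.sum_congr rfl h1, Finset.sum_comm]
  exact Finset.sum_congr rfl fun I hI => sum_mem z U I hI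

theorem cost_ind (R : Finset V) (z : Finset V → ℝ) (c : Finset V → ℝ)
    (hc : ∀ S I, z I ≠ 0 → c S ≤ c (S \ I) + 1) (F : Finset (Finset V))
    (hF : ∀ I ∈ F, z I ≠ 0) : c R ≤ c (R \ F.biUnion id) + (F.card : ℝ) := by
  induction F using Finset.induction_on with
  | empty => simp
  | insert I F hI ih =>
    have h1 := ih fun J hJ => hF J (Finset.mem_insert_of_mem hJ)
    have h2 := hc (R \ F.biUnion id) I (hF I (Finset.mem_insert_self _ _))
    have h3 : R \ (insert I F).biUnion id = (R \ F.biUnion id) \ I := by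
      ext v
      simp only [Finset.mem_sdiff, Finset.mem_biUnion, Finset.mem_insert, id]
      constructor
      · rintro ⟨h, h'⟩
        exact ⟨⟨h, fun ⟨a, ha, hv⟩ => h' ⟨a, Or.inr ha, hv⟩⟩, fun hv => h' ⟨I, Or.inl rfl, hv⟩⟩
      · rintro ⟨⟨h, h'⟩, h''⟩
        refine ⟨h, ?_⟩
        rintro ⟨a, rfl | ha, hv⟩
        · exact h'' hv
        · exact h' ⟨a, ha, hv⟩
    rw [h3, Finset.card_insert_of_notMem hI]
    push_cast
    linarith

theorem mu_zero (z : Finset V → ℝ) (U F : Finset (Finset V)) {I : Finset V} (hI : I ∈ F)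
    (hz : z I = 0) : mu z U F = 0 := by
  unfold mu
  rw [Finset.prod_eq_zero hI (by unfold pI; rw [hz]; simp), zero_mul]

end KernelAux

open KernelAux

theorem kernel [Fintype V] (R : Finset V) (z : Finset V → ℝ) (hz : ∀ I, 0 ≤ z I) :
    ∃ κ : Finset V → ℝ, (∀ R', 0 ≤ κ R') ∧ (∀ R', κ R' ≠ 0 → R' ⊆ R) ∧ (∑ R', κ R' = 1) ∧
      (∀ A ⊆ R, PA κ A = Real.exp (-(∑ I ∈ (univ : Finset (Finset V)).filter
        (fun I => I ⊆ R ∧ (I ∩ A).Nonempty), z I))) ∧
      (∀ c : Finset V → ℝ, (∀ S I, z I ≠ 0 → c S ≤ c (S \ I) + 1) →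
        c R ≤ ∑ R', κ R' * c R' +
          ∑ I ∈ (univ : Finset (Finset V)).filter (fun I => I ⊆ R), z I) := by
  refine ⟨kap R z, ?_, ?_, ?_, ?_, ?_⟩
  · intro R'
    exact Finset.sum_nonneg fun F _ => mu_nonneg hz _ F
  · intro R' hR'
    obtain ⟨F, hF, _⟩ := Finset.exists_ne_zero_of_sum_ne_zero hR'
    rw [Finset.mem_filter] at hF
    rw [← hF.2]
    exact Finset.sdiff_subset
  · have := sum_kap R z (fun _ => 1)
    simp only [mul_one] at this
    rw [this, sum_mu]
  · intro A hA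
    set U := R.powerset with hU
    set U0 := U.filter (fun I => ¬ (I ∩ A).Nonempty) with hU0
    have h1 : PA (kap R z) A = ∑ R', kap R z R' * (if A ⊆ R' then 1 else 0) := by
      unfold PA
      rw [Finset.sum_filter]
      refine Finset.sum_congr rfl fun R' _ => ?_
      split_ifs <;> simp
    rw [h1, sum_kap]
    have h2 : ∑ F ∈ U.powerset, mu z U F * (if A ⊆ R \ F.biUnion id then (1 : ℝ) else 0) =
        ∑ F ∈ U0.powerset, mu z U F := by
      have h3 : ∀ F ∈ U.powerset, mu z U F * (if A ⊆ R \ F.biUnion id then (1 : ℝ) else 0) =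
          if F ⊆ U0 then mu z U F else 0 := by
        intro F hF
        rw [Finset.mem_powerset] at hF
        have h4 : (A ⊆ R \ F.biUnion id) ↔ F ⊆ U0 := by
          constructor
          · intro h I hI
            rw [hU0, Finset.mem_filter]
            refine ⟨hF hI, ?_⟩
            rintro ⟨v, hv⟩
            rw [Finset.mem_inter] at hv
            have := h hv.2
            rw [Finset.mem_sdiff, Finset.mem_biUnion] at this
            exact this.2 ⟨I, hI, hv.1⟩
          · intro h v hv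
            rw [Finset.mem_sdiff, Finset.mem_biUnion]
            refine ⟨hA hv, ?_⟩
            rintro ⟨I, hI, hvI⟩
            have := h hI
            rw [hU0, Finset.mem_filter] at this
            exact this.2 ⟨v, Finset.mem_inter.mpr ⟨hvI, hv⟩⟩
        by_cases h5 : F ⊆ U0
        · rw [if_pos h5, if_pos (h4.mpr h5), mul_one]
        · rw [if_neg h5, if_neg (fun h => h5 (h4.mp h)), mul_zero]
      rw [Finset.sum_congr rfl h3, ← Finset.sum_filter]
      congr 1
      ext F
      rw [Finset.mem_filter, Finset.mem_powerset, Finset.mem_powerset]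
      exact ⟨fun h => h.2, fun h => ⟨h.trans (Finset.filter_subset _ _), h⟩⟩
    rw [h2]
    have h6 : ∀ F ∈ U0.powerset, mu z U F = (∏ I ∈ U \ U0, qI z I) *
        ((∏ I ∈ F, pI z I) * ∏ I ∈ U0 \ F, qI z I) := by
      intro F hF
      rw [Finset.mem_powerset] at hF
      unfold mu
      have h7 : U \ F = (U \ U0) ∪ (U0 \ F) := by
        ext I
        simp only [Finset.mem_sdiff, Finset.mem_union]
        constructor
        · rintro ⟨h, h'⟩
          by_cases h'' : I ∈ U0
          · exact Or.inr ⟨h'', h'⟩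
          · exact Or.inl ⟨h, h''⟩
        · rintro (⟨h, h'⟩ | ⟨h, h'⟩)
          · exact ⟨h, fun h'' => h' (hF h'')⟩
          · exact ⟨Finset.filter_subset _ _ h, h'⟩
      have h8 : Disjoint (U \ U0) (U0 \ F) := by
        rw [Finset.disjoint_left]
        intro I hI hI'
        rw [Finset.mem_sdiff] at hI hI'
        exact hI.2 hI'.1
      rw [h7, Finset.prod_union h8]
      ring
    rw [Finset.sum_congr rfl h6, ← Finset.mul_sum, ← Finset.prod_add,
      Finset.prod_eq_one (fun I _ => pq z I), mul_one]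
    unfold qI
    rw [← Real.exp_sum, Finset.sum_neg_distrib]
    congr 2
    refine Finset.sum_congr ?_ fun _ _ => rfl
    ext I
    simp only [hU0, hU, Finset.mem_sdiff, Finset.mem_filter, Finset.mem_powerset,
      Finset.mem_univ, true_and]
    tauto
  · intro c hc
    rw [sum_kap]
    have h1 : ∀ F ∈ R.powerset.powerset, mu z R.powerset F * c R ≤
        mu z R.powerset F * (c (R \ F.biUnion id) + (F.card : ℝ)) := by
      intro F _
      by_cases hF : ∀ I ∈ F, z I ≠ 0
      · exact mul_le_mul_of_nonneg_left (cost_ind R z c hc F hF) (mu_nonneg hz _ F)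
      · push Not at hF
        obtain ⟨I, hI, hI0⟩ := hF
        rw [mu_zero z _ F hI hI0]
        simp
    have h2 := Finset.sum_le_sum h1
    rw [← Finset.sum_mul, sum_mu, one_mul] at h2
    simp only [mul_add] at h2
    rw [Finset.sum_add_distrib, sum_card] at h2
    refine h2.trans ?_
    gcongr
    have h3 : (univ : Finset (Finset V)).filter (fun I => I ⊆ R) = R.powerset := by
      ext I
      simp
    rw [h3]
    refine Finset.sum_le_sum fun I _ => ?_
    unfold pI
    have := Real.add_one_le_exp (-(z I))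
    linarith

end

end Pool.Agent.LHad
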