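import Mathlib
import Pool.Agent.Lib.LHad.Defs

/-!
# LHad.M2Sum : second moment sum

Let `I, I'` meet `A`, `x I, x I' ≠ 0`.  `ρ q = 1`, `q ≥ 1`, so `yw x q I * ρ^… `: with `i = |I|`, `i' = |I'|`, `c = |I ∩ A|`, `c' = |I' ∩ A|`, `e = |(I ∩ I') \ A|`:
`|A ∪ I ∪ I'| = |A| + (i - c) + (i' - c') - e`, hence
`yw I * yw I' * ρ^|A ∪ I ∪ I'| = ρ^|A| * (x I q^(c-1)) * (x I' q^(c'-1)) * q^e`.
If `e = 0` this is `ρ^|A|` times the corresponding term of `B_A²`.  If `e ≥ 1` bound `q^(c-1) q^(c'-1) q^e ≤ q^(3s)`; so the sum of these terms is at most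
`ρ^|A| q^(3s) ∑_{v, v' ∈ A} ∑_{I ∋ v} ∑_{u ∈ I \ A} ∑_{I' ∋ u, v'} x I x I' ≤ ρ^|A| q^(3s) ∑_{v,v'} ∑_{I ∋ v} x I * s * δ = ρ^|A| q^(3s) |A|² s δ`
(`u ∉ A`, `v' ∈ A`, so `u ≠ v'`, `cod`; `|I| ≤ s`; `cov`).
-/

namespace Pool.Agent.LHad

open Finset

open scoped Classical

noncomputable section

variable {V : Type}

namespace M2SumAux

/-- union bound over the vertices of `A` -/
theorem sum_meet_le [Fintype V] (f : Finset V → ℝ) (hf : ∀ I, 0 ≤ f I) (A : Finset V) :
    ∑ I ∈ (univ : Finset (Finset V)).filter (fun I => (I ∩ A).Nonempty), f I ≤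
      ∑ v ∈ A, ∑ I ∈ (univ : Finset (Finset V)).filter (fun I => v ∈ I), f I := by
  have e1 : ∑ v ∈ A, ∑ I ∈ (univ : Finset (Finset V)).filter (fun I => v ∈ I), f I =
      ∑ I : Finset V, ∑ v ∈ A, (if v ∈ I then f I else 0) := by
    rw [Finset.sum_comm]
    refine Finset.sum_congr rfl (fun v _ => ?_)
    rw [Finset.sum_filter]
  rw [e1, Finset.sum_filter]
  refine Finset.sum_le_sum (fun I _ => ?_)
  split_ifs with h
  · obtain ⟨v, hv⟩ := h
    rw [Finset.mem_inter] at hv
    calc f I = (if v ∈ I then f I else 0) := by rw [if_pos hv.1]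
      _ ≤ ∑ v ∈ A, (if v ∈ I then f I else 0) := by
          refine Finset.single_le_sum (f := fun v => if v ∈ I then f I else 0) ?_ hv.2
          intro u _
          split_ifs
          · exact hf I
          · exact le_rfl
  · refine Finset.sum_nonneg (fun u _ => ?_)
    split_ifs
    · exact hf I
    · exact le_rfl

/-- the inner sum of the second error term -/
theorem inner_le [Fintype V] (x : Finset V → ℝ) (s : ℕ) (δ : ℝ) (hδ : 0 ≤ δ)
    (hx : Frac x s δ) (A I : Finset V) (hI : I.card ≤ s) :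
    ∑ I' ∈ (univ : Finset (Finset V)).filter (fun I' => (I' ∩ A).Nonempty),
      (if ((I ∩ I') \ A).Nonempty then x I' else 0) ≤ (A.card : ℝ) * s * δ := by
  have h1 : ∑ I' ∈ (univ : Finset (Finset V)).filter (fun I' => (I' ∩ A).Nonempty),
      (if ((I ∩ I') \ A).Nonempty then x I' else 0) ≤
      ∑ I' : Finset V, ∑ v ∈ A, ∑ u ∈ I \ A, (if u ∈ I' ∧ v ∈ I' then x I' else 0) := by
    have hnn : ∀ I' : Finset V, ∀ v u : V, 0 ≤ (if u ∈ I' ∧ v ∈ I' then x I' else 0) := by
      intro I' v u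
      split_ifs
      · exact hx.nonneg I'
      · exact le_rfl
    rw [Finset.sum_filter]
    refine Finset.sum_le_sum (fun I' _ => ?_)
    have hn : 0 ≤ ∑ v ∈ A, ∑ u ∈ I \ A, (if u ∈ I' ∧ v ∈ I' then x I' else 0) :=
      Finset.sum_nonneg (fun v _ => Finset.sum_nonneg (fun u _ => hnn I' v u))
    split_ifs with h h2
    · obtain ⟨v, hv⟩ := h
      obtain ⟨u, hu⟩ := h2
      rw [Finset.mem_inter] at hv
      rw [Finset.mem_sdiff, Finset.mem_inter] at hu
      calc x I' = (if u ∈ I' ∧ v ∈ I' then x I' else 0) := by rw [if_pos ⟨hu.1.2, hv.1⟩]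
        _ ≤ ∑ u ∈ I \ A, (if u ∈ I' ∧ v ∈ I' then x I' else 0) := by
            refine Finset.single_le_sum (f := fun u => if u ∈ I' ∧ v ∈ I' then x I' else 0)
              (fun u _ => hnn I' v u) ?_
            rw [Finset.mem_sdiff]
            exact ⟨hu.1.1, hu.2⟩
        _ ≤ _ := by
            refine Finset.single_le_sum
              (f := fun v => ∑ u ∈ I \ A, (if u ∈ I' ∧ v ∈ I' then x I' else 0))
              (fun v _ => Finset.sum_nonneg (fun u _ => hnn I' v u)) hv.2
    · exact hn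
    · exact hn
  refine h1.trans ?_
  rw [Finset.sum_comm]
  calc ∑ v ∈ A, ∑ I' : Finset V, ∑ u ∈ I \ A, (if u ∈ I' ∧ v ∈ I' then x I' else 0)
      ≤ ∑ v ∈ A, (s : ℝ) * δ := by
        refine Finset.sum_le_sum (fun v hv => ?_)
        rw [Finset.sum_comm]
        calc ∑ u ∈ I \ A, ∑ I' : Finset V, (if u ∈ I' ∧ v ∈ I' then x I' else 0)
            ≤ ∑ u ∈ I \ A, δ := by
              refine Finset.sum_le_sum (fun u hu => ?_)
              rw [← Finset.sum_filter]
              refine hx.cod u v ?_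
              rintro rfl
              rw [Finset.mem_sdiff] at hu
              exact hu.2 hv
          _ = ((I \ A).card : ℝ) * δ := by rw [Finset.sum_const, nsmul_eq_mul]
          _ ≤ (s : ℝ) * δ := by
              refine mul_le_mul_of_nonneg_right ?_ hδ
              exact_mod_cast (Finset.card_le_card Finset.sdiff_subset).trans hI
    _ = (A.card : ℝ) * s * δ := by rw [Finset.sum_const, nsmul_eq_mul, mul_assoc]

/-- the pointwise identity `q^(i-1) q^(i'-1) ρ^|A ∪ I ∪ I'| = ρ^|A| q^(c-1) q^(c'-1) q^e` -/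
theorem point (ρ q : ℝ) (hρ : ρ * q = 1) (A I I' : Finset V)
    (h : (I ∩ A).Nonempty) (h' : (I' ∩ A).Nonempty) :
    q ^ (I.card - 1) * q ^ (I'.card - 1) * ρ ^ (A ∪ I ∪ I').card =
      ρ ^ A.card * (q ^ ((I ∩ A).card - 1) * q ^ ((I' ∩ A).card - 1) *
        q ^ ((I ∩ I') \ A).card) := by
  have h0 : 1 ≤ (I ∩ A).card := Finset.card_pos.2 h
  have h0' : 1 ≤ (I' ∩ A).card := Finset.card_pos.2 h'
  have c1 : (I ∩ A).card + (I \ A).card = I.card := Finset.card_inter_add_card_sdiff I A
  have c2 : (I' ∩ A).card + (I' \ A).card = I'.card := Finset.card_inter_add_card_sdiff I' A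
  have c3 : (A ∪ I ∪ I').card + ((I ∩ I') \ A).card =
      A.card + (I \ A).card + (I' \ A).card := by
    have e1 : A ∪ I ∪ I' = A ∪ ((I \ A) ∪ (I' \ A)) := by
      ext v
      simp only [Finset.mem_union, Finset.mem_sdiff]
      tauto
    have e2 : (I ∩ I') \ A = (I \ A) ∩ (I' \ A) := by
      ext v
      simp only [Finset.mem_inter, Finset.mem_sdiff]
      tauto
    have e3 : (A ∪ ((I \ A) ∪ (I' \ A))).card = A.card + ((I \ A) ∪ (I' \ A)).card := by
      refine Finset.card_union_of_disjoint ?_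
      rw [Finset.disjoint_left]
      intro v hv hv'
      simp only [Finset.mem_union, Finset.mem_sdiff] at hv'
      tauto
    have e4 := Finset.card_union_add_card_inter (I \ A) (I' \ A)
    rw [e1, e2, e3]
    omega
  set c := (I ∩ A).card with hc
  set c' := (I' ∩ A).card with hc'
  set d := (I \ A).card with hd
  set d' := (I' \ A).card with hd'
  set e := ((I ∩ I') \ A).card with he
  set n := (A ∪ I ∪ I').card with hn
  have hqn : ∀ k : ℕ, ρ ^ k * q ^ k = 1 := by
    intro k
    rw [← mul_pow, hρ, one_pow]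
  have e1 : q ^ (I.card - 1) = q ^ (c - 1) * q ^ d := by
    rw [← pow_add]
    congr 1
    omega
  have e2 : q ^ (I'.card - 1) = q ^ (c' - 1) * q ^ d' := by
    rw [← pow_add]
    congr 1
    omega
  have e3 : ρ ^ n * (q ^ d * q ^ d') = ρ ^ A.card * q ^ e := by
    have k1 : ρ ^ n * (q ^ d * q ^ d') * ρ ^ e = ρ ^ A.card * q ^ e * ρ ^ e := by
      calc ρ ^ n * (q ^ d * q ^ d') * ρ ^ e = ρ ^ (n + e) * (q ^ d * q ^ d') := by
            rw [pow_add]; ring
        _ = ρ ^ (A.card + d + d') * (q ^ d * q ^ d') := by rw [c3]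
        _ = ρ ^ A.card * (ρ ^ d * q ^ d) * (ρ ^ d' * q ^ d') := by
            rw [pow_add, pow_add]; ring
        _ = ρ ^ A.card * (ρ ^ e * q ^ e) := by rw [hqn, hqn, hqn]; ring
        _ = _ := by ring
    have hρ0 : ρ ^ e ≠ 0 := by
      intro h0
      have := hqn e
      rw [h0, zero_mul] at this
      exact zero_ne_one this
    exact mul_right_cancel₀ hρ0 k1
  calc q ^ (I.card - 1) * q ^ (I'.card - 1) * ρ ^ n
      = (q ^ (c - 1) * q ^ (c' - 1)) * (ρ ^ n * (q ^ d * q ^ d')) := by
        rw [e1, e2]; ring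
    _ = (q ^ (c - 1) * q ^ (c' - 1)) * (ρ ^ A.card * q ^ e) := by rw [e3]
    _ = _ := by ring

end M2SumAux

open M2SumAux in
theorem m2Sum [Fintype V] (x : Finset V → ℝ) (s : ℕ) (hs : 1 ≤ s) (δ : ℝ) (hδ : 0 ≤ δ)
    (hx : Frac x s δ) (ρ q : ℝ) (hq : 1 ≤ q) (hρ : ρ * q = 1) (A : Finset V) :
    ∑ I ∈ (univ : Finset (Finset V)).filter (fun I => (I ∩ A).Nonempty),
      ∑ I' ∈ (univ : Finset (Finset V)).filter (fun I' => (I' ∩ A).Nonempty),
        yw x q I * yw x q I' * ρ ^ (A ∪ I ∪ I').card ≤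
      ρ ^ A.card * ((BA x q A) ^ 2 + q ^ (3 * s) * (A.card : ℝ) ^ 2 * s * δ) := by
  have hq0 : 0 < q := lt_of_lt_of_le one_pos hq
  have hρ0 : 0 < ρ := by
    by_contra hc
    push Not at hc
    have := mul_nonpos_of_nonpos_of_nonneg hc hq0.le
    rw [hρ] at this
    exact absurd this (by norm_num)
  have hρA : 0 ≤ ρ ^ A.card := pow_nonneg hρ0.le _
  have hq3 : 0 ≤ q ^ (3 * s) := pow_nonneg hq0.le _
  -- pointwise bound
  have hpt : ∀ I ∈ (univ : Finset (Finset V)).filter (fun I => (I ∩ A).Nonempty),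
      ∀ I' ∈ (univ : Finset (Finset V)).filter (fun I' => (I' ∩ A).Nonempty),
      yw x q I * yw x q I' * ρ ^ (A ∪ I ∪ I').card ≤
        ρ ^ A.card * ((x I * q ^ ((I ∩ A).card - 1)) * (x I' * q ^ ((I' ∩ A).card - 1))) +
        ρ ^ A.card * q ^ (3 * s) * (x I * (if ((I ∩ I') \ A).Nonempty then x I' else 0)) := by
    intro I hI I' hI'
    rw [Finset.mem_filter] at hI hI'
    have hp := point ρ q hρ A I I' hI.2 hI'.2
    have hxI := hx.nonneg I
    have hxI' := hx.nonneg I'
    have e1 : yw x q I * yw x q I' * ρ ^ (A ∪ I ∪ I').card =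
        ρ ^ A.card * ((x I * q ^ ((I ∩ A).card - 1)) * (x I' * q ^ ((I' ∩ A).card - 1))) *
          q ^ ((I ∩ I') \ A).card := by
      unfold yw
      calc x I * q ^ (I.card - 1) * (x I' * q ^ (I'.card - 1)) * ρ ^ (A ∪ I ∪ I').card
          = x I * x I' * (q ^ (I.card - 1) * q ^ (I'.card - 1) * ρ ^ (A ∪ I ∪ I').card) := by
            ring
        _ = _ := by rw [hp]; ring
    rw [e1]
    by_cases hne : ((I ∩ I') \ A).Nonempty
    · rw [if_pos hne]
      have hfirst : 0 ≤ ρ ^ A.card *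
          ((x I * q ^ ((I ∩ A).card - 1)) * (x I' * q ^ ((I' ∩ A).card - 1))) := by
        positivity
      refine le_trans ?_ (le_add_of_nonneg_left hfirst)
      by_cases hz : x I = 0
      · rw [hz]; simp
      by_cases hz' : x I' = 0
      · rw [hz']; simp
      have k1 : (I ∩ A).card - 1 ≤ s := by
        have := (Finset.card_le_card (Finset.inter_subset_left (s₁ := I) (s₂ := A))).trans
          (hx.supp I hz).2
        omega
      have k2 : (I' ∩ A).card - 1 ≤ s := by
        have := (Finset.card_le_card (Finset.inter_subset_left (s₁ := I') (s₂ := A))).trans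
          (hx.supp I' hz').2
        omega
      have k3 : ((I ∩ I') \ A).card ≤ s :=
        (Finset.card_le_card (Finset.sdiff_subset.trans Finset.inter_subset_left)).trans
          (hx.supp I hz).2
      have k4 : q ^ ((I ∩ A).card - 1) * q ^ ((I' ∩ A).card - 1) * q ^ ((I ∩ I') \ A).card ≤
          q ^ (3 * s) := by
        rw [← pow_add, ← pow_add]
        exact pow_le_pow_right₀ hq (by omega)
      calc ρ ^ A.card * ((x I * q ^ ((I ∩ A).card - 1)) * (x I' * q ^ ((I' ∩ A).card - 1))) *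
          q ^ ((I ∩ I') \ A).card
          = ρ ^ A.card * (x I * x I') * (q ^ ((I ∩ A).card - 1) * q ^ ((I' ∩ A).card - 1) *
              q ^ ((I ∩ I') \ A).card) := by ring
        _ ≤ ρ ^ A.card * (x I * x I') * q ^ (3 * s) := by
            refine mul_le_mul_of_nonneg_left k4 (by positivity)
        _ = _ := by ring
    · rw [if_neg hne]
      rw [Finset.not_nonempty_iff_eq_empty] at hne
      rw [hne]
      simp
  -- sum up
  calc ∑ I ∈ (univ : Finset (Finset V)).filter (fun I => (I ∩ A).Nonempty),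
      ∑ I' ∈ (univ : Finset (Finset V)).filter (fun I' => (I' ∩ A).Nonempty),
        yw x q I * yw x q I' * ρ ^ (A ∪ I ∪ I').card
      ≤ ∑ I ∈ (univ : Finset (Finset V)).filter (fun I => (I ∩ A).Nonempty),
        ∑ I' ∈ (univ : Finset (Finset V)).filter (fun I' => (I' ∩ A).Nonempty),
        (ρ ^ A.card * ((x I * q ^ ((I ∩ A).card - 1)) * (x I' * q ^ ((I' ∩ A).card - 1))) +
        ρ ^ A.card * q ^ (3 * s) * (x I * (if ((I ∩ I') \ A).Nonempty then x I' else 0))) :=
        Finset.sum_le_sum (fun I hI => Finset.sum_le_sum (fun I' hI' => hpt I hI I' hI'))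
    _ = ρ ^ A.card * ((BA x q A) ^ 2) + ρ ^ A.card * q ^ (3 * s) *
        (∑ I ∈ (univ : Finset (Finset V)).filter (fun I => (I ∩ A).Nonempty), x I *
        ∑ I' ∈ (univ : Finset (Finset V)).filter (fun I' => (I' ∩ A).Nonempty),
          (if ((I ∩ I') \ A).Nonempty then x I' else 0)) := by
        have e1 : (BA x q A) ^ 2 =
            ∑ I ∈ (univ : Finset (Finset V)).filter (fun I => (I ∩ A).Nonempty),
            ∑ I' ∈ (univ : Finset (Finset V)).filter (fun I' => (I' ∩ A).Nonempty),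
              (x I * q ^ ((I ∩ A).card - 1)) * (x I' * q ^ ((I' ∩ A).card - 1)) := by
          unfold BA
          rw [sq, Finset.sum_mul_sum]
        rw [e1, Finset.mul_sum, Finset.mul_sum, ← Finset.sum_add_distrib]
        refine Finset.sum_congr rfl (fun I _ => ?_)
        rw [Finset.sum_add_distrib, ← Finset.mul_sum, ← Finset.mul_sum, ← Finset.mul_sum,
          ← Finset.mul_sum]
    _ ≤ ρ ^ A.card * ((BA x q A) ^ 2) + ρ ^ A.card * q ^ (3 * s) *
        ((A.card : ℝ) ^ 2 * s * δ) := by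
        have hin : ∑ I ∈ (univ : Finset (Finset V)).filter (fun I => (I ∩ A).Nonempty), x I *
            ∑ I' ∈ (univ : Finset (Finset V)).filter (fun I' => (I' ∩ A).Nonempty),
              (if ((I ∩ I') \ A).Nonempty then x I' else 0) ≤ (A.card : ℝ) ^ 2 * s * δ := by
          calc _ ≤ ∑ I ∈ (univ : Finset (Finset V)).filter (fun I => (I ∩ A).Nonempty),
              x I * ((A.card : ℝ) * s * δ) := by
                refine Finset.sum_le_sum (fun I _ => ?_)
                by_cases hz : x I = 0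
                · rw [hz]; simp
                · exact mul_le_mul_of_nonneg_left
                    (inner_le x s δ hδ hx A I (hx.supp I hz).2) (hx.nonneg I)
            _ = (∑ I ∈ (univ : Finset (Finset V)).filter (fun I => (I ∩ A).Nonempty), x I) *
                ((A.card : ℝ) * s * δ) := by rw [Finset.sum_mul]
            _ ≤ (A.card : ℝ) * ((A.card : ℝ) * s * δ) := by
                refine mul_le_mul_of_nonneg_right ?_ (by positivity)
                refine (sum_meet_le x hx.nonneg A).trans ?_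
                rw [Finset.sum_congr rfl (fun v _ => hx.cov v)]
                simp
            _ = _ := by ring
        have := mul_le_mul_of_nonneg_left hin (mul_nonneg hρA hq3)
        linarith
    _ = _ := by ring

end

end Pool.Agent.LHad
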