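import Mathlib
import Pool.Agent.Lib.LHad.Defs
import Pool.Agent.Lib.LHad.BSum
import Pool.Agent.Lib.LHad.M2Sum

/-!
# LHad.StepMom : one step of the moment recursion

`bSum`, `m2Sum` are black boxes.  Write `n = |A| ≤ m`, `D R = DA x q A R`, `E[f] = ∑_{R ⊇ A} ν R * f R`, `ρ > 0`, `B = BA x q A`, `|B - n| ≤ ε` (as `q^s s n² δ ≤ q^(3s) m² s δ ≤ ε`).
First moment: `E[D] = ∑_{I meets A} yw I * PA ν (A ∪ I)` (`A ⊆ R` and `I ⊆ R` iff `A ∪ I ⊆ R`), `|A ∪ I| ≤ m + s` if `x I ≠ 0`, and `yw I * ρ^|A ∪ I| = ρ^n x I q^(|I ∩ A| - 1)`; so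
`(1-η) ρ^n B ≤ E[D] ≤ (1+η) ρ^n B`.
Second moment: `E[D²] = ∑_I ∑_I' yw I yw I' PA ν (A ∪ I ∪ I') ≤ (1+η) ρ^n (B² + ε)` (`m2Sum`).
Hence `E[(D - n)²] = E[D²] - 2n E[D] + n² E[1] ≤ ρ^n [(1+η)(B²+ε) - 2n(1-η)B + (1+η)n²] = ρ^n [(B-n)² + η(B+n)² + (1+η)ε] ≤ ρ^n [ε² + η(2m+1)² + 2ε] ≤ ρ^n (3ε + 9m²η)`
(`ε ≤ 1`, `m ≥ 1`, `η ≤ 1`; for `B - …` note `B ≥ 0`).
Lower bound: `exp(-λD) ≥ exp(-λn) (1 - λ(D - n))`, so `E[exp(-λD)] ≥ exp(-λn) [(1+λn) E[1] - λ E[D]] ≥ exp(-λn) ρ^n [(1+λn)(1-η) - λ(1+η)(n+ε)] ≥ exp(-λn) ρ^n [1 - η(1+2m) - 2ε]`.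
Upper bound: for `y ≥ -λn`: `exp(-y) ≤ 1 - y + (y²/2) exp(λn)` (for `y ≥ 0` from `exp(-y) ≤ 1 - y + y²/2`; for `y = -u ≤ 0`: `exp u ≤ 1 + u + (u²/2) exp u`).  With `y = λ(D - n)` (`D ≥ 0`):
`E[exp(-λD)] ≤ exp(-λn) [(1+λn)E[1] - λE[D] + (λ²/2) exp(λn) E[(D-n)²]] ≤ exp(-λn) ρ^n [(1+λn)(1+η) - λ(1-η)(n-ε) + (1/2) exp(m) (3ε + 9m²η)]
 ≤ exp(-λn) ρ^n [1 + η(1+2m) + 2ε + exp(m)(2ε + 5m²η)] ≤ exp(-λn) ρ^n [1 + 20 m² exp(m) (η+ε)]`.
-/

namespace Pool.Agent.LHad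

open Finset

open scoped Classical

noncomputable section

variable {V : Type}

namespace StepMomAux

/-! ### The exponential function -/

theorem exp_le_of_nonpos {t : ℝ} (ht : t ≤ 0) : Real.exp t ≤ 1 + t + t ^ 2 / 2 := by
  have hd : ∀ u : ℝ, HasDerivAt (fun u : ℝ => (1 + u + u ^ 2 / 2) * Real.exp (-u)) (-(u ^ 2 / 2) * Real.exp (-u)) u := by
    intro u
    have h1 : HasDerivAt (fun u : ℝ => 1 + u + u ^ 2 / 2) (1 + u) u := by
      have h2 := ((hasDerivAt_id u).const_add 1).add (((hasDerivAt_id u).pow 2).div_const 2)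
      refine h2.congr_deriv ?_
      simp
    have h3 : HasDerivAt (fun u : ℝ => Real.exp (-u)) (-Real.exp (-u)) u := by
      have h4 := (hasDerivAt_id u).neg.exp
      refine h4.congr_deriv ?_
      simp
    refine (h1.mul h3).congr_deriv ?_
    ring
  have hm : Antitone fun u : ℝ => (1 + u + u ^ 2 / 2) * Real.exp (-u) := by
    refine antitone_of_deriv_nonpos (fun u => (hd u).differentiableAt) fun u => ?_
    rw [(hd u).deriv]
    have h1 := Real.exp_pos (-u)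
    have h2 : 0 ≤ u ^ 2 / 2 * Real.exp (-u) := by positivity
    linarith
  have h := hm ht
  simp only [neg_zero, Real.exp_zero, mul_one] at h
  have h2 : 1 ≤ (1 + t + t ^ 2 / 2) * Real.exp (-t) := by
    norm_num at h
    exact h
  have h3 : Real.exp (-t) * Real.exp t = 1 := by rw [← Real.exp_add]; simp
  calc Real.exp t = 1 * Real.exp t := (one_mul _).symm
    _ ≤ (1 + t + t ^ 2 / 2) * Real.exp (-t) * Real.exp t := mul_le_mul_of_nonneg_right h2 (Real.exp_pos t).le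
    _ = 1 + t + t ^ 2 / 2 := by rw [mul_assoc, h3, mul_one]

theorem exp_le_of_nonneg {t : ℝ} (ht : 0 ≤ t) : Real.exp t ≤ 1 + t + t ^ 2 / 2 * Real.exp t := by
  have hd : ∀ u : ℝ, HasDerivAt (fun u : ℝ => (1 + u) * Real.exp (-u) + u ^ 2 / 2) (u * (1 - Real.exp (-u))) u := by
    intro u
    have h1 : HasDerivAt (fun u : ℝ => 1 + u) 1 u := (hasDerivAt_id u).const_add 1
    have h2 : HasDerivAt (fun u : ℝ => u ^ 2 / 2) u u := by
      have h2 := ((hasDerivAt_id u).pow 2).div_const 2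
      refine h2.congr_deriv ?_
      simp
    have h3 : HasDerivAt (fun u : ℝ => Real.exp (-u)) (-Real.exp (-u)) u := by
      have h4 := (hasDerivAt_id u).neg.exp
      refine h4.congr_deriv ?_
      simp
    refine ((h1.mul h3).add h2).congr_deriv ?_
    ring
  have hm : Monotone fun u : ℝ => (1 + u) * Real.exp (-u) + u ^ 2 / 2 := by
    refine monotone_of_deriv_nonneg (fun u => (hd u).differentiableAt) fun u => ?_
    rw [(hd u).deriv]
    rcases le_total 0 u with h | h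
    · have h1 : Real.exp (-u) ≤ 1 := Real.exp_le_one_iff.2 (by linarith)
      exact mul_nonneg h (by linarith)
    · have h1 : 1 ≤ Real.exp (-u) := Real.one_le_exp (by linarith)
      exact mul_nonneg_of_nonpos_of_nonpos h (by linarith)
  have h := hm ht
  have h2 : 1 ≤ (1 + t) * Real.exp (-t) + t ^ 2 / 2 := by
    have h4 : (fun u : ℝ => (1 + u) * Real.exp (-u) + u ^ 2 / 2) 0 = 1 := by simp
    rw [h4] at h
    exact h
  have h3 : Real.exp (-t) * Real.exp t = 1 := by rw [← Real.exp_add]; simp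
  calc Real.exp t = 1 * Real.exp t := (one_mul _).symm
    _ ≤ ((1 + t) * Real.exp (-t) + t ^ 2 / 2) * Real.exp t := mul_le_mul_of_nonneg_right h2 (Real.exp_pos t).le
    _ = 1 + t + t ^ 2 / 2 * Real.exp t := by rw [add_mul, mul_assoc, h3, mul_one]

theorem exp_le {t L : ℝ} (hL : 0 ≤ L) (ht : t ≤ L) : Real.exp t ≤ 1 + t + t ^ 2 / 2 * Real.exp L := by
  have h0 : 0 ≤ t ^ 2 / 2 := by positivity
  rcases le_total t 0 with h | h
  · have h1 := exp_le_of_nonpos h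
    have h2 : 1 ≤ Real.exp L := Real.one_le_exp hL
    nlinarith
  · have h1 := exp_le_of_nonneg h
    have h2 : Real.exp t ≤ Real.exp L := Real.exp_le_exp.2 ht
    nlinarith

/-! ### Moments as sums over the sets meeting `A` -/

theorem PA_filter [Fintype V] (ν : Finset V → ℝ) (A K : Finset V) :
    ∑ R ∈ (univ : Finset (Finset V)).filter (fun R => A ⊆ R), (if K ⊆ R then ν R else 0) = PA ν (A ∪ K) := by
  unfold PA
  rw [← Finset.sum_filter, Finset.filter_filter]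
  refine Finset.sum_congr ?_ fun _ _ => rfl
  ext R
  simp only [Finset.mem_filter, Finset.mem_univ, true_and, Finset.union_subset_iff]

theorem DA_eq [Fintype V] (x : Finset V → ℝ) (q : ℝ) (A R : Finset V) :
    DA x q A R = ∑ I ∈ (univ : Finset (Finset V)).filter (fun I => (I ∩ A).Nonempty),
      (if I ⊆ R then yw x q I else 0) := by
  unfold DA
  rw [← Finset.sum_filter, Finset.filter_filter]
  refine Finset.sum_congr ?_ fun _ _ => rfl
  ext I
  simp only [Finset.mem_filter, Finset.mem_univ, true_and, and_comm]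

theorem first [Fintype V] (ν x : Finset V → ℝ) (q : ℝ) (A : Finset V) :
    ∑ R ∈ (univ : Finset (Finset V)).filter (fun R => A ⊆ R), ν R * DA x q A R =
      ∑ I ∈ (univ : Finset (Finset V)).filter (fun I => (I ∩ A).Nonempty), yw x q I * PA ν (A ∪ I) := by
  simp_rw [DA_eq, Finset.mul_sum]
  rw [Finset.sum_comm]
  refine Finset.sum_congr rfl fun I _ => ?_
  rw [← PA_filter, Finset.mul_sum]
  refine Finset.sum_congr rfl fun R _ => ?_
  split_ifs <;> ring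

theorem second [Fintype V] (ν x : Finset V → ℝ) (q : ℝ) (A : Finset V) :
    ∑ R ∈ (univ : Finset (Finset V)).filter (fun R => A ⊆ R), ν R * (DA x q A R) ^ 2 =
      ∑ I ∈ (univ : Finset (Finset V)).filter (fun I => (I ∩ A).Nonempty),
        ∑ I' ∈ (univ : Finset (Finset V)).filter (fun I' => (I' ∩ A).Nonempty),
          yw x q I * yw x q I' * PA ν (A ∪ I ∪ I') := by
  have h : ∀ R, ν R * (DA x q A R) ^ 2 =
      ∑ I ∈ (univ : Finset (Finset V)).filter (fun I => (I ∩ A).Nonempty),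
        ∑ I' ∈ (univ : Finset (Finset V)).filter (fun I' => (I' ∩ A).Nonempty),
          ν R * ((if I ⊆ R then yw x q I else 0) * (if I' ⊆ R then yw x q I' else 0)) := by
    intro R
    rw [DA_eq, sq, Finset.sum_mul_sum, Finset.mul_sum]
    exact Finset.sum_congr rfl fun I _ => by rw [Finset.mul_sum]
  simp_rw [h]
  rw [Finset.sum_comm]
  refine Finset.sum_congr rfl fun I _ => ?_
  rw [Finset.sum_comm]
  refine Finset.sum_congr rfl fun I' _ => ?_
  rw [Finset.union_assoc, ← PA_filter, Finset.mul_sum]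
  refine Finset.sum_congr rfl fun R _ => ?_
  by_cases h1 : I ⊆ R
  · by_cases h2 : I' ⊆ R
    · rw [if_pos h1, if_pos h2, if_pos (Finset.union_subset h1 h2)]
      ring
    · rw [if_neg h2, if_neg fun h3 => h2 (Finset.subset_union_right.trans h3)]
      ring
  · rw [if_neg h1, if_neg fun h3 => h1 (Finset.subset_union_left.trans h3)]
    ring

theorem yw_nonneg [Fintype V] {x : Finset V → ℝ} {s : ℕ} {δ q : ℝ} (hx : Frac x s δ) (hq : 1 ≤ q)
    (I : Finset V) : 0 ≤ yw x q I :=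
  mul_nonneg (hx.nonneg I) (pow_nonneg (by linarith) _)

/-- the weight of the union -/
theorem yw_pow {x : Finset V → ℝ} {ρ q : ℝ} (hρ : ρ * q = 1) {A I : Finset V}
    (hI : (I ∩ A).Nonempty) :
    yw x q I * ρ ^ (A ∪ I).card = ρ ^ A.card * (x I * q ^ ((I ∩ A).card - 1)) := by
  have h1 : (A ∪ I).card = A.card + (I.card - (I ∩ A).card) := by
    have h2 := Finset.card_union_add_card_inter A I
    have h3 : (I ∩ A).card ≤ I.card := Finset.card_le_card Finset.inter_subset_left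
    rw [Finset.inter_comm A I] at h2
    omega
  have hc : 1 ≤ (I ∩ A).card := Finset.card_pos.2 hI
  have h3 : (I ∩ A).card ≤ I.card := Finset.card_le_card Finset.inter_subset_left
  have h4 : I.card - 1 = ((I ∩ A).card - 1) + (I.card - (I ∩ A).card) := by omega
  have h5 : q ^ (I.card - (I ∩ A).card) * ρ ^ (I.card - (I ∩ A).card) = 1 := by
    rw [← mul_pow, mul_comm q ρ, hρ, one_pow]
  unfold yw
  rw [h1, h4, pow_add, pow_add]
  calc x I * (q ^ ((I ∩ A).card - 1) * q ^ (I.card - (I ∩ A).card)) * (ρ ^ A.card * ρ ^ (I.card - (I ∩ A).card))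
      = ρ ^ A.card * (x I * q ^ ((I ∩ A).card - 1)) *
        (q ^ (I.card - (I ∩ A).card) * ρ ^ (I.card - (I ∩ A).card)) := by ring
    _ = _ := by rw [h5, mul_one]

theorem first_bd [Fintype V] {ν x : Finset V → ℝ} {s : ℕ} {δ ρ q η : ℝ} {m : ℕ} (hx : Frac x s δ) (hq : 1 ≤ q)
    (hρ : ρ * q = 1)
    (hP : ∀ A : Finset V, A.card ≤ m + 2 * s → |PA ν A - ρ ^ A.card| ≤ η * ρ ^ A.card)
    {A : Finset V} (hA : A.card ≤ m) :
    |∑ R ∈ (univ : Finset (Finset V)).filter (fun R => A ⊆ R), ν R * DA x q A R - ρ ^ A.card * BA x q A| ≤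
      η * (ρ ^ A.card * BA x q A) := by
  rw [first]
  have e : ρ ^ A.card * BA x q A = ∑ I ∈ (univ : Finset (Finset V)).filter (fun I => (I ∩ A).Nonempty),
      yw x q I * ρ ^ (A ∪ I).card := by
    unfold BA
    rw [Finset.mul_sum]
    refine Finset.sum_congr rfl fun I hI => ?_
    rw [yw_pow hρ (Finset.mem_filter.1 hI).2]
  rw [e, ← Finset.sum_sub_distrib, Finset.mul_sum]
  refine (Finset.abs_sum_le_sum_abs _ _).trans (Finset.sum_le_sum fun I hI => ?_)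
  have hy := yw_nonneg hx hq I
  rw [← mul_sub, abs_mul, abs_of_nonneg hy]
  by_cases h0 : x I = 0
  · unfold yw
    rw [h0]
    simp
  · have h1 : (A ∪ I).card ≤ m + 2 * s := by
      have h2 := (hx.supp I h0).2
      have h3 := Finset.card_union_le A I
      omega
    have h2 := mul_le_mul_of_nonneg_left (hP _ h1) hy
    calc yw x q I * |PA ν (A ∪ I) - ρ ^ (A ∪ I).card| ≤ yw x q I * (η * ρ ^ (A ∪ I).card) := h2
      _ = η * (yw x q I * ρ ^ (A ∪ I).card) := by ring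

theorem second_bd [Fintype V] {ν x : Finset V → ℝ} {s : ℕ} {δ ρ q η : ℝ} {m : ℕ} (hs : 1 ≤ s) (hδ : 0 ≤ δ)
    (hx : Frac x s δ) (hq : 1 ≤ q) (hη : 0 ≤ η)
    (hρ : ρ * q = 1)
    (hP : ∀ A : Finset V, A.card ≤ m + 2 * s → |PA ν A - ρ ^ A.card| ≤ η * ρ ^ A.card)
    {A : Finset V} (hA : A.card ≤ m) :
    ∑ R ∈ (univ : Finset (Finset V)).filter (fun R => A ⊆ R), ν R * (DA x q A R) ^ 2 ≤
      (1 + η) * (ρ ^ A.card * ((BA x q A) ^ 2 + q ^ (3 * s) * (A.card : ℝ) ^ 2 * s * δ)) := by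
  rw [second]
  refine le_trans ?_ (mul_le_mul_of_nonneg_left (m2Sum x s hs δ hδ hx ρ q hq hρ A) (by linarith))
  rw [Finset.mul_sum]
  refine Finset.sum_le_sum fun I _ => ?_
  rw [Finset.mul_sum]
  refine Finset.sum_le_sum fun I' _ => ?_
  have hy := yw_nonneg hx hq I
  have hy' := yw_nonneg hx hq I'
  by_cases h0 : x I = 0
  · unfold yw
    rw [h0]
    simp
  by_cases h0' : x I' = 0
  · unfold yw
    rw [h0']
    simp
  have h1 : (A ∪ I ∪ I').card ≤ m + 2 * s := by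
    have h2 := (hx.supp I h0).2
    have h2' := (hx.supp I' h0').2
    have h3 := Finset.card_union_le A I
    have h4 := Finset.card_union_le (A ∪ I) I'
    omega
  have h2 := (abs_le.1 (hP _ h1)).2
  have h3 : PA ν (A ∪ I ∪ I') ≤ (1 + η) * ρ ^ (A ∪ I ∪ I').card := by linarith
  calc yw x q I * yw x q I' * PA ν (A ∪ I ∪ I')
      ≤ yw x q I * yw x q I' * ((1 + η) * ρ ^ (A ∪ I ∪ I').card) :=
        mul_le_mul_of_nonneg_left h3 (mul_nonneg hy hy')
    _ = _ := by ring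

/-! ### The final inequalities -/

/-- lower bound -/
theorem fin_low {E0 E1 B n M η ε lam : ℝ} (hE0 : (1 - η) ≤ E0) (hE1 : E1 ≤ (1 + η) * B)
    (hB : B ≤ n + ε) (hn : 0 ≤ n) (hnM : n ≤ M) (hM : 1 ≤ M) (hη0 : 0 ≤ η) (hη1 : η ≤ 1)
    (hε0 : 0 ≤ ε) (hl0 : 0 ≤ lam) (hl1 : lam ≤ 1) :
    1 - (3 * M * η + 2 * ε) ≤ (1 + lam * n) * E0 - lam * E1 := by
  have h1 : (1 + lam * n) * (1 - η) ≤ (1 + lam * n) * E0 :=
    mul_le_mul_of_nonneg_left hE0 (by positivity)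
  have h2 : lam * E1 ≤ lam * ((1 + η) * (n + ε)) := by
    refine mul_le_mul_of_nonneg_left (hE1.trans ?_) hl0
    exact mul_le_mul_of_nonneg_left hB (by linarith)
  have h3 : lam * (η * n) ≤ M * η := by
    calc lam * (η * n) ≤ 1 * (η * M) :=
          mul_le_mul hl1 (mul_le_mul_of_nonneg_left hnM hη0) (by positivity) zero_le_one
      _ = M * η := by ring
  have h4 : lam * ε ≤ ε := mul_le_of_le_one_left hε0 hl1
  have h5 : lam * (η * ε) ≤ ε := by
    calc lam * (η * ε) ≤ 1 * (1 * ε) :=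
          mul_le_mul hl1 (mul_le_mul_of_nonneg_right hη1 hε0) (by positivity) zero_le_one
      _ = ε := by ring
  have h6 : η ≤ M * η := le_mul_of_one_le_left hη0 hM
  nlinarith

/-- variance -/
theorem fin_var {E0 E1 E2 B n M η ε : ℝ} (hE0 : E0 ≤ 1 + η) (hE1 : (1 - η) * B ≤ E1)
    (hE2 : E2 ≤ (1 + η) * (B ^ 2 + ε)) (hB1 : B ≤ n + ε) (hB2 : n - ε ≤ B) (hB0 : 0 ≤ B)
    (hn : 0 ≤ n) (hnM : n ≤ M) (hM : 1 ≤ M) (hη0 : 0 ≤ η) (hη1 : η ≤ 1)
    (hε0 : 0 ≤ ε) (hε1 : ε ≤ 1) :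
    E2 - 2 * n * E1 + n ^ 2 * E0 ≤ 3 * ε + 9 * M ^ 2 * η := by
  have h1 : 2 * n * ((1 - η) * B) ≤ 2 * n * E1 := mul_le_mul_of_nonneg_left hE1 (by positivity)
  have h2 : n ^ 2 * E0 ≤ n ^ 2 * (1 + η) := mul_le_mul_of_nonneg_left hE0 (by positivity)
  have h3 : (B - n) ^ 2 ≤ ε := by
    have h4 : |B - n| ≤ ε := abs_le.2 ⟨by linarith, by linarith⟩
    calc (B - n) ^ 2 = |B - n| ^ 2 := (sq_abs _).symm
      _ ≤ ε ^ 2 := pow_le_pow_left₀ (abs_nonneg _) h4 2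
      _ ≤ ε := by nlinarith
  have h5 : (B + n) ^ 2 ≤ 9 * M ^ 2 := by
    have h6 : B + n ≤ 3 * M := by linarith
    calc (B + n) ^ 2 ≤ (3 * M) ^ 2 := pow_le_pow_left₀ (by linarith) h6 2
      _ = 9 * M ^ 2 := by ring
  have h7 : η * (B + n) ^ 2 ≤ η * (9 * M ^ 2) := mul_le_mul_of_nonneg_left h5 hη0
  have h8 : η * ε ≤ ε := mul_le_of_le_one_left hε0 hη1
  nlinarith

/-- upper bound -/
theorem fin_up {E0 E1 F B n M η ε lam X : ℝ} (hE0 : E0 ≤ 1 + η) (hE1 : (1 - η) * B ≤ E1)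
    (hF : F ≤ 3 * ε + 9 * M ^ 2 * η) (hB2 : n - ε ≤ B)
    (hn : 0 ≤ n) (hnM : n ≤ M) (hM : 1 ≤ M) (hη0 : 0 ≤ η) (hη1 : η ≤ 1)
    (hε0 : 0 ≤ ε) (hl0 : 0 ≤ lam) (hl1 : lam ≤ 1) (hX : 0 ≤ X) :
    (1 + lam * n) * E0 - lam * E1 + lam ^ 2 / 2 * X * F ≤
      1 + (3 * M * η + 2 * ε) + X * (3 / 2 * ε + 9 / 2 * M ^ 2 * η) := by
  have h1 : (1 + lam * n) * E0 ≤ (1 + lam * n) * (1 + η) := mul_le_mul_of_nonneg_left hE0 (by positivity)
  have h2 : lam * ((1 - η) * (n - ε)) ≤ lam * E1 := by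
    refine mul_le_mul_of_nonneg_left (le_trans ?_ hE1) hl0
    exact mul_le_mul_of_nonneg_left hB2 (by linarith)
  have h3 : lam * (η * n) ≤ M * η := by
    calc lam * (η * n) ≤ 1 * (η * M) :=
          mul_le_mul hl1 (mul_le_mul_of_nonneg_left hnM hη0) (by positivity) zero_le_one
      _ = M * η := by ring
  have h4 : lam * ε ≤ ε := mul_le_of_le_one_left hε0 hl1
  have h5 : 0 ≤ lam * (η * ε) := by positivity
  have h6 : η ≤ M * η := le_mul_of_one_le_left hη0 hM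
  have h7 : lam ^ 2 / 2 * X * F ≤ X * (3 / 2 * ε + 9 / 2 * M ^ 2 * η) := by
    have h8 : lam ^ 2 ≤ 1 := pow_le_one₀ hl0 hl1
    have h9 : 0 ≤ 3 * ε + 9 * M ^ 2 * η := by positivity
    calc lam ^ 2 / 2 * X * F ≤ lam ^ 2 / 2 * X * (3 * ε + 9 * M ^ 2 * η) :=
          mul_le_mul_of_nonneg_left hF (by positivity)
      _ = lam ^ 2 * (X * (3 * ε + 9 * M ^ 2 * η) / 2) := by ring
      _ ≤ 1 * (X * (3 * ε + 9 * M ^ 2 * η) / 2) := mul_le_mul_of_nonneg_right h8 (by positivity)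
      _ = _ := by ring
  nlinarith

/-- comparison of the errors -/
theorem cmp {M X η ε : ℝ} (hM1 : 1 ≤ M) (hX : 1 ≤ X) (hη0 : 0 ≤ η) (hε0 : 0 ≤ ε) :
    3 * M * η + 2 * ε + X * (3 / 2 * ε + 9 / 2 * M ^ 2 * η) ≤ 20 * M ^ 2 * X * (η + ε) := by
  have hMM : M ≤ M ^ 2 := by nlinarith
  have hM2 : 1 ≤ M ^ 2 := hM1.trans hMM
  have hX0 : 0 ≤ X := by linarith
  have d0 : M ^ 2 ≤ M ^ 2 * X := le_mul_of_one_le_right (by positivity) hX
  have d1 : M ≤ M ^ 2 * X := hMM.trans d0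
  have d2 : 1 ≤ M ^ 2 * X := hM2.trans d0
  have d3 : X ≤ M ^ 2 * X := le_mul_of_one_le_left hX0 hM2
  have f1 : M * η ≤ M ^ 2 * X * η := mul_le_mul_of_nonneg_right d1 hη0
  have f2 : 1 * ε ≤ M ^ 2 * X * ε := mul_le_mul_of_nonneg_right d2 hε0
  have f3 : X * ε ≤ M ^ 2 * X * ε := mul_le_mul_of_nonneg_right d3 hε0
  have f4 : 0 ≤ M ^ 2 * X * η := by positivity
  have f5 : 0 ≤ M ^ 2 * X * ε := by positivity
  linarith

end StepMomAux

theorem stepMom [Fintype V] (x : Finset V → ℝ) (s : ℕ) (hs : 1 ≤ s) (δ : ℝ) (hδ : 0 ≤ δ)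
    (hx : Frac x s δ) (ρ q : ℝ) (hq : 1 ≤ q) (hρ : ρ * q = 1)
    (ν : Finset V → ℝ) (hν : ∀ R, 0 ≤ ν R) (m mb : ℕ) (hm : m ≤ mb) (hmb : 1 ≤ mb)
    (η ε lam : ℝ) (hη0 : 0 ≤ η) (hη1 : η ≤ 1) (hlam0 : 0 ≤ lam) (hlam1 : lam ≤ 1)
    (hε : q ^ (3 * s) * (mb : ℝ) ^ 2 * s * δ ≤ ε) (hε1 : ε ≤ 1)
    (hP : ∀ A : Finset V, A.card ≤ m + 2 * s →
      |PA ν A - ρ ^ A.card| ≤ η * ρ ^ A.card)
    (A : Finset V) (hA : A.card ≤ m) :
    |∑ R ∈ (univ : Finset (Finset V)).filter (fun R => A ⊆ R),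
        ν R * Real.exp (-(lam * DA x q A R)) - (ρ * Real.exp (-lam)) ^ A.card| ≤
      20 * (mb : ℝ) ^ 2 * Real.exp mb * (η + ε) * (ρ * Real.exp (-lam)) ^ A.card := by
  have hq0 : 0 < q := by linarith
  have hρ0 : 0 < ρ := by
    by_contra h
    push Not at h
    have := mul_nonpos_of_nonpos_of_nonneg h hq0.le
    linarith
  set n : ℝ := (A.card : ℝ) with hn
  set M : ℝ := (mb : ℝ) with hM
  set B : ℝ := BA x q A with hBdef
  have hn0 : 0 ≤ n := Nat.cast_nonneg _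
  have hnM : n ≤ M := by
    rw [hn, hM]
    exact_mod_cast hA.trans hm
  have hM1 : 1 ≤ M := by
    rw [hM]
    exact_mod_cast hmb
  have hs0 : (0 : ℝ) ≤ s := Nat.cast_nonneg s
  have hε0 : 0 ≤ ε := le_trans (by positivity) hε
  -- the sum `B`
  have hB0 : 0 ≤ B := Finset.sum_nonneg fun I _ => mul_nonneg (hx.nonneg I) (pow_nonneg hq0.le _)
  have hBn : |B - n| ≤ ε := by
    refine (bSum x s hs δ hδ hx q hq A).trans (le_trans ?_ hε)
    have h1 : q ^ s ≤ q ^ (3 * s) := pow_le_pow_right₀ hq (by omega)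
    have h2 : n ^ 2 ≤ M ^ 2 := pow_le_pow_left₀ hn0 hnM 2
    calc q ^ s * s * n ^ 2 * δ = q ^ s * n ^ 2 * s * δ := by ring
      _ ≤ q ^ (3 * s) * M ^ 2 * s * δ := by gcongr
  have hB1 : B ≤ n + ε := by linarith [(abs_le.1 hBn).2]
  have hB2 : n - ε ≤ B := by linarith [(abs_le.1 hBn).1]
  -- moments
  set S := (univ : Finset (Finset V)).filter (fun R => A ⊆ R) with hS
  set r : ℝ := ρ ^ A.card with hr
  have hr0 : 0 < r := pow_pos hρ0 _
  have m0 := abs_le.1 (hP A (by omega))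
  have m1 := abs_le.1 (StepMomAux.first_bd hx hq hρ hP hA)
  have m2 := StepMomAux.second_bd hs hδ hx hq hη0 hρ hP hA
  have hPA : PA ν A = ∑ R ∈ S, ν R := rfl
  rw [hPA] at m0
  set E0 : ℝ := (∑ R ∈ S, ν R) / r with hE0
  set E1 : ℝ := (∑ R ∈ S, ν R * DA x q A R) / r with hE1
  set E2 : ℝ := (∑ R ∈ S, ν R * (DA x q A R) ^ 2) / r with hE2
  have e0 : ∑ R ∈ S, ν R = r * E0 := by rw [hE0]; field_simp
  have e1 : ∑ R ∈ S, ν R * DA x q A R = r * E1 := by rw [hE1]; field_simp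
  have e2 : ∑ R ∈ S, ν R * (DA x q A R) ^ 2 = r * E2 := by rw [hE2]; field_simp
  rw [e0] at m0
  rw [e1] at m1
  rw [e2] at m2
  have a0 : 1 - η ≤ E0 := by
    have h := m0.1
    refine le_of_mul_le_mul_left ?_ hr0
    linarith
  have b0 : E0 ≤ 1 + η := by
    have h := m0.2
    refine le_of_mul_le_mul_left ?_ hr0
    linarith
  have a1 : (1 - η) * B ≤ E1 := by
    have h := m1.1
    refine le_of_mul_le_mul_left ?_ hr0
    linarith
  have b1 : E1 ≤ (1 + η) * B := by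
    have h := m1.2
    refine le_of_mul_le_mul_left ?_ hr0
    linarith
  have b2 : E2 ≤ (1 + η) * (B ^ 2 + ε) := by
    refine le_of_mul_le_mul_left (m2.trans ?_) hr0
    have h2 : n ^ 2 ≤ M ^ 2 := pow_le_pow_left₀ hn0 hnM 2
    have h3 : q ^ (3 * s) * n ^ 2 * s * δ ≤ ε := by
      refine le_trans ?_ hε
      gcongr
    have h4 : (1 + η) * (r * (B ^ 2 + q ^ (3 * s) * n ^ 2 * s * δ)) ≤ (1 + η) * (r * (B ^ 2 + ε)) := by
      gcongr
    linarith
  have hvar := StepMomAux.fin_var b0 a1 b2 hB1 hB2 hB0 hn0 hnM hM1 hη0 hη1 hε0 hε1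
  have hlow := StepMomAux.fin_low a0 b1 hB1 hn0 hnM hM1 hη0 hη1 hε0 hlam0 hlam1
  have hup := StepMomAux.fin_up (X := Real.exp M) b0 a1 hvar hB2 hn0 hnM hM1 hη0 hη1 hε0 hlam0 hlam1
    (Real.exp_pos _).le
  have hD0 : ∀ R, 0 ≤ DA x q A R := fun R =>
    Finset.sum_nonneg fun I _ => StepMomAux.yw_nonneg hx hq I
  set F : ℝ := ∑ R ∈ S, ν R * Real.exp (-(lam * DA x q A R)) with hF
  set X : ℝ := Real.exp (-(lam * n)) with hX
  have hX0 : 0 < X := Real.exp_pos _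
  -- lower bound
  have hF1 : X * r * ((1 + lam * n) * E0 - lam * E1) ≤ F := by
    have h1 : X * r * ((1 + lam * n) * E0 - lam * E1) =
        ∑ R ∈ S, ν R * (X * (1 + -(lam * (DA x q A R - n)))) := by
      have h2 : ∀ R, ν R * (X * (1 + -(lam * (DA x q A R - n)))) =
          X * (1 + lam * n) * ν R - X * lam * (ν R * DA x q A R) := fun R => by ring
      simp_rw [h2]
      rw [Finset.sum_sub_distrib, ← Finset.mul_sum, ← Finset.mul_sum, e0, e1]
      ring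
    rw [h1]
    refine Finset.sum_le_sum fun R _ => mul_le_mul_of_nonneg_left ?_ (hν R)
    have h3 : Real.exp (-(lam * DA x q A R)) = X * Real.exp (-(lam * (DA x q A R - n))) := by
      rw [hX, ← Real.exp_add]
      congr 1
      ring
    rw [h3]
    refine mul_le_mul_of_nonneg_left ?_ hX0.le
    have := Real.add_one_le_exp (-(lam * (DA x q A R - n)))
    linarith
  -- upper bound
  have hF2 : F ≤ X * r * ((1 + lam * n) * E0 - lam * E1 +
      lam ^ 2 / 2 * Real.exp M * (E2 - 2 * n * E1 + n ^ 2 * E0)) := by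
    have h1 : X * r * ((1 + lam * n) * E0 - lam * E1 +
        lam ^ 2 / 2 * Real.exp M * (E2 - 2 * n * E1 + n ^ 2 * E0)) =
        ∑ R ∈ S, ν R * (X * (1 + -(lam * (DA x q A R - n)) +
          (-(lam * (DA x q A R - n))) ^ 2 / 2 * Real.exp M)) := by
      have h2 : ∀ R, ν R * (X * (1 + -(lam * (DA x q A R - n)) +
          (-(lam * (DA x q A R - n))) ^ 2 / 2 * Real.exp M)) =
          X * (1 + lam * n + lam ^ 2 / 2 * Real.exp M * n ^ 2) * ν R
            - X * (lam + lam ^ 2 / 2 * Real.exp M * (2 * n)) * (ν R * DA x q A R)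
            + X * (lam ^ 2 / 2 * Real.exp M) * (ν R * (DA x q A R) ^ 2) := fun R => by ring
      simp_rw [h2]
      rw [Finset.sum_add_distrib, Finset.sum_sub_distrib, ← Finset.mul_sum, ← Finset.mul_sum,
        ← Finset.mul_sum, e0, e1, e2]
      ring
    rw [h1]
    refine Finset.sum_le_sum fun R _ => mul_le_mul_of_nonneg_left ?_ (hν R)
    have h3 : Real.exp (-(lam * DA x q A R)) = X * Real.exp (-(lam * (DA x q A R - n))) := by
      rw [hX, ← Real.exp_add]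
      congr 1
      ring
    rw [h3]
    refine mul_le_mul_of_nonneg_left ?_ hX0.le
    refine StepMomAux.exp_le (by linarith) ?_
    have h4 := mul_nonneg hlam0 (hD0 R)
    have h5 : lam * n ≤ M := (mul_le_of_le_one_left hn0 hlam1).trans hnM
    linarith
  have hpow : (ρ * Real.exp (-lam)) ^ A.card = X * r := by
    rw [mul_pow, ← Real.exp_nat_mul, mul_comm, hX, hr, hn]
    congr 2
    ring
  rw [hpow]
  have hXr : 0 < X * r := mul_pos hX0 hr0
  have hexp : 1 ≤ Real.exp M := Real.one_le_exp (by linarith)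
  -- comparison of the errors
  have c1 : 3 * M * η + 2 * ε + Real.exp M * (3 / 2 * ε + 9 / 2 * M ^ 2 * η) ≤
      20 * M ^ 2 * Real.exp M * (η + ε) := StepMomAux.cmp hM1 hexp hη0 hε0
  have c2 : 3 * M * η + 2 * ε ≤ 20 * M ^ 2 * Real.exp M * (η + ε) := by
    refine le_trans ?_ c1
    have : 0 ≤ Real.exp M * (3 / 2 * ε + 9 / 2 * M ^ 2 * η) := by positivity
    linarith
  rw [abs_le]
  constructor
  · have h1 := mul_le_mul_of_nonneg_left hlow hXr.le
    have h2 := mul_le_mul_of_nonneg_left c2 hXr.le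
    linarith
  · have h1 := mul_le_mul_of_nonneg_left hup hXr.le
    have h2 := mul_le_mul_of_nonneg_left c1 hXr.le
    linarith

end

end Pool.Agent.LHad
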