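import Mathlib
import Pool.Agent.Lib.LHad.Defs
import Pool.Agent.Lib.LHad.Kernel
import Pool.Agent.Lib.LHad.StepMom

/-!
# LHad.StepPMF : one step of the nibble
-/

namespace Pool.Agent.LHad

open Finset

open scoped Classical

noncomputable section

variable {V : Type}

theorem stepPMF [Fintype V] (x : Finset V → ℝ) (s : ℕ) (hs : 1 ≤ s) (δ : ℝ) (hδ : 0 ≤ δ)
    (hx : Frac x s δ) (ρ q : ℝ) (hq : 1 ≤ q) (hρ : ρ * q = 1)
    (ν : Finset V → ℝ) (hν : ∀ R, 0 ≤ ν R) (hν1 : ∑ R, ν R = 1)
    (m mb : ℕ) (hm : m ≤ mb) (hmb : 1 ≤ mb)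
    (η ε lam : ℝ) (hη0 : 0 ≤ η) (hη1 : η ≤ 1) (hlam0 : 0 ≤ lam) (hlam1 : lam ≤ 1)
    (hε : q ^ (3 * s) * (mb : ℝ) ^ 2 * s * δ ≤ ε) (hε1 : ε ≤ 1)
    (hP : ∀ A : Finset V, A.card ≤ m + 2 * s →
      |PA ν A - ρ ^ A.card| ≤ η * ρ ^ A.card) :
    ∃ ν' : Finset V → ℝ, (∀ R, 0 ≤ ν' R) ∧ (∑ R, ν' R = 1) ∧
      (∀ A : Finset V, A.card ≤ m → |PA ν' A - (ρ * Real.exp (-lam)) ^ A.card| ≤
        (20 * (mb : ℝ) ^ 2 * Real.exp mb * (η + ε)) * (ρ * Real.exp (-lam)) ^ A.card) ∧
      (∀ c : Finset V → ℝ, (∀ S I, x I ≠ 0 → c S ≤ c (S \ I) + 1) →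
        ∑ R, ν R * c R ≤ ∑ R, ν' R * c R + lam * (1 + η) * ρ * ∑ I, x I) := by
  have hyw : ∀ I, 0 ≤ yw x q I := fun I => mul_nonneg (hx.nonneg I) (by positivity)
  have hz : ∀ I, 0 ≤ lam * yw x q I := fun I => mul_nonneg hlam0 (hyw I)
  choose κ k1 k2 k3 k4 k5 using fun R : Finset V => kernel R (fun I => lam * yw x q I) hz
  refine ⟨fun R' => ∑ R, ν R * κ R R', ?_, ?_, ?_, ?_⟩
  · intro R'
    exact Finset.sum_nonneg (fun R _ => mul_nonneg (hν R) (k1 R R'))
  · rw [Finset.sum_comm]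
    rw [← hν1]
    refine Finset.sum_congr rfl (fun R _ => ?_)
    rw [← Finset.mul_sum, k3 R, mul_one]
  · intro A hA
    have e1 : PA (fun R' => ∑ R, ν R * κ R R') A =
        ∑ R ∈ (univ : Finset (Finset V)).filter (fun R => A ⊆ R),
          ν R * Real.exp (-(lam * DA x q A R)) := by
      unfold PA
      rw [Finset.sum_comm, Finset.sum_filter]
      refine Finset.sum_congr rfl (fun R _ => ?_)
      rw [← Finset.mul_sum]
      by_cases hAR : A ⊆ R
      · rw [if_pos hAR]
        have h4 := k4 R A hAR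
        unfold PA at h4
        rw [h4]
        unfold DA
        rw [Finset.mul_sum]
      · rw [if_neg hAR]
        have h0 : ∑ R' ∈ (univ : Finset (Finset V)).filter (fun R' => A ⊆ R'), κ R R' = 0 := by
          refine Finset.sum_eq_zero (fun R' hR' => ?_)
          rw [Finset.mem_filter] at hR'
          by_contra hne
          exact hAR (hR'.2.trans (k2 R R' hne))
        rw [h0, mul_zero]
    rw [e1]
    exact stepMom x s hs δ hδ hx ρ q hq hρ ν hν m mb hm hmb η ε lam hη0 hη1 hlam0 hlam1 hε hε1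
      hP A hA
  · intro c hc
    have hρ0 : 0 ≤ ρ := by
      by_contra hneg
      push Not at hneg
      have : ρ * q ≤ 0 := mul_nonpos_of_nonpos_of_nonneg hneg.le (by linarith)
      linarith
    have h1 : ∀ R, ν R * c R ≤ ν R * ∑ R', κ R R' * c R' +
        ν R * ∑ I ∈ (univ : Finset (Finset V)).filter (fun I => I ⊆ R), lam * yw x q I := by
      intro R
      rw [← mul_add]
      refine mul_le_mul_of_nonneg_left ?_ (hν R)
      refine k5 R c (fun S I hI => hc S I ?_)
      intro hxI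
      apply hI
      simp [yw, hxI]
    have h2 : ∑ R, ν R * ∑ R', κ R R' * c R' = ∑ R', (∑ R, ν R * κ R R') * c R' := by
      simp_rw [Finset.mul_sum, Finset.sum_mul]
      rw [Finset.sum_comm]
      refine Finset.sum_congr rfl (fun R' _ => Finset.sum_congr rfl (fun R _ => ?_))
      ring
    have h3 : ∑ R, ν R * ∑ I ∈ (univ : Finset (Finset V)).filter (fun I => I ⊆ R),
        lam * yw x q I = ∑ I, lam * (yw x q I * PA ν I) := by
      have e1 : ∀ R, ν R * ∑ I ∈ (univ : Finset (Finset V)).filter (fun I => I ⊆ R),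
          lam * yw x q I = ∑ I, (if I ⊆ R then ν R * (lam * yw x q I) else 0) := by
        intro R
        rw [Finset.mul_sum, Finset.sum_filter]
      simp_rw [e1]
      rw [Finset.sum_comm]
      refine Finset.sum_congr rfl (fun I _ => ?_)
      rw [← Finset.sum_filter]
      unfold PA
      rw [Finset.mul_sum, Finset.mul_sum]
      refine Finset.sum_congr rfl (fun R _ => ?_)
      ring
    have h4 : ∀ I, lam * (yw x q I * PA ν I) ≤ lam * (1 + η) * ρ * x I := by
      intro I
      by_cases hI : x I = 0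
      · simp [yw, hI]
      · obtain ⟨hne, hcard⟩ := hx.supp I hI
        have h5 := hP I (by omega)
        have h6 : PA ν I ≤ (1 + η) * ρ ^ I.card := by
          have := (abs_le.1 h5).2
          linarith
        have h7 : yw x q I * ρ ^ I.card = ρ * x I := by
          obtain ⟨n, hn⟩ : ∃ n, I.card = n + 1 := ⟨I.card - 1, by
            have := Finset.card_pos.2 hne
            omega⟩
          unfold yw
          rw [hn, Nat.add_sub_cancel, pow_succ]
          have : q ^ n * ρ ^ n = 1 := by rw [← mul_pow, mul_comm q ρ, hρ, one_pow]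
          calc x I * q ^ n * (ρ ^ n * ρ) = x I * (q ^ n * ρ ^ n) * ρ := by ring
            _ = ρ * x I := by rw [this]; ring
        calc lam * (yw x q I * PA ν I) ≤ lam * (yw x q I * ((1 + η) * ρ ^ I.card)) :=
              mul_le_mul_of_nonneg_left (mul_le_mul_of_nonneg_left h6 (hyw I)) hlam0
          _ = lam * (1 + η) * (yw x q I * ρ ^ I.card) := by ring
          _ = lam * (1 + η) * ρ * x I := by rw [h7]; ring
    calc ∑ R, ν R * c R ≤ ∑ R, (ν R * ∑ R', κ R R' * c R' +
          ν R * ∑ I ∈ (univ : Finset (Finset V)).filter (fun I => I ⊆ R), lam * yw x q I) :=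
          Finset.sum_le_sum (fun R _ => h1 R)
      _ = ∑ R', (∑ R, ν R * κ R R') * c R' + ∑ I, lam * (yw x q I * PA ν I) := by
          rw [Finset.sum_add_distrib, h2, h3]
      _ ≤ ∑ R', (∑ R, ν R * κ R R') * c R' + ∑ I, lam * (1 + η) * ρ * x I := by
          have := Finset.sum_le_sum (fun I (_ : I ∈ (univ : Finset (Finset V))) => h4 I)
          linarith
      _ = _ := by rw [← Finset.mul_sum]

end

end Pool.Agent.LHad
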