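import Mathlib
import Pool.Agent.Lib.LHad.Defs
import Pool.Agent.Lib.LHad.StepPMF

/-!
# LHad.Nibble : from a fractional colouring with tiny codegree to a colouring
-/

namespace Pool.Agent.LHad

open Finset

open scoped Classical

noncomputable section

variable {V : Type}

namespace NibbleAux

theorem exp_one_ge : (2.718 : ℝ) ≤ Real.exp 1 := by
  have := Real.exp_one_gt_d9
  linarith

theorem twenty_le : (20 : ℝ) ≤ Real.exp 3 := by
  have h : Real.exp 3 = Real.exp 1 ^ 3 := by rw [← Real.exp_nat_mul]; norm_num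
  rw [h]
  calc (20 : ℝ) ≤ 2.718 ^ 3 := by norm_num
    _ ≤ Real.exp 1 ^ 3 := by gcongr; exact exp_one_ge

theorem hundred_le : (100 : ℝ) ≤ Real.exp 5 := by
  have h : Real.exp 5 = Real.exp 1 ^ 5 := by rw [← Real.exp_nat_mul]; norm_num
  rw [h]
  calc (100 : ℝ) ≤ 2.718 ^ 5 := by norm_num
    _ ≤ Real.exp 1 ^ 5 := by gcongr; exact exp_one_ge

theorem self_le_exp (x : ℝ) : x ≤ Real.exp x := by
  have := Real.add_one_le_exp x
  linarith

theorem num (s L : ℕ) (hs : 1 ≤ s) (hL : 1 ≤ L) (δ : ℝ) (hδ0 : 0 ≤ δ)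
    (hδ : δ ≤ Real.exp (-(60 * s * (L : ℝ) ^ 2))) (mb E ε : ℝ) (hmb : mb = 1 + 2 * s * L)
    (hE : E = 20 * mb ^ 2 * Real.exp mb) (hε : ε = Real.exp (3 * s * L) * mb ^ 2 * s * δ) :
    100 * (E ^ L * ε) ≤ 1 := by
  have hs' : (1 : ℝ) ≤ s := by exact_mod_cast hs
  have hL' : (1 : ℝ) ≤ L := by exact_mod_cast hL
  have hsL : (1 : ℝ) ≤ s * L := by nlinarith
  have hmb1 : 1 ≤ mb := by rw [hmb]; nlinarith
  have hmb3 : mb ≤ 3 * (s * L) := by rw [hmb]; nlinarith
  have hmbsq : mb ^ 2 ≤ Real.exp (2 * mb) := by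
    have h1 : Real.exp (2 * mb) = Real.exp mb ^ 2 := by
      rw [← Real.exp_nat_mul]; norm_num
    rw [h1]
    exact pow_le_pow_left₀ (by linarith) (self_le_exp mb) 2
  have hE1 : E ≤ Real.exp (6 * mb) := by
    calc E = 20 * mb ^ 2 * Real.exp mb := hE
      _ ≤ Real.exp 3 * Real.exp (2 * mb) * Real.exp mb := by
          gcongr
          exact twenty_le
      _ = Real.exp (3 + 2 * mb + mb) := by rw [Real.exp_add, Real.exp_add]
      _ ≤ Real.exp (6 * mb) := Real.exp_le_exp.2 (by linarith)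
  have hE0 : 0 ≤ E := by rw [hE]; positivity
  have hEL : E ^ L ≤ Real.exp (L * (6 * mb)) := by
    rw [Real.exp_nat_mul]
    exact pow_le_pow_left₀ hE0 hE1 L
  have hε1 : ε ≤ Real.exp (3 * s * L + 2 * mb + s) * Real.exp (-(60 * s * (L : ℝ) ^ 2)) := by
    rw [hε, Real.exp_add, Real.exp_add]
    have : (s : ℝ) ≤ Real.exp s := self_le_exp _
    gcongr
  have hε0 : 0 ≤ ε := by rw [hε]; positivity
  calc 100 * (E ^ L * ε) ≤ Real.exp 5 * (Real.exp (L * (6 * mb)) *
        (Real.exp (3 * s * L + 2 * mb + s) * Real.exp (-(60 * s * (L : ℝ) ^ 2)))) := by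
        have := hundred_le
        gcongr
    _ = Real.exp (5 + (L * (6 * mb) + ((3 * s * L + 2 * mb + s) + -(60 * s * (L : ℝ) ^ 2)))) := by
        rw [← Real.exp_add, ← Real.exp_add, ← Real.exp_add]
    _ ≤ Real.exp 0 := by
        apply Real.exp_le_exp.2
        have h1 : (s : ℝ) * L ≤ s * L ^ 2 := by nlinarith
        have h2 : (L : ℝ) * (6 * mb) ≤ 18 * (s * L ^ 2) := by nlinarith
        have h3 : (s : ℝ) ≤ s * L := by nlinarith
        nlinarith
    _ = 1 := Real.exp_zero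

/-- chromatic number of an induced subgraph -/
def cn (G : SimpleGraph V) (S : Finset V) : ℕ :=
  sInf {n : ℕ | (G.induce (S : Set V)).Colorable n}

theorem colorable_card (G : SimpleGraph V) (S : Finset V) :
    (G.induce (S : Set V)).Colorable S.card := by
  have h := (G.induce (S : Set V)).selfColoring.colorable
  have e : Fintype.card (S : Set V) = S.card := by simp
  rwa [e] at h

theorem cn_spec (G : SimpleGraph V) (S : Finset V) :
    (G.induce (S : Set V)).Colorable (cn G S) :=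
  Nat.sInf_mem (s := {n : ℕ | (G.induce (S : Set V)).Colorable n}) ⟨_, colorable_card G S⟩

theorem cn_le_card (G : SimpleGraph V) (S : Finset V) : cn G S ≤ S.card :=
  Nat.sInf_le (colorable_card G S)

theorem cn_sdiff (G : SimpleGraph V) (S I : Finset V) (hI : GS G I) :
    cn G S ≤ cn G (S \ I) + 1 := by
  apply Nat.sInf_le
  change (G.induce (S : Set V)).Colorable (cn G (S \ I) + 1)
  obtain ⟨C⟩ := cn_spec G (S \ I)
  refine ⟨SimpleGraph.Coloring.mk (fun v => if h : v.1 ∈ I then Fin.last _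
    else (C ⟨v.1, by
      rw [Finset.mem_coe, Finset.mem_sdiff]
      exact ⟨v.2, h⟩⟩).castSucc) ?_⟩
  intro u v huv
  have huv' : G.Adj u.1 v.1 := huv
  by_cases hu : u.1 ∈ I <;> by_cases hv : v.1 ∈ I
  · exact absurd huv' (hI _ hu _ hv)
  · simp only [dif_pos hu, dif_neg hv]
    exact (Fin.castSucc_lt_last _).ne'
  · simp only [dif_neg hu, dif_pos hv]
    exact (Fin.castSucc_lt_last _).ne
  · simp only [dif_neg hu, dif_neg hv]
    intro h
    have h' := Fin.castSucc_injective _ h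
    refine C.valid ?_ h'
    exact huv'

theorem cn_univ [Fintype V] (G : SimpleGraph V) : G.Colorable (cn G univ) := by
  obtain ⟨C⟩ := cn_spec G (univ : Finset V)
  refine ⟨SimpleGraph.Coloring.mk (fun v => C ⟨v, by simp⟩) ?_⟩
  intro u v huv
  exact C.valid (show (G.induce ((univ : Finset V) : Set V)).Adj ⟨u, _⟩ ⟨v, _⟩ from huv)

/-- the iterated nibble -/
theorem iter [Fintype V] (s L : ℕ) (hs : 1 ≤ s) (hL : 1 ≤ L) (δ : ℝ) (hδ0 : 0 ≤ δ)
    (x : Finset V → ℝ) (hx : Frac x s δ) (r E ε : ℝ)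
    (hr : r = Real.exp (-(1 / 20)))
    (hE : E = 20 * (((1 + 2 * s * L : ℕ) : ℝ)) ^ 2 * Real.exp ((1 + 2 * s * L : ℕ) : ℝ))
    (hε : ε = Real.exp (3 * s * L) * (((1 + 2 * s * L : ℕ) : ℝ)) ^ 2 * s * δ)
    (hE2 : 2 ≤ E) (hsmall : 100 * (E ^ L * ε) ≤ 1) (i : ℕ) (hi : i ≤ L) :
    ∃ ν : Finset V → ℝ, (∀ R, 0 ≤ ν R) ∧ ∑ R, ν R = 1 ∧
      (∀ A : Finset V, A.card ≤ 1 + 2 * s * (L - i) →
        |PA ν A - (r ^ i) ^ A.card| ≤ (2 * (E ^ i - 1) * ε) * (r ^ i) ^ A.card) ∧
      (∀ c : Finset V → ℝ, (∀ S I, x I ≠ 0 → c S ≤ c (S \ I) + 1) →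
        c univ ≤ ∑ R, ν R * c R + (51 / 50) * (1 / 20) * (∑ j ∈ range i, r ^ j) * ∑ I, x I) := by
  have hε0 : 0 ≤ ε := by rw [hε]; positivity
  have hr0 : 0 < r := by rw [hr]; exact Real.exp_pos _
  have hx0 : 0 ≤ ∑ I, x I := Finset.sum_nonneg (fun I _ => hx.nonneg I)
  induction i with
  | zero =>
    refine ⟨fun R => if R = univ then 1 else 0, ?_, ?_, ?_, ?_⟩
    · intro R
      dsimp only
      split_ifs <;> norm_num
    · simp
    · intro A _
      have : PA (fun R : Finset V => if R = univ then (1 : ℝ) else 0) A = 1 := by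
        unfold PA
        rw [Finset.sum_ite_eq']
        rw [if_pos]
        rw [Finset.mem_filter]
        exact ⟨Finset.mem_univ _, Finset.subset_univ _⟩
      rw [this]
      simp
    · intro c _
      simp
  | succ i ih =>
    obtain ⟨ν, h1, h2, h3, h4⟩ := ih (by omega)
    have hEi : E ^ i ≤ E ^ L := pow_le_pow_right₀ (by linarith) (by omega)
    have hEi1 : 1 ≤ E ^ i := one_le_pow₀ (by linarith)
    have hη0 : 0 ≤ 2 * (E ^ i - 1) * ε := by
      have : 0 ≤ E ^ i - 1 := by linarith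
      positivity
    have hEε : E ^ i * ε ≤ E ^ L * ε := mul_le_mul_of_nonneg_right hEi hε0
    have hη1 : 2 * (E ^ i - 1) * ε ≤ 1 / 50 := by nlinarith
    have hε1 : ε ≤ 1 := by nlinarith
    have hq : Real.exp (1 / 20) ^ i = Real.exp (i * (1 / 20)) := by rw [Real.exp_nat_mul]
    have hrq : r * Real.exp (1 / 20) = 1 := by
      rw [hr, ← Real.exp_add]
      norm_num
    obtain ⟨ν', g1, g2, g3, g4⟩ := stepPMF x s hs δ hδ0 hx (r ^ i) (Real.exp (1 / 20) ^ i)
      (one_le_pow₀ (Real.one_le_exp (by norm_num)))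
      (by rw [← mul_pow, hrq, one_pow]) ν h1 h2
      (1 + 2 * s * (L - (i + 1))) (1 + 2 * s * L)
      (by
        have : 2 * s * (L - (i + 1)) ≤ 2 * s * L := Nat.mul_le_mul_left _ (by omega)
        omega) (by omega)
      (2 * (E ^ i - 1) * ε) ε (1 / 20) hη0 (by linarith) (by norm_num) (by norm_num)
      (by
        rw [hε]
        have h5 : (Real.exp (1 / 20) ^ i) ^ (3 * s) ≤ Real.exp (3 * s * L) := by
          rw [← pow_mul, ← Real.exp_nat_mul]
          apply Real.exp_le_exp.2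
          have h6 : (i : ℝ) ≤ L := by exact_mod_cast (by omega : i ≤ L)
          have h7 : (0 : ℝ) ≤ 3 * s := by positivity
          push_cast
          have h8 : (0 : ℝ) ≤ i := by positivity
          nlinarith [mul_le_mul_of_nonneg_left h6 h7, mul_nonneg h7 h8]
        gcongr) hε1
      (by
        intro A hA
        apply h3 A
        refine hA.trans ?_
        have : L - i = (L - (i + 1)) + 1 := by omega
        rw [this]
        ring_nf
        omega)
    refine ⟨ν', g1, g2, ?_, ?_⟩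
    · intro A hA
      have h5 := g3 A hA
      rw [← hr] at h5
      rw [pow_succ r i]
      refine h5.trans ?_
      refine mul_le_mul_of_nonneg_right ?_ (by positivity)
      rw [← hE]
      have h6 : E * (2 * (E ^ i - 1) * ε + ε) = 2 * E ^ (i + 1) * ε - E * ε := by ring
      rw [h6]
      nlinarith
    · intro c hc
      have h5 := h4 c hc
      have h6 := g4 c hc
      rw [Finset.sum_range_succ]
      have h7 : 1 / 20 * (1 + 2 * (E ^ i - 1) * ε) * r ^ i * ∑ I, x I ≤
          (51 / 50) * (1 / 20) * r ^ i * ∑ I, x I := by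
        have : 0 ≤ r ^ i * ∑ I, x I := by positivity
        nlinarith
      have h8 : (51 / 50 : ℝ) * (1 / 20) * (∑ j ∈ range i, r ^ j + r ^ i) * ∑ I, x I =
          (51 / 50) * (1 / 20) * (∑ j ∈ range i, r ^ j) * ∑ I, x I +
          (51 / 50) * (1 / 20) * r ^ i * ∑ I, x I := by ring
      rw [h8]
      linarith

theorem geo (L : ℕ) (r : ℝ) (hr : r = Real.exp (-(1 / 20))) :
    (1 / 20) * (∑ j ∈ range L, r ^ j) ≤ 1 / (1 - 1 / 40) := by
  have hr0 : 0 < r := by rw [hr]; exact Real.exp_pos _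
  have h1 : r ≤ 800 / 841 := by
    have h2 : (841 / 800 : ℝ) ≤ Real.exp (1 / 20) := by
      have := Real.quadratic_le_exp_of_nonneg (x := 1 / 20) (by norm_num)
      norm_num at this ⊢
      linarith
    rw [hr, Real.exp_neg]
    rw [inv_le_comm₀ (Real.exp_pos _) (by norm_num)]
    norm_num at h2 ⊢
    linarith
  have h3 : ∑ j ∈ range L, r ^ j ≤ 1 / (1 - r) := by
    have h4 : (∑ j ∈ range L, r ^ j) * (1 - r) = 1 - r ^ L := by
      have := geom_sum_mul_neg r L
      exact this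
    rw [le_div_iff₀ (by linarith), h4]
    have : 0 ≤ r ^ L := by positivity
    linarith
  have h5 : 1 / (1 - r) ≤ 841 / 41 := by
    rw [div_le_div_iff₀ (by linarith) (by norm_num)]
    linarith
  calc (1 / 20) * (∑ j ∈ range L, r ^ j) ≤ (1 / 20) * (841 / 41) := by
        have := h3.trans h5
        linarith
    _ ≤ 1 / (1 - 1 / 40) := by norm_num

end NibbleAux

open NibbleAux in
theorem nibble [Fintype V] (G : SimpleGraph V) (s L : ℕ) (hs : 1 ≤ s) (hL : 1 ≤ L) (δ X : ℝ)
    (x : Finset V → ℝ) (hx : Frac x s δ) (hG : ∀ S, x S ≠ 0 → GS G S) (hX : ∑ S, x S ≤ X)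
    (hδ : δ ≤ Real.exp (-(60 * s * (L : ℝ) ^ 2))) :
    ∃ k : ℕ, G.Colorable k ∧
      (k : ℝ) ≤ (51 / 50) * (X / (1 - 1 / 40) +
        (Fintype.card V : ℝ) * Real.exp (-((L : ℝ) / 20))) := by
  refine ⟨cn G univ, cn_univ G, ?_⟩
  have hx' : Frac x s (max δ 0) :=
    ⟨hx.nonneg, hx.supp, hx.cov, fun u v huv => (hx.cod u v huv).trans (le_max_left _ _)⟩
  have hδ' : max δ 0 ≤ Real.exp (-(60 * s * (L : ℝ) ^ 2)) := max_le hδ (Real.exp_pos _).le
  set mb : ℝ := ((1 + 2 * s * L : ℕ) : ℝ) with hmb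
  set E : ℝ := 20 * mb ^ 2 * Real.exp mb with hE
  set ε : ℝ := Real.exp (3 * s * L) * mb ^ 2 * s * max δ 0 with hε
  have hmb1 : 1 ≤ mb := by
    rw [hmb]
    exact_mod_cast (by omega : 1 ≤ 1 + 2 * s * L)
  have hE2 : 2 ≤ E := by
    have h1 : 1 ≤ mb ^ 2 := one_le_pow₀ hmb1
    have h2 : 1 ≤ Real.exp mb := Real.one_le_exp (by linarith)
    rw [hE]
    nlinarith
  have hsmall : 100 * (E ^ L * ε) ≤ 1 :=
    num s L hs hL (max δ 0) (le_max_right _ _) hδ' mb E ε (by rw [hmb]; push_cast; ring) hE hε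
  have hε0 : 0 ≤ ε := by
    have : 0 ≤ max δ 0 := le_max_right _ _
    rw [hε]; positivity
  obtain ⟨ν, h1, h2, h3, h4⟩ := iter s L hs hL (max δ 0) (le_max_right _ _) x hx'
    (Real.exp (-(1 / 20))) E ε rfl hE hε hE2 hsmall L le_rfl
  have h5 := h4 (fun S => (cn G S : ℝ)) (by
    intro S I hI
    have := cn_sdiff G S I (hG I hI)
    exact_mod_cast this)
  have hx0 : 0 ≤ ∑ I, x I := Finset.sum_nonneg (fun I _ => hx.nonneg I)
  have hηL : 2 * (E ^ L - 1) * ε ≤ 1 / 50 := by nlinarith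
  have h6 : ∑ R, ν R * (cn G R : ℝ) ≤
      (Fintype.card V : ℝ) * ((51 / 50) * Real.exp (-((L : ℝ) / 20))) := by
    calc ∑ R, ν R * (cn G R : ℝ) ≤ ∑ R, ν R * (R.card : ℝ) := by
          refine Finset.sum_le_sum (fun R _ => ?_)
          refine mul_le_mul_of_nonneg_left ?_ (h1 R)
          exact_mod_cast cn_le_card G R
      _ = ∑ R, ∑ v : V, (if v ∈ R then ν R else 0) := by
          refine Finset.sum_congr rfl (fun R _ => ?_)
          rw [Finset.sum_ite_mem, Finset.univ_inter, Finset.sum_const, nsmul_eq_mul, mul_comm]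
      _ = ∑ v : V, PA ν {v} := by
          rw [Finset.sum_comm]
          refine Finset.sum_congr rfl (fun v _ => ?_)
          unfold PA
          rw [Finset.sum_filter]
          refine Finset.sum_congr rfl (fun R _ => ?_)
          simp only [Finset.singleton_subset_iff]
      _ ≤ ∑ v : V, (51 / 50) * Real.exp (-((L : ℝ) / 20)) := by
          refine Finset.sum_le_sum (fun v _ => ?_)
          have h7 := h3 {v} (by simp)
          rw [Finset.card_singleton, pow_one] at h7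
          have h8 : Real.exp (-(1 / 20)) ^ L = Real.exp (-((L : ℝ) / 20)) := by
            rw [← Real.exp_nat_mul]
            congr 1
            ring
          rw [h8] at h7
          have h9 := (abs_le.1 h7).2
          have h10 : 0 < Real.exp (-((L : ℝ) / 20)) := Real.exp_pos _
          nlinarith
      _ = _ := by simp
  have h7 := geo L _ rfl
  have h8 : (51 / 50 : ℝ) * (1 / 20) * (∑ j ∈ range L, Real.exp (-(1 / 20)) ^ j) * ∑ I, x I ≤
      (51 / 50) * (X / (1 - 1 / 40)) := by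
    have h9 : (1 / 20 : ℝ) * (∑ j ∈ range L, Real.exp (-(1 / 20)) ^ j) * ∑ I, x I ≤
        1 / (1 - 1 / 40) * X := by
      refine mul_le_mul h7 hX hx0 (by norm_num)
    have h10 : X / (1 - 1 / 40) = 1 / (1 - 1 / 40) * X := by ring
    rw [h10]
    linarith
  linarith

end

end Pool.Agent.LHad
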