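import Mathlib
import Pool.Agent.Lib.LHad.Defs
import Pool.Agent.Lib.LHad.FracCol
import Pool.Agent.Lib.LHad.Nibble

/-!
# LHad.Small : linear Hadwiger for small graphs

`fracCol`, `nibble` are black boxes.
Proof. `s = 22K`, `y = ln(20K) ≥ ln 20 > 2.99`, `L = ⌈20 y⌉₊` (`59 ≤ 20 y ≤ L ≤ 20 y + 1 ≤ 20.5 y`), `M = ⌈exp(60 s L²)⌉₊` (`exp(60 s L²) ≤ M ≤ 2 exp(60 s L²)`).
`10^31 K^9 M² ≤ 4·10^31 K^9 exp(120 s L²)`; `120 s L² ≤ 120·22·K·(20.5 y)² ≤ 1.11·10^6 K y²`; `4·10^31 ≤ exp(73) `, `K^9 ≤ exp(9K)`; total `≤ exp(1.11·10^6 K y² + 73 + 9K) ≤ exp(2·10^6 K y²) ≤ t`.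
`fracCol` gives `x` with `δ = 1/M ≤ exp(-60 s L²)`, `X = 4.7 t`; `nibble` gives `k` with
`k ≤ 1.02 (4.7 t / 0.975 + K t exp(-L/20)) ≤ 1.02 (4.8206 t + K t / (20 K)) = 1.02 · 4.8706 t < 5 t`.  (`exp(-L/20) ≤ exp(-y) = 1/(20K)`.)
`Colorable.mono`.
-/

namespace Pool.Agent.LHad

open Finset

open scoped Classical

noncomputable section

variable {V : Type}

theorem small [Fintype V] (G : SimpleGraph V) (K t : ℕ) (hK : 1 ≤ K)
    (ht : Real.exp (2 * 10 ^ 6 * K * (Real.log (20 * K)) ^ 2) ≤ t)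
    (hn : Fintype.card V ≤ K * t) (hKM : ¬ KM G t) : G.Colorable (5 * t) := by
  have hK1 : (1 : ℝ) ≤ K := by exact_mod_cast hK
  have hK0 : (0 : ℝ) < K := by linarith
  obtain ⟨y, hy⟩ : ∃ y : ℝ, y = Real.log (20 * K) := ⟨_, rfl⟩
  rw [← hy] at ht
  have hy2 : 2 ≤ y := by
    rw [hy, Real.le_log_iff_exp_le (by positivity)]
    have h1 : Real.exp 2 = Real.exp 1 * Real.exp 1 := by
      rw [← Real.exp_add]; norm_num
    have h2 := Real.exp_one_lt_d9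
    have h3 := Real.exp_pos 1
    rw [h1]
    nlinarith
  have hey : Real.exp (-y) = 1 / (20 * K) := by
    rw [Real.exp_neg, hy, Real.exp_log (by positivity), one_div]
  obtain ⟨L, hL⟩ : ∃ L : ℕ, L = ⌈20 * y⌉₊ := ⟨_, rfl⟩
  have hL1 : 20 * y ≤ (L : ℝ) := by rw [hL]; exact Nat.le_ceil _
  have hL2 : (L : ℝ) ≤ (205 / 10) * y := by
    have := Nat.ceil_lt_add_one (show (0 : ℝ) ≤ 20 * y by linarith)
    rw [← hL] at this
    linarith
  have hLpos : 1 ≤ L := by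
    have h1 : (1 : ℝ) ≤ L := by linarith
    exact_mod_cast h1
  obtain ⟨E, hE⟩ : ∃ E : ℝ, E = 60 * (22 * K) * (L : ℝ) ^ 2 := ⟨_, rfl⟩
  have hE0 : 0 ≤ E := by rw [hE]; positivity
  obtain ⟨M, hM⟩ : ∃ M : ℕ, M = ⌈Real.exp E⌉₊ := ⟨_, rfl⟩
  have hM1 : Real.exp E ≤ (M : ℝ) := by rw [hM]; exact Nat.le_ceil _
  have hexp1 : 1 ≤ Real.exp E := Real.one_le_exp hE0
  have hM2 : (M : ℝ) ≤ 2 * Real.exp E := by
    have := Nat.ceil_lt_add_one (Real.exp_pos E).le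
    rw [← hM] at this
    linarith
  have hMpos : 1 ≤ M := by
    have h1 : (1 : ℝ) ≤ M := by linarith
    exact_mod_cast h1
  have hM0 : (0 : ℝ) < M := by linarith
  -- the size condition
  have hL3 : (L : ℝ) ^ 2 ≤ (42025 / 100) * y ^ 2 := by
    have h0 : (0 : ℝ) ≤ L := Nat.cast_nonneg _
    nlinarith
  have hbig : (10 : ℝ) ^ 31 * K ^ 9 * M ^ 2 ≤ t := by
    refine le_trans ?_ ht
    have hK9 : (K : ℝ) ^ 9 ≤ Real.exp (9 * K) := by
      have h1 : (K : ℝ) ≤ Real.exp K := by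
        have := Real.add_one_le_exp (K : ℝ)
        linarith
      have h2 : Real.exp (9 * (K : ℝ)) = (Real.exp K) ^ 9 := by
        rw [← Real.exp_nat_mul]; norm_num
      rw [h2]
      exact pow_le_pow_left₀ hK0.le h1 9
    have hM3 : (M : ℝ) ^ 2 ≤ 4 * Real.exp (2 * E) := by
      have h2 : Real.exp (2 * E) = (Real.exp E) ^ 2 := by
        rw [← Real.exp_nat_mul]; norm_num
      rw [h2]
      have := pow_le_pow_left₀ hM0.le hM2 2
      nlinarith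
    have h105 : (4 : ℝ) * 10 ^ 31 ≤ Real.exp 105 := by
      have h1 : (2 : ℝ) ≤ Real.exp 1 := by
        have := Real.add_one_le_exp (1 : ℝ)
        linarith
      have h2 : Real.exp 105 = (Real.exp 1) ^ 105 := by
        rw [← Real.exp_nat_mul]; norm_num
      rw [h2]
      refine le_trans ?_ (pow_le_pow_left₀ (by norm_num) h1 105)
      norm_num
    have hlin : 105 + 9 * (K : ℝ) + 2 * E ≤ 2 * 10 ^ 6 * K * y ^ 2 := by
      have hy4 : 4 ≤ y ^ 2 := by nlinarith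
      have h1 : (K : ℝ) * (L : ℝ) ^ 2 ≤ K * ((42025 / 100) * y ^ 2) :=
        mul_le_mul_of_nonneg_left hL3 hK0.le
      have h2 : (K : ℝ) * 4 ≤ K * y ^ 2 := mul_le_mul_of_nonneg_left hy4 hK0.le
      have h3 : 2 * E = 2640 * (K * (L : ℝ) ^ 2) := by rw [hE]; ring
      rw [h3]
      have h4 : 2 * 10 ^ 6 * (K : ℝ) * y ^ 2 = 2 * 10 ^ 6 * (K * y ^ 2) := by ring
      rw [h4]
      have h5 : (K : ℝ) * ((42025 / 100) * y ^ 2) = (42025 / 100) * (K * y ^ 2) := by ring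
      rw [h5] at h1
      linarith
    calc (10 : ℝ) ^ 31 * K ^ 9 * M ^ 2
        ≤ 10 ^ 31 * Real.exp (9 * K) * (4 * Real.exp (2 * E)) := by
          refine mul_le_mul (mul_le_mul_of_nonneg_left hK9 (by positivity)) hM3 (by positivity)
            (by positivity)
      _ = (4 * 10 ^ 31) * (Real.exp (9 * K) * Real.exp (2 * E)) := by ring
      _ ≤ Real.exp 105 * (Real.exp (9 * K) * Real.exp (2 * E)) :=
          mul_le_mul_of_nonneg_right h105 (by positivity)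
      _ = Real.exp (105 + 9 * K + 2 * E) := by
          rw [Real.exp_add, Real.exp_add]; ring
      _ ≤ _ := Real.exp_le_exp.2 hlin
  have hbig' : 10 ^ 31 * K ^ 9 * M ^ 2 ≤ t := by exact_mod_cast hbig
  obtain ⟨x, hx, hxG, hxs⟩ := fracCol G K t M hK hMpos hbig' hn hKM
  have hs : 1 ≤ 22 * K := by omega
  have hδ : (1 : ℝ) / M ≤ Real.exp (-(60 * ((22 * K : ℕ) : ℝ) * (L : ℝ) ^ 2)) := by
    have h1 : (60 * ((22 * K : ℕ) : ℝ) * (L : ℝ) ^ 2) = E := by rw [hE]; push_cast; ring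
    rw [h1, Real.exp_neg, one_div]
    exact inv_anti₀ (Real.exp_pos E) hM1
  obtain ⟨k, hk, hk2⟩ := nibble G (22 * K) L hs hLpos (1 / M) ((47 / 10) * t) x hx hxG hxs hδ
  refine hk.mono ?_
  have ht0 : (0 : ℝ) ≤ t := Nat.cast_nonneg _
  have hcard : (Fintype.card V : ℝ) * Real.exp (-((L : ℝ) / 20)) ≤ t / 20 := by
    have h1 : (Fintype.card V : ℝ) ≤ K * t := by exact_mod_cast hn
    have h2 : Real.exp (-((L : ℝ) / 20)) ≤ 1 / (20 * K) := by
      rw [← hey]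
      exact Real.exp_le_exp.2 (by linarith)
    calc (Fintype.card V : ℝ) * Real.exp (-((L : ℝ) / 20))
        ≤ (K * t) * (1 / (20 * K)) :=
          mul_le_mul h1 h2 (Real.exp_pos _).le (by positivity)
      _ = t / 20 := by field_simp
  have hfin : (k : ℝ) ≤ ((5 * t : ℕ) : ℝ) := by
    push_cast
    have h3 : (47 / 10 : ℝ) * t / (1 - 1 / 40) = (188 / 39) * t := by ring
    rw [h3] at hk2
    nlinarith
  exact_mod_cast hfin

end

end Pool.Agent.LHad
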