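import Mathlib
import Pool.Agent.Lib.LHad.Defs
import Pool.Agent.Lib.LHad.KT
import Pool.Agent.Lib.LHad.Small
import Pool.Agent.Lib.LHad.QuotKM

/-!
# LHad.LocalT : the local theorem

`kt`, `small`, `indKM` are black boxes.
Common part. Let `G` have no `K_{t+1}` minor, `t ≥ 1`, `T = t + 1`, `l ≥ 4` with `4 T² ≤ 2^(l²)`.  `kt` gives `v` with degree `< 450 l T`; so `N[v] = insert v (G.neighborSet v)` has at most `450 l T` elements; `K = 450 l`.
(a) trivial bound: `G[N[v]]` is `450 l T`-colourable, `450 l T ≤ 900 l t`.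
(b) if `exp(2·10^6 K (ln(20K))²) ≤ T`: `small` applied to `G.induce N[v]` (no `K_T` minor by `indKM`, at most `K T` vertices): `5T = 5t + 5 ≤ 10 t` colours; and `5t + 5 ≤ 6 t` if `t ≥ 5`.
-/

namespace Pool.Agent.LHad

open Finset

open scoped Classical

noncomputable section

variable {V : Type}

private theorem coreT (t l : ℕ) (_ht : 1 ≤ t) (hl : 4 ≤ l)
    (h4 : 4 * (t + 1) ^ 2 ≤ 2 ^ (l ^ 2)) (V : Type) [Fintype V] [Nonempty V]
    (G : SimpleGraph V) (hKM : ¬ KM G (t + 1)) :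
    ∃ v : V, (G.induce (insert v (G.neighborSet v))).Colorable (450 * l * (t + 1)) ∧
      (Real.exp (2 * 10 ^ 6 * ((450 * l : ℕ) : ℝ) * (Real.log (20 * ((450 * l : ℕ) : ℝ))) ^ 2)
          ≤ ((t + 1 : ℕ) : ℝ) →
        (G.induce (insert v (G.neighborSet v))).Colorable (5 * (t + 1))) := by
  obtain ⟨v, hv⟩ := kt G (t + 1) l (by omega) hl h4 hKM
  have hcard : Fintype.card ↥(insert v (G.neighborSet v)) ≤ 450 * l * (t + 1) := by
    have h1 : Fintype.card ↥(insert v (G.neighborSet v))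
        ≤ (insert v (univ.filter (fun u => G.Adj v u))).card := by
      rw [← Set.toFinset_card]
      refine Finset.card_le_card ?_
      intro x hx
      rw [Set.mem_toFinset, Set.mem_insert_iff] at hx
      rw [Finset.mem_insert, Finset.mem_filter]
      rcases hx with hx | hx
      · exact Or.inl hx
      · exact Or.inr ⟨Finset.mem_univ _, hx⟩
    have h2 := Finset.card_insert_le v (univ.filter (fun u => G.Adj v u))
    omega
  refine ⟨v, ?_, ?_⟩
  · exact (SimpleGraph.colorable_of_fintype _).mono hcard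
  · intro hexp
    refine small (G.induce (insert v (G.neighborSet v))) (450 * l) (t + 1) (by omega) hexp hcard ?_
    intro hk
    exact hKM (indKM G _ _ hk)

private theorem growthT (l : ℕ) (hl : 10 ^ 24 ≤ l) :
    9 * 10 ^ 8 * (l : ℝ) * (Real.log (9000 * (l : ℝ))) ^ 2 ≤ (l : ℝ) ^ 2 / 4 := by
  have hlR : (10 : ℝ) ^ 24 ≤ (l : ℝ) := by exact_mod_cast hl
  have hl0 : (0 : ℝ) < l := lt_of_lt_of_le (by norm_num) hlR
  set r : ℝ := Real.sqrt (Real.sqrt l) with hr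
  have hr2 : r ^ 2 = Real.sqrt l := Real.sq_sqrt (Real.sqrt_nonneg _)
  have hs2 : Real.sqrt (l : ℝ) ^ 2 = l := Real.sq_sqrt hl0.le
  have hr4 : r ^ 4 = (l : ℝ) := by
    calc r ^ 4 = (r ^ 2) ^ 2 := by ring
      _ = (l : ℝ) := by rw [hr2, hs2]
  have hs12 : (10 : ℝ) ^ 12 ≤ Real.sqrt l := by
    apply Real.le_sqrt_of_sq_le
    calc ((10 : ℝ) ^ 12) ^ 2 = (10 : ℝ) ^ 24 := by norm_num
      _ ≤ (l : ℝ) := hlR
  have hr6 : (10 : ℝ) ^ 6 ≤ r := by
    apply Real.le_sqrt_of_sq_le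
    calc ((10 : ℝ) ^ 6) ^ 2 = 10 ^ 12 := by norm_num
      _ ≤ _ := hs12
  have hr0 : 0 < r := lt_of_lt_of_le (by norm_num) hr6
  have hlog : Real.log (9000 * (l : ℝ)) ≤ 5 * r := by
    rw [Real.log_mul (by norm_num) hl0.ne']
    have h1 : Real.log (9000 : ℝ) ≤ 9000 - 1 := Real.log_le_sub_one_of_pos (by norm_num)
    have h2 : Real.log (l : ℝ) = 4 * Real.log r := by
      rw [← hr4, Real.log_pow]
      norm_num
    have h3 : Real.log r ≤ r - 1 := Real.log_le_sub_one_of_pos hr0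
    rw [h2]
    have : (9000 : ℝ) ≤ r := le_trans (by norm_num) hr6
    linarith
  have hlog0 : 0 ≤ Real.log (9000 * (l : ℝ)) := by
    apply Real.log_nonneg
    nlinarith
  have hsq : (Real.log (9000 * (l : ℝ))) ^ 2 ≤ 25 * Real.sqrt l := by
    calc (Real.log (9000 * (l : ℝ))) ^ 2 ≤ (5 * r) ^ 2 := by
          exact pow_le_pow_left₀ hlog0 hlog 2
      _ = 25 * Real.sqrt l := by rw [mul_pow, hr2]; norm_num
  have hmain : 9 * 10 ^ 8 * (25 * Real.sqrt (l : ℝ)) ≤ (l : ℝ) / 4 := by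
    have : (l : ℝ) = Real.sqrt l * Real.sqrt l := (Real.mul_self_sqrt hl0.le).symm
    have h5 : 10 ^ 12 * Real.sqrt (l : ℝ) ≤ Real.sqrt l * Real.sqrt l :=
      mul_le_mul_of_nonneg_right hs12 (Real.sqrt_nonneg _)
    have h6 : 0 ≤ Real.sqrt (l : ℝ) := Real.sqrt_nonneg _
    rw [this.symm] at h5
    linarith
  calc 9 * 10 ^ 8 * (l : ℝ) * (Real.log (9000 * (l : ℝ))) ^ 2
      = (9 * 10 ^ 8 * (Real.log (9000 * (l : ℝ))) ^ 2) * l := by ring
    _ ≤ (9 * 10 ^ 8 * (25 * Real.sqrt (l : ℝ))) * l := by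
        apply mul_le_mul_of_nonneg_right _ hl0.le
        apply mul_le_mul_of_nonneg_left hsq (by norm_num)
    _ ≤ ((l : ℝ) / 4) * l := mul_le_mul_of_nonneg_right hmain hl0.le
    _ = (l : ℝ) ^ 2 / 4 := by ring

/-- if `l` is large and `2 ^ ((l - 1) ^ 2) < 4 T ^ 2` then the exponential bound holds -/
private theorem expT (T m : ℕ) (hm : 10 ^ 24 ≤ m) (hT : 2 ^ (m ^ 2) < 4 * T ^ 2) :
    Real.exp (2 * 10 ^ 6 * ((450 * (m + 1) : ℕ) : ℝ) *
      (Real.log (20 * ((450 * (m + 1) : ℕ) : ℝ))) ^ 2) ≤ (T : ℝ) := by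
  have hTpos : 0 < T := by
    rcases Nat.eq_zero_or_pos T with h | h
    · subst h
      simp at hT
    · exact h
  have hTR : (0 : ℝ) < T := by exact_mod_cast hTpos
  have hmR : (10 : ℝ) ^ 24 ≤ (m : ℝ) := by exact_mod_cast hm
  rw [← Real.le_log_iff_exp_le hTR]
  have hlt : (2 : ℝ) ^ (m ^ 2) < 4 * (T : ℝ) ^ 2 := by exact_mod_cast hT
  have hlog : (m : ℝ) ^ 2 * Real.log 2 < Real.log 4 + 2 * Real.log T := by
    have h1 := Real.log_lt_log (by positivity) hlt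
    rw [Real.log_pow, Real.log_mul (by norm_num) (by positivity), Real.log_pow] at h1
    push_cast at h1
    exact h1
  have hlog4 : Real.log 4 = 2 * Real.log 2 := by
    rw [show (4 : ℝ) = 2 ^ 2 by norm_num, Real.log_pow]
    norm_num
  have h2a := Real.log_two_gt_d9
  have h2b := Real.log_two_lt_d9
  have hg := growthT (m + 1) (by omega)
  have hcast : ((450 * (m + 1) : ℕ) : ℝ) = 450 * ((m + 1 : ℕ) : ℝ) := by push_cast; ring
  rw [hcast]
  have e1 : (20 : ℝ) * (450 * ((m + 1 : ℕ) : ℝ)) = 9000 * ((m + 1 : ℕ) : ℝ) := by ring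
  rw [e1]
  have e2 : (2 : ℝ) * 10 ^ 6 * (450 * ((m + 1 : ℕ) : ℝ)) = 9 * 10 ^ 8 * ((m + 1 : ℕ) : ℝ) := by ring
  rw [e2]
  refine hg.trans ?_
  have hlow : 0.69 * (m : ℝ) ^ 2 ≤ (m : ℝ) ^ 2 * Real.log 2 := by nlinarith [sq_nonneg (m : ℝ)]
  push_cast
  nlinarith [hmR]

private theorem existsL (T : ℕ) (hT : 1 ≤ T) : ∃ l : ℕ, 4 ≤ l ∧ 4 * T ^ 2 ≤ 2 ^ (l ^ 2) ∧
    (l = 4 ∨ ∃ m, l = m + 1 ∧ 2 ^ (m ^ 2) < 4 * T ^ 2) := by
  have hex : ∃ l : ℕ, 4 ≤ l ∧ 4 * T ^ 2 ≤ 2 ^ (l ^ 2) := by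
    refine ⟨T + 4, by omega, ?_⟩
    have h1 : T < 2 ^ T := Nat.lt_two_pow_self
    calc 4 * T ^ 2 ≤ 4 * (2 ^ T) ^ 2 := by
          apply Nat.mul_le_mul_left
          exact Nat.pow_le_pow_left h1.le 2
      _ = 2 ^ (2 * T + 2) := by rw [pow_add, ← pow_mul, mul_comm T 2]; ring
      _ ≤ 2 ^ ((T + 4) ^ 2) := by
          apply Nat.pow_le_pow_right (by norm_num)
          nlinarith
  have hs := Nat.find_spec hex
  refine ⟨Nat.find hex, hs.1, hs.2, ?_⟩
  by_cases h4 : Nat.find hex = 4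
  · exact Or.inl h4
  · right
    refine ⟨Nat.find hex - 1, by omega, ?_⟩
    have hmin := Nat.find_min hex (m := Nat.find hex - 1) (by omega)
    by_contra hcon
    exact hmin ⟨by omega, by omega⟩

theorem localLarge : ∃ t0 : ℕ, ∀ t : ℕ, t0 ≤ t → ∀ (V : Type) [Fintype V] [Nonempty V]
    (G : SimpleGraph V), ¬ KM G (t + 1) →
      ∃ v : V, (G.induce (insert v (G.neighborSet v))).Colorable (6 * t) := by
  obtain ⟨L0, hL0⟩ : ∃ L0 : ℕ, 10 ^ 24 < L0 := ⟨10 ^ 24 + 1, by norm_num⟩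
  refine ⟨2 ^ (L0 ^ 2) + 5, ?_⟩
  intro t ht V _ _ G hKM
  have hp0 : 0 < 2 ^ (L0 ^ 2) := Nat.pow_pos (by norm_num)
  obtain ⟨l, hl4, hl, hor⟩ := existsL (t + 1) (by omega)
  obtain ⟨v, hv1, hv2⟩ := coreT t l (by omega) hl4 hl V G hKM
  have hlL : L0 < l := by
    by_contra hcon
    push Not at hcon
    have h1 : 2 ^ (l ^ 2) ≤ 2 ^ (L0 ^ 2) :=
      Nat.pow_le_pow_right (by norm_num) (Nat.pow_le_pow_left hcon 2)
    have h2 : t + 1 ≤ 4 * (t + 1) ^ 2 := by nlinarith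
    omega
  refine ⟨v, ?_⟩
  rcases hor with h | ⟨m, hm, hm2⟩
  · exfalso
    have : (4 : ℕ) < 10 ^ 24 := by norm_num
    omega
  · have hm24 : 10 ^ 24 ≤ m := by omega
    have hexp := expT (t + 1) m hm24 hm2
    rw [hm] at hv2
    exact (hv2 hexp).mono (by omega)

theorem localAll : ∀ t : ℕ, 1 ≤ t → ∀ (V : Type) [Fintype V] [Nonempty V]
    (G : SimpleGraph V), ¬ KM G (t + 1) →
      ∃ v : V, (G.induce (insert v (G.neighborSet v))).Colorable (10 ^ 100 * t) := by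
  intro t ht V _ _ G hKM
  obtain ⟨l, hl4, hl, hor⟩ := existsL (t + 1) (by omega)
  obtain ⟨v, hv1, hv2⟩ := coreT t l ht hl4 hl V G hKM
  refine ⟨v, ?_⟩
  by_cases hbig : l ≤ 10 ^ 97
  · refine hv1.mono ?_
    calc 450 * l * (t + 1) ≤ 450 * 10 ^ 97 * (2 * t) := by
          apply Nat.mul_le_mul
          · exact Nat.mul_le_mul_left _ hbig
          · omega
      _ ≤ 10 ^ 100 * t := by
          have : 450 * 10 ^ 97 * (2 * t) = (450 * 10 ^ 97 * 2) * t := by ring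
          rw [this]
          apply Nat.mul_le_mul_right
          norm_num
  · push Not at hbig
    rcases hor with h | ⟨m, hm, hm2⟩
    · exfalso
      have : (4 : ℕ) < 10 ^ 97 := by norm_num
      omega
    · have h24 : (10 : ℕ) ^ 24 ≤ 10 ^ 97 := by norm_num
      have hm24 : 10 ^ 24 ≤ m := by omega
      have hexp := expT (t + 1) m hm24 hm2
      rw [hm] at hv2
      refine (hv2 hexp).mono ?_
      have : 10 * t ≤ 10 ^ 100 * t := Nat.mul_le_mul_right _ (by norm_num)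
      omega

end

end Pool.Agent.LHad
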